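import Pool.Agent.X63.SemiUpper2

/-!
The improved upper bound: assembling.
-/

set_option autoImplicit false

namespace Pool.Agent.X63.SU

open Pool.Agent.X63 Real Finset Classical

variable {V : Type} [Fintype V] {r b : V → ℝ} {k : ℕ}

/-- the remaining inward charges -/
noncomputable def II (r b : V → ℝ) (k : ℕ) (A B : Finset V) (u : V) : Finset V :=
  if u ∈ A then (In r b k u).filter (fun v => ¬ Bd r b k u v)
  else if u ∈ B then (In r b k u).filter (fun v => b v ≠ b u + π)
  else In r b k u

theorem II_sub (A B : Finset V) (u : V) : II r b k A B u ⊆ In r b k u := by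
  unfold II
  split_ifs
  · exact filter_subset _ _
  · exact filter_subset _ _
  · exact subset_rfl

theorem II_card (hri : Function.Injective r) (A B : Finset V) (u : V) :
    (II r b k A B u).card ≤ k + 1 :=
  (card_le_card (II_sub A B u)).trans (card_in hri u)

theorem swap_in2 {z v : V} (hz : b z < π) (hv : v ∈ In2 r b k z) (hbv : b v = b z + π)
    (hz0 : 0 ≤ b z) : z ∈ In2 r b k v := by
  obtain ⟨h1, h2, h3⟩ := mem_in2.1 hv
  have ez : opp b z = b v := by
    unfold opp
    rw [if_pos hz, hbv]
  have ev : opp b v = b z := by
    unfold opp
    rw [if_neg (by linarith), hbv]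
    ring
  refine mem_in2.2 ⟨h1.symm, ev.le, le_trans (Set.ncard_le_ncard ?_ (Set.toFinite _)) h3⟩
  rintro w ⟨w1, w2, w3⟩
  refine ⟨w2, w1, ?_⟩
  rw [ev] at w3
  rw [ez]
  exact w3.symm

theorem cov (A B : Finset V) (h0 : ∀ v, 0 ≤ b v)
    (hA : ∀ a ∈ A, ∀ w, r w < r a → b w < b a)
    (hB : ∀ z ∈ B, (∀ w, r w < r z → b w < b z) ∧ b z < π) (u v : V)
    (huv : v ∈ In r b k u) : v ∈ II r b k A B u ∨ v ∈ Out r b k u ∨ u ∈ Out r b k v ∨
      u ∈ II r b k A B v := by
  by_cases hu : u ∈ A
  · by_cases hbd : Bd r b k u v
    · right
      rcases hbd with h | h | h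
      · exact Or.inl h
      · exact Or.inr (Or.inl h)
      · right; right
        have h1 : v ∉ A := fun hv => by
          rw [in1_empty (hA v hv)] at h
          exact notMem_empty _ h
        have h2 : v ∉ B := fun hv => by
          rw [in1_empty (hB v hv).1] at h
          exact notMem_empty _ h
        unfold II
        rw [if_neg h1, if_neg h2]
        exact mem_In.2 (Or.inl h)
    · left
      unfold II
      rw [if_pos hu]
      exact mem_filter.2 ⟨huv, hbd⟩
  · by_cases hz : u ∈ B
    · obtain ⟨hz1, hz2⟩ := hB u hz
      by_cases hbv : b v = b u + π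
      · have h1 : v ∈ In2 r b k u := by
          rcases mem_In.1 huv with h | h
          · rw [in1_empty hz1] at h
            exact absurd h (notMem_empty _)
          · exact h
        have h2 := swap_in2 hz2 h1 hbv (h0 u)
        have h3 : u ∈ In r b k v := mem_In.2 (Or.inr h2)
        right
        by_cases hv : v ∈ A
        · by_cases hbd : Bd r b k v u
          · rcases hbd with h | h | h
            · exact Or.inr (Or.inl h)
            · exact Or.inl h
            · rw [in1_empty hz1] at h
              exact absurd h (notMem_empty _)
          · right; right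
            unfold II
            rw [if_pos hv]
            exact mem_filter.2 ⟨h3, hbd⟩
        · have hv' : v ∉ B := fun hv' => by
            have := (hB v hv').2
            have := h0 u
            linarith
          right; right
          unfold II
          rw [if_neg hv, if_neg hv']
          exact h3
      · left
        unfold II
        rw [if_neg hu, if_pos hz]
        exact mem_filter.2 ⟨huv, hbv⟩
    · left
      unfold II
      rw [if_neg hu, if_neg hz]
      exact huv

/-- the charges at a vertex of `A` -/
theorem II_A (hri : Function.Injective r) {A B : Finset V} {u : V} (hu : u ∈ A) (hl : π ≤ b u)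
    (hP : ∀ w, r w < r u → b w < b u) {v : V} (hv : v ∈ II r b k A B u) :
    r v < r u ∧ opp b u ≤ b v ∧ k + 1 ≤ (btw r v u).card := by
  unfold II at hv
  rw [if_pos hu] at hv
  obtain ⟨h1, h2⟩ := mem_filter.1 hv
  rcases mem_In.1 h1 with h | h
  · rw [in1_empty hP] at h
    exact absurd h (notMem_empty _)
  · exact key hri hl hP h h2

theorem exists_argmin (hri : Function.Injective r) (s : Finset V) (hs : s.Nonempty) :
    ∃ u ∈ s, ∀ w ∈ s, w ≠ u → r u < r w := by
  obtain ⟨u, hu, h⟩ := exists_min_image s r hs
  exact ⟨u, hu, fun w hw hne => lt_of_le_of_ne (h w hw) fun e => hne (hri e).symm⟩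

/-- maximal `b`, ties by minimal `r` -/
theorem exists_top (s : Finset V) (hs : s.Nonempty) :
    ∃ u ∈ s, (∀ w ∈ s, b w ≤ b u) ∧ ∀ w ∈ s, r w < r u → b w < b u := by
  obtain ⟨x, hx, hmax⟩ := exists_max_image s b hs
  obtain ⟨u, hu, hmin⟩ := exists_min_image (s.filter fun w => b w = b x) r
    ⟨x, mem_filter.2 ⟨hx, rfl⟩⟩
  obtain ⟨hu1, hu2⟩ := mem_filter.1 hu
  refine ⟨u, hu1, fun w hw => by rw [hu2]; exact hmax w hw, fun w hw hlt => ?_⟩
  refine lt_of_le_of_ne (by rw [hu2]; exact hmax w hw) fun e => ?_
  exact absurd (hmin w (mem_filter.2 ⟨hw, by rw [e, hu2]⟩)) (not_le.2 hlt)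

/-- **The core**: a covering family of inward charges with a deficit. -/
theorem core [Nonempty V] (hri : Function.Injective r) (h0 : ∀ v, 0 ≤ b v) :
    ∃ I : V → Finset V,
      (∀ u v, v ∈ In r b k u → v ∈ I u ∨ v ∈ Out r b k u ∨ u ∈ Out r b k v ∨ u ∈ I v) ∧
      ∑ u, (I u).card + min (k + 1) (5 * k + 5 - Fintype.card V) ≤ Fintype.card V * (k + 1) := by
  have hpi := Real.pi_pos
  by_cases hlong : ∃ v, π ≤ b v
  swap
  · -- no long arc
    push Not at hlong
    obtain ⟨z, _, hz1, hz2⟩ := exists_top (r := r) (b := b) (univ : Finset V) univ_nonempty
    have hz : In r b k z = ∅ := by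
      rw [eq_empty_iff_forall_notMem]
      intro v hv
      rcases mem_In.1 hv with h | h
      · rw [in1_empty fun w hw => hz2 w (mem_univ _) hw] at h
        exact absurd h (notMem_empty _)
      · have h1 := (mem_in2.1 h).2.1
        unfold opp at h1
        rw [if_pos (hlong z)] at h1
        have := hlong v
        have := h0 z
        linarith
    refine ⟨In r b k, fun u v h => Or.inl h, ?_⟩
    have := sum_one (k := k) (fun u => (In r b k u).card) (fun u => card_in hri u) z
      (by simp only [hz, card_empty])
    omega
  · obtain ⟨x, hx⟩ := hlong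
    obtain ⟨l, hl, hlmin⟩ := exists_argmin (r := r) hri (univ.filter fun v => π ≤ b v)
      ⟨x, mem_filter.2 ⟨mem_univ _, hx⟩⟩
    have hll : π ≤ b l := (mem_filter.1 hl).2
    have hlin : ∀ w, r w < r l → b w < π := by
      intro w hw
      by_contra hc
      have h1 : w ≠ l := fun e => by rw [e] at hw; exact lt_irrefl _ hw
      have := hlmin w (mem_filter.2 ⟨mem_univ _, not_lt.1 hc⟩) h1
      linarith
    have hlP : ∀ w, r w < r l → b w < b l := fun w hw => (hlin w hw).trans_le hll
    -- the simple case
    have simple : II r b k {l} ∅ l = ∅ → ∃ I : V → Finset V,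
        (∀ u v, v ∈ In r b k u → v ∈ I u ∨ v ∈ Out r b k u ∨ u ∈ Out r b k v ∨ u ∈ I v) ∧
        ∑ u, (I u).card + min (k + 1) (5 * k + 5 - Fintype.card V) ≤
          Fintype.card V * (k + 1) := by
      intro hemp
      refine ⟨II r b k {l} ∅, cov {l} ∅ h0 ?_ ?_, ?_⟩
      · intro a ha
        rw [mem_singleton.1 ha]
        exact hlP
      · intro z hz
        exact absurd hz (notMem_empty _)
      · have := sum_one (k := k) (fun u => (II r b k {l} ∅ u).card)
          (fun u => II_card hri _ _ u) l (by simp only [hemp, card_empty])
        omega
    -- the arcs inside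
    set Q : Finset V := univ.filter fun w => r w < r l with hQ
    by_cases hq : Q.card ≤ k + 1
    · apply simple
      by_contra hne
      have hne' := nonempty_iff_ne_empty.2 hne
      have h1 := cnt (k := k) (r := r) (u := l) (X := Q) (Y := II r b k {l} ∅ l)
        (fun v hv => mem_filter.2 ⟨mem_univ _,
          (II_A hri (mem_singleton_self l) hll hlP hv).1⟩)
        (fun v _ w _ h => mem_filter.2 ⟨mem_univ _, h⟩)
        (fun v hv => by
          have := II_A hri (mem_singleton_self l) hll hlP hv
          exact ⟨this.1, this.2.2⟩) hne'
      have h2 := hne'.card_pos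
      omega
    · have hQne : Q.Nonempty := by
        rw [← card_pos]
        omega
      obtain ⟨z, hzQ, hz1, hz2⟩ := exists_top (r := r) (b := b) Q hQne
      have hzl : r z < r l := (mem_filter.1 hzQ).2
      have hzs : b z < π := hlin z hzl
      have hzP : ∀ w, r w < r z → b w < b z := fun w hw =>
        hz2 w (mem_filter.2 ⟨mem_univ _, hw.trans hzl⟩) hw
      have hIz : ∀ A B : Finset V, z ∉ A → z ∈ B → ∀ v ∈ II r b k A B z, b z + π < b v := by
        intro A B hA hB v hv
        unfold II at hv
        rw [if_neg hA, if_pos hB] at hv
        obtain ⟨h1, h2⟩ := mem_filter.1 hv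
        rcases mem_In.1 h1 with h | h
        · rw [in1_empty hzP] at h
          exact absurd h (notMem_empty _)
        · have h3 := (mem_in2.1 h).2.1
          unfold opp at h3
          rw [if_pos hzs] at h3
          exact lt_of_le_of_ne h3 (Ne.symm h2)
      set J : Finset V := univ.filter fun w => b z + π < b w with hJ
      by_cases hJe : J = ∅
      · have hemp : II r b k ∅ {z} z = ∅ := by
          rw [eq_empty_iff_forall_notMem]
          intro v hv
          have h1 := hIz ∅ {z} (notMem_empty _) (mem_singleton_self z) v hv
          have h2 : v ∈ J := mem_filter.2 ⟨mem_univ _, h1⟩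
          rw [hJe] at h2
          exact notMem_empty _ h2
        refine ⟨II r b k ∅ {z}, cov ∅ {z} h0 ?_ ?_, ?_⟩
        · intro a ha
          exact absurd ha (notMem_empty _)
        · intro w hw
          rw [mem_singleton.1 hw]
          exact ⟨hzP, hzs⟩
        · have := sum_one (k := k) (fun u => (II r b k ∅ {z} u).card)
            (fun u => II_card hri _ _ u) z (by simp only [hemp, card_empty])
          omega
      · obtain ⟨y, hyJ, hymin⟩ := exists_argmin (r := r) hri J (nonempty_iff_ne_empty.2 hJe)
        have hyb : b z + π < b y := (mem_filter.1 hyJ).2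
        have hyin : ∀ w, r w < r y → b w ≤ b z + π := by
          intro w hw
          by_contra hc
          have h1 : w ≠ y := fun e => by rw [e] at hw; exact lt_irrefl _ hw
          have := hymin w (mem_filter.2 ⟨mem_univ _, not_le.1 hc⟩) h1
          linarith
        have hyP : ∀ w, r w < r y → b w < b y := fun w hw => (hyin w hw).trans_lt hyb
        have hyl : π ≤ b y := by have := h0 z; linarith
        by_cases hyeq : y = l
        · -- `y = l`
          apply simple
          rw [eq_empty_iff_forall_notMem]
          intro v hv
          obtain ⟨h1, h2, _⟩ := II_A hri (mem_singleton_self l) hll hlP hv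
          unfold opp at h2
          rw [if_neg (not_lt.2 hll)] at h2
          have h3 := hz1 v (mem_filter.2 ⟨mem_univ _, h1⟩)
          rw [hyeq] at hyb
          linarith
        · have hly : r l < r y := hlmin y (mem_filter.2 ⟨mem_univ _, hyl⟩) hyeq
          have hzne : z ≠ l := fun e => by rw [e] at hzl; exact lt_irrefl _ hzl
          have hzy : z ≠ y := fun e => by rw [e] at hzs; linarith
          have hzA : z ∉ ({l, y} : Finset V) := by
            rw [mem_insert, mem_singleton]
            rintro (h | h)
            · exact hzne h
            · exact hzy h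
          have hlA : l ∈ ({l, y} : Finset V) := by simp
          have hyA : y ∈ ({l, y} : Finset V) := by simp
          refine ⟨II r b k {l, y} {z}, cov {l, y} {z} h0 ?_ ?_, ?_⟩
          · intro a ha
            rw [mem_insert, mem_singleton] at ha
            rcases ha with ha | ha
            · rw [ha]; exact hlP
            · rw [ha]; exact hyP
          · intro w hw
            rw [mem_singleton.1 hw]
            exact ⟨hzP, hzs⟩
          · set X : Finset V := univ.filter fun w => r l ≤ r w ∧ r w < r y with hX
            have c1 : (II r b k {l, y} {z} l).card = 0 ∨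
                (II r b k {l, y} {z} l).card + (k + 1) ≤ Q.card := by
              rcases (II r b k {l, y} {z} l).eq_empty_or_nonempty with h | h
              · left; rw [h, card_empty]
              · right
                exact cnt (k := k) (r := r) (u := l) (X := Q)
                  (fun v hv => mem_filter.2 ⟨mem_univ _, (II_A hri hlA hll hlP hv).1⟩)
                  (fun v _ w _ h => mem_filter.2 ⟨mem_univ _, h⟩)
                  (fun v hv => by
                    have := II_A hri hlA hll hlP hv
                    exact ⟨this.1, this.2.2⟩) h
            have c2 : (II r b k {l, y} {z} y).card = 0 ∨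
                (II r b k {l, y} {z} y).card + (k + 1) ≤ X.card := by
              rcases (II r b k {l, y} {z} y).eq_empty_or_nonempty with h | h
              · left; rw [h, card_empty]
              · right
                refine cnt (k := k) (r := r) (u := y) (X := X) ?_ ?_ ?_ h
                · intro v hv
                  obtain ⟨h1, h2, _⟩ := II_A hri hyA hyl hyP hv
                  refine mem_filter.2 ⟨mem_univ _, ?_, h1⟩
                  by_contra hc
                  have h3 := hz1 v (mem_filter.2 ⟨mem_univ _, not_le.1 hc⟩)
                  unfold opp at h2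
                  rw [if_neg (not_lt.2 hyl)] at h2
                  linarith
                · intro v hv w h1 h2
                  exact mem_filter.2 ⟨mem_univ _, (mem_filter.1 hv).2.1.trans h1.le, h2⟩
                · intro v hv
                  have := II_A hri hyA hyl hyP hv
                  exact ⟨this.1, this.2.2⟩
            have c3 : (II r b k {l, y} {z} z).card ≤ J.card := by
              apply card_le_card
              intro v hv
              exact mem_filter.2 ⟨mem_univ _, hIz _ _ hzA (mem_singleton_self z) v hv⟩
            have hQX : Disjoint Q X := by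
              rw [Finset.disjoint_left]
              intro w h1 h2
              exact absurd (mem_filter.1 h1).2 (not_lt.2 (mem_filter.1 h2).2.1)
            have hQJ : Disjoint (Q ∪ X) J := by
              rw [Finset.disjoint_left]
              intro w h1 h2
              have h3 : r w < r y := by
                rcases mem_union.1 h1 with h | h
                · exact (mem_filter.1 h).2.trans hly
                · exact (mem_filter.1 h).2.2
              have h4 := hyin w h3
              have h5 := (mem_filter.1 h2).2
              linarith
            have c4 : Q.card + X.card + J.card ≤ Fintype.card V := by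
              rw [← card_union_of_disjoint hQX, ← card_union_of_disjoint hQJ]
              exact card_le_univ _
            have c5 := sum_three (k := k) (fun u => (II r b k {l, y} {z} u).card)
              (fun u => II_card hri _ _ u) (Ne.symm hyeq) hzne.symm hzy.symm
            have d1 := II_card (b := b) (k := k) hri {l, y} {z} l
            have d2 := II_card (b := b) (k := k) hri {l, y} {z} y
            have d3 := II_card (b := b) (k := k) hri {l, y} {z} z
            generalize Fintype.card V * (k + 1) = N at c5 ⊢
            omega

/-- **The improved upper bound.** -/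
theorem upper' (G : SimpleGraph V) (hG : IsSemiArcVis k G) (hn : k + 1 ≤ Fintype.card V) :
    2 * G.edgeSet.ncard + (k + 1) * (k + 2) + 2 * min (k + 1) (5 * k + 5 - Fintype.card V) ≤
      4 * (Fintype.card V * (k + 1)) := by
  obtain ⟨r, b, hrb, hdis, hadj⟩ := hG
  have hr : ∀ v, 0 < r v := fun v => (hrb v).1
  have hb : ∀ v, b v < 2 * π := fun v => (hrb v).2.2
  have hri : Function.Injective r := by
    intro u v huv
    by_contra hne
    have h1 := hdis u v hne
    rw [Set.disjoint_left] at h1
    exact h1 (a := rayPt (r u) 0) ⟨0, le_rfl, (hrb u).2.1, rfl⟩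
      ⟨0, le_rfl, (hrb v).2.1, by rw [huv]⟩
  have : Nonempty V := by
    rw [← Fintype.card_pos_iff]
    omega
  obtain ⟨I, hcov, hI⟩ := core (k := k) (b := b) hri fun v => (hrb v).2.1
  have h1 := edges_le hb G (fun u v huv => rel_of_vis hr hb ((hadj u v huv.ne).1 huv)) I hcov
  have h2 := sum_out (b := b) (k := k) hri hn
  generalize Fintype.card V * (k + 1) = N at *
  omega

end Pool.Agent.X63.SU
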