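import Pool.Agent.X63.RectDefs

/-!
A rectangle visibility graph on `n` vertices has at most `6 n` edges.
-/

set_option autoImplicit false

namespace Pool.Agent.X63.RB

open Pool.Agent.X63

variable {V : Type} (R : V → Rect)

/-- direct vertical visibility at abscissa `x` -/
def VS (u v : V) (x : ℝ) : Prop :=
  (R u).x1 ≤ x ∧ x ≤ (R u).x2 ∧ (R v).x1 ≤ x ∧ x ≤ (R v).x2 ∧ (R u).y2 < (R v).y1 ∧
    ∀ w, w ≠ u → w ≠ v → (R w).x1 ≤ x → x ≤ (R w).x2 →
      (R w).y2 < (R u).y2 ∨ (R v).y1 < (R w).y1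

theorem sep_of_disj (hR : PwDisjoint R) (u v : V) (huv : u ≠ v) (x : ℝ) (h1 : (R u).x1 ≤ x)
    (h2 : x ≤ (R u).x2) (h3 : (R v).x1 ≤ x) (h4 : x ≤ (R v).x2) :
    (R u).y2 < (R v).y1 ∨ (R v).y2 < (R u).y1 := by
  by_contra hc
  push Not at hc
  obtain ⟨c1, c2⟩ := hc
  have hd := hR u v huv
  rw [Set.disjoint_left] at hd
  have hu := (R u).hy
  have hv := (R v).hy
  have : (x, max (R u).y1 (R v).y1) ∈ (R u).pts :=
    ⟨h1, h2, le_max_left _ _, max_le hu.le c1⟩
  exact hd this ⟨h3, h4, le_max_right _ _, max_le c2 hv.le⟩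

/-- `VS` determines the upper rectangle -/
theorem VS_upper (u v v' : V) (x : ℝ) (h : VS R u v x) (h' : VS R u v' x) :
    v = v' := by
  by_contra hne
  obtain ⟨a1, a2, a3, a4, a5, a6⟩ := h
  obtain ⟨b1, b2, b3, b4, b5, b6⟩ := h'
  have hvu : v ≠ u := by
    rintro rfl
    have := (R v).hy
    linarith
  have hvu' : v' ≠ u := by
    rintro rfl
    have := (R v').hy
    linarith
  have c1 := a6 v' hvu' (Ne.symm hne) b3 b4
  have c2 := b6 v hvu hne a3 a4
  have hy := (R v).hy
  have hy' := (R v').hy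
  rcases c1 with c1 | c1 <;> rcases c2 with c2 | c2 <;> linarith

/-- the pair of rectangles just below and above a rectangle right after its right end -/
theorem VS_pair (u v u' v' : V) (x y : ℝ) (h : VS R u v x) (h' : VS R u' v' x)
    (h1 : (R u).y2 < y) (h2 : y < (R v).y1) (h3 : (R u').y2 < y) (h4 : y < (R v').y1) :
    u = u' ∧ v = v' := by
  obtain ⟨a1, a2, a3, a4, a5, a6⟩ := h
  obtain ⟨b1, b2, b3, b4, b5, b6⟩ := h'
  have key : u = u' := by
    by_contra hne
    have hu'v : u' ≠ v := by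
      rintro rfl
      have := (R u').hy
      linarith
    have huv' : u ≠ v' := by
      rintro rfl
      have := (R u).hy
      linarith
    have c1 := a6 u' (Ne.symm hne) hu'v b1 b2
    have c2 := b6 u hne huv' a1 a2
    have hy := (R u).hy
    have hy' := (R u').hy
    rcases c1 with c1 | c1 <;> rcases c2 with c2 | c2 <;> linarith
  subst key
  exact ⟨rfl, VS_upper R u v v' x ⟨a1, a2, a3, a4, a5, a6⟩ ⟨b1, b2, b3, b4, b5, b6⟩⟩

theorem VS_lower (u u' v : V) (x : ℝ) (h : VS R u v x) (h' : VS R u' v x) :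
    u = u' := by
  have h1 := h.2.2.2.2.1
  have h2 := h'.2.2.2.2.1
  have hm : max (R u).y2 (R u').y2 < (R v).y1 := max_lt h1 h2
  have hm1 := le_max_left (R u).y2 (R u').y2
  have hm2 := le_max_right (R u).y2 (R u').y2
  exact (VS_pair R u v u' v x ((max (R u).y2 (R u').y2 + (R v).y1) / 2) h h' (by linarith)
    (by linarith) (by linarith) (by linarith)).1

/-- a band gives visibility on a whole interval, which extends to the left up to an event:
the left side of one of the two rectangles, or the right side of a third one lying between -/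
theorem band_event [Finite V] (hR : PwDisjoint R) (u v : V) (huv : u ≠ v) (h : VBand R u v) :
    ∃ e b : ℝ, e < b ∧ (∀ x, e < x → x < b → VS R u v x) ∧
      (e = (R u).x1 ∨ e = (R v).x1 ∨ ∃ w, e = (R w).x2 ∧ (R u).y2 < (R w).y1 ∧
        (R w).y2 < (R v).y1) := by
  classical
  have := Fintype.ofFinite V
  obtain ⟨a, b, c, d, hab, hcd, hsides, hfree⟩ := h
  have hab' : a ≤ b := hab.le
  obtain ⟨⟨ua1, ua2, ua3, ua4⟩, ⟨va1, va2, va3, va4⟩⟩ := hsides a le_rfl hab'
  obtain ⟨⟨ub1, ub2, ub3, ub4⟩, ⟨vb1, vb2, vb3, vb4⟩⟩ := hsides b hab' le_rfl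
  simp only at ua1 ua2 ua3 ua4 va1 va2 va3 va4 ub1 ub2 ub3 ub4 vb1 vb2 vb3 vb4
  have hlt : (R u).y2 < (R v).y1 := by
    rcases sep_of_disj R hR u v huv a ua1 ua2 va1 va2 with h | h
    · exact h
    · exfalso; linarith
  -- blockers
  let B : Finset V := Finset.univ.filter fun w => w ≠ u ∧ w ≠ v ∧ (R w).x2 < a ∧
    (R u).y2 ≤ (R w).y2 ∧ (R w).y1 ≤ (R v).y1
  let S : Finset ℝ := insert (R u).x1 (insert (R v).x1 (B.image fun w => (R w).x2))
  have hS : S.Nonempty := ⟨_, Finset.mem_insert_self _ _⟩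
  let e := S.max' hS
  have heS : e ∈ S := Finset.max'_mem _ _
  have hle : ∀ s ∈ S, s ≤ e := fun s hs => Finset.le_max' _ _ hs
  have hea : e ≤ a := by
    apply Finset.max'_le
    intro s hs
    simp only [S, Finset.mem_insert, Finset.mem_image] at hs
    rcases hs with rfl | rfl | ⟨w, hw, rfl⟩
    · exact ua1
    · exact va1
    · simp only [B, Finset.mem_filter] at hw
      exact hw.2.2.2.1.le
  have hue : (R u).x1 ≤ e := hle _ (by simp [S])
  have hve : (R v).x1 ≤ e := hle _ (by simp [S])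
  refine ⟨e, b, lt_of_le_of_lt hea hab, ?_, ?_⟩
  · intro x hx1 hx2
    refine ⟨by linarith, by linarith, by linarith, by linarith, hlt, ?_⟩
    intro w hwu hwv hw1 hw2
    by_contra hc
    push Not at hc
    obtain ⟨c1, c2⟩ := hc
    by_cases hwa : (R w).x2 < a
    · have : w ∈ B := by
        simp only [B, Finset.mem_filter, Finset.mem_univ, true_and]
        exact ⟨hwu, hwv, hwa, c1, c2⟩
      have := hle _ (show (R w).x2 ∈ S by
        simp only [S, Finset.mem_insert, Finset.mem_image]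
        exact Or.inr (Or.inr ⟨w, this, rfl⟩))
      linarith
    · push Not at hwa
      -- the rectangle meets the band
      have hx' : a ≤ max a x := le_max_left _ _
      have hx'' : max a x ≤ b := max_le hab' hx2.le
      have hy := (R w).hy
      have hwy : (max a x, max (R u).y2 (R w).y1) ∈ (R w).pts := by
        refine ⟨le_trans hw1 (le_max_right _ _), max_le hwa hw2, le_max_right _ _,
          max_le c1 hy.le⟩
      refine hfree w hwu hwv _ _ hx' hx'' ?_ ?_ hwy
      · exact le_trans ua4 (le_max_left _ _)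
      · exact max_le (by linarith) (by linarith)
  · simp only [S, Finset.mem_insert, Finset.mem_image] at heS
    rcases heS with heS | heS | ⟨w, hw, heS⟩
    · exact Or.inl heS
    · exact Or.inr (Or.inl heS)
    · right; right
      simp only [B, Finset.mem_filter, Finset.mem_univ, true_and] at hw
      obtain ⟨hwu, hwv, hwa, w1, w2⟩ := hw
      have hwx := (R w).hx
      have hwy := (R w).hy
      refine ⟨w, heS.symm, ?_, ?_⟩
      · rcases sep_of_disj R hR u w (Ne.symm hwu) e hue (by linarith) (by linarith)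
          (by linarith) with h | h
        · exact h
        · exfalso
          have := (R u).hy
          linarith
      · rcases sep_of_disj R hR w v hwv e (by linarith) (by linarith) hve
          (by linarith) with h | h
        · exact h
        · exfalso
          have := (R v).hy
          linarith

/-- the number of vertically visible ordered pairs is at most `3 n` -/
theorem card_vband [Fintype V] [DecidableEq V] (hR : PwDisjoint R) (S : Finset (V × V))
    (hS : ∀ p ∈ S, p.1 ≠ p.2 ∧ VBand R p.1 p.2) : S.card ≤ 3 * Fintype.card V := by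
  classical
  have key : ∀ p ∈ S, ∃ t : Fin 3 × V, ∃ e b : ℝ, e < b ∧ (∀ x, e < x → x < b → VS R p.1 p.2 x) ∧
      ((t = (0, p.1) ∧ e = (R p.1).x1) ∨ (t = (1, p.2) ∧ e = (R p.2).x1) ∨
        (t.1 = 2 ∧ e = (R t.2).x2 ∧ (R p.1).y2 < (R t.2).y1 ∧ (R t.2).y2 < (R p.2).y1)) := by
    intro p hp
    obtain ⟨hne, hb⟩ := hS p hp
    obtain ⟨e, b, heb, hvs, hev⟩ := band_event R hR p.1 p.2 hne hb
    rcases hev with h | h | ⟨w, h1, h2, h3⟩
    · exact ⟨(0, p.1), e, b, heb, hvs, Or.inl ⟨rfl, h⟩⟩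
    · exact ⟨(1, p.2), e, b, heb, hvs, Or.inr (Or.inl ⟨rfl, h⟩)⟩
    · exact ⟨(2, w), e, b, heb, hvs, Or.inr (Or.inr ⟨rfl, h1, h2, h3⟩)⟩
  rcases S.eq_empty_or_nonempty with rfl | ⟨p0, _⟩
  · simp
  have : Nonempty (Fin 3 × V) := ⟨(0, p0.1)⟩
  choose! f hf using key
  have hinj : Set.InjOn f S := by
    intro p hp q hq hpq
    obtain ⟨e, b, heb, hvs, hev⟩ := hf p hp
    obtain ⟨e', b', heb', hvs', hev'⟩ := hf q hq
    rw [← hpq] at hev'
    have hcommon : ∀ (he : e = e'), ∃ x, VS R p.1 p.2 x ∧ VS R q.1 q.2 x := by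
      intro he
      refine ⟨(e + min b b') / 2, hvs _ ?_ ?_, hvs' _ ?_ ?_⟩
      · have : e < min b b' := lt_min heb (he ▸ heb')
        linarith
      · have : e < min b b' := lt_min heb (he ▸ heb')
        have := min_le_left b b'
        linarith
      · have : e < min b b' := lt_min heb (he ▸ heb')
        linarith
      · have : e < min b b' := lt_min heb (he ▸ heb')
        have := min_le_right b b'
        linarith
    have n01 : ∀ a b : V, ((0 : Fin 3), a) ≠ (1, b) := by
      intro a b h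
      have := (Prod.mk.inj h).1
      exact absurd this (by decide)
    have n02 : (0 : Fin 3) ≠ 2 := by decide
    have n12 : (1 : Fin 3) ≠ 2 := by decide
    rcases hev with ⟨h1, h2⟩ | ⟨h1, h2⟩ | ⟨h1, h2, h3, h4⟩ <;>
      rcases hev' with ⟨g1, g2⟩ | ⟨g1, g2⟩ | ⟨g1, g2, g3, g4⟩
    · rw [h1] at g1
      have hq1 : p.1 = q.1 := (Prod.mk.inj g1).2
      obtain ⟨x, hx, hx'⟩ := hcommon (by rw [h2, g2, hq1])
      rw [← hq1] at hx'
      exact Prod.ext hq1 (VS_upper R _ _ _ x hx hx')
    · rw [h1] at g1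
      exact absurd g1 (n01 _ _)
    · rw [h1] at g1
      exact absurd g1 n02
    · rw [h1] at g1
      exact absurd g1.symm (n01 _ _)
    · rw [h1] at g1
      have hq2 : p.2 = q.2 := (Prod.mk.inj g1).2
      obtain ⟨x, hx, hx'⟩ := hcommon (by rw [h2, g2, hq2])
      rw [← hq2] at hx'
      exact Prod.ext (VS_lower R _ _ _ x hx hx') hq2
    · rw [h1] at g1
      exact absurd g1 n12
    · rw [g1] at h1
      exact absurd h1 n02
    · rw [g1] at h1
      exact absurd h1 n12
    · obtain ⟨x, hx, hx'⟩ := hcommon (by rw [h2, g2])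
      have hy := (R (f p).2).hy
      obtain ⟨r1, r2⟩ := VS_pair R _ _ _ _ x (R (f p).2).y1 hx hx' h3 (by linarith) g3
        (by linarith)
      exact Prod.ext r1 r2
  have := Finset.card_le_card_of_injOn f (t := Finset.univ) (fun _ _ => Finset.mem_coe.mpr (Finset.mem_univ _)) hinj
  rw [Finset.card_univ, Fintype.card_prod, Fintype.card_fin] at this
  exact this

/-- reflection exchanging the two coordinates -/
def flipR (A : Rect) : Rect := ⟨A.y1, A.y2, A.x1, A.x2, A.hy, A.hx⟩

theorem flip_disj (hR : PwDisjoint R) : PwDisjoint (fun v => flipR (R v)) := by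
  intro u v huv
  have := hR u v huv
  rw [Set.disjoint_left] at this ⊢
  rintro p ⟨a1, a2, a3, a4⟩ ⟨b1, b2, b3, b4⟩
  exact this (a := (p.2, p.1)) ⟨a3, a4, a1, a2⟩ ⟨b3, b4, b1, b2⟩

theorem flip_band (u v : V) (h : HBand R u v) : VBand (fun v => flipR (R v)) u v := by
  obtain ⟨a, b, c, d, hab, hcd, hs, hf⟩ := h
  refine ⟨a, b, c, d, hab, hcd, ?_, ?_⟩
  · intro x h1 h2
    obtain ⟨⟨a1, a2, a3, a4⟩, ⟨b1, b2, b3, b4⟩⟩ := hs x h1 h2
    exact ⟨⟨a3, a4, a1, a2⟩, ⟨b3, b4, b1, b2⟩⟩
  · rintro w hwu hwv x y h1 h2 h3 h4 ⟨a1, a2, a3, a4⟩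
    exact hf w hwu hwv y x h3 h4 h1 h2 ⟨a3, a4, a1, a2⟩

/-- A rectangle visibility graph on `n` vertices has at most `6 n` edges. -/
theorem rvg_bound [Fintype V] (G : SimpleGraph V) (h : IsRVG G) :
    G.edgeSet.ncard ≤ 6 * Fintype.card V := by
  classical
  obtain ⟨R, hR, hadj⟩ := h
  let S1 : Finset (V × V) := Finset.univ.filter fun p => p.1 ≠ p.2 ∧ VBand R p.1 p.2
  let S2 : Finset (V × V) := Finset.univ.filter fun p => p.1 ≠ p.2 ∧ HBand R p.1 p.2
  have c1 : S1.card ≤ 3 * Fintype.card V := card_vband R hR S1 (by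
    intro p hp
    simpa [S1] using hp)
  have c2 : S2.card ≤ 3 * Fintype.card V := card_vband (fun v => flipR (R v)) (flip_disj R hR) S2 (by
    intro p hp
    have : p.1 ≠ p.2 ∧ HBand R p.1 p.2 := by simpa [S2] using hp
    exact ⟨this.1, flip_band R _ _ this.2⟩)
  have hsub : G.edgeSet ⊆ ((S1 ∪ S2).image fun p => s(p.1, p.2) : Finset (Sym2 V)) := by
    intro e he
    induction e using Sym2.ind with
    | _ u v =>
      rw [SimpleGraph.mem_edgeSet] at he
      have hne := he.ne
      rw [Finset.mem_coe, Finset.mem_image]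
      rcases (hadj u v hne).mp he with h | h | h | h
      · exact ⟨(u, v), by simp [S1, S2, hne, h], rfl⟩
      · exact ⟨(v, u), by simp [S1, S2, hne.symm, h], Sym2.eq_swap⟩
      · exact ⟨(u, v), by simp [S1, S2, hne, h], rfl⟩
      · exact ⟨(v, u), by simp [S1, S2, hne.symm, h], Sym2.eq_swap⟩
  calc G.edgeSet.ncard ≤ ((S1 ∪ S2).image fun p => s(p.1, p.2) : Finset (Sym2 V)).card := by
        rw [← Set.ncard_coe_finset]
        exact Set.ncard_le_ncard hsub (Finset.finite_toSet _)
    _ ≤ (S1 ∪ S2).card := Finset.card_image_le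
    _ ≤ S1.card + S2.card := Finset.card_union_le _ _
    _ ≤ 6 * Fintype.card V := by omega

end Pool.Agent.X63.RB
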