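import Pool.Agent.X63.ArcComplete

/-!
`K_{5k+6}` is an arc `k`-visibility graph: the visibilities.
-/

set_option autoImplicit false

namespace Pool.Agent.X63.AC

open Pool.Agent.X63 Pool.Agent.X63.SA Real

theorem vis_lt (k : ℕ) (u v : Fin (5 * k + 6)) (huv : u < v) : RadVis (AA k) k u v := by
  have huv' : u.val < v.val := huv
  have hvl := v.isLt
  have hul := u.isLt
  have pos : ∀ t a b : ℕ, t < MM k → AP k u.val t → AP k v.val t → b ≤ a + k →
      (∀ w : ℕ, u.val < w → w < v.val → AP k w t → a ≤ w ∧ w < b) → RadVis (AA k) k u v :=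
    fun t a b ht hu hv hab hc => vis_pos k u v t a b ht huv hu hv hab hc
  have neg : ∀ t a b : ℕ, t < MM k → AN k u.val t → AN k v.val t → b ≤ a + k →
      (∀ w : ℕ, u.val < w → w < v.val → AN k w t → a ≤ w ∧ w < b) → RadVis (AA k) k u v :=
    fun t a b ht hu hv hab hc => vis_neg k u v t a b ht huv hu hv hab hc
  have pn : ∀ t a b : ℕ, t < MM k → AP k u.val t → AN k v.val t → b ≤ a + k →
      (∀ w : ℕ, w ≠ u.val → w ≠ v.val → ((w < u.val ∧ AP k w t) ∨ (w < v.val ∧ AN k w t)) →
        a ≤ w ∧ w < b) → RadVis (AA k) k u v :=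
    fun t a b ht hu hv hab hc => vis_cross k u v t a b ht hu hv hab hc
  have np : ∀ t a b : ℕ, t < MM k → AP k v.val t → AN k u.val t → b ≤ a + k →
      (∀ w : ℕ, w ≠ v.val → w ≠ u.val → ((w < v.val ∧ AP k w t) ∨ (w < u.val ∧ AN k w t)) →
        a ≤ w ∧ w < b) → RadVis (AA k) k u v :=
    fun t a b ht hu hv hab hc => SA.RadVis.symm' (vis_cross k v u t a b ht hu hv hab hc)
  generalize u.val = x at *
  generalize v.val = y at *
  have cx := cases k x
  have cy := cases k y
  simp only [AP, AN, MM] at pos neg pn np
  rcases Nat.lt_or_ge x (k + 1) with gx | gx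
  · rcases Nat.lt_or_ge y (k + 1) with gy | gy
    · -- (0, 0)
      refine neg (3 * (k + 1) + 1 + y) (x + 1) y (by omega) (by omega) (by omega) (by omega) ?_
      intro w h1 h2 _
      omega
    rcases Nat.lt_or_ge y (2 * (k + 1)) with gy' | gy'
    · -- (0, 1)
      refine neg (3 * (k + 1) + 1 + x) (k + 1) y (by omega) (by omega) (by omega) (by omega) ?_
      intro w h1 h2 h3
      have cw := cases k w
      omega
    rcases Nat.lt_or_ge y (3 * (k + 1)) with gy'' | gy''
    · -- (0, 2)
      refine np (9 * (k + 1) - y) 0 x (by omega) (by omega) (by omega) (by omega) ?_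
      intro w h1 h2 h3
      have cw := cases k w
      omega
    rcases Nat.lt_or_ge y (4 * (k + 1)) with gy3 | gy3
    · -- (0, 3)
      refine np (8 * (k + 1) - y) 0 x (by omega) (by omega) (by omega) (by omega) ?_
      intro w h1 h2 h3
      have cw := cases k w
      omega
    rcases Nat.lt_or_ge y (5 * (k + 1)) with gy4 | gy4
    · -- (0, 4)
      refine neg (8 * (k + 1) - 1 - x) (4 * (k + 1)) y (by omega) (by omega) (by omega)
        (by omega) ?_
      intro w h1 h2 h3
      have cw := cases k w
      omega
    · -- (0, 5)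
      refine np (3 * (k + 1) + 1 + x) 0 x (by omega) (by omega) (by omega) (by omega) ?_
      intro w h1 h2 h3
      have cw := cases k w
      omega
  rcases Nat.lt_or_ge x (2 * (k + 1)) with gx' | gx'
  · rcases Nat.lt_or_ge y (2 * (k + 1)) with gy' | gy'
    · -- (1, 1)
      refine neg (y - (k + 1)) (x + 1) y (by omega) (by omega) (by omega) (by omega) ?_
      intro w h1 h2 _
      omega
    rcases Nat.lt_or_ge y (3 * (k + 1)) with gy'' | gy''
    · -- (1, 2)
      refine neg (x - (k + 1)) (2 * (k + 1)) y (by omega) (by omega) (by omega) (by omega) ?_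
      intro w h1 h2 h3
      have cw := cases k w
      omega
    rcases Nat.lt_or_ge y (4 * (k + 1)) with gy3 | gy3
    · -- (1, 3)
      refine neg (y - (k + 1) - 1) (x + 1) (2 * (k + 1)) (by omega) (by omega) (by omega)
        (by omega) ?_
      intro w h1 h2 h3
      have cw := cases k w
      omega
    rcases Nat.lt_or_ge y (5 * (k + 1)) with gy4 | gy4
    · -- (1, 4)
      refine neg (7 * (k + 1) - 1 - x) (4 * (k + 1)) y (by omega) (by omega) (by omega)
        (by omega) ?_
      intro w h1 h2 h3
      have cw := cases k w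
      omega
    · -- (1, 5)
      refine np (3 * (k + 1)) (k + 1) x (by omega) (by omega) (by omega) (by omega) ?_
      intro w h1 h2 h3
      have cw := cases k w
      omega
  rcases Nat.lt_or_ge x (3 * (k + 1)) with gx'' | gx''
  · rcases Nat.lt_or_ge y (3 * (k + 1)) with gy'' | gy''
    · -- (2, 2)
      refine pos (9 * (k + 1) - x) (x + 1) y (by omega) (by omega) (by omega) (by omega) ?_
      intro w h1 h2 _
      omega
    rcases Nat.lt_or_ge y (4 * (k + 1)) with gy3 | gy3
    · -- (2, 3)
      refine neg (4 * (k + 1) - 2 - x) (3 * (k + 1)) y (by omega) (by omega) (by omega)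
        (by omega) ?_
      intro w h1 h2 h3
      have cw := cases k w
      omega
    rcases Nat.lt_or_ge y (5 * (k + 1)) with gy4 | gy4
    · -- (2, 4)
      refine pn (4 * (k + 1) + y) (2 * (k + 1)) x (by omega) (by omega) (by omega) (by omega) ?_
      intro w h1 h2 h3
      have cw := cases k w
      omega
    · -- (2, 5)
      refine pn (9 * (k + 1)) (2 * (k + 1)) x (by omega) (by omega) (by omega) (by omega) ?_
      intro w h1 h2 h3
      have cw := cases k w
      omega
  rcases Nat.lt_or_ge x (4 * (k + 1)) with gx3 | gx3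
  · rcases Nat.lt_or_ge y (4 * (k + 1)) with gy3 | gy3
    · -- (3, 3)
      refine pos (8 * (k + 1) - x) (x + 1) y (by omega) (by omega) (by omega) (by omega) ?_
      intro w h1 h2 _
      omega
    rcases Nat.lt_or_ge y (5 * (k + 1)) with gy4 | gy4
    · -- (3, 4)
      refine pos (14 * (k + 1) + 1 - y) (x + 1) (4 * (k + 1)) (by omega) (by omega) (by omega)
        (by omega) ?_
      intro w h1 h2 h3
      have cw := cases k w
      omega
    · -- (3, 5)
      refine pos (8 * (k + 1) - x) (x + 1) (4 * (k + 1)) (by omega) (by omega) (by omega)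
        (by omega) ?_
      intro w h1 h2 h3
      have cw := cases k w
      omega
  · -- (4, 4) and (4, 5)
    refine pos (14 * (k + 1) + 1 - x) (x + 1) y (by omega) (by omega) (by omega) (by omega) ?_
    intro w h1 h2 _
    omega

end Pool.Agent.X63.AC
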