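import Pool.Agent.X63.Radial

set_option autoImplicit false

namespace Pool.Agent.X63.Pent

open Pool.Agent.X63

/-- the first pentagon -/
def X0 : Fin 5 → ℝ × ℝ
  | 0 => (0, 0)
  | 1 => (6, 0)
  | 2 => (-6, 9)
  | 3 => (0, -9)
  | 4 => (4, 3)
/-- the second pentagon -/
def Y0 : Fin 5 → ℝ × ℝ
  | 0 => (0, 0)
  | 1 => (6, 0)
  | 2 => (2, 3)
  | 3 => (6, -9)
  | 4 => (12, 9)

/-- edges -/
def Edge (x : Fin 5 → ℝ × ℝ) (i : Fin 5) : Set (ℝ × ℝ) := segment ℝ (x i) (x (finRotate 5 i))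
/-- pendant end -/
noncomputable def Pend (x : Fin 5 → ℝ × ℝ) (ε : ℝ) (i : Fin 5) : ℝ × ℝ :=
  x i + ε • ((2:ℝ) • x i - x ((finRotate 5).symm i) - x (finRotate 5 i))

/-- ordinary -/
def Ordinary (x : Fin 5 → ℝ × ℝ) : Prop :=
  ∀ (p : ℝ × ℝ) (i j k : Fin 5), p ∈ Edge x i → p ∈ Edge x j → p ∈ Edge x k →
      i = j ∨ j = k ∨ i = k

/-- proper -/
def Proper (x : Fin 5 → ℝ × ℝ) : Prop :=
  (∀ i, x i ≠ x (finRotate 5 i)) ∧
      ∀ i, ¬ Collinear ℝ ({x ((finRotate 5).symm i), x i, x (finRotate 5 i)} : Set (ℝ × ℝ))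

/-- map set -/
def MapSet (x : Fin 5 → ℝ × ℝ) (ε : ℝ) : Set (ℝ × ℝ) :=
  (⋃ i, Edge x i) ∪ ⋃ i, segment ℝ (x i) (Pend x ε i)

/-- nodes -/
def Nodes (x : Fin 5 → ℝ × ℝ) (ε : ℝ) : Set (ℝ × ℝ) :=
  Set.range x ∪ {p : ℝ × ℝ | ∃ i j, i ≠ j ∧ p ∈ Edge x i ∧ p ∈ Edge x j}
      ∪ Set.range (Pend x ε)

/-- same pattern -/
def SamePattern (x y : Fin 5 → ℝ × ℝ) : Prop :=
  ∃ δ : ℝ, 0 < δ ∧ ∀ ε₁ ε₂ : ℝ, 0 < ε₁ → ε₁ < δ → 0 < ε₂ → ε₂ < δ →
      ∃ h : Homeomorph (ℝ × ℝ) (ℝ × ℝ), h '' MapSet x ε₁ = MapSet y ε₂ ∧ h '' Nodes x ε₁ = Nodes y ε₂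

/-- next -/
def nx : Fin 5 → Fin 5
  | 0 => 1
  | 1 => 2
  | 2 => 3
  | 3 => 4
  | 4 => 0
/-- previous -/
def pv : Fin 5 → Fin 5
  | 0 => 4
  | 1 => 0
  | 2 => 1
  | 3 => 2
  | 4 => 3

theorem all5 {P : Fin 5 → Prop} (h0 : P 0) (h1 : P 1) (h2 : P 2) (h3 : P 3) (h4 : P 4) :
    ∀ i, P i := by
  intro i
  fin_cases i
  · exact h0
  · exact h1
  · exact h2
  · exact h3
  · exact h4

theorem fr (i : Fin 5) : finRotate 5 i = nx i := by
  rw [finRotate_apply]
  revert i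
  decide

theorem frs (i : Fin 5) : (finRotate 5).symm i = pv i := by
  rw [Equiv.symm_apply_eq, fr]
  revert i
  decide

theorem nx_ne (j : Fin 5) : nx j ≠ j := by revert j; decide

/-- linear description of the edges of `X0` -/
def L : Fin 5 → ℝ × ℝ → Prop
  | 0, p => p.2 = 0 ∧ 0 ≤ p.1 ∧ p.1 ≤ 6
  | 1, p => 3 * p.1 + 4 * p.2 = 18 ∧ -6 ≤ p.1 ∧ p.1 ≤ 6
  | 2, p => 3 * p.1 + p.2 = -9 ∧ -6 ≤ p.1 ∧ p.1 ≤ 0
  | 3, p => p.2 = 3 * p.1 - 9 ∧ 0 ≤ p.1 ∧ p.1 ≤ 4
  | 4, p => 3 * p.1 = 4 * p.2 ∧ 0 ≤ p.1 ∧ p.1 ≤ 4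

theorem mem_seg (a b p : ℝ × ℝ) (h : p ∈ segment ℝ a b) :
    ∃ s : ℝ, 0 ≤ s ∧ s ≤ 1 ∧ p.1 = a.1 + s * (b.1 - a.1) ∧ p.2 = a.2 + s * (b.2 - a.2) := by
  rw [segment_eq_image'] at h
  obtain ⟨s, ⟨h0, h1⟩, rfl⟩ := h
  exact ⟨s, h0, h1, by simp, by simp⟩

theorem edge_L : ∀ (i : Fin 5) (p : ℝ × ℝ), p ∈ Edge X0 i → L i p := by
  unfold Edge
  simp only [fr]
  refine all5 ?_ ?_ ?_ ?_ ?_ <;> intro p h <;>
    obtain ⟨s, h0, h1, e1, e2⟩ := mem_seg _ _ _ h <;> simp only [X0, nx] at e1 e2 <;>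
    simp only [L] <;> refine ⟨?_, ?_, ?_⟩ <;> linarith

theorem ord_X0 : Ordinary X0 := by
  intro p i j k hi hj hk
  have hi := edge_L i p hi
  have hj := edge_L j p hj
  have hk := edge_L k p hk
  by_cases hij : i = j
  · exact Or.inl hij
  by_cases hjk : j = k
  · exact Or.inr (Or.inl hjk)
  by_cases hik : i = k
  · exact Or.inr (Or.inr hik)
  exfalso
  fin_cases i <;> fin_cases j <;> first | exact hij rfl | skip
  all_goals fin_cases k <;> first | exact hjk rfl | exact hik rfl | skip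
  all_goals
    simp only [L] at hi hj hk
    linarith [hi.1, hi.2.1, hi.2.2, hj.1, hj.2.1, hj.2.2, hk.1, hk.2.1, hk.2.2]

theorem coll (p q r : ℝ × ℝ) (h : Collinear ℝ ({p, q, r} : Set (ℝ × ℝ))) :
    (q.1 - p.1) * (r.2 - p.2) = (q.2 - p.2) * (r.1 - p.1) := by
  rw [collinear_iff_of_mem (p₀ := p) (by simp)] at h
  obtain ⟨v, hv⟩ := h
  obtain ⟨a, ha⟩ := hv q (by simp)
  obtain ⟨b, hb⟩ := hv r (by simp)
  rw [ha, hb]
  simp
  ring

theorem prop_X0 : Proper X0 := by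
  unfold Proper
  simp only [fr, frs]
  constructor
  · refine all5 ?_ ?_ ?_ ?_ ?_ <;> intro h <;> have e1 := congrArg Prod.fst h <;>
      norm_num [X0, nx] at e1
  · refine all5 ?_ ?_ ?_ ?_ ?_ <;> intro h <;> have e1 := coll _ _ _ h <;>
      norm_num [X0, nx, pv] at e1

/-- the reflection -/
def refl : (ℝ × ℝ) ≃ₜ (ℝ × ℝ) where
  toFun p := (6 - p.1, p.2)
  invFun p := (6 - p.1, p.2)
  left_inv p := by ext <;> simp
  right_inv p := by ext <;> simp
  continuous_toFun := by fun_prop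
  continuous_invFun := by fun_prop

theorem refl_apply (p : ℝ × ℝ) : refl p = (6 - p.1, p.2) := rfl

/-- index reversal on vertices -/
def vr : Fin 5 → Fin 5
  | 0 => 1
  | 1 => 0
  | 2 => 4
  | 3 => 3
  | 4 => 2

/-- index reversal on edges -/
def er : Fin 5 → Fin 5
  | 0 => 0
  | 1 => 4
  | 2 => 3
  | 3 => 2
  | 4 => 1

theorem vr_vr (i : Fin 5) : vr (vr i) = i := by revert i; decide
theorem er_er (i : Fin 5) : er (er i) = i := by revert i; decide

theorem refl_X0 (i : Fin 5) : refl (X0 i) = Y0 (vr i) := by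
  revert i
  refine all5 ?_ ?_ ?_ ?_ ?_ <;> simp only [X0, Y0, vr] <;> ext <;> norm_num [refl]

theorem refl_seg (a b : ℝ × ℝ) : refl '' segment ℝ a b = segment ℝ (refl a) (refl b) := by
  rw [segment_eq_image', segment_eq_image', Set.image_image]
  congr 1
  funext s
  ext <;> simp [refl] ; ring

theorem refl_edge (i : Fin 5) : refl '' Edge X0 i = Edge Y0 (er i) := by
  unfold Edge
  rw [refl_seg, refl_X0, refl_X0, fr, fr]
  revert i
  refine all5 ?_ ?_ ?_ ?_ ?_ <;> simp only [nx, vr, er] <;> exact segment_symm ℝ _ _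

theorem refl_pend (ε : ℝ) (i : Fin 5) : refl (Pend X0 ε i) = Pend Y0 ε (vr i) := by
  unfold Pend
  simp only [fr, frs]
  revert i
  refine all5 ?_ ?_ ?_ ?_ ?_ <;> simp only [X0, Y0, nx, pv, vr] <;> ext <;>
    simp only [refl_apply, Prod.fst_add, Prod.snd_add, Prod.smul_fst,
      Prod.smul_snd, Prod.fst_sub, Prod.snd_sub, smul_eq_mul] <;> ring

theorem refl_map (ε : ℝ) : refl '' MapSet X0 ε = MapSet Y0 ε := by
  unfold MapSet
  rw [Set.image_union, Set.image_iUnion, Set.image_iUnion]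
  congr 1
  · simp only [refl_edge]
    ext p
    simp only [Set.mem_iUnion]
    constructor
    · rintro ⟨i, h⟩
      exact ⟨_, h⟩
    · rintro ⟨i, h⟩
      exact ⟨er i, by rwa [er_er]⟩
  · simp only [refl_seg, refl_X0, refl_pend]
    ext p
    simp only [Set.mem_iUnion]
    constructor
    · rintro ⟨i, h⟩
      exact ⟨_, h⟩
    · rintro ⟨i, h⟩
      exact ⟨vr i, by rwa [vr_vr]⟩

theorem refl_nodes (ε : ℝ) : refl '' Nodes X0 ε = Nodes Y0 ε := by
  unfold Nodes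
  rw [Set.image_union, Set.image_union]
  congr 1
  · congr 1
    · ext p
      simp only [Set.mem_image, Set.mem_range]
      constructor
      · rintro ⟨_, ⟨i, rfl⟩, rfl⟩
        exact ⟨_, (refl_X0 i).symm⟩
      · rintro ⟨i, rfl⟩
        exact ⟨_, ⟨vr i, rfl⟩, by rw [refl_X0, vr_vr]⟩
    · ext p
      simp only [Set.mem_image, Set.mem_ofPred_eq]
      constructor
      · rintro ⟨q, ⟨i, j, hij, hi, hj⟩, rfl⟩
        refine ⟨er i, er j, fun h => hij (by rw [← er_er i, h, er_er]), ?_, ?_⟩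
        · rw [← refl_edge]; exact ⟨q, hi, rfl⟩
        · rw [← refl_edge]; exact ⟨q, hj, rfl⟩
      · rintro ⟨i, j, hij, hi, hj⟩
        rw [← er_er i, ← refl_edge] at hi
        rw [← er_er j, ← refl_edge] at hj
        obtain ⟨q, hq, rfl⟩ := hi
        obtain ⟨q', hq', e⟩ := hj
        have : q' = q := refl.injective e
        subst this
        exact ⟨q', ⟨er i, er j, fun h => hij (by rw [← er_er i, h, er_er]), hq, hq'⟩, rfl⟩
  · ext p
    simp only [Set.mem_image, Set.mem_range]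
    constructor
    · rintro ⟨_, ⟨i, rfl⟩, rfl⟩
      exact ⟨_, (refl_pend ε i).symm⟩
    · rintro ⟨i, rfl⟩
      exact ⟨_, ⟨vr i, rfl⟩, by rw [refl_pend, vr_vr]⟩

theorem ord_Y0 : Ordinary Y0 := by
  intro p i j k hi hj hk
  rw [← er_er i, ← refl_edge] at hi
  rw [← er_er j, ← refl_edge] at hj
  rw [← er_er k, ← refl_edge] at hk
  obtain ⟨q, hq, rfl⟩ := hi
  obtain ⟨q', hq', e⟩ := hj
  have : q' = q := refl.injective e
  subst this
  obtain ⟨q'', hq'', e⟩ := hk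
  have : q'' = q' := refl.injective e
  subst this
  rcases ord_X0 q'' _ _ _ hq hq' hq'' with h | h | h
  · left; rw [← er_er i, h, er_er]
  · right; left; rw [← er_er j, h, er_er]
  · right; right; rw [← er_er i, h, er_er]

theorem prop_Y0 : Proper Y0 := by
  unfold Proper
  simp only [fr, frs]
  constructor
  · refine all5 ?_ ?_ ?_ ?_ ?_ <;> intro h <;> have e1 := congrArg Prod.fst h <;>
      norm_num [Y0, nx] at e1
  · refine all5 ?_ ?_ ?_ ?_ ?_ <;> intro h <;> have e1 := coll _ _ _ h <;>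
      norm_num [Y0, nx, pv] at e1

/-- pendant vectors -/
def W : Fin 5 → ℝ × ℝ
  | 0 => (-10, -3)
  | 1 => (18, -9)
  | 2 => (-18, 27)
  | 3 => (2, -30)
  | 4 => (8, 15)

theorem pend_X0 (ε : ℝ) (i : Fin 5) : Pend X0 ε i = X0 i + ε • W i := by
  unfold Pend
  simp only [fr, frs]
  revert i
  refine all5 ?_ ?_ ?_ ?_ ?_ <;> simp only [X0, W, nx, pv] <;> congr 2 <;> ext <;>
    simp only [Prod.fst_add, Prod.snd_add, Prod.smul_fst,
      Prod.smul_snd, Prod.fst_sub, Prod.snd_sub, smul_eq_mul] <;> norm_num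

theorem W_ne (i : Fin 5) : W i ≠ 0 := by
  intro h
  have := congrArg Prod.fst h
  revert i
  refine all5 ?_ ?_ ?_ ?_ ?_ <;> norm_num [W]

theorem W_norm (i : Fin 5) : ‖W i‖ ≤ 30 := by
  rw [Prod.norm_def, Real.norm_eq_abs, Real.norm_eq_abs]
  revert i
  refine all5 ?_ ?_ ?_ ?_ ?_ <;> norm_num [W, abs_le]

theorem far_of (p c : ℝ × ℝ)
    (h : (|p.1 - c.1| < 1 / 2) → (|p.2 - c.2| < 1 / 2) → False) : 1 / 2 ≤ ‖p - c‖ := by
  by_contra hc
  push Not at hc
  rw [Prod.norm_def, max_lt_iff, Real.norm_eq_abs, Real.norm_eq_abs] at hc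
  exact h hc.1 hc.2

theorem far_edge : ∀ (k j : Fin 5) (p : ℝ × ℝ), j ≠ k → k ≠ nx j → p ∈ Edge X0 j →
    1 / 2 ≤ ‖p - X0 k‖ := by
  intro k j p h1 h2 h
  have hL := edge_L j p h
  apply far_of
  intro ha hb
  rw [abs_lt] at ha hb
  fin_cases k <;> fin_cases j <;> first | exact h1 rfl | exact h2 rfl | skip
  all_goals
    simp only [L, X0] at hL ha hb
    linarith [hL.1, hL.2.1, hL.2.2, ha.1, ha.2, hb.1, hb.2]

theorem pend_close (i : Fin 5) (e : ℝ) (h0 : 0 < e) (h1 : e < 1 / 100) (p : ℝ × ℝ)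
    (hp : p ∈ segment ℝ (X0 i) (X0 i + e • W i)) :
    |p.1 - (X0 i).1| ≤ 3 / 10 ∧ |p.2 - (X0 i).2| ≤ 3 / 10 := by
  obtain ⟨a, ha0, ha1, rfl⟩ := (mem_segment_ray _ _ _).mp hp
  have hn : ‖a • e • W i‖ ≤ 3 / 10 := by
    rw [norm_smul, norm_smul, Real.norm_eq_abs, Real.norm_eq_abs, abs_of_nonneg ha0,
      abs_of_pos h0]
    have := W_norm i
    have h2 : e * ‖W i‖ ≤ 1 / 100 * 30 := by
      apply mul_le_mul h1.le this (norm_nonneg _) (by norm_num)
    have h3 : 0 ≤ e * ‖W i‖ := by positivity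
    nlinarith
  rw [Prod.norm_def, max_le_iff, Real.norm_eq_abs, Real.norm_eq_abs] at hn
  constructor
  · simpa using hn.1
  · simpa using hn.2

theorem far_pend (k i : Fin 5) (hki : i ≠ k) (e : ℝ) (h0 : 0 < e) (h1 : e < 1 / 100) (p : ℝ × ℝ)
    (hp : p ∈ segment ℝ (X0 i) (X0 i + e • W i)) : 1 / 2 ≤ ‖p - X0 k‖ := by
  obtain ⟨hx, hy⟩ := pend_close i e h0 h1 p hp
  apply far_of
  intro ha hb
  rw [abs_lt] at ha hb
  rw [abs_le] at hx hy
  fin_cases k <;> fin_cases i <;> first | exact hki rfl | skip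
  all_goals
    simp only [X0] at hx hy ha hb
    linarith [hx.1, hx.2, hy.1, hy.2, ha.1, ha.2, hb.1, hb.2]

theorem far_vert (k i : Fin 5) (hki : i ≠ k) : 1 / 2 ≤ ‖X0 i - X0 k‖ :=
  far_pend k i hki (1 / 200) (by norm_num) (by norm_num) _ (left_mem_segment _ _ _)

/-- map set with varying lengths -/
def MS (e : Fin 5 → ℝ) : Set (ℝ × ℝ) :=
  (⋃ i, Edge X0 i) ∪ ⋃ i, segment ℝ (X0 i) (X0 i + e i • W i)

/-- nodes with varying lengths -/
def NS (e : Fin 5 → ℝ) : Set (ℝ × ℝ) :=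
  Set.range X0 ∪ {p : ℝ × ℝ | ∃ i j, i ≠ j ∧ p ∈ Edge X0 i ∧ p ∈ Edge X0 j}
      ∪ Set.range (fun i => X0 i + e i • W i)

theorem image_fix {α : Type*} (f : α → α) (S : Set α) (h : ∀ p ∈ S, f p = p) : f '' S = S := by
  ext p
  constructor
  · rintro ⟨q, hq, rfl⟩
    rwa [h q hq]
  · intro hp
    exact ⟨p, hp, h p hp⟩

theorem seg_fix (c d : ℝ × ℝ) (s t : ℝ) (hs : 0 < s) (hsR : s < 1 / 2) (ht : 0 < t)
    (htR : t < 1 / 2) (hd : 1 / 2 ≤ ‖d - c‖) :
    rmap c (1 / 2) s t '' segment ℝ c d = segment ℝ c d := by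
  have hu : d - c ≠ 0 := by
    intro h
    rw [h, norm_zero] at hd
    norm_num at hd
  have := rmap_segment c (d - c) (1 / 2) s t hs hsR ht htR hu 1 one_pos
    (by rw [one_mul]; exact gfun_big _ _ _ _ hsR hd htR)
  rwa [one_smul, add_sub_cancel] at this

theorem step (k : Fin 5) (e e' : Fin 5 → ℝ) (he0 : ∀ i, 0 < e i) (he1 : ∀ i, e i < 1 / 100)
    (he0' : ∀ i, 0 < e' i) (he1' : ∀ i, e' i < 1 / 100) (hk : ∀ i, i ≠ k → e i = e' i) :
    ∃ h : (ℝ × ℝ) ≃ₜ (ℝ × ℝ), h '' MS e = MS e' ∧ h '' NS e = NS e' := by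
  have hW : 0 < ‖W k‖ := norm_pos_iff.mpr (W_ne k)
  have hW2 := W_norm k
  have hs : 0 < e k * ‖W k‖ := mul_pos (he0 k) hW
  have ht : 0 < e' k * ‖W k‖ := mul_pos (he0' k) hW
  have hsR : e k * ‖W k‖ < 1 / 2 := by
    have := mul_le_mul (he1 k).le hW2 hW.le (by norm_num : (0:ℝ) ≤ 1 / 100)
    linarith
  have htR : e' k * ‖W k‖ < 1 / 2 := by
    have := mul_le_mul (he1' k).le hW2 hW.le (by norm_num : (0:ℝ) ≤ 1 / 100)
    linarith
  set f : (ℝ × ℝ) ≃ₜ (ℝ × ℝ) := radial (X0 k) (1 / 2) _ _ hs hsR ht htR with hf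
  have hfa : ∀ p, f p = rmap (X0 k) (1 / 2) (e k * ‖W k‖) (e' k * ‖W k‖) p := fun _ => rfl
  have hfar : ∀ p, 1 / 2 ≤ ‖p - X0 k‖ → f p = p := by
    intro p hp
    rw [hfa]
    exact rmap_far _ _ _ _ _ hsR htR (by norm_num) hp
  have hcen : f (X0 k) = X0 k := by
    rw [hfa]
    exact rmap_center _ _ _ _
  have F4 : ∀ i, f (X0 i) = X0 i := by
    intro i
    by_cases hik : i = k
    · rw [hik, hcen]
    · exact hfar _ (far_vert k i hik)
  have F1 : ∀ j, f '' Edge X0 j = Edge X0 j := by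
    intro j
    by_cases hjk : j = k
    · subst hjk
      unfold Edge
      rw [fr]
      exact seg_fix _ _ _ _ hs hsR ht htR (far_vert j (nx j) (nx_ne j))
    · by_cases hjk2 : k = nx j
      · unfold Edge
        rw [fr, segment_symm, ← hjk2]
        exact seg_fix _ _ _ _ hs hsR ht htR (far_vert k j hjk)
      · exact image_fix _ _ fun p hp => hfar p (far_edge k j p hjk hjk2 hp)
  have F3 : ∀ i, f '' segment ℝ (X0 i) (X0 i + e i • W i) = segment ℝ (X0 i) (X0 i + e' i • W i) := by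
    intro i
    by_cases hik : i = k
    · subst hik
      have hn : ‖e i • W i‖ = e i * ‖W i‖ := by
        rw [norm_smul, Real.norm_eq_abs, abs_of_pos (he0 i)]
      have hg : gfun (1 / 2) (e i * ‖W i‖) (e' i * ‖W i‖) ‖e i • W i‖ =
          (e' i / e i) * ‖e i • W i‖ := by
        rw [hn]
        unfold gfun
        rw [if_pos le_rfl]
        have := (he0 i).ne'
        field_simp
      have := rmap_segment (X0 i) (e i • W i) (1 / 2) _ _ hs hsR ht htR
        (smul_ne_zero (he0 i).ne' (W_ne i)) (e' i / e i) (div_pos (he0' i) (he0 i)) hg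
      rw [smul_smul, div_mul_cancel₀ _ (he0 i).ne'] at this
      exact this
    · rw [← hk i hik]
      exact image_fix _ _ fun p hp => hfar p (far_pend k i hik _ (he0 i) (he1 i) p hp)
  have F2 : ∀ i, f (X0 i + e i • W i) = X0 i + e' i • W i := by
    intro i
    by_cases hik : i = k
    · subst hik
      rw [hfa, rmap_ray _ _ _ _ _ _ (he0 i).le hs hsR (W_ne i)]
      congr 2
      unfold gfun
      rw [if_pos le_rfl]
      have := (he0 i).ne'
      field_simp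
    · rw [← hk i hik]
      exact hfar _ (far_pend k i hik _ (he0 i) (he1 i) _ (right_mem_segment _ _ _))
  refine ⟨f, ?_, ?_⟩
  · unfold MS
    rw [Set.image_union, Set.image_iUnion, Set.image_iUnion]
    simp only [F1, F3]
  · unfold NS
    rw [Set.image_union, Set.image_union]
    congr 1
    · congr 1
      · ext p
        simp only [Set.mem_image, Set.mem_range]
        constructor
        · rintro ⟨_, ⟨i, rfl⟩, rfl⟩
          exact ⟨i, (F4 i).symm⟩
        · rintro ⟨i, rfl⟩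
          exact ⟨_, ⟨i, rfl⟩, F4 i⟩
      · ext p
        simp only [Set.mem_image, Set.mem_ofPred_eq]
        constructor
        · rintro ⟨q, ⟨i, j, hij, hi, hj⟩, rfl⟩
          refine ⟨i, j, hij, ?_, ?_⟩
          · rw [← F1]; exact ⟨q, hi, rfl⟩
          · rw [← F1]; exact ⟨q, hj, rfl⟩
        · rintro ⟨i, j, hij, hi, hj⟩
          rw [← F1] at hi hj
          obtain ⟨q, hq, rfl⟩ := hi
          obtain ⟨q', hq', e⟩ := hj
          have : q' = q := f.injective e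
          subst this
          exact ⟨q', ⟨i, j, hij, hq, hq'⟩, rfl⟩
    · ext p
      simp only [Set.mem_image, Set.mem_range]
      constructor
      · rintro ⟨_, ⟨i, rfl⟩, rfl⟩
        exact ⟨i, (F2 i).symm⟩
      · rintro ⟨i, rfl⟩
        exact ⟨_, ⟨i, rfl⟩, F2 i⟩

/-- reachable -/
def Rel (e e' : Fin 5 → ℝ) : Prop :=
  ∃ h : (ℝ × ℝ) ≃ₜ (ℝ × ℝ), h '' MS e = MS e' ∧ h '' NS e = NS e'

theorem image_trans (f g : (ℝ × ℝ) ≃ₜ (ℝ × ℝ)) (S : Set (ℝ × ℝ)) :
    (f.trans g) '' S = g '' (f '' S) := by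
  rw [← Set.image_comp]
  rfl

theorem Rel.trans {a b c : Fin 5 → ℝ} (h1 : Rel a b) (h2 : Rel b c) : Rel a c := by
  obtain ⟨f, f1, f2⟩ := h1
  obtain ⟨g, g1, g2⟩ := h2
  refine ⟨f.trans g, ?_, ?_⟩
  · rw [image_trans, f1, g1]
  · rw [image_trans, f2, g2]

/-- interpolation -/
noncomputable def ev (a b : ℝ) (k : ℕ) (i : Fin 5) : ℝ := if i.val < k then b else a

theorem rel_ev (a b : ℝ) (ha : 0 < a) (ha1 : a < 1 / 100) (hb : 0 < b) (hb1 : b < 1 / 100)
    (k : Fin 5) : Rel (ev a b k.val) (ev a b (k.val + 1)) := by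
  apply step k
  · intro i; unfold ev; split_ifs <;> assumption
  · intro i; unfold ev; split_ifs <;> assumption
  · intro i; unfold ev; split_ifs <;> assumption
  · intro i; unfold ev; split_ifs <;> assumption
  · intro i hi
    unfold ev
    have : i.val ≠ k.val := fun h => hi (Fin.ext h)
    by_cases h : i.val < k.val
    · rw [if_pos h, if_pos (by omega)]
    · rw [if_neg h, if_neg (by omega)]

theorem rel_const (a b : ℝ) (ha : 0 < a) (ha1 : a < 1 / 100) (hb : 0 < b) (hb1 : b < 1 / 100) :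
    Rel (fun _ => a) (fun _ => b) := by
  have h := fun k => rel_ev a b ha ha1 hb hb1 k
  have e0 : (fun _ : Fin 5 => a) = ev a b 0 := by
    funext i; unfold ev; rw [if_neg (by omega)]
  have e5 : (fun _ : Fin 5 => b) = ev a b 5 := by
    funext i; unfold ev; rw [if_pos i.isLt]
  rw [e0, e5]
  exact ((((h 0).trans (h 1)).trans (h 2)).trans (h 3)).trans (h 4)

theorem same : SamePattern X0 Y0 := by
  refine ⟨1 / 100, by norm_num, ?_⟩
  intro a b ha ha1 hb hb1
  obtain ⟨f, f1, f2⟩ := rel_const a b ha ha1 hb hb1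
  have m1 : ∀ ε, MapSet X0 ε = MS fun _ => ε := by
    intro ε
    unfold MapSet MS
    simp only [pend_X0]
  have n1 : ∀ ε, Nodes X0 ε = NS fun _ => ε := by
    intro ε
    unfold Nodes NS
    have : Pend X0 ε = fun i => X0 i + ε • W i := by funext i; exact pend_X0 ε i
    rw [this]
  refine ⟨f.trans refl, ?_, ?_⟩
  · rw [image_trans, m1, f1, ← m1, refl_map]
  · rw [image_trans, n1, f2, ← n1, refl_nodes]

/-- positively parallel -/
def Parallel (x z : Fin 5 → ℝ × ℝ) : Prop :=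
  ∀ i, ∃ c : ℝ, 0 < c ∧ z (finRotate 5 i) - z i = c • (x (finRotate 5 i) - x i)

/-- dihedral -/
def Dihedral (σ : Equiv.Perm (Fin 5)) : Prop :=
  (∀ i, σ (finRotate 5 i) = finRotate 5 (σ i)) ∨
      (∀ i, σ (finRotate 5 i) = (finRotate 5).symm (σ i))

theorem par : Parallel X0 (fun i => Y0 ((1 : Equiv.Perm (Fin 5)) i)) := by
  unfold Parallel
  simp only [fr, Equiv.Perm.one_apply]
  refine all5 ?_ ?_ ?_ ?_ ?_
  · exact ⟨1, by norm_num, by ext <;> norm_num [X0, Y0, nx]⟩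
  · exact ⟨1 / 3, by norm_num, by ext <;> norm_num [X0, Y0, nx]⟩
  · exact ⟨2 / 3, by norm_num, by ext <;> norm_num [X0, Y0, nx]⟩
  · exact ⟨3 / 2, by norm_num, by ext <;> norm_num [X0, Y0, nx]⟩
  · exact ⟨3, by norm_num, by ext <;> norm_num [X0, Y0, nx]⟩

theorem dih : Dihedral 1 := Or.inl fun i => rfl

theorem sigma_id (σ : Equiv.Perm (Fin 5)) (hd : Dihedral σ)
    (hp : Parallel X0 (fun i => Y0 (σ i))) : ∀ i, σ i = i := by
  obtain ⟨c, hc, he⟩ := hp 0
  simp only [fr] at he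
  have e1 := congrArg Prod.fst he
  have e2 := congrArg Prod.snd he
  simp only [nx, X0, Prod.fst_sub, Prod.snd_sub, Prod.smul_fst, Prod.smul_snd, smul_eq_mul] at e1 e2
  unfold Dihedral at hd
  simp only [fr, frs] at hd
  rcases hd with hd | hd
  · have h1 := hd 0
    have h2 := hd 1
    have h3 := hd 2
    have h4 := hd 3
    simp only [nx] at h1 h2 h3 h4
    have h0 : σ 0 = 0 := by
      rw [h1] at e1 e2
      generalize σ 0 = a at e1 e2
      revert a
      refine all5 ?_ ?_ ?_ ?_ ?_ <;> intro e1 e2 <;> simp only [nx, Y0] at e1 e2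
      · rfl
      all_goals exfalso; linarith
    rw [h0] at h1
    simp only [nx] at h1
    rw [h1] at h2
    simp only [nx] at h2
    rw [h2] at h3
    simp only [nx] at h3
    rw [h3] at h4
    simp only [nx] at h4
    exact all5 h0 h1 h2 h3 h4
  · exfalso
    have h1 := hd 0
    simp only [nx] at h1
    rw [h1] at e1 e2
    generalize σ 0 = a at e1 e2
    revert a
    refine all5 ?_ ?_ ?_ ?_ ?_ <;> intro e1 e2 <;> simp only [pv, Y0] at e1 e2 <;> linarith

theorem mem_seg_of (a b p : ℝ × ℝ) (s : ℝ) (h0 : 0 ≤ s) (h1 : s ≤ 1)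
    (e1 : p.1 = a.1 + s * (b.1 - a.1)) (e2 : p.2 = a.2 + s * (b.2 - a.2)) : p ∈ segment ℝ a b := by
  rw [segment_eq_image']
  refine ⟨s, ⟨h0, h1⟩, ?_⟩
  ext
  · simp [e1]
  · simp [e2]

/-- horizontal edge membership -/
theorem mem_horiz (a b p : ℝ × ℝ) (hab : a.2 = b.2) (hlt : a.1 < b.1) (h0 : a.1 ≤ p.1)
    (h1 : p.1 ≤ b.1) (h2 : p.2 = a.2) : p ∈ segment ℝ a b := by
  have hpos : 0 < b.1 - a.1 := by linarith
  refine mem_seg_of a b p ((p.1 - a.1) / (b.1 - a.1)) (div_nonneg (by linarith) hpos.le)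
    ((div_le_one hpos).mpr (by linarith)) ?_ ?_
  · field_simp
    ring
  · rw [hab, sub_self, mul_zero, add_zero, h2, hab]

/-- edge three membership -/
theorem mem_slant (a b p : ℝ × ℝ) (hlt : a.2 < b.2) (hs : b.1 - a.1 = (b.2 - a.2) / 3)
    (h0 : a.2 ≤ p.2) (h1 : p.2 ≤ b.2) (h2 : p.1 = a.1 + (p.2 - a.2) / 3) : p ∈ segment ℝ a b := by
  have hpos : 0 < b.2 - a.2 := by linarith
  refine mem_seg_of a b p ((p.2 - a.2) / (b.2 - a.2)) (div_nonneg (by linarith) hpos.le)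
    ((div_le_one hpos).mpr (by linarith)) ?_ ?_
  · rw [hs, h2]
    field_simp
  · field_simp
    ring

theorem no_def (X : ℝ → Fin 5 → ℝ × ℝ)
    (hc : ∀ j, ContinuousOn (fun t => X t j) (Set.Icc (0:ℝ) 1)) (h0 : X 0 = X0) (h1 : X 1 = Y0)
    (ho : ∀ t ∈ Set.Icc (0:ℝ) 1, Ordinary (X t)) (hp : ∀ t ∈ Set.Icc (0:ℝ) 1, Parallel X0 (X t)) :
    False := by
  have c1 : ∀ j, ContinuousOn (fun t => (X t j).1) (Set.Icc (0:ℝ) 1) := fun j =>
    continuous_fst.comp_continuousOn (hc j)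
  have c2 : ∀ j, ContinuousOn (fun t => (X t j).2) (Set.Icc (0:ℝ) 1) := fun j =>
    continuous_snd.comp_continuousOn (hc j)
  set q : ℝ → ℝ := fun t => (X t 3).1 + ((X t 0).2 - (X t 3).2) / 3 with hq
  set F : ℝ → ℝ := fun t => min (min ((X t 0).2 - (X t 3).2) ((X t 4).2 - (X t 0).2))
    (min (q t - (X t 0).1) ((X t 1).1 - q t)) with hF
  have cq : ContinuousOn q (Set.Icc (0:ℝ) 1) := (c1 3).add (((c2 0).sub (c2 3)).div_const 3)
  have cF : ContinuousOn F (Set.Icc (0:ℝ) 1) :=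
    ContinuousOn.inf (ContinuousOn.inf ((c2 0).sub (c2 3)) ((c2 4).sub (c2 0)))
      (ContinuousOn.inf (cq.sub (c1 0)) ((c1 1).sub cq))
  have F0 : F 0 = 3 := by
    simp only [hF, hq, h0, X0]
    norm_num
  have F1 : F 1 = -3 := by
    simp only [hF, hq, h1, Y0]
    norm_num
  have hz : (0:ℝ) ∈ Set.Icc (F 1) (F 0) := by
    rw [F0, F1]
    constructor <;> norm_num
  obtain ⟨t, ht, hFt⟩ := intermediate_value_Icc' (by norm_num : (0:ℝ) ≤ 1) cF hz
  have hpt := hp t ht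
  have hot := ho t ht
  unfold Parallel at hpt
  unfold Ordinary Edge at hot
  simp only [fr] at hpt hot
  obtain ⟨k0, p0, e0⟩ := hpt 0
  obtain ⟨k3, p3, e3⟩ := hpt 3
  have e01 := congrArg Prod.fst e0
  have e02 := congrArg Prod.snd e0
  have e31 := congrArg Prod.fst e3
  have e32 := congrArg Prod.snd e3
  simp only [nx, X0, Prod.fst_sub, Prod.snd_sub, Prod.smul_fst, Prod.smul_snd, smul_eq_mul]
    at e01 e02 e31 e32
  have hr : ∀ i j k : Fin 5, i ≠ j → j ≠ k → i ≠ k → ∀ p, p ∈ segment ℝ (X t i) (X t (nx i)) →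
      p ∈ segment ℝ (X t j) (X t (nx j)) → p ∈ segment ℝ (X t k) (X t (nx k)) → False := by
    intro i j k n1 n2 n3 p m1 m2 m3
    rcases hot p i j k m1 m2 m3 with h | h | h
    · exact n1 h
    · exact n2 h
    · exact n3 h
  simp only [hF] at hFt
  have g1 : 0 ≤ (X t 0).2 - (X t 3).2 := by
    rw [← hFt]; exact (min_le_left _ _).trans (min_le_left _ _)
  have g2 : 0 ≤ (X t 4).2 - (X t 0).2 := by
    rw [← hFt]; exact (min_le_left _ _).trans (min_le_right _ _)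
  have g3 : 0 ≤ q t - (X t 0).1 := by
    rw [← hFt]; exact (min_le_right _ _).trans (min_le_left _ _)
  have g4 : 0 ≤ (X t 1).1 - q t := by
    rw [← hFt]; exact (min_le_right _ _).trans (min_le_right _ _)
  have hmin : (X t 0).2 - (X t 3).2 = 0 ∨ (X t 4).2 - (X t 0).2 = 0 ∨ q t - (X t 0).1 = 0 ∨
      (X t 1).1 - q t = 0 := by
    rcases min_choice (min ((X t 0).2 - (X t 3).2) ((X t 4).2 - (X t 0).2))
      (min (q t - (X t 0).1) ((X t 1).1 - q t)) with h | h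
    · rw [h] at hFt
      rcases min_choice ((X t 0).2 - (X t 3).2) ((X t 4).2 - (X t 0).2) with h' | h'
      · rw [h'] at hFt; exact Or.inl hFt
      · rw [h'] at hFt; exact Or.inr (Or.inl hFt)
    · rw [h] at hFt
      rcases min_choice (q t - (X t 0).1) ((X t 1).1 - q t) with h' | h'
      · rw [h'] at hFt; exact Or.inr (Or.inr (Or.inl hFt))
      · rw [h'] at hFt; exact Or.inr (Or.inr (Or.inr hFt))
  have qd : q t = (X t 3).1 + ((X t 0).2 - (X t 3).2) / 3 := rfl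
  rcases hmin with h | h | h | h
  · refine hr 0 2 3 (by decide) (by decide) (by decide) (X t 3) ?_ ?_ ?_
    · exact mem_horiz _ _ _ (by simp only [nx]; linarith) (by simp only [nx]; linarith)
        (by linarith) (by simp only [nx]; linarith) (by linarith)
    · exact right_mem_segment _ _ _
    · exact left_mem_segment _ _ _
  · refine hr 0 3 4 (by decide) (by decide) (by decide) (X t 4) ?_ ?_ ?_
    · exact mem_horiz _ _ _ (by simp only [nx]; linarith) (by simp only [nx]; linarith)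
        (by linarith) (by simp only [nx]; linarith) (by linarith)
    · exact right_mem_segment _ _ _
    · exact left_mem_segment _ _ _
  · refine hr 3 4 0 (by decide) (by decide) (by decide) (X t 0) ?_ ?_ ?_
    · exact mem_slant _ _ _ (by simp only [nx]; linarith) (by simp only [nx]; linarith)
        (by linarith) (by simp only [nx]; linarith) (by linarith)
    · exact right_mem_segment _ _ _
    · exact left_mem_segment _ _ _
  · refine hr 3 0 1 (by decide) (by decide) (by decide) (X t 1) ?_ ?_ ?_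
    · exact mem_slant _ _ _ (by simp only [nx]; linarith) (by simp only [nx]; linarith)
        (by linarith) (by simp only [nx]; linarith) (by linarith)
    · exact right_mem_segment _ _ _
    · exact left_mem_segment _ _ _

end Pool.Agent.X63.Pent
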