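import Pool.Agent.X63.SemiArc

/-!
`K_{5k+6}` is an arc `k`-visibility graph: the explicit representation.
-/

set_option autoImplicit false

namespace Pool.Agent.X63.AC

open Pool.Agent.X63 Pool.Agent.X63.SA Real

section rep

variable (k : ℕ)

/-- start of the arc `w`, in units of `π / (10 k + 12)` -/
def st (w : ℕ) : ℕ :=
  if w < k + 1 then 13 * (k + 1) + 3 + w
  else if w < 2 * (k + 1) then 9 * (k + 1) + 2 + w
  else if w < 3 * (k + 1) then 9 * (k + 1) - w
  else if w < 4 * (k + 1) then 8 * (k + 1) - w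
  else if w < 5 * (k + 1) then 14 * (k + 1) + 1 - w
  else 3 * (k + 1)

/-- end of the arc `w`, in the same units -/
def en (w : ℕ) : ℕ :=
  if w < k + 1 then 18 * (k + 1) + 2 - w
  else if w < 2 * (k + 1) then 17 * (k + 1) + 2 - w
  else if w < 3 * (k + 1) then 14 * (k + 1) + 1 - w
  else if w < 4 * (k + 1) then 9 * (k + 1) + 2 + w
  else if w < 5 * (k + 1) then 14 * (k + 1) + 3 + w
  else 19 * (k + 1) + 3

theorem cases (w : ℕ) :
    (w < k + 1 ∧ st k w = 13 * (k + 1) + 3 + w ∧ en k w = 18 * (k + 1) + 2 - w) ∨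
    (k + 1 ≤ w ∧ w < 2 * (k + 1) ∧ st k w = 9 * (k + 1) + 2 + w ∧
      en k w = 17 * (k + 1) + 2 - w) ∨
    (2 * (k + 1) ≤ w ∧ w < 3 * (k + 1) ∧ st k w = 9 * (k + 1) - w ∧
      en k w = 14 * (k + 1) + 1 - w) ∨
    (3 * (k + 1) ≤ w ∧ w < 4 * (k + 1) ∧ st k w = 8 * (k + 1) - w ∧
      en k w = 9 * (k + 1) + 2 + w) ∨
    (4 * (k + 1) ≤ w ∧ w < 5 * (k + 1) ∧ st k w = 14 * (k + 1) + 1 - w ∧
      en k w = 14 * (k + 1) + 3 + w) ∨
    (5 * (k + 1) ≤ w ∧ st k w = 3 * (k + 1) ∧ en k w = 19 * (k + 1) + 3) := by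
  unfold st en
  split_ifs <;> omega

/-- the number of steps of a half turn -/
abbrev MM : ℕ := 10 * (k + 1) + 2

/-- angular unit -/
noncomputable def del : ℝ := π / (10 * (k + 1) + 2)

theorem del_pos : 0 < del k := by
  unfold del
  have := Real.pi_pos
  positivity

theorem del_mul : (10 * ((k : ℝ) + 1) + 2) * del k = π := by
  unfold del
  have : (10 * ((k : ℝ) + 1) + 2) ≠ 0 := by positivity
  field_simp

/-- the endpoints of the arcs -/
noncomputable def lw (w : ℕ) : ℝ := st k w * del k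
/-- the endpoints of the arcs -/
noncomputable def up (w : ℕ) : ℝ := en k w * del k

theorem lw_nonneg (w : ℕ) : 0 ≤ lw k w := by
  unfold lw
  have := del_pos k
  positivity

theorem lw_le_up (w : ℕ) : lw k w ≤ up k w := by
  unfold lw up
  have h := cases k w
  have h1 : st k w ≤ en k w := by omega
  have h2 : (st k w : ℝ) ≤ en k w := by exact_mod_cast h1
  exact mul_le_mul_of_nonneg_right h2 (del_pos k).le

theorem up_lt (w : ℕ) : up k w < 2 * π := by
  unfold up
  have h := cases k w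
  have h1 : en k w + 1 ≤ 2 * (10 * (k + 1) + 2) := by omega
  have h2 : (en k w : ℝ) + 1 ≤ 2 * (10 * (k + 1) + 2) := by exact_mod_cast h1
  have h3 := del_mul k
  have h4 := del_pos k
  nlinarith

/-- arc is met by the positive ray at time `t` -/
def AP (w t : ℕ) : Prop := st k w ≤ t ∧ t + 1 ≤ en k w
/-- arc is met by the negative ray at time `t` -/
def AN (w t : ℕ) : Prop := st k w ≤ t + MM k ∧ t + MM k + 1 ≤ en k w

/-- arcs of the representation -/
noncomputable def AA (w : Fin (5 * k + 6)) : Set (ℝ × ℝ) :=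
  arcSet (w.val + 1) (lw k w.val) (up k w.val)

/-- start angle of the window at time `t` -/
noncomputable def lo (t : ℕ) : ℝ := (t + 1 / 4) * del k
/-- end angle of the window at time `t` -/
noncomputable def hi (t : ℕ) : ℝ := (t + 3 / 4) * del k

theorem lo_pos (t : ℕ) : 0 < lo k t := by
  unfold lo
  have := del_pos k
  positivity

theorem lo_hi (t : ℕ) : lo k t < hi k t := by
  unfold lo hi
  have := del_pos k
  nlinarith

theorem hi_pi (t : ℕ) (ht : t < MM k) : hi k t < π := by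
  unfold hi
  have h1 : t + 1 ≤ 10 * (k + 1) + 2 := ht
  have h2 : (t : ℝ) + 1 ≤ 10 * (k + 1) + 2 := by exact_mod_cast h1
  have h3 := del_mul k
  have h4 := del_pos k
  nlinarith

theorem AP_in (w t : ℕ) (h : AP k w t) : lw k w ≤ lo k t ∧ hi k t ≤ up k w := by
  have hd := del_pos k
  have h1 : (st k w : ℝ) ≤ t := by exact_mod_cast h.1
  have h2 : (t : ℝ) + 1 ≤ en k w := by exact_mod_cast h.2
  unfold lw up lo hi
  constructor <;> nlinarith

theorem not_AP (w t : ℕ) (h : ¬ AP k w t) : hi k t < lw k w ∨ up k w < lo k t := by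
  have hd := del_pos k
  unfold AP at h
  unfold lw up lo hi
  rcases Nat.lt_or_ge t (st k w) with h1 | h1
  · left
    have h2 : (t : ℝ) + 1 ≤ st k w := by exact_mod_cast h1
    nlinarith
  · right
    have h3 : en k w ≤ t := by
      by_contra hc
      exact h ⟨h1, by omega⟩
    have h2 : (en k w : ℝ) ≤ t := by exact_mod_cast h3
    nlinarith

theorem AN_in (w t : ℕ) (h : AN k w t) : lw k w ≤ lo k t + π ∧ hi k t + π ≤ up k w := by
  have hd := del_pos k
  have hm := del_mul k
  have h1 : (st k w : ℝ) ≤ t + (10 * (k + 1) + 2) := by exact_mod_cast h.1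
  have h2 : (t : ℝ) + (10 * (k + 1) + 2) + 1 ≤ en k w := by exact_mod_cast h.2
  unfold lw up lo hi
  constructor <;> nlinarith

theorem not_AN (w t : ℕ) (h : ¬ AN k w t) : hi k t + π < lw k w ∨ up k w < lo k t + π := by
  have hd := del_pos k
  have hm := del_mul k
  unfold AN at h
  unfold lw up lo hi
  rcases Nat.lt_or_ge (t + MM k) (st k w) with h1 | h1
  · left
    have h2 : (t : ℝ) + (10 * (k + 1) + 2) + 1 ≤ st k w := by exact_mod_cast h1
    nlinarith
  · right
    have h3 : en k w ≤ t + (10 * (k + 1) + 2) := by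
      by_contra hc
      exact h ⟨h1, by unfold MM; omega⟩
    have h2 : (en k w : ℝ) ≤ t + (10 * (k + 1) + 2) := by exact_mod_cast h3
    nlinarith

/-- which arcs meet a cone of the window at time `t` -/
theorem meets (w : Fin (5 * k + 6)) (t : ℕ) (ht : t < MM k) (s₁ s₂ : ℝ)
    (h : (AA k w ∩ coneSet s₁ s₂ (lo k t) (hi k t)).Nonempty) :
    (AP k w.val t ∧ s₁ ≤ w.val + 1 ∧ (w.val : ℝ) + 1 ≤ s₂) ∨
      (AN k w.val t ∧ s₁ ≤ -(w.val + 1) ∧ -((w.val : ℝ) + 1) ≤ s₂) := by
  obtain ⟨p, ⟨φ, h0, h1, hp⟩, s, ψ, hs1, hs2, g0, g1, hp'⟩ := h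
  have hw : (0 : ℝ) < w.val + 1 := by positivity
  have hpi := Real.pi_pos
  have hlo := lo_pos k t
  have hhi := hi_pi k t ht
  have hlw := lw_nonneg k w.val
  have hup := up_lt k w.val
  rw [hp] at hp'
  rcases lt_trichotomy s 0 with hs | hs | hs
  · right
    rw [rayPt_neg s ψ] at hp'
    obtain ⟨e1, e2⟩ := rayPt_inj _ _ _ _ hw (by linarith) (by linarith) (by linarith)
      (by linarith) (by linarith) hp'
    refine ⟨?_, by linarith, by linarith⟩
    by_contra hc
    rcases not_AN k w.val t hc with h | h <;> linarith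
  · exfalso
    rw [hs] at hp'
    unfold rayPt at hp'
    simp only [zero_mul, Prod.mk.injEq, mul_eq_zero] at hp'
    have a1 := hp'.1.resolve_left hw.ne'
    have a2 := hp'.2.resolve_left hw.ne'
    have := Real.sin_sq_add_cos_sq φ
    rw [a1, a2] at this
    norm_num at this
  · left
    obtain ⟨e1, e2⟩ := rayPt_inj _ _ _ _ hw hs (by linarith) (by linarith) (by linarith)
      (by linarith) hp'
    refine ⟨?_, by linarith, by linarith⟩
    by_contra hc
    rcases not_AP k w.val t hc with h | h <;> linarith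

theorem side_pos (w : Fin (5 * k + 6)) (t : ℕ) (h : AP k w.val t) :
    coneSet (w.val + 1) (w.val + 1) (lo k t) (hi k t) ⊆ AA k w := by
  rintro p ⟨s, φ, h1, h2, h3, h4, rfl⟩
  have hs : s = w.val + 1 := le_antisymm h2 h1
  subst hs
  have := AP_in k w.val t h
  exact ⟨φ, by linarith, by linarith, rfl⟩

theorem side_neg (w : Fin (5 * k + 6)) (t : ℕ) (h : AN k w.val t) :
    coneSet (-(w.val + 1)) (-(w.val + 1)) (lo k t) (hi k t) ⊆ AA k w := by
  rintro p ⟨s, φ, h1, h2, h3, h4, rfl⟩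
  have hs : s = -(w.val + 1) := le_antisymm h2 h1
  subst hs
  have := AN_in k w.val t h
  refine ⟨φ + π, by linarith, by linarith, ?_⟩
  rw [rayPt_neg, neg_neg]

/-- visibility along the positive ray -/
theorem vis_pos (u v : Fin (5 * k + 6)) (t a b : ℕ) (ht : t < MM k) (huv : u < v)
    (hu : AP k u.val t) (hv : AP k v.val t) (hab : b ≤ a + k)
    (hc : ∀ w : ℕ, u.val < w → w < v.val → AP k w t → a ≤ w ∧ w < b) :
    RadVis (AA k) k u v := by
  have huv' : (u.val : ℝ) < v.val := by exact_mod_cast huv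
  have hu0 : (0 : ℝ) < u.val + 1 := by positivity
  have hv0 : (0 : ℝ) < v.val + 1 := by positivity
  refine ⟨u.val + 1, v.val + 1, lo k t, hi k t, hu0.ne', hv0.ne', by linarith, lo_hi k t, ?_, ?_,
    ncard_Ico _ a b k _ ?_ hab⟩
  · have := hi_pi k t ht; have := lo_pos k t; linarith
  · left
    exact ⟨side_pos k u t hu, side_pos k v t hv⟩
  · rintro w ⟨h1, h2, h3⟩
    rcases meets k w t ht _ _ h3 with ⟨h6, h4, h5⟩ | ⟨_, h4, _⟩
    · have h4' : (u.val : ℝ) ≤ w.val := by linarith
      have h5' : (w.val : ℝ) ≤ v.val := by linarith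
      have h4'' : u ≤ w := by exact_mod_cast h4'
      have h5'' : w ≤ v := by exact_mod_cast h5'
      exact hc w.val (Fin.lt_def.1 (lt_of_le_of_ne h4'' (Ne.symm h1)))
        (Fin.lt_def.1 (lt_of_le_of_ne h5'' h2)) h6
    · exfalso
      have : (0 : ℝ) ≤ w.val := by positivity
      linarith

/-- visibility along the negative ray -/
theorem vis_neg (u v : Fin (5 * k + 6)) (t a b : ℕ) (ht : t < MM k) (huv : u < v)
    (hu : AN k u.val t) (hv : AN k v.val t) (hab : b ≤ a + k)
    (hc : ∀ w : ℕ, u.val < w → w < v.val → AN k w t → a ≤ w ∧ w < b) :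
    RadVis (AA k) k u v := by
  have huv' : (u.val : ℝ) < v.val := by exact_mod_cast huv
  have hu0 : -(u.val + 1 : ℝ) < 0 := by
    have : (0 : ℝ) ≤ u.val := by positivity
    linarith
  have hv0 : -(v.val + 1 : ℝ) < 0 := by
    have : (0 : ℝ) ≤ v.val := by positivity
    linarith
  refine ⟨-(v.val + 1), -(u.val + 1), lo k t, hi k t, hv0.ne, hu0.ne, by linarith, lo_hi k t, ?_,
    ?_, ncard_Ico _ a b k _ ?_ hab⟩
  · have := hi_pi k t ht; have := lo_pos k t; linarith
  · right
    exact ⟨side_neg k v t hv, side_neg k u t hu⟩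
  · rintro w ⟨h1, h2, h3⟩
    rcases meets k w t ht _ _ h3 with ⟨_, _, h5⟩ | ⟨h6, h4, h5⟩
    · exfalso
      have : (0 : ℝ) ≤ w.val := by positivity
      linarith
    · have h4' : (u.val : ℝ) ≤ w.val := by linarith
      have h5' : (w.val : ℝ) ≤ v.val := by linarith
      have h4'' : u ≤ w := by exact_mod_cast h4'
      have h5'' : w ≤ v := by exact_mod_cast h5'
      exact hc w.val (Fin.lt_def.1 (lt_of_le_of_ne h4'' (Ne.symm h1)))
        (Fin.lt_def.1 (lt_of_le_of_ne h5'' h2)) h6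

/-- visibility through the origin: `u` on the positive ray, `v` on the negative ray -/
theorem vis_cross (u v : Fin (5 * k + 6)) (t a b : ℕ) (ht : t < MM k)
    (hu : AP k u.val t) (hv : AN k v.val t) (hab : b ≤ a + k)
    (hc : ∀ w : ℕ, w ≠ u.val → w ≠ v.val → ((w < u.val ∧ AP k w t) ∨ (w < v.val ∧ AN k w t)) →
      a ≤ w ∧ w < b) :
    RadVis (AA k) k u v := by
  have hu0 : (0 : ℝ) < u.val + 1 := by positivity
  have hv0 : -(v.val + 1 : ℝ) < 0 := by
    have : (0 : ℝ) ≤ v.val := by positivity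
    linarith
  refine ⟨-(v.val + 1), u.val + 1, lo k t, hi k t, hv0.ne, hu0.ne', by linarith, lo_hi k t, ?_, ?_,
    ncard_Ico _ a b k _ ?_ hab⟩
  · have := hi_pi k t ht; have := lo_pos k t; linarith
  · right
    exact ⟨side_neg k v t hv, side_pos k u t hu⟩
  · rintro w ⟨h1, h2, h3⟩
    have n1 : w.val ≠ u.val := fun e => h1 (Fin.ext e)
    have n2 : w.val ≠ v.val := fun e => h2 (Fin.ext e)
    rcases meets k w t ht _ _ h3 with ⟨h6, h4, h5⟩ | ⟨h6, h4, h5⟩
    · have h5' : (w.val : ℝ) ≤ u.val := by linarith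
      have h5'' : w ≤ u := by exact_mod_cast h5'
      exact hc w.val n1 n2 (Or.inl ⟨Fin.lt_def.1 (lt_of_le_of_ne h5'' h1), h6⟩)
    · have h5' : (w.val : ℝ) ≤ v.val := by linarith
      have h5'' : w ≤ v := by exact_mod_cast h5'
      exact hc w.val n1 n2 (Or.inr ⟨Fin.lt_def.1 (lt_of_le_of_ne h5'' h2), h6⟩)

end rep

end Pool.Agent.X63.AC
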