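import Mathlib

/-!
Arc and semi-arc `k`-visibility graphs.
-/

set_option autoImplicit false

namespace Pool.Agent.X63

/-- the point `s (cos φ, sin φ)` of the plane; for `s < 0` this is the point with polar
coordinates `(|s|, φ + π)`. -/
noncomputable def rayPt (s φ : ℝ) : ℝ × ℝ := (s * Real.cos φ, s * Real.sin φ)

/-- the arc `{(r, α) : a ≤ α ≤ b}` in polar coordinates. -/
def arcSet (r a b : ℝ) : Set (ℝ × ℝ) := {p | ∃ φ, a ≤ φ ∧ φ ≤ b ∧ p = rayPt r φ}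

/-- the cone with signed radii `s₁ ≤ s₂` and angles `b₁ ≤ b₂`: for `0 < s₁` its two radial sides
do not meet, for `s₁ < 0 < s₂` they cross at the origin. -/
def coneSet (s₁ s₂ b₁ b₂ : ℝ) : Set (ℝ × ℝ) :=
  {p | ∃ s φ, s₁ ≤ s ∧ s ≤ s₂ ∧ b₁ ≤ φ ∧ φ ≤ b₂ ∧ p = rayPt s φ}

/-- The arcs `A u` and `A v` of the family `A` are radially `k`-visible: there is a non-degenerate
cone (signed radii `s₁ < s₂`, both nonzero, angles `b₁ < b₂ < b₁ + π`) whose two circular sides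
are contained in `A u` and in `A v` respectively and which meets at most `k` further arcs of the
family. -/
def RadVis {V : Type} (A : V → Set (ℝ × ℝ)) (k : ℕ) (u v : V) : Prop :=
  ∃ s₁ s₂ b₁ b₂ : ℝ, s₁ ≠ 0 ∧ s₂ ≠ 0 ∧ s₁ < s₂ ∧ b₁ < b₂ ∧ b₂ < b₁ + Real.pi ∧
    ((coneSet s₁ s₁ b₁ b₂ ⊆ A u ∧ coneSet s₂ s₂ b₁ b₂ ⊆ A v) ∨
      (coneSet s₁ s₁ b₁ b₂ ⊆ A v ∧ coneSet s₂ s₂ b₁ b₂ ⊆ A u)) ∧
    Set.ncard {w : V | w ≠ u ∧ w ≠ v ∧ (A w ∩ coneSet s₁ s₂ b₁ b₂).Nonempty} ≤ k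

/-- `G` is an arc `k`-visibility graph: its vertices can be assigned pairwise disjoint arcs
`{(r v, α) : a v ≤ α ≤ b v}` with `r v > 0`, `0 ≤ a v < 2π`, `0 ≤ b v - a v < 2π` so that two
distinct vertices are adjacent exactly when their arcs are radially `k`-visible. -/
def IsArcVis {V : Type} (k : ℕ) (G : SimpleGraph V) : Prop :=
  ∃ r a b : V → ℝ, (∀ v, 0 < r v ∧ 0 ≤ a v ∧ a v < 2 * Real.pi ∧ 0 ≤ b v - a v ∧
      b v - a v < 2 * Real.pi) ∧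
    (∀ u v, u ≠ v → Disjoint (arcSet (r u) (a u) (b u)) (arcSet (r v) (a v) (b v))) ∧
    ∀ u v, u ≠ v → (G.Adj u v ↔ RadVis (fun w => arcSet (r w) (a w) (b w)) k u v)

/-- `G` is a semi-arc `k`-visibility graph: it has such a representation in which the negative
endpoint `(r v, a v)` of every arc lies on the positive `x`-axis, i.e. `a v = 0` for all `v`. -/
def IsSemiArcVis {V : Type} (k : ℕ) (G : SimpleGraph V) : Prop :=
  ∃ r b : V → ℝ, (∀ v, 0 < r v ∧ 0 ≤ b v ∧ b v < 2 * Real.pi) ∧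
    (∀ u v, u ≠ v → Disjoint (arcSet (r u) 0 (b u)) (arcSet (r v) 0 (b v))) ∧
    ∀ u v, u ≠ v → (G.Adj u v ↔ RadVis (fun w => arcSet (r w) 0 (b w)) k u v)

end Pool.Agent.X63
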