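import Pool.Agent.X63.SemiArc

/-!
Arc `k`-visibility graphs with many edges: the explicit family of arcs.
-/

set_option autoImplicit false

namespace Pool.Agent.X63.AE

open Pool.Agent.X63 Pool.Agent.X63.SA Real

section rep

variable (k : ℕ)

/-- the arc with the position of the arc `w`: from `6 (k + 1)` on the positions are repeated with
period `3 (k + 1)` -/
def red (w : ℕ) : ℕ :=
  if w < 3 * (k + 1) then w else 3 * (k + 1) + (w - 3 * (k + 1)) % (3 * (k + 1))

/-- start of the arc `x < 6 (k + 1)`, in units of `π / (12 (k + 1))` -/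
def st0 (x : ℕ) : ℕ :=
  if x < k + 1 then 18 * (k + 1) - (x + 1)
  else if x < 2 * (k + 1) then 16 * (k + 1) - (x + 1)
  else if x < 3 * (k + 1) then 12 * (k + 1) - (x + 1)
  else if x < 4 * (k + 1) then 11 * (k + 1) - (x + 1)
  else if x < 5 * (k + 1) then 5 * (k + 1) - (x + 1)
  else 24 * (k + 1) - (x + 1)

/-- end of the arc `x < 6 (k + 1)`, in the same units -/
def en0 (x : ℕ) : ℕ :=
  if x < k + 1 then 24 * (k + 1) - (x + 1)
  else if x < 2 * (k + 1) then 24 * (k + 1) - (x + 1)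
  else if x < 3 * (k + 1) then 19 * (k + 1) - (x + 1)
  else if x < 4 * (k + 1) then 17 * (k + 1) + x
  else if x < 5 * (k + 1) then 11 * (k + 1) + x
  else 20 * (k + 1) + x

/-- start of the arc `w` -/
def st (w : ℕ) : ℕ := st0 k (red k w)
/-- end of the arc `w` -/
def en (w : ℕ) : ℕ := en0 k (red k w)

theorem cases0 (x : ℕ) :
    (x < k + 1 ∧ st0 k x = 18 * (k + 1) - (x + 1) ∧ en0 k x = 24 * (k + 1) - (x + 1)) ∨
    (k + 1 ≤ x ∧ x < 2 * (k + 1) ∧ st0 k x = 16 * (k + 1) - (x + 1) ∧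
      en0 k x = 24 * (k + 1) - (x + 1)) ∨
    (2 * (k + 1) ≤ x ∧ x < 3 * (k + 1) ∧ st0 k x = 12 * (k + 1) - (x + 1) ∧
      en0 k x = 19 * (k + 1) - (x + 1)) ∨
    (3 * (k + 1) ≤ x ∧ x < 4 * (k + 1) ∧ st0 k x = 11 * (k + 1) - (x + 1) ∧
      en0 k x = 17 * (k + 1) + x) ∨
    (4 * (k + 1) ≤ x ∧ x < 5 * (k + 1) ∧ st0 k x = 5 * (k + 1) - (x + 1) ∧
      en0 k x = 11 * (k + 1) + x) ∨
    (5 * (k + 1) ≤ x ∧ st0 k x = 24 * (k + 1) - (x + 1) ∧ en0 k x = 20 * (k + 1) + x) := by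
  unfold st0 en0
  split_ifs <;> omega

theorem red_lt (w : ℕ) : red k w < 6 * (k + 1) := by
  unfold red
  have := Nat.mod_lt (w - 3 * (k + 1)) (show 0 < 3 * (k + 1) by omega)
  split_ifs <;> omega

theorem red_base (w : ℕ) (hw : w < 6 * (k + 1)) : red k w = w := by
  unfold red
  split_ifs with h
  · rfl
  · rw [Nat.mod_eq_of_lt (by omega)]
    omega

theorem mod_aux (P p w : ℕ) (h1 : P * (p + 1) ≤ w) (h2 : w < P * (p + 1) + P) :
    ¬ w < P ∧ P + (w - P) % P = w - P * (p + 1) + P := by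
  have h3 : P * (p + 1) = P * p + P := by ring
  rw [h3] at h1 h2 ⊢
  have h5 : w - P = (w - (P * p + P)) + P * p := by omega
  refine ⟨by omega, ?_⟩
  rw [h5, Nat.add_mul_mod_self_left, Nat.mod_eq_of_lt (by omega)]
  omega

theorem red_per (q w : ℕ) (hq : 1 ≤ q) (h1 : 3 * (k + 1) * q ≤ w)
    (h2 : w < 3 * (k + 1) * q + 3 * (k + 1)) :
    red k w = w - 3 * (k + 1) * q + 3 * (k + 1) := by
  obtain ⟨p, rfl⟩ : ∃ p, q = p + 1 := ⟨q - 1, by omega⟩
  obtain ⟨h3, h4⟩ := mod_aux (3 * (k + 1)) p w h1 h2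
  unfold red
  rw [if_neg h3, h4]

theorem red_perQ (q Q w : ℕ) (hq : 1 ≤ q) (hQ : Q = 3 * (k + 1) * q) (h1 : Q ≤ w)
    (h2 : w < Q + 3 * (k + 1)) : red k w = w - Q + 3 * (k + 1) := by
  subst hQ
  exact red_per k q w hq h1 h2

theorem cases1 (w : ℕ) :
    (red k w < k + 1 ∧ st k w = 18 * (k + 1) - (red k w + 1) ∧
      en k w = 24 * (k + 1) - (red k w + 1)) ∨
    (k + 1 ≤ red k w ∧ red k w < 2 * (k + 1) ∧ st k w = 16 * (k + 1) - (red k w + 1) ∧
      en k w = 24 * (k + 1) - (red k w + 1)) ∨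
    (2 * (k + 1) ≤ red k w ∧ red k w < 3 * (k + 1) ∧ st k w = 12 * (k + 1) - (red k w + 1) ∧
      en k w = 19 * (k + 1) - (red k w + 1)) ∨
    (3 * (k + 1) ≤ red k w ∧ red k w < 4 * (k + 1) ∧ st k w = 11 * (k + 1) - (red k w + 1) ∧
      en k w = 17 * (k + 1) + red k w) ∨
    (4 * (k + 1) ≤ red k w ∧ red k w < 5 * (k + 1) ∧ st k w = 5 * (k + 1) - (red k w + 1) ∧
      en k w = 11 * (k + 1) + red k w) ∨
    (5 * (k + 1) ≤ red k w ∧ st k w = 24 * (k + 1) - (red k w + 1) ∧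
      en k w = 20 * (k + 1) + red k w) := by
  unfold st en
  exact cases0 k (red k w)

attribute [irreducible] red st en

/-- the positions of the arcs `w < 6 (k + 1)` -/
theorem cases_base (w : ℕ) (hw : w < 6 * (k + 1)) :
    (w < k + 1 ∧ st k w = 18 * (k + 1) - (w + 1) ∧ en k w = 24 * (k + 1) - (w + 1)) ∨
    (k + 1 ≤ w ∧ w < 2 * (k + 1) ∧ st k w = 16 * (k + 1) - (w + 1) ∧
      en k w = 24 * (k + 1) - (w + 1)) ∨
    (2 * (k + 1) ≤ w ∧ w < 3 * (k + 1) ∧ st k w = 12 * (k + 1) - (w + 1) ∧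
      en k w = 19 * (k + 1) - (w + 1)) ∨
    (3 * (k + 1) ≤ w ∧ w < 4 * (k + 1) ∧ st k w = 11 * (k + 1) - (w + 1) ∧
      en k w = 17 * (k + 1) + w) ∨
    (4 * (k + 1) ≤ w ∧ w < 5 * (k + 1) ∧ st k w = 5 * (k + 1) - (w + 1) ∧
      en k w = 11 * (k + 1) + w) ∨
    (5 * (k + 1) ≤ w ∧ st k w = 24 * (k + 1) - (w + 1) ∧ en k w = 20 * (k + 1) + w) := by
  have h := cases1 k w
  rw [red_base k w hw] at h
  exact h

/-- general facts on the endpoints -/
theorem st_en (w : ℕ) : st k w + 1 ≤ 24 * (k + 1) ∧ st k w ≤ en k w ∧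
    en k w + 1 ≤ st k w + 24 * (k + 1) ∧ en k w + 1 ≤ 26 * (k + 1) := by
  have h := cases1 k w
  have h1 := red_lt k w
  omega

/-- the positions of the arcs `Q + x`, `Q = 3 (k + 1) q`, `x < 6 (k + 1)` -/
theorem cases_per (q Q : ℕ) (hq : 1 ≤ q) (hQ : Q = 3 * (k + 1) * q) (x : ℕ)
    (h2 : x < 6 * (k + 1)) :
    (x < k + 1 ∧ st k (Q + x) = 8 * (k + 1) - (x + 1) ∧ en k (Q + x) = 20 * (k + 1) + x) ∨
    (k + 1 ≤ x ∧ x < 2 * (k + 1) ∧ st k (Q + x) = 2 * (k + 1) - (x + 1) ∧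
      en k (Q + x) = 14 * (k + 1) + x) ∨
    (2 * (k + 1) ≤ x ∧ x < 3 * (k + 1) ∧ st k (Q + x) = 21 * (k + 1) - (x + 1) ∧
      en k (Q + x) = 23 * (k + 1) + x) ∨
    (3 * (k + 1) ≤ x ∧ x < 4 * (k + 1) ∧ st k (Q + x) = 11 * (k + 1) - (x + 1) ∧
      en k (Q + x) = 17 * (k + 1) + x) ∨
    (4 * (k + 1) ≤ x ∧ x < 5 * (k + 1) ∧ st k (Q + x) = 5 * (k + 1) - (x + 1) ∧
      en k (Q + x) = 11 * (k + 1) + x) ∨
    (5 * (k + 1) ≤ x ∧ st k (Q + x) = 24 * (k + 1) - (x + 1) ∧
      en k (Q + x) = 20 * (k + 1) + x) := by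
  rcases Nat.lt_or_ge x (3 * (k + 1)) with h3 | h3
  · have hr : red k (Q + x) = x + 3 * (k + 1) := by
      have h := red_perQ k q Q (Q + x) hq hQ (Nat.le_add_right Q x) (Nat.add_lt_add_left h3 Q)
      rwa [Nat.add_sub_cancel_left] at h
    have h := cases1 k (Q + x)
    rw [hr] at h
    clear hr hQ hq
    generalize st k (Q + x) = s at *
    generalize en k (Q + x) = e at *
    clear Q q
    rcases h with ⟨h, _, _⟩ | ⟨h, h', _, _⟩ | ⟨h, h', _, _⟩ | ⟨h, h', a, b⟩ | ⟨h, h', a, b⟩ |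
      ⟨h, a, b⟩
    · exact absurd h (by clear * -; omega)
    · exact absurd h' (by clear * -; omega)
    · exact absurd h' (by clear * -; omega)
    · exact Or.inl ⟨by clear a b; omega, by clear b; omega, by clear a; omega⟩
    · exact Or.inr (Or.inl ⟨by clear a b; omega, by clear a b; omega, by clear b; omega,
        by clear a; omega⟩)
    · exact Or.inr (Or.inr (Or.inl ⟨by clear a b; omega, by clear a b; omega, by clear b; omega,
        by clear a; omega⟩))
  · obtain ⟨y, rfl⟩ : ∃ y, x = 3 * (k + 1) + y := ⟨x - 3 * (k + 1), by omega⟩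
    have h4 : y < 3 * (k + 1) := by
      clear hQ hq
      omega
    have hr : red k (Q + (3 * (k + 1) + y)) = 3 * (k + 1) + y := by
      have h := red_perQ k (q + 1) (Q + 3 * (k + 1)) (Q + (3 * (k + 1) + y))
        (Nat.le_add_left 1 q) (by rw [hQ, Nat.mul_succ (3 * (k + 1)) q])
        (by rw [← Nat.add_assoc]; exact Nat.le_add_right _ y)
        (by rw [← Nat.add_assoc]; exact Nat.add_lt_add_left h4 _)
      rw [← Nat.add_assoc, Nat.add_sub_cancel_left] at h
      rw [← Nat.add_assoc, h, Nat.add_comm]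
    have h := cases1 k (Q + (3 * (k + 1) + y))
    rw [hr] at h
    rcases h with ⟨h, _, _⟩ | ⟨_, h, _, _⟩ | ⟨_, h, _, _⟩ | h | h | h
    · exact absurd h (by clear * -; omega)
    · exact absurd h (by clear * -; omega)
    · exact absurd h (by clear * -; omega)
    · exact Or.inr (Or.inr (Or.inr (Or.inl h)))
    · exact Or.inr (Or.inr (Or.inr (Or.inr (Or.inl h))))
    · exact Or.inr (Or.inr (Or.inr (Or.inr (Or.inr h))))

/-- the number of steps of a half turn -/
abbrev MM : ℕ := 12 * (k + 1)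

/-- angular unit -/
noncomputable def del : ℝ := π / (12 * (k + 1))

theorem del_pos : 0 < del k := by
  unfold del
  have := Real.pi_pos
  positivity

theorem del_mul : (12 * ((k : ℝ) + 1)) * del k = π := by
  unfold del
  have : (12 * ((k : ℝ) + 1)) ≠ 0 := by positivity
  field_simp

/-- the endpoints of the arcs -/
noncomputable def lw (w : ℕ) : ℝ := st k w * del k
/-- the endpoints of the arcs -/
noncomputable def up (w : ℕ) : ℝ := en k w * del k

theorem lw_nonneg (w : ℕ) : 0 ≤ lw k w := by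
  unfold lw
  have := del_pos k
  positivity

theorem lw_lt (w : ℕ) : lw k w < 2 * π := by
  unfold lw
  have h1 := (st_en k w).1
  have h2 : (st k w : ℝ) + 1 ≤ 24 * (k + 1) := by exact_mod_cast h1
  have h3 := del_mul k
  have h4 := del_pos k
  nlinarith

theorem lw_le_up (w : ℕ) : lw k w ≤ up k w := by
  unfold lw up
  have h1 := (st_en k w).2.1
  have h2 : (st k w : ℝ) ≤ en k w := by exact_mod_cast h1
  exact mul_le_mul_of_nonneg_right h2 (del_pos k).le

theorem up_lt (w : ℕ) : up k w < lw k w + 2 * π := by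
  unfold lw up
  have h1 := (st_en k w).2.2.1
  have h2 : (en k w : ℝ) + 1 ≤ st k w + 24 * (k + 1) := by exact_mod_cast h1
  have h3 := del_mul k
  have h4 := del_pos k
  nlinarith

theorem up_lt' (w : ℕ) : up k w < 3 * π := by
  unfold up
  have h1 := (st_en k w).2.2.2
  have h2 : (en k w : ℝ) + 1 ≤ 26 * (k + 1) := by exact_mod_cast h1
  have h3 := del_mul k
  have h4 := del_pos k
  have h5 : (0 : ℝ) ≤ k := by positivity
  nlinarith

/-- arc is met by the positive ray at time `t` -/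
def AP (w t : ℕ) : Prop := (st k w ≤ t ∧ t + 1 ≤ en k w) ∨ t + 2 * MM k + 1 ≤ en k w
/-- arc is met by the negative ray at time `t` -/
def AN (w t : ℕ) : Prop := st k w ≤ t + MM k ∧ t + MM k + 1 ≤ en k w

/-- arcs of the representation -/
noncomputable def AA (n : ℕ) (w : Fin n) : Set (ℝ × ℝ) :=
  arcSet (w.val + 1) (lw k w.val) (up k w.val)

/-- start angle of the window at time `t` -/
noncomputable def lo (t : ℕ) : ℝ := (t + 1 / 4) * del k
/-- end angle of the window at time `t` -/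
noncomputable def hi (t : ℕ) : ℝ := (t + 3 / 4) * del k

theorem lo_pos (t : ℕ) : 0 < lo k t := by
  unfold lo
  have := del_pos k
  positivity

theorem lo_hi (t : ℕ) : lo k t < hi k t := by
  unfold lo hi
  have := del_pos k
  nlinarith

theorem hi_pi (t : ℕ) (ht : t < MM k) : hi k t < π := by
  unfold hi
  have h1 : t + 1 ≤ 12 * (k + 1) := ht
  have h2 : (t : ℝ) + 1 ≤ 12 * (k + 1) := by exact_mod_cast h1
  have h3 := del_mul k
  have h4 := del_pos k
  nlinarith

theorem AP_in (w t : ℕ) (h : AP k w t) : (lw k w ≤ lo k t ∧ hi k t ≤ up k w) ∨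
    (lw k w ≤ lo k t + 2 * π ∧ hi k t + 2 * π ≤ up k w) := by
  have hd := del_pos k
  have hm := del_mul k
  rcases h with h | h
  · left
    have h1 : (st k w : ℝ) ≤ t := by exact_mod_cast h.1
    have h2 : (t : ℝ) + 1 ≤ en k w := by exact_mod_cast h.2
    unfold lw up lo hi
    constructor <;> nlinarith
  · right
    have h0 := (st_en k w).1
    have h0' : (st k w : ℝ) + 1 ≤ 24 * (k + 1) := by exact_mod_cast h0
    have h' : t + 2 * (12 * (k + 1)) + 1 ≤ en k w := h
    have h2 : (t : ℝ) + 2 * (12 * (k + 1)) + 1 ≤ en k w := by exact_mod_cast h'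
    have h3 : (0 : ℝ) ≤ t := by positivity
    unfold lw up lo hi
    constructor <;> nlinarith

theorem not_AP (w t : ℕ) (h : ¬ AP k w t) : (hi k t < lw k w ∨ up k w < lo k t) ∧
    up k w < lo k t + 2 * π := by
  have hd := del_pos k
  have hm := del_mul k
  unfold AP at h
  rw [not_or] at h
  unfold lw up lo hi
  refine ⟨?_, ?_⟩
  · rcases Nat.lt_or_ge t (st k w) with h1 | h1
    · left
      have h2 : (t : ℝ) + 1 ≤ st k w := by exact_mod_cast h1
      nlinarith
    · right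
      have h3 : en k w ≤ t := by
        by_contra hc
        exact h.1 ⟨h1, by omega⟩
      have h2 : (en k w : ℝ) ≤ t := by exact_mod_cast h3
      nlinarith
  · have h3 : en k w ≤ t + 2 * (12 * (k + 1)) := by
      have := h.2
      unfold MM at this
      omega
    have h2 : (en k w : ℝ) ≤ t + 2 * (12 * (k + 1)) := by exact_mod_cast h3
    nlinarith

theorem AN_in (w t : ℕ) (h : AN k w t) : lw k w ≤ lo k t + π ∧ hi k t + π ≤ up k w := by
  have hd := del_pos k
  have hm := del_mul k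
  have h1 : (st k w : ℝ) ≤ t + 12 * (k + 1) := by exact_mod_cast h.1
  have h2 : (t : ℝ) + 12 * (k + 1) + 1 ≤ en k w := by exact_mod_cast h.2
  unfold lw up lo hi
  constructor <;> nlinarith

theorem not_AN (w t : ℕ) (h : ¬ AN k w t) : hi k t + π < lw k w ∨ up k w < lo k t + π := by
  have hd := del_pos k
  have hm := del_mul k
  unfold AN at h
  unfold lw up lo hi
  rcases Nat.lt_or_ge (t + MM k) (st k w) with h1 | h1
  · left
    have h2 : (t : ℝ) + 12 * (k + 1) + 1 ≤ st k w := by exact_mod_cast h1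
    nlinarith
  · right
    have h3 : en k w ≤ t + 12 * (k + 1) := by
      by_contra hc
      exact h ⟨h1, by unfold MM; omega⟩
    have h2 : (en k w : ℝ) ≤ t + 12 * (k + 1) := by exact_mod_cast h3
    nlinarith

theorem rayPt_two_pi (r φ : ℝ) : rayPt r (φ - 2 * π) = rayPt r φ := by
  unfold rayPt
  rw [Real.cos_sub_two_pi, Real.sin_sub_two_pi]

/-- which arcs meet a cone of the window at time `t` -/
theorem meets (n : ℕ) (w : Fin n) (t : ℕ) (ht : t < MM k) (s₁ s₂ : ℝ)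
    (h : (AA k n w ∩ coneSet s₁ s₂ (lo k t) (hi k t)).Nonempty) :
    (AP k w.val t ∧ s₁ ≤ w.val + 1 ∧ (w.val : ℝ) + 1 ≤ s₂) ∨
      (AN k w.val t ∧ s₁ ≤ -(w.val + 1) ∧ -((w.val : ℝ) + 1) ≤ s₂) := by
  obtain ⟨p, ⟨φ, h0, h1, hp⟩, s, ψ, hs1, hs2, g0, g1, hp'⟩ := h
  have hw : (0 : ℝ) < w.val + 1 := by positivity
  have hpi := Real.pi_pos
  have hlo := lo_pos k t
  have hhi := hi_pi k t ht
  have hlw := lw_nonneg k w.val
  have hup := up_lt' k w.val
  obtain ⟨φ', hφ0, hφ1, hφ2, hφ3⟩ : ∃ φ', 0 ≤ φ' ∧ φ' < 2 * π ∧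
      rayPt ((w.val : ℝ) + 1) φ = rayPt (w.val + 1) φ' ∧ (φ = φ' ∨ φ = φ' + 2 * π) := by
    rcases lt_or_ge φ (2 * π) with h | h
    · exact ⟨φ, by linarith, h, rfl, Or.inl rfl⟩
    · exact ⟨φ - 2 * π, by linarith, by linarith, (rayPt_two_pi _ _).symm,
        Or.inr (by ring)⟩
  rw [hp, hφ2] at hp'
  rcases lt_trichotomy s 0 with hs | hs | hs
  · right
    rw [rayPt_neg s ψ] at hp'
    obtain ⟨e1, e2⟩ := rayPt_inj _ _ _ _ hw (by linarith) hφ0 hφ1
      (by linarith) (by linarith) hp'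
    refine ⟨?_, by linarith, by linarith⟩
    by_contra hc
    rcases hφ3 with h3 | h3
    · rcases not_AN k w.val t hc with h | h <;> linarith
    · linarith
  · exfalso
    rw [hs] at hp'
    unfold rayPt at hp'
    simp only [zero_mul, Prod.mk.injEq, mul_eq_zero] at hp'
    have a1 := hp'.1.resolve_left hw.ne'
    have a2 := hp'.2.resolve_left hw.ne'
    have := Real.sin_sq_add_cos_sq φ'
    rw [a1, a2] at this
    norm_num at this
  · left
    obtain ⟨e1, e2⟩ := rayPt_inj _ _ _ _ hw hs hφ0 hφ1 (by linarith)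
      (by linarith) hp'
    refine ⟨?_, by linarith, by linarith⟩
    by_contra hc
    obtain ⟨c1, c2⟩ := not_AP k w.val t hc
    rcases hφ3 with h3 | h3
    · rcases c1 with h | h <;> linarith
    · linarith

theorem side_pos (n : ℕ) (w : Fin n) (t : ℕ) (h : AP k w.val t) :
    coneSet (w.val + 1) (w.val + 1) (lo k t) (hi k t) ⊆ AA k n w := by
  rintro p ⟨s, φ, h1, h2, h3, h4, rfl⟩
  have hs : s = w.val + 1 := le_antisymm h2 h1
  subst hs
  rcases AP_in k w.val t h with this | this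
  · exact ⟨φ, by linarith, by linarith, rfl⟩
  · refine ⟨φ + 2 * π, by linarith, by linarith, ?_⟩
    rw [← rayPt_two_pi _ (φ + 2 * π), add_sub_cancel_right]

theorem side_neg (n : ℕ) (w : Fin n) (t : ℕ) (h : AN k w.val t) :
    coneSet (-(w.val + 1)) (-(w.val + 1)) (lo k t) (hi k t) ⊆ AA k n w := by
  rintro p ⟨s, φ, h1, h2, h3, h4, rfl⟩
  have hs : s = -(w.val + 1) := le_antisymm h2 h1
  subst hs
  have := AN_in k w.val t h
  refine ⟨φ + π, by linarith, by linarith, ?_⟩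
  rw [rayPt_neg, neg_neg]

/-- counting two intervals of `Fin` -/
theorem ncard_two (n a b c d m : ℕ) (S : Set (Fin n))
    (hS : ∀ w ∈ S, (a ≤ w.val ∧ w.val < b) ∨ (c ≤ w.val ∧ w.val < d))
    (hab : (b - a) + (d - c) ≤ m) : S.ncard ≤ m := by
  have h1 : S.ncard = (Fin.val '' S).ncard :=
    (Set.ncard_image_of_injective S Fin.val_injective).symm
  rw [h1]
  have h2 : Fin.val '' S ⊆ ((Finset.Ico a b ∪ Finset.Ico c d : Finset ℕ) : Set ℕ) := by
    rintro x ⟨w, hw, rfl⟩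
    simp only [Finset.coe_union, Finset.coe_Ico, Set.mem_union, Set.mem_Ico]
    exact hS w hw
  have h3 := Finset.card_union_le (Finset.Ico a b) (Finset.Ico c d)
  rw [Nat.card_Ico, Nat.card_Ico] at h3
  calc (Fin.val '' S).ncard ≤ ((Finset.Ico a b ∪ Finset.Ico c d : Finset ℕ) : Set ℕ).ncard :=
        Set.ncard_le_ncard h2 (Finset.finite_toSet _)
    _ = (Finset.Ico a b ∪ Finset.Ico c d).card := Set.ncard_coe_finset _
    _ ≤ m := by omega

variable (n : ℕ)

/-- visibility along the positive ray -/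
theorem vis_pos (u v : Fin n) (t a b c d : ℕ) (ht : t < MM k) (huv : u < v)
    (hu : AP k u.val t) (hv : AP k v.val t) (hab : (b - a) + (d - c) ≤ k)
    (hc : ∀ w : ℕ, u.val < w → w < v.val → AP k w t → (a ≤ w ∧ w < b) ∨ (c ≤ w ∧ w < d)) :
    RadVis (AA k n) k u v := by
  have huv' : (u.val : ℝ) < v.val := by exact_mod_cast huv
  have hu0 : (0 : ℝ) < u.val + 1 := by positivity
  have hv0 : (0 : ℝ) < v.val + 1 := by positivity
  refine ⟨u.val + 1, v.val + 1, lo k t, hi k t, hu0.ne', hv0.ne', by linarith, lo_hi k t, ?_, ?_,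
    ncard_two _ a b c d k _ ?_ hab⟩
  · have := hi_pi k t ht; have := lo_pos k t; linarith
  · left
    exact ⟨side_pos k n u t hu, side_pos k n v t hv⟩
  · rintro w ⟨h1, h2, h3⟩
    rcases meets k n w t ht _ _ h3 with ⟨h6, h4, h5⟩ | ⟨_, h4, _⟩
    · have h4' : (u.val : ℝ) ≤ w.val := by linarith
      have h5' : (w.val : ℝ) ≤ v.val := by linarith
      have h4'' : u ≤ w := by exact_mod_cast h4'
      have h5'' : w ≤ v := by exact_mod_cast h5'
      exact hc w.val (Fin.lt_def.1 (lt_of_le_of_ne h4'' (Ne.symm h1)))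
        (Fin.lt_def.1 (lt_of_le_of_ne h5'' h2)) h6
    · exfalso
      have : (0 : ℝ) ≤ w.val := by positivity
      linarith

/-- visibility along the negative ray -/
theorem vis_neg (u v : Fin n) (t a b c d : ℕ) (ht : t < MM k) (huv : u < v)
    (hu : AN k u.val t) (hv : AN k v.val t) (hab : (b - a) + (d - c) ≤ k)
    (hc : ∀ w : ℕ, u.val < w → w < v.val → AN k w t → (a ≤ w ∧ w < b) ∨ (c ≤ w ∧ w < d)) :
    RadVis (AA k n) k u v := by
  have huv' : (u.val : ℝ) < v.val := by exact_mod_cast huv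
  have hu0 : -(u.val + 1 : ℝ) < 0 := by
    have : (0 : ℝ) ≤ u.val := by positivity
    linarith
  have hv0 : -(v.val + 1 : ℝ) < 0 := by
    have : (0 : ℝ) ≤ v.val := by positivity
    linarith
  refine ⟨-(v.val + 1), -(u.val + 1), lo k t, hi k t, hv0.ne, hu0.ne, by linarith, lo_hi k t, ?_,
    ?_, ncard_two _ a b c d k _ ?_ hab⟩
  · have := hi_pi k t ht; have := lo_pos k t; linarith
  · right
    exact ⟨side_neg k n v t hv, side_neg k n u t hu⟩
  · rintro w ⟨h1, h2, h3⟩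
    rcases meets k n w t ht _ _ h3 with ⟨_, _, h5⟩ | ⟨h6, h4, h5⟩
    · exfalso
      have : (0 : ℝ) ≤ w.val := by positivity
      linarith
    · have h4' : (u.val : ℝ) ≤ w.val := by linarith
      have h5' : (w.val : ℝ) ≤ v.val := by linarith
      have h4'' : u ≤ w := by exact_mod_cast h4'
      have h5'' : w ≤ v := by exact_mod_cast h5'
      exact hc w.val (Fin.lt_def.1 (lt_of_le_of_ne h4'' (Ne.symm h1)))
        (Fin.lt_def.1 (lt_of_le_of_ne h5'' h2)) h6

/-- visibility through the origin: `u` on the positive ray, `v` on the negative ray -/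
theorem vis_cross (u v : Fin n) (t a b c d : ℕ) (ht : t < MM k)
    (hu : AP k u.val t) (hv : AN k v.val t) (hab : (b - a) + (d - c) ≤ k)
    (hc : ∀ w : ℕ, w ≠ u.val → w ≠ v.val → ((w < u.val ∧ AP k w t) ∨ (w < v.val ∧ AN k w t)) →
      (a ≤ w ∧ w < b) ∨ (c ≤ w ∧ w < d)) :
    RadVis (AA k n) k u v := by
  have hu0 : (0 : ℝ) < u.val + 1 := by positivity
  have hv0 : -(v.val + 1 : ℝ) < 0 := by
    have : (0 : ℝ) ≤ v.val := by positivity
    linarith
  refine ⟨-(v.val + 1), u.val + 1, lo k t, hi k t, hv0.ne, hu0.ne', by linarith, lo_hi k t, ?_, ?_,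
    ncard_two _ a b c d k _ ?_ hab⟩
  · have := hi_pi k t ht; have := lo_pos k t; linarith
  · right
    exact ⟨side_neg k n v t hv, side_pos k n u t hu⟩
  · rintro w ⟨h1, h2, h3⟩
    have n1 : w.val ≠ u.val := fun e => h1 (Fin.ext e)
    have n2 : w.val ≠ v.val := fun e => h2 (Fin.ext e)
    rcases meets k n w t ht _ _ h3 with ⟨h6, h4, h5⟩ | ⟨h6, h4, h5⟩
    · have h5' : (w.val : ℝ) ≤ u.val := by linarith
      have h5'' : w ≤ u := by exact_mod_cast h5'
      exact hc w.val n1 n2 (Or.inl ⟨Fin.lt_def.1 (lt_of_le_of_ne h5'' h1), h6⟩)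
    · have h5' : (w.val : ℝ) ≤ v.val := by linarith
      have h5'' : w ≤ v := by exact_mod_cast h5'
      exact hc w.val n1 n2 (Or.inr ⟨Fin.lt_def.1 (lt_of_le_of_ne h5'' h2), h6⟩)

end rep

end Pool.Agent.X63.AE
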