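import Pool.Agent.X63.ArcEdges

/-!
Arc `k`-visibility graphs with many edges: the visibilities between the first `6 (k + 1)` arcs.
-/

set_option autoImplicit false

namespace Pool.Agent.X63.AE

open Pool.Agent.X63 Pool.Agent.X63.SA Real

/-- the pairs of the first `6 (k + 1)` arcs which are shown to be visible -/
def Good (k x y : ℕ) : Prop :=
  (x < k + 1 → k + 1 ≤ y → y < 2 * (k + 1) → y ≤ x + (k + 1)) ∧
  (k + 1 ≤ x → x < 2 * (k + 1) → 2 * (k + 1) ≤ y → y < 3 * (k + 1) → y ≤ x + (k + 1)) ∧
  (2 * (k + 1) ≤ x → x < 3 * (k + 1) → 5 * (k + 1) ≤ y → x + y < 8 * (k + 1))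

theorem vis_base (k n : ℕ) (u v : Fin n) (huv : u < v) (hy : v.val < 6 * (k + 1))
    (hg : Good k u.val v.val) : RadVis (AA k n) k u v := by
  have huv' : u.val < v.val := huv
  have pos : ∀ t a b c d : ℕ, t < MM k → AP k u.val t → AP k v.val t → (b - a) + (d - c) ≤ k →
      (∀ w : ℕ, u.val < w → w < v.val → AP k w t → (a ≤ w ∧ w < b) ∨ (c ≤ w ∧ w < d)) →
      RadVis (AA k n) k u v :=
    fun t a b c d ht hu hv hab hc => vis_pos k n u v t a b c d ht huv hu hv hab hc
  have neg : ∀ t a b c d : ℕ, t < MM k → AN k u.val t → AN k v.val t → (b - a) + (d - c) ≤ k →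
      (∀ w : ℕ, u.val < w → w < v.val → AN k w t → (a ≤ w ∧ w < b) ∨ (c ≤ w ∧ w < d)) →
      RadVis (AA k n) k u v :=
    fun t a b c d ht hu hv hab hc => vis_neg k n u v t a b c d ht huv hu hv hab hc
  have pn : ∀ t a b c d : ℕ, t < MM k → AP k u.val t → AN k v.val t → (b - a) + (d - c) ≤ k →
      (∀ w : ℕ, w ≠ u.val → w ≠ v.val → w < 6 * (k + 1) →
        ((w < u.val ∧ AP k w t) ∨ (w < v.val ∧ AN k w t)) →
        (a ≤ w ∧ w < b) ∨ (c ≤ w ∧ w < d)) → RadVis (AA k n) k u v :=
    fun t a b c d ht hu hv hab hc => vis_cross k n u v t a b c d ht hu hv hab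
      fun w h1 h2 h3 => hc w h1 h2 (by omega) h3
  have np : ∀ t a b c d : ℕ, t < MM k → AP k v.val t → AN k u.val t → (b - a) + (d - c) ≤ k →
      (∀ w : ℕ, w ≠ v.val → w ≠ u.val → w < 6 * (k + 1) →
        ((w < v.val ∧ AP k w t) ∨ (w < u.val ∧ AN k w t)) →
        (a ≤ w ∧ w < b) ∨ (c ≤ w ∧ w < d)) → RadVis (AA k n) k u v :=
    fun t a b c d ht hu hv hab hc => SA.RadVis.symm' (vis_cross k n v u t a b c d ht hu hv hab
      fun w h1 h2 h3 => hc w h1 h2 (by omega) h3)
  generalize u.val = x at *
  generalize v.val = y at *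
  obtain ⟨g1, g2, g3⟩ := hg
  have cx := cases_base k x (by omega)
  have cy := cases_base k y hy
  simp only [AP, AN, MM] at pos neg pn np
  rcases Nat.lt_or_ge x (k + 1) with gx | gx
  · have cx' : st k x = 18 * (k + 1) - (x + 1) ∧ en k x = 24 * (k + 1) - (x + 1) := by
      clear cy; omega
    clear cx
    rcases Nat.lt_or_ge y (k + 1) with gy | gy
    · -- (0, 0)
      refine neg (12 * (k + 1) - 2 - y) (x + 1) y 0 0 (by omega) (by omega) (by omega) (by omega) ?_
      intro w h1 h2 _
      omega
    rcases Nat.lt_or_ge y (2 * (k + 1)) with gy' | gy'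
    · -- (0, 1)
      have g := g1 gx gy gy'
      refine neg (12 * (k + 1) - 2 - y) (x + 1) y 0 0 (by omega) (by omega) (by omega) (by omega) ?_
      intro w h1 h2 _
      omega
    rcases Nat.lt_or_ge y (3 * (k + 1)) with gy'' | gy''
    · -- (0, 2)
      refine np (12 * (k + 1) - 1 - y) 0 k 0 0 (by omega) (by omega) (by omega) (by omega) ?_
      intro w h1 h2 h4 h3
      have cw := cases_base k w h4
      omega
    rcases Nat.lt_or_ge y (4 * (k + 1)) with gy3 | gy3
    · -- (0, 3)
      refine np (11 * (k + 1) - 1 - y) 0 k 0 0 (by omega) (by omega) (by omega) (by omega) ?_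
      intro w h1 h2 h4 h3
      have cw := cases_base k w h4
      omega
    rcases Nat.lt_or_ge y (5 * (k + 1)) with gy4 | gy4
    · -- (0, 4)
      refine np (6 * (k + 1) - 1 - x) (4 * (k + 1)) (4 * (k + 1) + k) 0 0 (by omega) (by omega)
        (by omega) (by omega) ?_
      intro w h1 h2 h4 h3
      have cw := cases_base k w h4
      omega
    · -- (0, 5)
      refine neg (12 * (k + 1) - 2 - x) (5 * (k + 1)) y 0 0 (by omega) (by omega) (by omega)
        (by omega) ?_
      intro w h1 h2 h3
      have cw := cases_base k w (by omega)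
      omega
  rcases Nat.lt_or_ge x (2 * (k + 1)) with gx' | gx'
  · have cx' : st k x = 16 * (k + 1) - (x + 1) ∧ en k x = 24 * (k + 1) - (x + 1) := by
      clear cy; omega
    clear cx
    rcases Nat.lt_or_ge y (2 * (k + 1)) with gy' | gy'
    · -- (1, 1)
      refine neg (12 * (k + 1) - 2 - y) (x + 1) y 0 0 (by omega) (by omega) (by omega) (by omega) ?_
      intro w h1 h2 _
      omega
    rcases Nat.lt_or_ge y (3 * (k + 1)) with gy'' | gy''
    · -- (1, 2)
      have g := g2 gx gx' gy' gy''
      refine neg (7 * (k + 1) - 2 - y) (x + 1) y 0 0 (by omega) (by omega) (by omega) (by omega) ?_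
      intro w h1 h2 h3
      omega
    rcases Nat.lt_or_ge y (4 * (k + 1)) with gy3 | gy3
    · -- (1, 3)
      refine neg (5 * (k + 1) + y - 1) (x + 1) (2 * (k + 1)) 0 0 (by omega) (by omega) (by omega)
        (by omega) ?_
      intro w h1 h2 h3
      have cw := cases_base k w (by omega)
      omega
    rcases Nat.lt_or_ge y (5 * (k + 1)) with gy4 | gy4
    · -- (1, 4)
      refine np (4 * (k + 1) - 1 - x) (4 * (k + 1)) (4 * (k + 1) + k) 0 0 (by omega) (by omega)
        (by omega) (by omega) ?_
      intro w h1 h2 h4 h3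
      have cw := cases_base k w h4
      omega
    · -- (1, 5)
      refine neg (12 * (k + 1) - 2 - x) (5 * (k + 1)) y 0 0 (by omega) (by omega) (by omega)
        (by omega) ?_
      intro w h1 h2 h3
      have cw := cases_base k w (by omega)
      omega
  rcases Nat.lt_or_ge x (3 * (k + 1)) with gx'' | gx''
  · have cx' : st k x = 12 * (k + 1) - (x + 1) ∧ en k x = 19 * (k + 1) - (x + 1) := by
      clear cy; omega
    clear cx
    rcases Nat.lt_or_ge y (3 * (k + 1)) with gy'' | gy''
    · -- (2, 2)
      refine neg (7 * (k + 1) - 2 - y) (x + 1) y 0 0 (by omega) (by omega) (by omega) (by omega) ?_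
      intro w h1 h2 _
      omega
    rcases Nat.lt_or_ge y (4 * (k + 1)) with gy3 | gy3
    · -- (2, 3)
      refine neg (7 * (k + 1) - 2 - x) (3 * (k + 1)) y 0 0 (by omega) (by omega) (by omega)
        (by omega) ?_
      intro w h1 h2 h3
      have cw := cases_base k w (by omega)
      omega
    rcases Nat.lt_or_ge y (5 * (k + 1)) with gy4 | gy4
    · -- (2, 4)
      refine np (5 * (k + 1) - 1 - y) (2 * (k + 1)) (2 * (k + 1) + k) 0 0 (by omega) (by omega)
        (by omega) (by omega) ?_
      intro w h1 h2 h4 h3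
      have cw := cases_base k w h4
      omega
    · -- (2, 5)
      have g := g3 gx' gx'' gy4
      refine pn (12 * (k + 1) - 1) (2 * (k + 1)) x (5 * (k + 1)) y (by omega) (by omega) (by omega)
        (by omega) ?_
      intro w h1 h2 h4 h3
      have cw := cases_base k w h4
      omega
  rcases Nat.lt_or_ge x (4 * (k + 1)) with gx3 | gx3
  · have cx' : st k x = 11 * (k + 1) - (x + 1) ∧ en k x = 17 * (k + 1) + x := by
      clear cy; omega
    clear cx
    rcases Nat.lt_or_ge y (4 * (k + 1)) with gy3 | gy3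
    · -- (3, 3)
      refine neg (5 * (k + 1) + x - 1) (x + 1) y 0 0 (by omega) (by omega) (by omega) (by omega) ?_
      intro w h1 h2 _
      omega
    rcases Nat.lt_or_ge y (5 * (k + 1)) with gy4 | gy4
    · -- (3, 4)
      refine neg (y - (k + 1) - 1) (x + 1) (4 * (k + 1)) 0 0 (by omega) (by omega) (by omega)
        (by omega) ?_
      intro w h1 h2 h3
      have cw := cases_base k w (by omega)
      omega
    · -- (3, 5)
      refine neg (12 * (k + 1) - 1 - y) (x + 1) (4 * (k + 1)) 0 0 (by omega) (by omega) (by omega)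
        (by omega) ?_
      intro w h1 h2 h3
      have cw := cases_base k w (by omega)
      omega
  rcases Nat.lt_or_ge x (5 * (k + 1)) with gx4 | gx4
  · have cx' : st k x = 5 * (k + 1) - (x + 1) ∧ en k x = 11 * (k + 1) + x := by
      clear cy; omega
    clear cx
    rcases Nat.lt_or_ge y (5 * (k + 1)) with gy4 | gy4
    · -- (4, 4)
      refine neg (x - (k + 1) - 1) (x + 1) y 0 0 (by omega) (by omega) (by omega) (by omega) ?_
      intro w h1 h2 _
      omega
    · -- (4, 5)
      refine pos (y - 4 * (k + 1) - 1) (x + 1) (5 * (k + 1)) 0 0 (by omega) (by omega) (by omega)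
        (by omega) ?_
      intro w h1 h2 h3
      have cw := cases_base k w (by omega)
      omega
  · -- (5, 5)
    have cx' : st k x = 24 * (k + 1) - (x + 1) ∧ en k x = 20 * (k + 1) + x := by
      clear cy; omega
    clear cx
    refine pos (x - 4 * (k + 1) - 1) (x + 1) y 0 0 (by omega) (by omega) (by omega) (by omega) ?_
    intro w h1 h2 _
    omega

end Pool.Agent.X63.AE
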