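import Pool.Agent.X63.ArcEdges

/-!
Arc `k`-visibility graphs with many edges: the visibilities of the arcs from `6 (k + 1)` on.
-/

set_option autoImplicit false

namespace Pool.Agent.X63.AE

open Pool.Agent.X63 Pool.Agent.X63.SA Real

theorem vis_per (k n : ℕ) (u v : Fin n) (q Q x y : ℕ) (hq : 1 ≤ q) (hQ : Q = 3 * (k + 1) * q)
    (hu : u.val = Q + x) (hv : v.val = Q + y) (h1 : 3 * (k + 1) ≤ y) (h2 : y < 6 * (k + 1))
    (hxy : x < y) (h3 : y ≤ x + 3 * (k + 1)) : RadVis (AA k n) k u v := by
  have huv : u < v := by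
    rw [Fin.lt_def, hu, hv]
    exact Nat.add_lt_add_left hxy Q
  have pos : ∀ t a b c d : ℕ, t < MM k → AP k (Q + x) t → AP k (Q + y) t →
      (b - a) + (d - c) ≤ k →
      (∀ w : ℕ, x < w → w < y → AP k (Q + w) t → (a ≤ w ∧ w < b) ∨ (c ≤ w ∧ w < d)) →
      RadVis (AA k n) k u v := by
    intro t a b c d ht hu' hv' hab hc
    refine vis_pos k n u v t (Q + a) (Q + b) (Q + c) (Q + d) ht huv (by rw [hu]; exact hu')
      (by rw [hv]; exact hv') (by rw [Nat.add_sub_add_left, Nat.add_sub_add_left]; exact hab) ?_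
    intro w h4 h5 h6
    rw [hu] at h4
    rw [hv] at h5
    obtain ⟨w', rfl⟩ : ∃ w', w = Q + w' := ⟨w - Q, by clear hQ; omega⟩
    rcases hc w' (by clear hQ; omega) (by clear hQ; omega) h6 with h | h
    · left; clear hQ; omega
    · right; clear hQ; omega
  have neg : ∀ t a b c d : ℕ, t < MM k → AN k (Q + x) t → AN k (Q + y) t →
      (b - a) + (d - c) ≤ k →
      (∀ w : ℕ, x < w → w < y → AN k (Q + w) t → (a ≤ w ∧ w < b) ∨ (c ≤ w ∧ w < d)) →
      RadVis (AA k n) k u v := by
    intro t a b c d ht hu' hv' hab hc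
    refine vis_neg k n u v t (Q + a) (Q + b) (Q + c) (Q + d) ht huv (by rw [hu]; exact hu')
      (by rw [hv]; exact hv') (by rw [Nat.add_sub_add_left, Nat.add_sub_add_left]; exact hab) ?_
    intro w h4 h5 h6
    rw [hu] at h4
    rw [hv] at h5
    obtain ⟨w', rfl⟩ : ∃ w', w = Q + w' := ⟨w - Q, by clear hQ; omega⟩
    rcases hc w' (by clear hQ; omega) (by clear hQ; omega) h6 with h | h
    · left; clear hQ; omega
    · right; clear hQ; omega
  have cs := fun w hw => cases_per k q Q hq hQ w hw
  clear hQ hq hu hv huv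
  obtain ⟨S, hS⟩ : ∃ S : ℕ → ℕ, ∀ w, S w = st k (Q + w) := ⟨_, fun _ => rfl⟩
  obtain ⟨T, hT⟩ : ∃ T : ℕ → ℕ, ∀ w, T w = en k (Q + w) := ⟨_, fun _ => rfl⟩
  simp only [AP, AN, MM, ← hS, ← hT] at pos neg cs
  clear hS hT
  have cx := cs x (by omega)
  have cy := cs y h2
  rcases Nat.lt_or_ge y (4 * (k + 1)) with gy | gy
  · have cy' : S y = 11 * (k + 1) - (y + 1) ∧ T y = 17 * (k + 1) + y := by
      clear cx; omega
    clear cy
    rcases Nat.lt_or_ge x (k + 1) with gx | gx
    · -- (3, 6)
      refine neg (4 * (k + 1) - 1) (x + 1) (k + 1) (3 * (k + 1)) y (by omega) (by omega)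
        (by omega) (by omega) ?_
      intro w h4 h5 h6
      have cw := cs w (by omega)
      omega
    rcases Nat.lt_or_ge x (2 * (k + 1)) with gx' | gx'
    · -- (4, 6)
      refine pos (11 * (k + 1) - 1 - y) (x + 1) (2 * (k + 1)) 0 0 (by omega) (by omega)
        (by omega) (by omega) ?_
      intro w h4 h5 h6
      have cw := cs w (by omega)
      omega
    rcases Nat.lt_or_ge x (3 * (k + 1)) with gx'' | gx''
    · -- (5, 6)
      refine neg (5 * (k + 1) + y - 1) (x + 1) (3 * (k + 1)) 0 0 (by omega) (by omega)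
        (by omega) (by omega) ?_
      intro w h4 h5 h6
      have cw := cs w (by omega)
      omega
    · -- (6, 6)
      refine neg (5 * (k + 1) + x - 1) (x + 1) y 0 0 (by omega) (by omega) (by omega) (by omega) ?_
      intro w h4 h5 _
      omega
  rcases Nat.lt_or_ge y (5 * (k + 1)) with gy' | gy'
  · have cy' : S y = 5 * (k + 1) - (y + 1) ∧ T y = 11 * (k + 1) + y := by
      clear cx; omega
    clear cy
    rcases Nat.lt_or_ge x (2 * (k + 1)) with gx' | gx'
    · -- (4, 7)
      refine pos (2 * (k + 1) - 1) (x + 1) (2 * (k + 1)) (4 * (k + 1)) y (by omega) (by omega)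
        (by omega) (by omega) ?_
      intro w h4 h5 h6
      have cw := cs w (by omega)
      omega
    rcases Nat.lt_or_ge x (3 * (k + 1)) with gx'' | gx''
    · -- (5, 7)
      refine pos (5 * (k + 1) - 1 - y) (x + 1) (3 * (k + 1)) 0 0 (by omega) (by omega)
        (by omega) (by omega) ?_
      intro w h4 h5 h6
      have cw := cs w (by omega)
      omega
    rcases Nat.lt_or_ge x (4 * (k + 1)) with gx3 | gx3
    · -- (6, 7)
      refine neg (y - (k + 1) - 1) (x + 1) (4 * (k + 1)) 0 0 (by omega) (by omega)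
        (by omega) (by omega) ?_
      intro w h4 h5 h6
      have cw := cs w (by omega)
      omega
    · -- (7, 7)
      refine neg (x - (k + 1) - 1) (x + 1) y 0 0 (by omega) (by omega) (by omega) (by omega) ?_
      intro w h4 h5 _
      omega
  · have cy' : S y = 24 * (k + 1) - (y + 1) ∧ T y = 20 * (k + 1) + y := by
      clear cx; omega
    clear cy
    rcases Nat.lt_or_ge x (3 * (k + 1)) with gx'' | gx''
    · -- (5, 8)
      refine neg (9 * (k + 1) - 1) (x + 1) (3 * (k + 1)) (5 * (k + 1)) y (by omega) (by omega)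
        (by omega) (by omega) ?_
      intro w h4 h5 h6
      have cw := cs w (by omega)
      omega
    rcases Nat.lt_or_ge x (4 * (k + 1)) with gx3 | gx3
    · -- (6, 8)
      refine neg (12 * (k + 1) - 1 - y) (x + 1) (4 * (k + 1)) 0 0 (by omega) (by omega)
        (by omega) (by omega) ?_
      intro w h4 h5 h6
      have cw := cs w (by omega)
      omega
    rcases Nat.lt_or_ge x (5 * (k + 1)) with gx4 | gx4
    · -- (7, 8)
      refine pos (y - 4 * (k + 1) - 1) (x + 1) (5 * (k + 1)) 0 0 (by omega) (by omega)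
        (by omega) (by omega) ?_
      intro w h4 h5 h6
      have cw := cs w (by omega)
      omega
    · -- (8, 8)
      refine pos (x - 4 * (k + 1) - 1) (x + 1) y 0 0 (by omega) (by omega) (by omega) (by omega) ?_
      intro w h4 h5 _
      omega

end Pool.Agent.X63.AE
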