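import Pool.Agent.X63.SemiGen

/-!
Many edges in semi-arc `k`-visibility graphs: the explicit representations and the edge count.
-/

set_option autoImplicit false

namespace Pool.Agent.X63.SC

open Pool.Agent.X63 Pool.Agent.X63.SG Finset

/-- the triangular number `1 + ... + m`, doubled, counts the pairs `a + b < m` twice -/
theorem tri (m : ℕ) :
    2 * ((range m ×ˢ range m).filter (fun p => p.1 + p.2 < m)).card = m * (m + 1) := by
  have h : ((range m ×ˢ range m).filter (fun p => p.1 + p.2 < m)) =
      (range m).biUnion (fun a => (range (m - a)).image (fun b => (a, b))) := by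
    ext ⟨a, b⟩
    simp only [mem_filter, mem_product, mem_range, mem_biUnion, mem_image, Prod.mk.injEq]
    constructor
    · rintro ⟨⟨h1, h2⟩, h3⟩
      exact ⟨a, h1, b, by omega, rfl, rfl⟩
    · rintro ⟨a', h1, b', h2, rfl, rfl⟩
      omega
  rw [h, card_biUnion]
  · have h2 : ∀ a ∈ range m, ((range (m - a)).image (fun b => (a, b))).card = m - a := by
      intro a _
      rw [card_image_of_injective, card_range]
      intro b b' hb
      exact (Prod.ext_iff.1 hb).2
    rw [sum_congr rfl h2]
    clear h h2
    induction m with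
    | zero => simp
    | succ m ih =>
      rw [sum_range_succ]
      have : ∀ a ∈ range m, m + 1 - a = (m - a) + 1 := by
        intro a ha
        rw [mem_range] at ha
        omega
      rw [sum_congr rfl this, sum_add_distrib]
      simp only [sum_const, card_range, smul_eq_mul, mul_one]
      have h4 : m + 1 - m = 1 := by omega
      rw [h4]
      nlinarith
  · intro a _ b _ hab
    rw [Function.onFun, Finset.disjoint_left]
    rintro p hp hp'
    obtain ⟨x, _, rfl⟩ := mem_image.1 hp
    obtain ⟨y, _, h3⟩ := mem_image.1 hp'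
    exact hab (Prod.ext_iff.1 h3).1.symm

/-- a set of pairs is counted by its complement in a rectangle -/
theorem rect (a b m : ℕ) (p : ℕ × ℕ → Prop) [DecidablePred p] (f : ℕ × ℕ → ℕ × ℕ)
    (hf : ∀ q ∈ range a ×ˢ range b, ¬ p q → (f q).1 + (f q).2 < m)
    (hinj : ∀ q ∈ range a ×ˢ range b, ∀ q' ∈ range a ×ˢ range b, ¬ p q → ¬ p q' → f q = f q' →
      q = q') :
    2 * (a * b) ≤ 2 * ((range a ×ˢ range b).filter p).card + m * (m + 1) := by
  have h1 := Finset.card_filter_add_card_filter_not (s := range a ×ˢ range b) p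
  rw [card_product, card_range, card_range] at h1
  have h2 : ((range a ×ˢ range b).filter (fun q => ¬ p q)).card ≤
      ((range m ×ˢ range m).filter (fun p => p.1 + p.2 < m)).card := by
    refine card_le_card_of_injOn f ?_ ?_
    · intro q hq
      rw [mem_coe, mem_filter] at hq
      have h3 := hf q hq.1 hq.2
      rw [mem_coe, mem_filter, mem_product, mem_range, mem_range]
      omega
    · intro q hq q' hq' h3
      rw [mem_coe, mem_filter] at hq hq'
      exact hinj q hq.1 q' hq'.1 hq.2 hq'.2 h3
  have h3 := tri m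
  omega


/-- a set of pairs is counted by its complement in a rectangle, two triangles -/
theorem rect2 (a b m m' : ℕ) (p r : ℕ × ℕ → Prop) [DecidablePred p] [DecidablePred r]
    (f f' : ℕ × ℕ → ℕ × ℕ)
    (hf : ∀ q ∈ range a ×ˢ range b, ¬ p q → r q → (f q).1 + (f q).2 < m)
    (hinj : ∀ q ∈ range a ×ˢ range b, ∀ q' ∈ range a ×ˢ range b, ¬ p q → ¬ p q' → r q → r q' →
      f q = f q' → q = q')
    (hf' : ∀ q ∈ range a ×ˢ range b, ¬ p q → ¬ r q → (f' q).1 + (f' q).2 < m')
    (hinj' : ∀ q ∈ range a ×ˢ range b, ∀ q' ∈ range a ×ˢ range b, ¬ p q → ¬ p q' → ¬ r q →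
      ¬ r q' → f' q = f' q' → q = q') :
    2 * (a * b) ≤ 2 * ((range a ×ˢ range b).filter p).card + m * (m + 1) + m' * (m' + 1) := by
  have h1 := Finset.card_filter_add_card_filter_not (s := range a ×ˢ range b) p
  rw [card_product, card_range, card_range] at h1
  have h0 := Finset.card_filter_add_card_filter_not
    (s := (range a ×ˢ range b).filter (fun q => ¬ p q)) r
  have h2 : (((range a ×ˢ range b).filter (fun q => ¬ p q)).filter r).card ≤
      ((range m ×ˢ range m).filter (fun p => p.1 + p.2 < m)).card := by
    refine card_le_card_of_injOn f ?_ ?_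
    · intro q hq
      rw [mem_coe, mem_filter, mem_filter] at hq
      have h3 := hf q hq.1.1 hq.1.2 hq.2
      rw [mem_coe, mem_filter, mem_product, mem_range, mem_range]
      omega
    · intro q hq q' hq' h3
      rw [mem_coe, mem_filter, mem_filter] at hq hq'
      exact hinj q hq.1.1 q' hq'.1.1 hq.1.2 hq'.1.2 hq.2 hq'.2 h3
  have h2' : (((range a ×ˢ range b).filter (fun q => ¬ p q)).filter (fun q => ¬ r q)).card ≤
      ((range m' ×ˢ range m').filter (fun p => p.1 + p.2 < m')).card := by
    refine card_le_card_of_injOn f' ?_ ?_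
    · intro q hq
      rw [mem_coe, mem_filter, mem_filter] at hq
      have h3 := hf' q hq.1.1 hq.1.2 hq.2
      rw [mem_coe, mem_filter, mem_product, mem_range, mem_range]
      omega
    · intro q hq q' hq' h3
      rw [mem_coe, mem_filter, mem_filter] at hq hq'
      exact hinj' q hq.1.1 q' hq'.1.1 hq.1.2 hq'.1.2 hq.2 hq'.2 h3
  have h3 := tri m
  have h4 := tri m'
  omega

/-- edges of a graph on `Fin n` are counted by pairs of numbers -/
theorem card_le_edges {n : ℕ} (G : SimpleGraph (Fin n)) (P : Finset (ℕ × ℕ))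
    (h : ∀ a b, (a, b) ∈ P → a < b ∧ ∃ (ha : a < n) (hb : b < n), G.Adj ⟨a, ha⟩ ⟨b, hb⟩) :
    P.card ≤ G.edgeSet.ncard := by
  let φ : Sym2 (Fin n) → ℕ × ℕ := Sym2.lift ⟨fun u v => (min u.val v.val, max u.val v.val),
    fun u v => by
      change (min u.val v.val, max u.val v.val) = (min v.val u.val, max v.val u.val)
      rw [min_comm, max_comm]⟩
  have h1 : (P : Set (ℕ × ℕ)) ⊆ φ '' G.edgeSet := by
    rintro ⟨a, b⟩ hab
    obtain ⟨h2, ha, hb, h3⟩ := h a b hab
    refine ⟨s(⟨a, ha⟩, ⟨b, hb⟩), h3, ?_⟩
    change (min a b, max a b) = (a, b)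
    rw [min_eq_left h2.le, max_eq_right h2.le]
  calc P.card = (P : Set (ℕ × ℕ)).ncard := (Set.ncard_coe_finset P).symm
    _ ≤ (φ '' G.edgeSet).ncard := Set.ncard_le_ncard h1 (Set.toFinite _)
    _ ≤ G.edgeSet.ncard := Set.ncard_image_le (Set.toFinite _)

section conf

/-- ranks of the ends: `y` long arcs, then `W` pairs of a long arc and a short arc, then `z` short
arcs, then the other long arcs -/
def tau (y z W : ℕ) (w : ℕ) : ℕ :=
  if w < W + z then 2 * (y + w) + 1
  else if w - (W + z) < y + W then 2 * (w - (W + z)) else 2 * (w - (W + z) + z)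

/-- the innermost arc on the positive ray when the long arc `j` ends -/
def sig (y z W : ℕ) (j : ℕ) : ℕ := if j < y + W then j - y else W + z

variable (k n y z W : ℕ)

theorem tau_lt (w : ℕ) (hw : w < n) : tau y z W w < 2 * (n + y + z) + 2 := by
  unfold tau
  split_ifs <;> omega

/-- the graph -/
def gr : SimpleGraph (Fin n) := graph n (W + z) (2 * (n + y + z) + 2) k (tau y z W)

variable {k n y z W}

theorem adjA {a b : ℕ} (ha : a < n) (hb : b < n) (h1 : a < b) (h2 : b ≤ a + k + 1) :
    (gr k n y z W).Adj ⟨a, ha⟩ ⟨b, hb⟩ := by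
  have hτ := tau_lt n y z W
  refine ⟨fun h => absurd (congrArg Fin.val h) (by simpa using h1.ne), ?_⟩
  refine vis_pos hτ k ⟨a, ha⟩ ⟨b, hb⟩ 0 (by omega) h1 (Or.inr (Nat.zero_le _))
    (Or.inr (Nat.zero_le _)) ?_
  apply SA.ncard_Ico _ (a + 1) b
  · intro w hw
    have a1 : a < w.val := hw.1
    have a2 : w.val < b := hw.2
    omega
  · omega

theorem adjB (hyzW : y + z + W = 2 * k + 2) (hy : y ≤ k + 1) (hz : z ≤ k) {j e : ℕ}
    (he : e ≤ k) (hj : W + z + j < n) (ha : sig y z W j + e < n) :
    (gr k n y z W).Adj ⟨sig y z W j + e, ha⟩ ⟨W + z + j, hj⟩ := by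
  have hτ := tau_lt n y z W
  have hlt : sig y z W j + e < W + z + j := by
    unfold sig
    split_ifs <;> omega
  have ht : tau y z W (W + z + j) = if j < y + W then 2 * j else 2 * (j + z) := by
    unfold tau
    rw [if_neg (by omega)]
    have : W + z + j - (W + z) = j := by omega
    rw [this]
  refine ⟨fun h => absurd (congrArg Fin.val h) (by simpa using hlt.ne), ?_⟩
  refine vis_cross hτ k ⟨sig y z W j + e, ha⟩ ⟨W + z + j, hj⟩ (tau y z W (W + z + j))
    (hτ _ hj) ?_ ⟨by simp only; omega, le_rfl⟩ ?_
  · by_cases h : W + z ≤ sig y z W j + e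
    · exact Or.inl h
    · right
      simp only
      rw [ht]
      unfold tau
      unfold sig at h ⊢
      split_ifs at h ⊢ <;> omega
  · apply SA.ncard_Ico _ (sig y z W j) (sig y z W j + e)
    · intro w hw
      rcases hw with ⟨a1, a2⟩ | ⟨a1, a2, a3⟩
      · have a1' : w.val < sig y z W j + e := a1
        refine ⟨?_, a1'⟩
        by_contra hc
        rcases a2 with a2 | a2
        · unfold sig at hc
          split_ifs at hc <;> omega
        · rw [ht] at a2
          unfold sig at hc
          unfold tau at a2
          split_ifs at hc a2 <;> omega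
      · exfalso
        have a1' : w.val < W + z + j := a1
        rw [ht] at a3
        unfold tau at a3
        split_ifs at a3 <;> omega
    · omega

theorem adjC (hyzW : y + z + W = 2 * k + 2) {i e : ℕ}
    (he : e ≤ k) (hi : i < W + z) (hi' : i < n) (hb : W + z + y + min W (i + 1) + e < n) :
    (gr k n y z W).Adj ⟨i, hi'⟩ ⟨W + z + y + min W (i + 1) + e, hb⟩ := by
  have hτ := tau_lt n y z W
  have hlt : i < W + z + y + min W (i + 1) + e := by omega
  have ht : tau y z W i = 2 * (y + i) + 1 := by
    unfold tau
    rw [if_pos hi]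
  refine ⟨fun h => absurd (congrArg Fin.val h) (by simpa using hlt.ne), ?_⟩
  refine vis_cross hτ k ⟨i, hi'⟩ ⟨W + z + y + min W (i + 1) + e, hb⟩ (tau y z W i)
    (hτ _ hi') (Or.inr le_rfl) ⟨by simp only; omega, ?_⟩ ?_
  · simp only
    rw [ht]
    unfold tau
    split_ifs <;> omega
  · apply SA.ncard_Ico _ (W + z + y + min W (i + 1)) (W + z + y + min W (i + 1) + e)
    · intro w hw
      rcases hw with ⟨a1, a2⟩ | ⟨a1, a2, a3⟩
      · exfalso
        have a1' : w.val < i := a1
        rcases a2 with a2 | a2
        · omega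
        · rw [ht] at a2
          unfold tau at a2
          split_ifs at a2 <;> omega
      · have a1' : w.val < W + z + y + min W (i + 1) + e := a1
        refine ⟨?_, a1'⟩
        by_contra hc
        rw [ht] at a3
        unfold tau at a3
        split_ifs at a3 <;> omega
    · omega

variable (k n y z W)

/-- pairs at distance at most `k + 1` -/
def PA : Finset (ℕ × ℕ) :=
  ((range n ×ˢ range (k + 1)).filter (fun q => q.2 < q.1)).image (fun q => (q.1 - q.2 - 1, q.1))

/-- pairs seen when a long arc ends -/
def PB : Finset (ℕ × ℕ) :=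
  ((range (n - (W + z)) ×ˢ range (k + 1)).filter
    (fun q => sig y z W q.1 + q.2 + k + 1 < W + z + q.1)).image
      (fun q => (sig y z W q.1 + q.2, W + z + q.1))

/-- pairs seen when a short arc ends -/
def PC : Finset (ℕ × ℕ) :=
  (range (W + z) ×ˢ range (k + 1)).image
    (fun q => (q.1, W + z + y + min W (q.1 + 1) + q.2))

theorem card_PA : 2 * (n * (k + 1)) ≤ 2 * (PA k n).card + (k + 1) * (k + 2) := by
  unfold PA
  rw [card_image_of_injOn]
  · refine rect n (k + 1) (k + 1) (fun q => q.2 < q.1) (fun q => (q.1, k - q.2)) ?_ ?_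
    · intro q hq h
      rw [mem_product, mem_range, mem_range] at hq
      simp only at h ⊢
      omega
    · intro q hq q' hq' h h' he
      rw [mem_product, mem_range, mem_range] at hq hq'
      simp only [Prod.mk.injEq] at he
      exact Prod.ext he.1 (by omega)
  · intro q hq q' hq' he
    rw [mem_coe, mem_filter] at hq hq'
    simp only [Prod.mk.injEq] at he
    exact Prod.ext he.2 (by omega)

theorem card_PB (hyzW : y + z + W = 2 * k + 2) :
    2 * ((n - (W + z)) * (k + 1)) ≤ 2 * (PB k n y z W).card + y * (y + 1) + z * (z + 1) := by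
  unfold PB
  rw [card_image_of_injOn]
  · refine rect2 (n - (W + z)) (k + 1) y z _ (fun q => q.1 < y) (fun q => (q.1, k - q.2))
      (fun q => (q.1 - (y + W), k - q.2)) ?_ ?_ ?_ ?_
    · intro q hq h h'
      rw [mem_product, mem_range, mem_range] at hq
      simp only at h h' ⊢
      unfold sig at h
      rw [if_pos (by omega)] at h
      omega
    · intro q hq q' hq' h h' hr hr' he
      rw [mem_product, mem_range, mem_range] at hq hq'
      simp only [Prod.mk.injEq] at he
      exact Prod.ext he.1 (by omega)
    · intro q hq h h'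
      rw [mem_product, mem_range, mem_range] at hq
      simp only at h h' ⊢
      unfold sig at h
      split_ifs at h <;> omega
    · intro q hq q' hq' h h' hr hr' he
      rw [mem_product, mem_range, mem_range] at hq hq'
      simp only [Prod.mk.injEq] at he
      try simp only at h h' hr hr'
      unfold sig at h h'
      refine Prod.ext ?_ (by omega)
      split_ifs at h h' <;> omega
  · intro q hq q' hq' he
    simp only [Prod.mk.injEq] at he
    have h1 : q.1 = q'.1 := by omega
    rw [h1] at he
    exact Prod.ext h1 (by omega)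

theorem card_PC : (PC k y z W).card = (W + z) * (k + 1) := by
  unfold PC
  rw [card_image_of_injOn, card_product, card_range, card_range]
  intro q hq q' hq' he
  simp only [Prod.mk.injEq] at he
  have h1 : q.1 = q'.1 := he.1
  rw [h1] at he
  exact Prod.ext h1 (by omega)

/-- **The edge count.** -/
theorem edges_gr (hyzW : y + z + W = 2 * k + 2) (hy : y ≤ k + 1) (hz : z ≤ k)
    (hn : 5 * k + 5 ≤ n + y + z) :
    4 * n * (k + 1) ≤ 2 * (gr k n y z W).edgeSet.ncard + (k + 1) * (k + 2) +
      y * (y + 1) + z * (z + 1) := by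
  have hA := card_PA k n
  have hB := card_PB k n y z W hyzW
  have hC := card_PC k y z W
  have hAB : Disjoint (PA k n) (PB k n y z W) := by
    rw [Finset.disjoint_left]
    rintro ⟨a, b⟩ h1 h2
    unfold PA at h1
    unfold PB at h2
    simp only [mem_image, mem_filter, mem_product, mem_range, Prod.mk.injEq] at h1 h2
    obtain ⟨q, hq, h3, h4⟩ := h1
    obtain ⟨q', hq', h5, h6⟩ := h2
    omega
  have hAC : Disjoint (PA k n ∪ PB k n y z W) (PC k y z W) := by
    rw [Finset.disjoint_left]
    rintro ⟨a, b⟩ h1 h2
    unfold PC at h2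
    rw [mem_union] at h1
    simp only [mem_image, mem_product, mem_range, Prod.mk.injEq] at h2
    obtain ⟨q', hq', h5, h6⟩ := h2
    rcases h1 with h1 | h1
    · unfold PA at h1
      simp only [mem_image, mem_filter, mem_product, mem_range, Prod.mk.injEq] at h1
      obtain ⟨q, hq, h3, h4⟩ := h1
      omega
    · unfold PB at h1
      simp only [mem_image, mem_filter, mem_product, mem_range, Prod.mk.injEq] at h1
      obtain ⟨q, hq, h3, h4⟩ := h1
      unfold sig at h3 hq
      split_ifs at h3 hq <;> omega
  have hcard := card_union_of_disjoint hAC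
  rw [card_union_of_disjoint hAB] at hcard
  have hle := card_le_edges (gr k n y z W) ((PA k n ∪ PB k n y z W) ∪ PC k y z W) (by
    intro a b hab
    rw [mem_union, mem_union] at hab
    rcases hab with (h1 | h1) | h1
    · unfold PA at h1
      simp only [mem_image, mem_filter, mem_product, mem_range, Prod.mk.injEq] at h1
      obtain ⟨q, hq, h3, h4⟩ := h1
      have hb : b < n := by omega
      have ha : a < n := by omega
      exact ⟨by omega, ha, hb, adjA ha hb (by omega) (by omega)⟩
    · unfold PB at h1
      simp only [mem_image, mem_filter, mem_product, mem_range, Prod.mk.injEq] at h1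
      obtain ⟨q, hq, h3, h4⟩ := h1
      subst h3 h4
      have hb : W + z + q.1 < n := by omega
      have ha : sig y z W q.1 + q.2 < n := by omega
      exact ⟨by omega, ha, hb, adjB hyzW hy hz (by omega) hb ha⟩
    · unfold PC at h1
      simp only [mem_image, mem_product, mem_range, Prod.mk.injEq] at h1
      obtain ⟨q, hq, h3, h4⟩ := h1
      subst h3 h4
      have hb : W + z + y + min W (q.1 + 1) + q.2 < n := by omega
      have ha : q.1 < n := by omega
      exact ⟨by omega, ha, hb, adjC hyzW (by omega) hq.1 ha hb⟩)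
  rw [hcard] at hle
  have hs : W + z ≤ n := by omega
  obtain ⟨m, rfl⟩ : ∃ m, n = W + z + m := ⟨n - (W + z), by omega⟩
  have e1 : W + z + m - (W + z) = m := by omega
  rw [e1] at hB
  nlinarith

end conf

end Pool.Agent.X63.SC
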