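import Pool.Agent.X63.ArcEdges2
import Pool.Agent.X63.ArcEdges3
import Pool.Agent.X63.SemiCount

/-!
Arc `k`-visibility graphs with many edges: the graph and its edges.
-/

set_option autoImplicit false

namespace Pool.Agent.X63.AE

open Pool.Agent.X63 Pool.Agent.X63.SA Finset

/-- the visibility graph of the first `n` arcs -/
def gr (k n : ℕ) : SimpleGraph (Fin n) where
  Adj u v := u ≠ v ∧ RadVis (AA k n) k u v
  symm := ⟨fun _ _ h => ⟨h.1.symm, SA.RadVis.symm' h.2⟩⟩
  loopless := ⟨fun _ h => h.1 rfl⟩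

theorem radius_eq (r s φ ψ : ℝ) (hr : 0 < r) (hs : 0 < s) (h : rayPt r φ = rayPt s ψ) :
    r = s := by
  unfold rayPt at h
  have e1 : r * Real.cos φ = s * Real.cos ψ := congrArg Prod.fst h
  have e2 : r * Real.sin φ = s * Real.sin ψ := congrArg Prod.snd h
  have a1 := Real.sin_sq_add_cos_sq φ
  have a2 := Real.sin_sq_add_cos_sq ψ
  have hrs : r ^ 2 = s ^ 2 := by
    calc r ^ 2 = (r * Real.cos φ) ^ 2 + (r * Real.sin φ) ^ 2 := by
          linear_combination -(r ^ 2) * a1
      _ = (s * Real.cos ψ) ^ 2 + (s * Real.sin ψ) ^ 2 := by rw [e1, e2]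
      _ = s ^ 2 := by linear_combination s ^ 2 * a2
  nlinarith

theorem gr_arc (k n : ℕ) : IsArcVis k (gr k n) := by
  refine ⟨fun w => w.val + 1, fun w => lw k w.val, fun w => up k w.val, fun v => ⟨by positivity,
    lw_nonneg k v.val, lw_lt k v.val, by have := lw_le_up k v.val; linarith,
    by have := up_lt k v.val; linarith⟩, ?_, ?_⟩
  · intro u v huv
    rw [Set.disjoint_left]
    rintro p ⟨φ, h0, h1, rfl⟩ ⟨ψ, g0, g1, h⟩
    have e := radius_eq _ _ _ _ (by positivity) (by positivity) h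
    apply huv
    have e' : (u.val : ℝ) = v.val := by linarith
    exact Fin.ext (by exact_mod_cast e')
  · intro u v huv
    exact ⟨fun h => h.2, fun h => ⟨huv, h⟩⟩

/-- number of the earlier arcs which see the arc `v` -/
def F (k v : ℕ) : ℕ :=
  if v < k + 1 then v
  else if v < 2 * (k + 1) then k + 1
  else if v < 3 * (k + 1) then 2 * (k + 1)
  else if v < 5 * (k + 1) then v
  else if v < 6 * (k + 1) then 5 * (k + 1)
  else 3 * (k + 1)

/-- the earlier arcs which see the arc `v` -/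
def E (k v c : ℕ) : ℕ :=
  if v < k + 1 then c
  else if v < 2 * (k + 1) then v - (k + 1) + c
  else if v < 3 * (k + 1) then (if c < k + 1 then c else v - 2 * (k + 1) + c)
  else if v < 5 * (k + 1) then c
  else if v < 6 * (k + 1) then (if c + v < 8 * (k + 1) then c else c + (v - 5 * (k + 1)))
  else v - 3 * (k + 1) + c

theorem E_lt (k v c : ℕ) (hc : c < F k v) : E k v c < v := by
  unfold F at hc
  unfold E
  split_ifs at hc ⊢ <;> omega

theorem E_inj (k v c c' : ℕ) (hc : c < F k v) (hc' : c' < F k v) (h : E k v c = E k v c') :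
    c = c' := by
  unfold F at hc hc'
  unfold E at h
  split_ifs at hc hc' h <;> omega

theorem E_good (k v c : ℕ) (hv : v < 6 * (k + 1)) (hc : c < F k v) : Good k (E k v c) v := by
  unfold F at hc
  unfold E Good
  split_ifs at hc ⊢ <;> refine ⟨?_, ?_, ?_⟩ <;> intros <;> omega

theorem E_per (k v c : ℕ) (hv : 6 * (k + 1) ≤ v) (hc : c < F k v) :
    v ≤ E k v c + 3 * (k + 1) := by
  unfold F at hc
  unfold E
  split_ifs at hc ⊢ <;> omega

theorem vis_far (k n u v : ℕ) (hu : u < n) (hv : v < n) (h1 : u < v) (h2 : 6 * (k + 1) ≤ v)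
    (h3 : v ≤ u + 3 * (k + 1)) : RadVis (AA k n) k ⟨u, hu⟩ ⟨v, hv⟩ := by
  obtain ⟨P, hP⟩ : ∃ P, P = 3 * (k + 1) := ⟨_, rfl⟩
  have hP0 : 0 < P := by omega
  have h4 : P * (v / P) + v % P = v := Nat.div_add_mod v P
  have h5 : v % P < P := Nat.mod_lt v hP0
  have h7 : 2 ≤ v / P := by
    rw [Nat.le_div_iff_mul_le hP0]
    omega
  obtain ⟨q, hq⟩ : ∃ q, v / P = q + 1 := ⟨v / P - 1, by omega⟩
  have hq1 : 1 ≤ q := by omega
  rw [hq] at h4
  rw [Nat.mul_succ P q] at h4
  obtain ⟨Q, hQ⟩ : ∃ Q, Q = P * q := ⟨_, rfl⟩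
  rw [← hQ] at h4
  generalize v % P = r at *
  have hQ' : Q = 3 * (k + 1) * q := by rw [hQ, hP]
  have e1 : v = Q + (v - Q) := by clear hQ hQ' hq h7; omega
  have e2 : u = Q + (u - Q) := by clear hQ hQ' hq h7; omega
  exact vis_per k n _ _ q Q (u - Q) (v - Q) hq1 hQ' e2 e1 (by clear hQ hQ' hq h7; omega)
    (by clear hQ hQ' hq h7; omega) (by clear hQ hQ' hq h7; omega)
    (by clear hQ hQ' hq h7; omega)

theorem vis_E (k n v c : ℕ) (hv : v < n) (hc : c < F k v) :
    ∃ hu : E k v c < n, RadVis (AA k n) k ⟨E k v c, hu⟩ ⟨v, hv⟩ := by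
  have h1 := E_lt k v c hc
  refine ⟨by omega, ?_⟩
  rcases Nat.lt_or_ge v (6 * (k + 1)) with h2 | h2
  · exact vis_base k n _ _ (Fin.lt_def.mpr h1) h2 (E_good k v c h2 hc)
  · exact vis_far k n _ v _ hv h1 h2 (E_per k v c h2 hc)

/-- visible pairs -/
def PP (k n : ℕ) : Finset (ℕ × ℕ) :=
  ((range n).sigma (fun v => range (F k v))).image (fun q => (E k q.1 q.2, q.1))

theorem card_PP (k n : ℕ) : (PP k n).card = ∑ v ∈ range n, F k v := by
  unfold PP
  rw [card_image_of_injOn, card_sigma]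
  · simp only [card_range]
  · rintro ⟨v, c⟩ hq ⟨v', c'⟩ hq' he
    rw [mem_coe, mem_sigma, mem_range, mem_range] at hq hq'
    simp only [Prod.mk.injEq] at he hq hq'
    obtain ⟨h1, h2⟩ := he
    subst h2
    have := E_inj k v c c' hq.2 hq'.2 h1
    subst this
    rfl

theorem sum_F (k m : ℕ) :
    2 * ∑ v ∈ range (6 * (k + 1) + m), F k v + 3 * (k + 1) * (k + 2) =
      6 * (k + 1) * (6 * (k + 1) + m) := by
  have e : 6 * (k + 1) + m = (k + 1) + (k + 1) + (k + 1) + (2 * (k + 1)) + (k + 1) + m := by ring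
  have s0 : ∑ x ∈ range (k + 1), F k x = ∑ x ∈ range (k + 1), x := by
    refine sum_congr rfl fun x hx => ?_
    rw [mem_range] at hx
    unfold F
    split_ifs <;> omega
  have s1 : ∑ x ∈ range (k + 1), F k (k + 1 + x) = ∑ x ∈ range (k + 1), (k + 1) := by
    refine sum_congr rfl fun x hx => ?_
    rw [mem_range] at hx
    unfold F
    split_ifs <;> omega
  have s2 : ∑ x ∈ range (k + 1), F k (k + 1 + (k + 1) + x) =
      ∑ x ∈ range (k + 1), (2 * (k + 1)) := by
    refine sum_congr rfl fun x hx => ?_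
    rw [mem_range] at hx
    unfold F
    split_ifs <;> omega
  have s3 : ∑ x ∈ range (2 * (k + 1)), F k (k + 1 + (k + 1) + (k + 1) + x) =
      ∑ x ∈ range (2 * (k + 1)), (3 * (k + 1) + x) := by
    refine sum_congr rfl fun x hx => ?_
    rw [mem_range] at hx
    unfold F
    split_ifs <;> omega
  have s4 : ∑ x ∈ range (k + 1), F k (k + 1 + (k + 1) + (k + 1) + 2 * (k + 1) + x) =
      ∑ x ∈ range (k + 1), (5 * (k + 1)) := by
    refine sum_congr rfl fun x hx => ?_
    rw [mem_range] at hx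
    unfold F
    split_ifs <;> omega
  have s5 : ∑ x ∈ range m, F k (k + 1 + (k + 1) + (k + 1) + 2 * (k + 1) + (k + 1) + x) =
      ∑ x ∈ range m, (3 * (k + 1)) := by
    refine sum_congr rfl fun x hx => ?_
    unfold F
    split_ifs <;> omega
  have s3' : ∑ x ∈ range (2 * (k + 1)), (3 * (k + 1) + x) =
      2 * (k + 1) * (3 * (k + 1)) + ∑ x ∈ range (2 * (k + 1)), x := by
    rw [sum_add_distrib, sum_const, card_range, smul_eq_mul]
  rw [e, sum_range_add, sum_range_add, sum_range_add, sum_range_add, sum_range_add, s0, s1, s2,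
    s3, s4, s5, s3']
  simp only [sum_const, card_range, smul_eq_mul]
  have t0 := sum_range_id_mul_two (k + 1)
  have t1 := sum_range_id_mul_two (2 * (k + 1))
  have e1 : k + 1 - 1 = k := by omega
  have e2 : 2 * (k + 1) - 1 = 2 * k + 1 := by omega
  rw [e1] at t0
  rw [e2] at t1
  generalize ∑ i ∈ range (k + 1), i = A at *
  generalize ∑ i ∈ range (2 * (k + 1)), i = B at *
  nlinarith

theorem sum_F' (k j : ℕ) (hj : j ≤ k + 1) :
    2 * ∑ v ∈ range (5 * (k + 1) + j), F k v + 3 * (k + 1) * (k + 2) +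
        4 * (k + 1) * ((k + 1) - j) =
      6 * (k + 1) * (5 * (k + 1) + j) := by
  have e : 5 * (k + 1) + j = (k + 1) + (k + 1) + (k + 1) + (2 * (k + 1)) + j := by ring
  have s0 : ∑ x ∈ range (k + 1), F k x = ∑ x ∈ range (k + 1), x := by
    refine sum_congr rfl fun x hx => ?_
    rw [mem_range] at hx
    unfold F
    split_ifs <;> omega
  have s1 : ∑ x ∈ range (k + 1), F k (k + 1 + x) = ∑ x ∈ range (k + 1), (k + 1) := by
    refine sum_congr rfl fun x hx => ?_
    rw [mem_range] at hx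
    unfold F
    split_ifs <;> omega
  have s2 : ∑ x ∈ range (k + 1), F k (k + 1 + (k + 1) + x) =
      ∑ x ∈ range (k + 1), (2 * (k + 1)) := by
    refine sum_congr rfl fun x hx => ?_
    rw [mem_range] at hx
    unfold F
    split_ifs <;> omega
  have s3 : ∑ x ∈ range (2 * (k + 1)), F k (k + 1 + (k + 1) + (k + 1) + x) =
      ∑ x ∈ range (2 * (k + 1)), (3 * (k + 1) + x) := by
    refine sum_congr rfl fun x hx => ?_
    rw [mem_range] at hx
    unfold F
    split_ifs <;> omega
  have s4 : ∑ x ∈ range j, F k (k + 1 + (k + 1) + (k + 1) + 2 * (k + 1) + x) =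
      ∑ x ∈ range j, (5 * (k + 1)) := by
    refine sum_congr rfl fun x hx => ?_
    rw [mem_range] at hx
    unfold F
    split_ifs <;> omega
  have s3' : ∑ x ∈ range (2 * (k + 1)), (3 * (k + 1) + x) =
      2 * (k + 1) * (3 * (k + 1)) + ∑ x ∈ range (2 * (k + 1)), x := by
    rw [sum_add_distrib, sum_const, card_range, smul_eq_mul]
  obtain ⟨z, hz⟩ : ∃ z, k + 1 = j + z := ⟨k + 1 - j, by omega⟩
  have hz' : k + 1 - j = z := by omega
  rw [hz', e, sum_range_add, sum_range_add, sum_range_add, sum_range_add, s0, s1, s2,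
    s3, s4, s3']
  simp only [sum_const, card_range, smul_eq_mul]
  have t0 := sum_range_id_mul_two (k + 1)
  have t1 := sum_range_id_mul_two (2 * (k + 1))
  have e1 : k + 1 - 1 = k := by omega
  have e2 : 2 * (k + 1) - 1 = 2 * k + 1 := by omega
  rw [e1] at t0
  rw [e2] at t1
  generalize ∑ i ∈ range (k + 1), i = A at *
  generalize ∑ i ∈ range (2 * (k + 1)), i = B at *
  have hz2 : (k + 1) * (k + 1) = (k + 1) * j + (k + 1) * z := by
    rw [← Nat.mul_add, ← hz]
  nlinarith

/-- **The edge count.** -/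
theorem edges_gr (k n : ℕ) (hn : 5 * k + 5 ≤ n) :
    6 * (k + 1) * n ≤ 2 * (gr k n).edgeSet.ncard + 3 * (k + 1) * (k + 2) +
      4 * (k + 1) * (6 * k + 6 - n) := by
  have hle := SC.card_le_edges (gr k n) (PP k n) (by
    intro a b hab
    unfold PP at hab
    simp only [mem_image, mem_sigma, mem_range, Prod.mk.injEq, Sigma.exists] at hab
    obtain ⟨v, c, ⟨h1, h2⟩, rfl, rfl⟩ := hab
    have h3 := E_lt k v c h2
    obtain ⟨h4, h5⟩ := vis_E k n v c h1 h2
    exact ⟨h3, h4, h1, fun h => by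
      have := congrArg Fin.val h
      simp only at this
      omega, h5⟩)
  rw [card_PP] at hle
  rcases Nat.lt_or_ge n (6 * (k + 1)) with h6 | h6
  · obtain ⟨j, rfl⟩ : ∃ j, n = 5 * (k + 1) + j := ⟨n - 5 * (k + 1), by omega⟩
    have h := sum_F' k j (by omega)
    have e : 6 * k + 6 - (5 * (k + 1) + j) = k + 1 - j := by omega
    rw [e]
    linarith
  · obtain ⟨m, rfl⟩ : ∃ m, n = 6 * (k + 1) + m := ⟨n - 6 * (k + 1), by omega⟩
    have h := sum_F k m
    have e : 6 * k + 6 - (6 * (k + 1) + m) = 0 := by omega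
    rw [e]
    linarith

end Pool.Agent.X63.AE
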