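import Pool.Agent.X63.ArcLine

/-!
Case `j < i`: a graph in `A_j` and not in `A_i`.
-/

set_option autoImplicit false

namespace Pool.Agent.X63.AL

open Real

section low

variable {V : Type} [Finite V] (r a b : V → ℝ)

/-- crossing predicate -/
def Cr (φ : ℝ) (w : V) (z : ℝ) : Prop := rayPt z φ ∈ arcSet (r w) (a w) (b w)

theorem Cr_sg (hr : ∀ v, 0 < r v) (φ : ℝ) (w : V) (z : ℝ) (h : Cr r a b φ w z) :
    ∃ e, z = sg (r w) e := mem_sg _ _ _ _ _ (hr w) h

theorem Cr_uniq
    (hd : ∀ u v, u ≠ v → Disjoint (arcSet (r u) (a u) (b u)) (arcSet (r v) (a v) (b v)))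
    (φ : ℝ) (u v : V) (z : ℝ) (hu : Cr r a b φ u z) (hv : Cr r a b φ v z) : u = v := by
  by_contra hne
  exact Set.disjoint_left.mp (hd u v hne) hu hv

/-- `u` meets the line of direction `φ` -/
def Ln (φ : ℝ) (u : V) : Prop := ∃ n : ℤ, a u ≤ φ + n * π ∧ φ + n * π ≤ b u

theorem Ln_Cr (hr : ∀ v, 0 < r v) (φ : ℝ) (u : V) (h : Ln a b φ u) : ∃ z, Cr r a b φ u z := by
  obtain ⟨n, h1, h2⟩ := h
  refine ⟨r u * (-1) ^ n, ?_⟩
  unfold Cr
  rw [mem_line _ _ _ _ _ (hr u)]
  exact ⟨n, rfl, h1, h2⟩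

theorem Cr_Ln (hr : ∀ v, 0 < r v) (φ : ℝ) (u : V) (z : ℝ) (h : Cr r a b φ u z) : Ln a b φ u := by
  unfold Cr at h
  rw [mem_line _ _ _ _ _ (hr u)] at h
  obtain ⟨n, _, h1, h2⟩ := h
  exact ⟨n, h1, h2⟩

end low

/-- vertices of the spider-like graph: `j + 1` long arcs, three arcs `x`, three arcs `y` -/
abbrev W (j : ℕ) : Type := Fin (j + 1) ⊕ (Fin 3 × Bool)

/-- colour: index of the leg -/
def col {j : ℕ} : W j → Option (Fin 3)
  | Sum.inl _ => none
  | Sum.inr p => some p.1

/-- the three arcs `x` cannot all be pairwise on different lines, meet `u` and have a private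
partner -/
theorem three {V : Type} (a b : V → ℝ) (u : V) (x y : Fin 3 → V)
    (hab : ∀ v, a v ≤ b v)
    (h1 : ∀ m, ∃ φ, Ln a b φ u ∧ Ln a b φ (x m))
    (h2 : ∀ m n, m ≠ n → ∀ φ, Ln a b φ (x m) → Ln a b φ (x n) → False)
    (h3 : ∀ m, ∃ φ, Ln a b φ (x m) ∧ Ln a b φ (y m))
    (h4 : ∀ m φ, Ln a b φ u → Ln a b φ (y m) → False) : False := by
  have hpi := Real.pi_pos
  -- translate `x m`
  have key : ∀ m, ∃ n : ℤ, (a (x m) + n * π ≤ b u ∧ a u ≤ b (x m) + n * π) ∧
      (a (x m) + n * π < a u ∨ b u < b (x m) + n * π) := by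
    intro m
    obtain ⟨φ, ⟨p, p1, p2⟩, q, q1, q2⟩ := h1 m
    refine ⟨p - q, ⟨?_, ?_⟩, ?_⟩
    · push_cast
      linarith
    · push_cast
      linarith
    · by_contra hc
      push Not at hc
      push_cast at hc
      obtain ⟨c1, c2⟩ := hc
      obtain ⟨ψ, ⟨s, s1, s2⟩, hy⟩ := h3 m
      apply h4 m ψ _ hy
      refine ⟨s + (p - q), ?_, ?_⟩
      · push_cast
        linarith
      · push_cast
        linarith
  choose n hn1 hn2 using key
  -- two of the three are on the same side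
  have side : ∀ m m' : Fin 3, m ≠ m' → a (x m) + n m * π < a u → a (x m') + n m' * π < a u →
      False := by
    intro m m' hmm hl hl'
    apply h2 m m' hmm (a u)
    · refine ⟨-n m, ?_, ?_⟩
      · push_cast; linarith
      · push_cast; linarith [(hn1 m).2]
    · refine ⟨-n m', ?_, ?_⟩
      · push_cast; linarith
      · push_cast; linarith [(hn1 m').2]
  have side' : ∀ m m' : Fin 3, m ≠ m' → b u < b (x m) + n m * π → b u < b (x m') + n m' * π →
      False := by
    intro m m' hmm hl hl'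
    apply h2 m m' hmm (b u)
    · refine ⟨-n m, ?_, ?_⟩
      · push_cast; linarith [(hn1 m).1]
      · push_cast; linarith
    · refine ⟨-n m', ?_, ?_⟩
      · push_cast; linarith [(hn1 m').1]
      · push_cast; linarith
  rcases hn2 0 with h0 | h0 <;> rcases hn2 1 with h1' | h1' <;> rcases hn2 2 with h2' | h2'
  · exact side 0 1 (by decide) h0 h1'
  · exact side 0 1 (by decide) h0 h1'
  · exact side 0 2 (by decide) h0 h2'
  · exact side' 1 2 (by decide) h1' h2'
  · exact side 1 2 (by decide) h1' h2'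
  · exact side' 0 2 (by decide) h0 h2'
  · exact side' 0 1 (by decide) h0 h1'
  · exact side' 0 1 (by decide) h0 h1'

theorem not_rep_low (i j : ℕ) (hij : j < i) (G : SimpleGraph (W j))
    (F1 : ∀ (m n : Fin 3) (p q : Bool), m ≠ n → ¬ G.Adj (Sum.inr (m, p)) (Sum.inr (n, q)))
    (F2 : ∀ m : Fin 3, ¬ G.Adj (Sum.inl 0) (Sum.inr (m, true)))
    (F3 : ∀ m : Fin 3, G.Adj (Sum.inl 0) (Sum.inr (m, false)))
    (F4 : ∀ m : Fin 3, G.Adj (Sum.inr (m, false)) (Sum.inr (m, true))) (r a b : W j → ℝ) :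
    ¬ IsRep i G r a b := by
  classical
  rintro ⟨hrab, hd, hG⟩
  have hr : ∀ v, 0 < r v := fun v => (hrab v).1
  -- Step A
  have stepA : ∀ (φ : ℝ) (m n : Fin 3) (p q : Bool) (s t : ℝ), Cr r a b φ (Sum.inr (m, p)) s →
      Cr r a b φ (Sum.inr (n, q)) t → m = n := by
    intro φ m n p q s t h1 h2
    by_contra hmn
    obtain ⟨u, v, s', t', hu, hv, cu, cv, cuv, _, _, hw⟩ := closest r (Cr r a b φ)
      (Cr_sg r a b hr φ) (Cr_uniq r a b hd φ) (col (j := j)) _ _ s t h1 h2 (by simp [col])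
      (by simp [col]) (by simpa [col] using hmn)
    rcases u with u | ⟨m', p'⟩
    · simp [col] at cu
    rcases v with v | ⟨n', q'⟩
    · simp [col] at cv
    have hmn' : m' ≠ n' := by
      intro h
      apply cuv
      simp [col, h]
    apply F1 m' n' p' q' hmn'
    rw [hG _ _ (by simp [hmn'])]
    refine ⟨φ, s', t', hu, hv, ?_⟩
    have hsub : {w : W j | w ≠ Sum.inr (m', p') ∧ w ≠ Sum.inr (n', q') ∧
        ∃ z, min s' t' ≤ z ∧ z ≤ max s' t' ∧ rayPt z φ ∈ arcSet (r w) (a w) (b w)} ⊆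
        ((Finset.univ : Finset (Fin (j + 1))).image Sum.inl : Finset (W j)) := by
      rintro w ⟨w1, w2, z, z1, z2, hz⟩
      have := hw w z hz w1 w2 z1 z2
      rcases w with w | w
      · simp
      · simp [col] at this
    calc _ ≤ _ := Set.ncard_le_ncard hsub (Set.toFinite _)
      _ = ((Finset.univ : Finset (Fin (j + 1))).image (Sum.inl : _ → W j)).card :=
          Set.ncard_coe_finset _
      _ ≤ (Finset.univ : Finset (Fin (j + 1))).card := Finset.card_image_le
      _ = j + 1 := by simp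
      _ ≤ i := hij
  -- Step B
  have stepB : ∀ (φ : ℝ) (m : Fin 3) (s t : ℝ), Cr r a b φ (Sum.inl 0) s →
      Cr r a b φ (Sum.inr (m, true)) t → False := by
    intro φ m s t h1 h2
    apply F2 m
    rw [hG _ _ (by simp)]
    refine ⟨φ, s, t, h1, h2, ?_⟩
    let S : Finset (W j) := insert (Sum.inr (m, false))
      (((Finset.univ : Finset (Fin (j + 1))).erase 0).image Sum.inl)
    have hsub : {w : W j | w ≠ Sum.inl 0 ∧ w ≠ Sum.inr (m, true) ∧
        ∃ z, min s t ≤ z ∧ z ≤ max s t ∧ rayPt z φ ∈ arcSet (r w) (a w) (b w)} ⊆ (S : Set (W j)) := by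
      rintro w ⟨w1, w2, z, z1, z2, hz⟩
      rcases w with w | ⟨n, q⟩
      · have : w ≠ 0 := fun h => w1 (by rw [h])
        simp [S, this]
      · have hmn : n = m := stepA φ n m q true z t hz h2
        subst hmn
        have : q = false := by
          by_contra hq
          apply w2
          simp at hq
          rw [hq]
        subst this
        simp [S]
    calc _ ≤ _ := Set.ncard_le_ncard hsub (Set.toFinite _)
      _ = S.card := Set.ncard_coe_finset _
      _ ≤ (((Finset.univ : Finset (Fin (j + 1))).erase 0).image (Sum.inl : _ → W j)).card + 1 :=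
          Finset.card_insert_le _ _
      _ ≤ ((Finset.univ : Finset (Fin (j + 1))).erase 0).card + 1 := by
          have := Finset.card_image_le (s := (Finset.univ : Finset (Fin (j + 1))).erase 0)
            (f := (Sum.inl : _ → W j))
          omega
      _ = j + 1 := by
          rw [Finset.card_erase_of_mem (Finset.mem_univ _)]
          simp
      _ ≤ i := hij
  -- Step C
  have share : ∀ u v, u ≠ v → G.Adj u v → ∃ φ, Ln a b φ u ∧ Ln a b φ v := by
    intro u v huv h
    rw [hG u v huv] at h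
    obtain ⟨φ, s, t, h1, h2, _⟩ := h
    exact ⟨φ, Cr_Ln r a b hr φ u s h1, Cr_Ln r a b hr φ v t h2⟩
  refine three a b (Sum.inl 0) (fun m => Sum.inr (m, false)) (fun m => Sum.inr (m, true))
    (fun v => (hrab v).2) (fun m => share _ _ (by simp) (F3 m)) ?_
    (fun m => share _ _ (by simp) (F4 m)) ?_
  · intro m n hmn φ h1 h2
    obtain ⟨s, hs⟩ := Ln_Cr r a b hr φ _ h1
    obtain ⟨t, ht⟩ := Ln_Cr r a b hr φ _ h2
    exact hmn (stepA φ m n false false s t hs ht)
  · intro m φ h1 h2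
    obtain ⟨s, hs⟩ := Ln_Cr r a b hr φ _ h1
    obtain ⟨t, ht⟩ := Ln_Cr r a b hr φ _ h2
    exact stepB φ m s t hs ht

end Pool.Agent.X63.AL
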