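import Pool.Agent.X63.ArcIncl1

/-!
Case `j > i`: a graph in `A_j` and not in `A_i`.
-/

set_option autoImplicit false

namespace Pool.Agent.X63.AL

open Real

/-- number of short arcs -/
def NN (s : ℕ) : ℕ := (2 * s) * (2 * s + 1) + 1

section norm

variable {V : Type} (r a b : V → ℝ)

theorem ray_flip (z φ : ℝ) (n : ℤ) : rayPt z φ = rayPt (z * (-1) ^ n) (φ + n * π) := by
  unfold rayPt
  rw [Real.cos_add_int_mul_pi, Real.sin_add_int_mul_pi]
  rcases sign_or n with h | h <;> rw [h] <;> simp

theorem flip_between (r t z : ℝ) : (min r (-t) ≤ z ∧ z ≤ max r (-t)) ↔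
    (min (-r) t ≤ -z ∧ -z ≤ max (-r) t) := by
  simp only [min_le_iff, le_max_iff]
  constructor
  · rintro ⟨h1 | h1, h2 | h2⟩
    · exact ⟨Or.inl (by linarith), Or.inl (by linarith)⟩
    · exact ⟨Or.inr (by linarith), Or.inl (by linarith)⟩
    · exact ⟨Or.inl (by linarith), Or.inr (by linarith)⟩
    · exact ⟨Or.inr (by linarith), Or.inr (by linarith)⟩
  · rintro ⟨h1 | h1, h2 | h2⟩
    · exact ⟨Or.inl (by linarith), Or.inl (by linarith)⟩
    · exact ⟨Or.inr (by linarith), Or.inl (by linarith)⟩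
    · exact ⟨Or.inl (by linarith), Or.inr (by linarith)⟩
    · exact ⟨Or.inr (by linarith), Or.inr (by linarith)⟩

/-- normalised sight from `x` -/
theorem normal (k : ℕ) (x v : V) (hr : ∀ v, 0 < r v)
    (h : Sees (fun w => arcSet (r w) (a w) (b w)) k x v) :
    ∃ φ t, a x ≤ φ ∧ φ ≤ b x ∧ Cr r a b φ v t ∧
      Set.ncard {w : V | w ≠ x ∧ w ≠ v ∧ ∃ z, (min (r x) t ≤ z ∧ z ≤ max (r x) t) ∧
        Cr r a b φ w z} ≤ k := by
  obtain ⟨φ, s, t, h1, h2, h3⟩ := h
  simp only at h1 h2 h3
  rw [mem_line _ _ _ _ _ (hr x)] at h1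
  obtain ⟨n, e1, e2, e3⟩ := h1
  refine ⟨φ + n * π, t * (-1) ^ n, e2, e3, ?_, ?_⟩
  · unfold Cr
    rw [← ray_flip]
    exact h2
  · refine le_trans (le_of_eq ?_) h3
    congr 1
    ext w
    simp only [Set.mem_ofPred_eq]
    refine and_congr_right fun _ => and_congr_right fun _ => ?_
    rcases sign_or n with h | h
    · rw [h, mul_one] at e1
      rw [h, mul_one, e1]
      refine exists_congr fun z => ?_
      rw [and_assoc]
      refine and_congr_right fun _ => and_congr_right fun _ => ?_
      unfold Cr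
      rw [ray_flip z φ n, h, mul_one]
    · rw [h, mul_neg, mul_one] at e1
      rw [h, mul_neg, mul_one, e1]
      constructor
      · rintro ⟨z, hz, hc⟩
        rw [flip_between] at hz
        refine ⟨-z, hz.1, hz.2, ?_⟩
        rw [ray_flip (-z) φ n, h]
        unfold Cr at hc
        simpa using hc
      · rintro ⟨z, z1, z2, hc⟩
        refine ⟨-z, ?_, ?_⟩
        · rw [flip_between, neg_neg]
          exact ⟨z1, z2⟩
        · rw [ray_flip z φ n, h] at hc
          unfold Cr
          simpa using hc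

/-- constancy of the crossings of `v` while no line through an endpoint of `v` is met -/
theorem const (x v : V) (hr : ∀ v, 0 < r v) (hav : a v ≤ b v)
    (h1 : ∀ φ, a x ≤ φ → φ ≤ b x → ∀ n : ℤ, φ + n * π ≠ a v)
    (h2 : ∀ φ, a x ≤ φ → φ ≤ b x → ∀ n : ℤ, φ + n * π ≠ b v) (φ ψ t : ℝ)
    (hφ : a x ≤ φ ∧ φ ≤ b x) (hψ : a x ≤ ψ ∧ ψ ≤ b x) (h : Cr r a b φ v t) : Cr r a b ψ v t := by
  unfold Cr at h ⊢
  rw [mem_line _ _ _ _ _ (hr v)] at h ⊢
  obtain ⟨n, e1, e2, e3⟩ := h
  refine ⟨n, e1, ?_, ?_⟩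
  · by_contra hc
    push Not at hc
    apply h1 (a v - n * π) (by linarith [hψ.1]) (by linarith [hφ.2]) n
    ring
  · by_contra hc
    push Not at hc
    apply h2 (b v - n * π) (by linarith [hφ.1]) (by linarith [hψ.2]) n
    ring

/-- an arc meeting no critical line sees at most `2k+2` long arcs -/
theorem few (k s : ℕ) (x : V) (S : Fin s → V) (hS : Function.Injective S) (hx : ∀ l, S l ≠ x)
    [Finite V] (hr : ∀ v, 0 < r v) (hab : ∀ v, a v ≤ b v)
    (hd : ∀ u v, u ≠ v → Disjoint (arcSet (r u) (a u) (b u)) (arcSet (r v) (a v) (b v)))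
    (hs : 2 * k + 3 ≤ s)
    (h : ∀ l, Sees (fun w => arcSet (r w) (a w) (b w)) k x (S l))
    (h1 : ∀ l φ, a x ≤ φ → φ ≤ b x → ∀ n : ℤ, φ + n * π ≠ a (S l))
    (h2 : ∀ l φ, a x ≤ φ → φ ≤ b x → ∀ n : ℤ, φ + n * π ≠ b (S l)) : False := by
  classical
  choose φ t hφ1 hφ2 hcr hcard using fun l => normal r a b k x (S l) hr (h l)
  have hcr' : ∀ l l', Cr r a b (φ l) (S l') (t l') := fun l l' =>
    const r a b x (S l') hr (hab _) (h1 l') (h2 l') (φ l') (φ l) (t l') ⟨hφ1 l', hφ2 l'⟩
      ⟨hφ1 l, hφ2 l⟩ (hcr l')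
  have hinj : ∀ l l', l ≠ l' → t l ≠ t l' := by
    intro l l' hne he
    apply hne
    apply hS
    have h3 := hcr' l l'
    rw [← he] at h3
    exact Cr_uniq r a b hd (φ l) _ _ _ (hcr l) h3
  have hxcr : ∀ l, Cr r a b (φ l) x (r x) := by
    intro l
    unfold Cr
    rw [mem_line _ _ _ _ _ (hr x)]
    exact ⟨0, by simp, by simpa using hφ1 l, by simpa using hφ2 l⟩
  have hne : ∀ l, t l ≠ r x := by
    intro l he
    have h3 := hcr l
    rw [he] at h3
    exact hx l (Cr_uniq r a b hd (φ l) _ _ _ h3 (hxcr l))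
  let Up : Finset (Fin s) := Finset.univ.filter (fun l => r x < t l)
  let Dn : Finset (Fin s) := Finset.univ.filter (fun l => ¬ r x < t l)
  have hsum : Up.card + Dn.card = s := by
    have := Finset.card_filter_add_card_filter_not (s := (Finset.univ : Finset (Fin s)))
      (fun l => r x < t l)
    simpa [Up, Dn] using this
  have blk : ∀ (l : Fin s) (E : Finset (Fin s)), l ∈ E →
      (∀ l' ∈ E, min (r x) (t l) ≤ t l' ∧ t l' ≤ max (r x) (t l)) → E.card ≤ k + 1 := by
    intro l E hlE hE
    have hsub : (((E.erase l).image S : Finset V) : Set V) ⊆ {w : V | w ≠ x ∧ w ≠ S l ∧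
        ∃ z, (min (r x) (t l) ≤ z ∧ z ≤ max (r x) (t l)) ∧ Cr r a b (φ l) w z} := by
      intro w hw
      simp only [Finset.coe_image, Finset.coe_erase, Set.mem_image] at hw
      obtain ⟨l', hl', rfl⟩ := hw
      have hl1 : l' ∈ E := hl'.1
      have hl2 : l' ≠ l := hl'.2
      exact ⟨hx l', fun he => hl2 (hS he), t l', hE l' hl1, hcr' l l'⟩
    have h3 := Set.ncard_le_ncard hsub (Set.toFinite _)
    rw [Set.ncard_coe_finset, Finset.card_image_of_injective _ hS,
      Finset.card_erase_of_mem hlE] at h3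
    have h4 := hcard l
    omega
  have hup : Up.card ≤ k + 1 := by
    rcases Up.eq_empty_or_nonempty with he | he
    · rw [he]; simp
    · obtain ⟨l, hl, hmax⟩ := Finset.exists_max_image Up t he
      apply blk l Up hl
      intro l' hl'
      have h5 : r x < t l := (Finset.mem_filter.mp hl).2
      have h6 : r x < t l' := (Finset.mem_filter.mp hl').2
      rw [min_eq_left h5.le, max_eq_right h5.le]
      exact ⟨h6.le, hmax l' hl'⟩
  have hdn : Dn.card ≤ k + 1 := by
    rcases Dn.eq_empty_or_nonempty with he | he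
    · rw [he]; simp
    · obtain ⟨l, hl, hmin⟩ := Finset.exists_min_image Dn t he
      apply blk l Dn hl
      intro l' hl'
      have h5 : t l ≤ r x := not_lt.mp (Finset.mem_filter.mp hl).2
      have h6 : t l' ≤ r x := not_lt.mp (Finset.mem_filter.mp hl').2
      rw [min_eq_right h5, max_eq_left h5]
      exact ⟨hmin l' hl', h6⟩
  omega

end norm

/-- vertices: `s` long arcs, many short arcs -/
abbrev W2 (s : ℕ) : Type := Fin s ⊕ Fin (NN s)

/-- colour: index of the short arc -/
def col2 {s : ℕ} : W2 s → Option (Fin (NN s))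
  | Sum.inl _ => none
  | Sum.inr m => some m

theorem not_rep_high (i s : ℕ) (hs : 2 * i + 3 ≤ s) (G : SimpleGraph (W2 s))
    (E1 : ∀ m n : Fin (NN s), ¬ G.Adj (Sum.inr m) (Sum.inr n))
    (E2 : ∀ (l : Fin s) (m : Fin (NN s)), G.Adj (Sum.inr m) (Sum.inl l)) (r a b : W2 s → ℝ) :
    ¬ IsRep i G r a b := by
  classical
  rintro ⟨hrab, hd, hG⟩
  have hr : ∀ v, 0 < r v := fun v => (hrab v).1
  -- every short arc meets a critical line
  have crit : ∀ m : Fin (NN s), ∃ (l : Fin s) (e : Bool),
      Ln a b (if e then a (Sum.inl l) else b (Sum.inl l)) (Sum.inr m) := by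
    intro m
    by_contra hc
    push Not at hc
    refine few r a b i s (Sum.inr m) (fun l => Sum.inl l) Sum.inl_injective (by simp) hr
      (fun v => (hrab v).2) hd hs (fun l => (hG _ _ (by simp)).mp (E2 l m)) ?_ ?_
    · intro l φ h1 h2 n he
      apply hc l true
      refine ⟨-n, ?_, ?_⟩ <;> simp only [if_true] <;> push_cast <;> linarith
    · intro l φ h1 h2 n he
      apply hc l false
      refine ⟨-n, ?_, ?_⟩ <;> simp only [Bool.false_eq_true, if_false] <;> push_cast <;> linarith
  choose L e hLe using crit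
  -- chosen crossing
  let Φ : Fin s × Bool → ℝ := fun p => if p.2 then a (Sum.inl p.1) else b (Sum.inl p.1)
  have hcr : ∀ m, ∃ z, Cr r a b (Φ (L m, e m)) (Sum.inr m) z := fun m =>
    Ln_Cr r a b hr _ _ (hLe m)
  choose σ hσ using hcr
  -- number of long crossings below `z` on the line of direction `φ`
  let cnt : ℝ → ℝ → ℕ := fun φ z => ((Finset.univ : Finset (Fin s × Bool)).filter (fun q =>
    Cr r a b φ (Sum.inl q.1) (sg (r (Sum.inl q.1)) q.2) ∧ sg (r (Sum.inl q.1)) q.2 < z)).card
  have hcnt : ∀ φ z, cnt φ z < 2 * s + 1 := by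
    intro φ z
    have := Finset.card_le_univ ((Finset.univ : Finset (Fin s × Bool)).filter (fun q =>
      Cr r a b φ (Sum.inl q.1) (sg (r (Sum.inl q.1)) q.2) ∧ sg (r (Sum.inl q.1)) q.2 < z))
    have h3 : Fintype.card (Fin s × Bool) = 2 * s := by simp [mul_comm]
    rw [h3] at this
    exact Nat.lt_succ_of_le this
  let f : Fin (NN s) → (Fin s × Bool) × Fin (2 * s + 1) := fun m =>
    ((L m, e m), ⟨cnt (Φ (L m, e m)) (σ m), hcnt _ _⟩)
  have main : ∀ m n, m ≠ n → f m = f n → σ m < σ n → False := by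
    intro m n hmn hf hlt
    have hf1 : (L m, e m) = (L n, e n) := congrArg Prod.fst hf
    have hf2 : cnt (Φ (L m, e m)) (σ m) = cnt (Φ (L n, e n)) (σ n) :=
      congrArg (fun p => (Prod.snd p).val) hf
    rw [← hf1] at hf2
    have hn := hσ n
    rw [← hf1] at hn
    have hm := hσ m
    generalize Φ (L m, e m) = φ at hf2 hn hm
    -- no long crossing between
    have hno : ∀ (l : Fin s) (z : ℝ), Cr r a b φ (Sum.inl l) z → σ m ≤ z → z ≤ σ n → False := by
      intro l z hz z1 z2
      have z2' : z < σ n := by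
        refine lt_of_le_of_ne z2 ?_
        rintro rfl
        have := Cr_uniq r a b hd φ _ _ _ hz hn
        simp at this
      obtain ⟨e', he'⟩ := Cr_sg r a b hr φ _ z hz
      have hsub : ((Finset.univ : Finset (Fin s × Bool)).filter (fun q =>
          Cr r a b φ (Sum.inl q.1) (sg (r (Sum.inl q.1)) q.2) ∧ sg (r (Sum.inl q.1)) q.2 < σ m)) ⊂
          ((Finset.univ : Finset (Fin s × Bool)).filter (fun q =>
          Cr r a b φ (Sum.inl q.1) (sg (r (Sum.inl q.1)) q.2) ∧ sg (r (Sum.inl q.1)) q.2 < σ n)) := by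
        rw [Finset.ssubset_iff_of_subset]
        · refine ⟨(l, e'), ?_, ?_⟩
          · simp only [Finset.mem_filter, Finset.mem_univ, true_and]
            rw [← he']
            exact ⟨hz, z2'⟩
          · simp only [Finset.mem_filter, Finset.mem_univ, true_and]
            rw [← he']
            rintro ⟨_, h⟩
            linarith
        · intro q hq
          simp only [Finset.mem_filter, Finset.mem_univ, true_and] at hq ⊢
          exact ⟨hq.1, hq.2.trans hlt⟩
      have := Finset.card_lt_card hsub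
      change cnt φ (σ m) < cnt φ (σ n) at this
      omega
    obtain ⟨u, v, s', t', hu, hv, cu, cv, cuv, b1, b2, hw⟩ := closest r (Cr r a b φ)
      (Cr_sg r a b hr φ) (Cr_uniq r a b hd φ) (col2 (s := s)) _ _ (σ m) (σ n) hm hn (by simp [col2])
      (by simp [col2]) (by simpa [col2] using hmn)
    rcases u with u | u
    · simp [col2] at cu
    rcases v with v | v
    · simp [col2] at cv
    have huv : u ≠ v := by
      intro h
      apply cuv
      simp [h]
    apply E1 u v
    rw [hG _ _ (by simp [huv])]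
    refine ⟨φ, s', t', hu, hv, ?_⟩
    have hemp : {w : W2 s | w ≠ Sum.inr u ∧ w ≠ Sum.inr v ∧
        ∃ z, min s' t' ≤ z ∧ z ≤ max s' t' ∧ rayPt z φ ∈ arcSet (r w) (a w) (b w)} = ∅ := by
      ext w
      simp only [Set.mem_ofPred_eq, Set.mem_empty_iff_false, iff_false]
      rintro ⟨w1, w2, z, z1, z2, hz⟩
      have hcol := hw w z hz w1 w2 z1 z2
      rcases w with w | w
      · rw [min_eq_left hlt.le] at b1
        rw [max_eq_right hlt.le] at b2
        exact hno w z hz (b1.trans z1) (z2.trans b2)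
      · simp [col2] at hcol
    rw [hemp]
    simp
  have hinj : Function.Injective f := by
    intro m n hf
    by_contra hmn
    rcases lt_trichotomy (σ m) (σ n) with h | h | h
    · exact main m n hmn hf h
    · have hf1 : (L m, e m) = (L n, e n) := congrArg Prod.fst hf
      have h3 := hσ n
      rw [← hf1, ← h] at h3
      have := Cr_uniq r a b hd _ _ _ _ (hσ m) h3
      simp at this
      exact hmn this
    · exact main n m (Ne.symm hmn) hf.symm h
  have hcard := Fintype.card_le_of_injective f hinj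
  rw [Fintype.card_prod, Fintype.card_prod, Fintype.card_fin, Fintype.card_fin, Fintype.card_bool,
    Fintype.card_fin] at hcard
  have h9 : s * 2 * (2 * s + 1) = 2 * s * (2 * s + 1) := by ring
  rw [h9] at hcard
  unfold NN at hcard
  exact absurd hcard (by omega)

end Pool.Agent.X63.AL
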