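import Pool.Agent.X63.ArcIncl2

/-!
The representations.
-/

set_option autoImplicit false

namespace Pool.Agent.X63.AL

open Real

theorem Sees_symm {V : Type} (A : V → Set (ℝ × ℝ)) (k : ℕ) (u v : V) (h : Sees A k u v) :
    Sees A k v u := by
  obtain ⟨φ, s, t, h1, h2, h3⟩ := h
  refine ⟨φ, t, s, h2, h1, le_trans (le_of_eq ?_) h3⟩
  congr 1
  ext w
  simp only [Set.mem_ofPred_eq]
  rw [min_comm t s, max_comm t s]
  tauto

/-- the graph of an arrangement of arcs -/
def visGraph {V : Type} (r a b : V → ℝ) (k : ℕ) : SimpleGraph V where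
  Adj u v := u ≠ v ∧ Sees (fun w => arcSet (r w) (a w) (b w)) k u v
  symm := ⟨fun _ _ h => ⟨h.1.symm, Sees_symm _ _ _ _ h.2⟩⟩
  loopless := ⟨fun _ h => h.1 rfl⟩

section bars

variable {V : Type} (r a b : V → ℝ)

theorem bar_cr (hr : ∀ v, 0 < r v) (ha : ∀ v, 0 ≤ a v) (hb : ∀ v, b v ≤ 1) (φ : ℝ) (u v : V)
    (s t : ℝ) (hu : Cr r a b φ u s) (hv : Cr r a b φ v t) : ∃ n : ℤ, s = r u * (-1) ^ n ∧
      t = r v * (-1) ^ n ∧ a u ≤ φ + n * π ∧ φ + n * π ≤ b u ∧ a v ≤ φ + n * π ∧
      φ + n * π ≤ b v := by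
  unfold Cr at hu hv
  rw [mem_line _ _ _ _ _ (hr _)] at hu hv
  obtain ⟨n, e1, e2, e3⟩ := hu
  obtain ⟨m, f1, f2, f3⟩ := hv
  have hpi := Real.pi_gt_three
  have hnm : n = m := by
    have h1 := ha u
    have h2 := ha v
    have h3 := hb u
    have h4 := hb v
    by_contra hne
    rcases lt_or_gt_of_ne hne with h | h
    · have : (n : ℝ) + 1 ≤ m := by exact_mod_cast h
      nlinarith
    · have : (m : ℝ) + 1 ≤ n := by exact_mod_cast h
      nlinarith
  subst hnm
  exact ⟨n, e1, f1, e2, e3, f2, f3⟩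

theorem rep_of (hr : ∀ v, 0 < r v) (ha : ∀ v, 0 ≤ a v) (hab : ∀ v, a v < b v) (hb : ∀ v, b v ≤ 1)
    (hsep : ∀ u v, u ≠ v → r u = r v → b u < a v ∨ b v < a u) (k : ℕ) :
    InA k (visGraph r a b k) := by
  refine ⟨r, a, b, fun v => ⟨hab v, ?_⟩, fun v => ⟨hr v, (hab v).le⟩, ?_, ?_⟩
  · have := Real.pi_gt_three
    have := ha v
    have := hb v
    linarith
  · intro u v huv
    rw [Set.disjoint_left]
    intro p hp hq
    obtain ⟨φ, h1, h2, rfl⟩ := hp
    have hu : Cr r a b φ u (r u) := ⟨φ, h1, h2, rfl⟩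
    obtain ⟨n, e1, e2, e3, e4, e5, e6⟩ := bar_cr r a b hr ha hb φ u v (r u) (r u) hu hq
    have hru := hr u
    have hrv := hr v
    rcases sign_or n with h | h
    · rw [h, mul_one] at e2
      rcases hsep u v huv e2 with h | h <;> linarith
    · rw [h] at e1
      linarith
  · intro u v huv
    constructor
    · intro h
      exact h.2
    · intro h
      exact ⟨huv, h⟩

end bars

/-! first family -/

section fam1

variable (j : ℕ)

/-- radii -/
noncomputable def r1 : W j → ℝ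
  | Sum.inl l => (l.val : ℝ) + 1
  | Sum.inr (_, false) => (j : ℝ) + 2
  | Sum.inr (_, true) => (j : ℝ) + 3

/-- left angles -/
noncomputable def a1 : W j → ℝ
  | Sum.inl _ => 0
  | Sum.inr (m, _) => (m.val : ℝ) / 3

/-- right angles -/
noncomputable def b1 : W j → ℝ
  | Sum.inl _ => 1
  | Sum.inr (m, false) => (m.val : ℝ) / 3 + 2 / 9
  | Sum.inr (m, true) => (m.val : ℝ) / 3 + 1 / 9

theorem r1_pos (v : W j) : 0 < r1 j v := by
  rcases v with l | ⟨m, _ | _⟩ <;> simp only [r1] <;> positivity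

theorem a1_nonneg (v : W j) : 0 ≤ a1 j v := by
  rcases v with l | ⟨m, _ | _⟩ <;> simp only [a1] <;> positivity

theorem ab1 (v : W j) : a1 j v < b1 j v := by
  rcases v with l | ⟨m, _ | _⟩ <;> simp only [a1, b1] <;> linarith

theorem b1_le (v : W j) : b1 j v ≤ 1 := by
  have h3 : ∀ m : Fin 3, (m.val : ℝ) ≤ 2 := fun m => by
    have := m.isLt
    exact_mod_cast (by omega)
  rcases v with l | ⟨m, _ | _⟩
  · simp [b1]
  · simp only [b1]; linarith [h3 m]
  · simp only [b1]; linarith [h3 m]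

theorem leg_sep (m n : Fin 3) (p q : Bool) (hmn : m ≠ n) (x : ℝ)
    (h1 : a1 j (Sum.inr (m, p)) ≤ x) (h2 : x ≤ b1 j (Sum.inr (m, p)))
    (h3 : a1 j (Sum.inr (n, q)) ≤ x) (h4 : x ≤ b1 j (Sum.inr (n, q))) : False := by
  have hb : ∀ (m : Fin 3) (p : Bool), b1 j (Sum.inr (m, p)) ≤ (m.val : ℝ) / 3 + 2 / 9 := by
    intro m p
    rcases p with _ | _ <;> simp only [b1] <;> linarith
  have ha : ∀ (m : Fin 3) (p : Bool), a1 j (Sum.inr (m, p)) = (m.val : ℝ) / 3 := by
    intro m p
    rfl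
  have e1 := hb m p
  have e2 := hb n q
  rw [ha] at h1 h3
  have hne : m.val ≠ n.val := fun h => hmn (Fin.ext h)
  rcases lt_or_gt_of_ne hne with h | h
  · have : (m.val : ℝ) + 1 ≤ n.val := by exact_mod_cast h
    linarith
  · have : (n.val : ℝ) + 1 ≤ m.val := by exact_mod_cast h
    linarith

theorem inA1 : InA j (visGraph (r1 j) (a1 j) (b1 j) j) := by
  refine rep_of _ _ _ (r1_pos j) (a1_nonneg j) (ab1 j) (b1_le j) ?_ j
  intro u v huv he
  by_contra hc
  push Not at hc
  obtain ⟨c1, c2⟩ := hc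
  have hl : ∀ l : Fin (j + 1), (l.val : ℝ) ≤ j := fun l => by
    have := l.isLt
    exact_mod_cast (by omega)
  have hcommon : ∀ (m n : Fin 3) (p q : Bool), u = Sum.inr (m, p) → v = Sum.inr (n, q) → m = n := by
    intro m n p q hu hv
    by_contra hmn
    subst hu hv
    have h1 := (ab1 j (Sum.inr (m, p))).le
    have h2 := (ab1 j (Sum.inr (n, q))).le
    apply leg_sep j m n p q hmn (max (a1 j (Sum.inr (m, p))) (a1 j (Sum.inr (n, q))))
    · exact le_max_left _ _
    · exact max_le h1 c1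
    · exact le_max_right _ _
    · exact max_le c2 h2
  rcases u with l | ⟨m, _ | _⟩ <;> rcases v with l' | ⟨n, _ | _⟩
  · apply huv
    simp only [r1] at he
    have : (l.val : ℝ) = l'.val := by linarith
    have : l = l' := Fin.ext (by exact_mod_cast this)
    rw [this]
  · simp only [r1] at he; linarith [hl l]
  · simp only [r1] at he; linarith [hl l]
  · simp only [r1] at he; linarith [hl l']
  · exact huv (by rw [hcommon m n _ _ rfl rfl])
  · simp only [r1] at he; linarith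
  · simp only [r1] at he; linarith [hl l']
  · simp only [r1] at he; linarith
  · exact huv (by rw [hcommon m n _ _ rfl rfl])

theorem F1 (m n : Fin 3) (p q : Bool) (hmn : m ≠ n) :
    ¬ (visGraph (r1 j) (a1 j) (b1 j) j).Adj (Sum.inr (m, p)) (Sum.inr (n, q)) := by
  rintro ⟨_, φ, s, t, h1, h2, _⟩
  obtain ⟨k, e1, e2, e3, e4, e5, e6⟩ := bar_cr (r1 j) (a1 j) (b1 j) (r1_pos j) (a1_nonneg j)
    (b1_le j) φ _ _ s t h1 h2
  exact leg_sep j m n p q hmn _ e3 e4 e5 e6

theorem F2 (m : Fin 3) :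
    ¬ (visGraph (r1 j) (a1 j) (b1 j) j).Adj (Sum.inl 0) (Sum.inr (m, true)) := by
  classical
  rintro ⟨_, φ, s, t, h1, h2, h3⟩
  obtain ⟨k, e1, e2, e3, e4, e5, e6⟩ := bar_cr (r1 j) (a1 j) (b1 j) (r1_pos j) (a1_nonneg j)
    (b1_le j) φ _ _ s t h1 h2
  let S : Finset (W j) := insert (Sum.inr (m, false))
    (((Finset.univ : Finset (Fin (j + 1))).erase 0).image Sum.inl)
  have hScard : S.card = j + 1 := by
    rw [Finset.card_insert_of_notMem (by simp), Finset.card_image_of_injective _ Sum.inl_injective,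
      Finset.card_erase_of_mem (Finset.mem_univ _)]
    simp
  have hcr : ∀ w ∈ S, Cr (r1 j) (a1 j) (b1 j) φ w (r1 j w * (-1) ^ k) := by
    intro w hw
    unfold Cr
    rw [mem_line _ _ _ _ _ (r1_pos j w)]
    refine ⟨k, rfl, ?_, ?_⟩
    · rcases Finset.mem_insert.mp hw with rfl | hw
      · exact e5
      · obtain ⟨l, _, rfl⟩ := Finset.mem_image.mp hw
        exact e3
    · rcases Finset.mem_insert.mp hw with rfl | hw
      · simp only [b1] at e6 ⊢
        linarith
      · obtain ⟨l, _, rfl⟩ := Finset.mem_image.mp hw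
        exact e4
  have hrad : ∀ w ∈ S, (1 : ℝ) ≤ r1 j w ∧ r1 j w ≤ j + 3 := by
    intro w hw
    rcases Finset.mem_insert.mp hw with rfl | hw
    · simp only [r1]
      constructor
      · have : (0 : ℝ) ≤ j := by positivity
        linarith
      · linarith
    · obtain ⟨l, _, rfl⟩ := Finset.mem_image.mp hw
      simp only [r1]
      have h4 : (l.val : ℝ) ≤ j := by
        have := l.isLt
        exact_mod_cast (by omega)
      have h5 : (0 : ℝ) ≤ l.val := by positivity
      constructor <;> linarith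
  have hs1 : s = (-1) ^ k := by
    rw [e1]
    simp [r1]
  have ht1 : t = ((j : ℝ) + 3) * (-1) ^ k := by
    rw [e2]
    simp [r1]
  have hsub : (S : Set (W j)) ⊆ {w : W j | w ≠ Sum.inl 0 ∧ w ≠ Sum.inr (m, true) ∧
      ∃ z, min s t ≤ z ∧ z ≤ max s t ∧ rayPt z φ ∈ arcSet (r1 j w) (a1 j w) (b1 j w)} := by
    intro w hw
    have hw' : w ∈ S := hw
    refine ⟨?_, ?_, r1 j w * (-1) ^ k, ?_, ?_, hcr w hw'⟩
    · rintro rfl
      simp [S] at hw'
    · rintro rfl
      simp [S] at hw'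
    · have h5 := hrad w hw'
      rw [hs1, ht1]
      rcases sign_or k with h | h
      · rw [h]
        apply (min_le_left _ _).trans
        linarith
      · rw [h]
        apply (min_le_right _ _).trans
        linarith
    · have h5 := hrad w hw'
      rw [hs1, ht1]
      rcases sign_or k with h | h
      · rw [h]
        refine le_trans ?_ (le_max_right _ _)
        linarith
      · rw [h]
        refine le_trans ?_ (le_max_left _ _)
        linarith
  have h6 := Set.ncard_le_ncard hsub (Set.toFinite _)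
  rw [Set.ncard_coe_finset, hScard] at h6
  have h7 : j + 1 ≤ j := h6.trans h3
  omega

/-- crossing at the left end of a leg -/
theorem leg_cross (m : Fin 3) (w : W j) (z : ℝ)
    (h : Cr (r1 j) (a1 j) (b1 j) ((m.val : ℝ) / 3) w z) :
    z = r1 j w ∧ (∀ n q, w = Sum.inr (n, q) → n = m) := by
  have h0 : Cr (r1 j) (a1 j) (b1 j) ((m.val : ℝ) / 3) (Sum.inr (m, false)) ((j : ℝ) + 2) := by
    refine ⟨(m.val : ℝ) / 3, le_rfl, ?_, rfl⟩
    exact (ab1 j (Sum.inr (m, false))).le
  obtain ⟨k, e1, e2, e3, e4, e5, e6⟩ := bar_cr (r1 j) (a1 j) (b1 j) (r1_pos j) (a1_nonneg j)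
    (b1_le j) _ _ _ _ _ h0 h
  have hk : ((-1 : ℝ) ^ k) = 1 := by
    rcases sign_or k with h | h
    · exact h
    · rw [h] at e1
      simp only [r1] at e1
      have : (0 : ℝ) ≤ j := by positivity
      linarith
  refine ⟨by rw [e2, hk, mul_one], ?_⟩
  intro n q hw
  subst hw
  by_contra hne
  exact leg_sep j n m q false hne _ e5 e6 e3 e4

theorem F3 (m : Fin 3) :
    (visGraph (r1 j) (a1 j) (b1 j) j).Adj (Sum.inl 0) (Sum.inr (m, false)) := by
  classical
  have hm3 : (m.val : ℝ) ≤ 2 := by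
    have := m.isLt
    exact_mod_cast (by omega)
  have hm0 : (0 : ℝ) ≤ m.val := by positivity
  refine ⟨by simp, (m.val : ℝ) / 3, 1, (j : ℝ) + 2, ?_, ?_, ?_⟩
  · refine ⟨(m.val : ℝ) / 3, ?_, ?_, by simp [r1]⟩
    · simp only [a1]; positivity
    · simp only [b1]; linarith
  · refine ⟨(m.val : ℝ) / 3, le_rfl, ?_, rfl⟩
    exact (ab1 j (Sum.inr (m, false))).le
  · have hsub : {w : W j | w ≠ Sum.inl 0 ∧ w ≠ Sum.inr (m, false) ∧
        ∃ z, min 1 ((j : ℝ) + 2) ≤ z ∧ z ≤ max 1 ((j : ℝ) + 2) ∧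
          rayPt z ((m.val : ℝ) / 3) ∈ arcSet (r1 j w) (a1 j w) (b1 j w)} ⊆
        (((Finset.univ : Finset (Fin (j + 1))).erase 0).image Sum.inl : Finset (W j)) := by
      rintro w ⟨w1, w2, z, z1, z2, hz⟩
      obtain ⟨g1, g2⟩ := leg_cross j m w z hz
      rcases w with l | ⟨n, q⟩
      · have : l ≠ 0 := fun h => w1 (by rw [h])
        simp [this]
      · exfalso
        have hn := g2 n q rfl
        subst hn
        rcases q with _ | _
        · exact w2 rfl
        · have hj : (0 : ℝ) ≤ j := by positivity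
          rw [max_eq_right (by linarith)] at z2
          simp only [r1] at g1
          linarith
    calc _ ≤ _ := Set.ncard_le_ncard hsub (Set.toFinite _)
      _ = (((Finset.univ : Finset (Fin (j + 1))).erase 0).image (Sum.inl : _ → W j)).card :=
          Set.ncard_coe_finset _
      _ ≤ ((Finset.univ : Finset (Fin (j + 1))).erase 0).card := Finset.card_image_le
      _ = j := by
          rw [Finset.card_erase_of_mem (Finset.mem_univ _)]
          simp
      _ ≤ j := le_rfl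

theorem F4 (m : Fin 3) :
    (visGraph (r1 j) (a1 j) (b1 j) j).Adj (Sum.inr (m, false)) (Sum.inr (m, true)) := by
  classical
  have hj : (0 : ℝ) ≤ j := by positivity
  refine ⟨by simp, (m.val : ℝ) / 3, (j : ℝ) + 2, (j : ℝ) + 3, ?_, ?_, ?_⟩
  · refine ⟨(m.val : ℝ) / 3, le_rfl, ?_, rfl⟩
    exact (ab1 j (Sum.inr (m, false))).le
  · refine ⟨(m.val : ℝ) / 3, le_rfl, ?_, rfl⟩
    exact (ab1 j (Sum.inr (m, true))).le
  · have hemp : {w : W j | w ≠ Sum.inr (m, false) ∧ w ≠ Sum.inr (m, true) ∧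
        ∃ z, min ((j : ℝ) + 2) ((j : ℝ) + 3) ≤ z ∧ z ≤ max ((j : ℝ) + 2) ((j : ℝ) + 3) ∧
          rayPt z ((m.val : ℝ) / 3) ∈ arcSet (r1 j w) (a1 j w) (b1 j w)} = ∅ := by
      ext w
      simp only [Set.mem_ofPred_eq, Set.mem_empty_iff_false, iff_false]
      rintro ⟨w1, w2, z, z1, z2, hz⟩
      obtain ⟨g1, g2⟩ := leg_cross j m w z hz
      rcases w with l | ⟨n, q⟩
      · rw [min_eq_left (by linarith)] at z1
        simp only [r1] at g1
        have : (l.val : ℝ) ≤ j := by
          have := l.isLt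
          exact_mod_cast (by omega)
        linarith
      · have hn := g2 n q rfl
        subst hn
        rcases q with _ | _
        · exact w1 rfl
        · exact w2 rfl
    rw [hemp]
    simp

/-- `A_j` is not contained in `A_i` for `j < i` -/
theorem low (i : ℕ) (hij : j < i) : ∃ (V : Type) (_ : Fintype V) (G : SimpleGraph V),
    InA j G ∧ ¬ ∃ r a b : V → ℝ, IsRep i G r a b := by
  refine ⟨W j, inferInstance, visGraph (r1 j) (a1 j) (b1 j) j, inA1 j, ?_⟩
  rintro ⟨r, a, b, h⟩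
  exact not_rep_low i j hij _ (F1 j) (F2 j) (F3 j) (F4 j) r a b h

end fam1

end Pool.Agent.X63.AL
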