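import Pool.Agent.X63.ArcIncl3

/-!
Second family of representations.
-/

set_option autoImplicit false

namespace Pool.Agent.X63.AL

open Real

section fam2

variable (j : ℕ)

/-- number of long arcs -/
abbrev ss : ℕ := 2 * j + 2

/-- radii -/
noncomputable def r2 : W2 (ss j) → ℝ
  | Sum.inl l => if l.val ≤ j then (l.val : ℝ) + 1 else (l.val : ℝ) + 2
  | Sum.inr _ => (j : ℝ) + 2

/-- left angles -/
noncomputable def a2 : W2 (ss j) → ℝ
  | Sum.inl _ => 0
  | Sum.inr m => (2 * (m.val : ℝ)) / (2 * NN (ss j))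

/-- right angles -/
noncomputable def b2 : W2 (ss j) → ℝ
  | Sum.inl _ => 1
  | Sum.inr m => (2 * (m.val : ℝ) + 1) / (2 * NN (ss j))

theorem NN_pos : (0 : ℝ) < 2 * NN (ss j) := by
  unfold NN
  positivity

theorem r2_pos (v : W2 (ss j)) : 0 < r2 j v := by
  rcases v with l | m <;> simp only [r2]
  · split_ifs <;> positivity
  · positivity

theorem a2_nonneg (v : W2 (ss j)) : 0 ≤ a2 j v := by
  rcases v with l | m <;> simp only [a2] <;> positivity

theorem ab2 (v : W2 (ss j)) : a2 j v < b2 j v := by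
  have := NN_pos j
  rcases v with l | m <;> simp only [a2, b2]
  · linarith
  · apply div_lt_div_of_pos_right _ this
    linarith

theorem b2_le (v : W2 (ss j)) : b2 j v ≤ 1 := by
  have := NN_pos j
  rcases v with l | m <;> simp only [b2]
  · linarith
  · rw [div_le_one this]
    have : (m.val : ℝ) + 1 ≤ NN (ss j) := by exact_mod_cast m.isLt
    linarith

theorem short_sep (m n : Fin (NN (ss j))) (hmn : m ≠ n) (x : ℝ)
    (h1 : a2 j (Sum.inr m) ≤ x) (h2 : x ≤ b2 j (Sum.inr m))
    (h3 : a2 j (Sum.inr n) ≤ x) (h4 : x ≤ b2 j (Sum.inr n)) : False := by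
  have hp := NN_pos j
  simp only [a2, b2] at h1 h2 h3 h4
  rw [div_le_iff₀ hp] at h1 h3
  rw [le_div_iff₀ hp] at h2 h4
  have hne : m.val ≠ n.val := fun h => hmn (Fin.ext h)
  rcases lt_or_gt_of_ne hne with h | h
  · have : (m.val : ℝ) + 1 ≤ n.val := by exact_mod_cast h
    linarith
  · have : (n.val : ℝ) + 1 ≤ m.val := by exact_mod_cast h
    linarith

theorem long_ne (l : Fin (ss j)) : (l.val ≤ j → r2 j (Sum.inl l) < j + 2) ∧
    (¬ l.val ≤ j → (j : ℝ) + 2 < r2 j (Sum.inl l)) := by
  constructor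
  · intro h
    simp only [r2, if_pos h]
    have : (l.val : ℝ) ≤ j := by exact_mod_cast h
    linarith
  · intro h
    simp only [r2, if_neg h]
    have : (j : ℝ) + 1 ≤ l.val := by exact_mod_cast (by omega)
    linarith

theorem r2_mono (l l' : Fin (ss j)) : r2 j (Sum.inl l) ≤ r2 j (Sum.inl l') ↔ l.val ≤ l'.val := by
  simp only [r2]
  have c1 : (l.val : ℝ) ≤ l'.val ↔ l.val ≤ l'.val := Nat.cast_le
  by_cases h : l.val ≤ j <;> by_cases h' : l'.val ≤ j
  · rw [if_pos h, if_pos h', add_le_add_iff_right, c1]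
  · rw [if_pos h, if_neg h']
    constructor
    · intro _; omega
    · intro hl
      have := c1.mpr hl
      linarith
  · rw [if_neg h, if_pos h']
    constructor
    · intro hl
      have h1 : (l'.val : ℝ) + 1 ≤ l.val := by exact_mod_cast (by omega)
      linarith
    · intro _; omega
  · rw [if_neg h, if_neg h', add_le_add_iff_right, c1]

theorem inA2 : InA j (visGraph (r2 j) (a2 j) (b2 j) j) := by
  refine rep_of _ _ _ (r2_pos j) (a2_nonneg j) (ab2 j) (b2_le j) ?_ j
  intro u v huv he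
  by_contra hc
  push Not at hc
  obtain ⟨c1, c2⟩ := hc
  have hl : ∀ l : Fin (ss j), r2 j (Sum.inl l) ≠ j + 2 := by
    intro l h
    by_cases h' : l.val ≤ j
    · have := (long_ne j l).1 h'
      linarith
    · have := (long_ne j l).2 h'
      linarith
  rcases u with l | m <;> rcases v with l' | n
  · apply huv
    have h1 := (r2_mono j l l').mp he.le
    have h2 := (r2_mono j l' l).mp he.ge
    have : l = l' := Fin.ext (le_antisymm h1 h2)
    rw [this]
  · exact hl l he
  · exact hl l' he.symm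
  · have hmn : m ≠ n := fun h => huv (by rw [h])
    have h1 := (ab2 j (Sum.inr m)).le
    have h2 := (ab2 j (Sum.inr n)).le
    apply short_sep j m n hmn (max (a2 j (Sum.inr m)) (a2 j (Sum.inr n)))
    · exact le_max_left _ _
    · exact max_le h1 c1
    · exact le_max_right _ _
    · exact max_le c2 h2

theorem E1 (m n : Fin (NN (ss j))) :
    ¬ (visGraph (r2 j) (a2 j) (b2 j) j).Adj (Sum.inr m) (Sum.inr n) := by
  rintro ⟨hne, φ, s, t, h1, h2, _⟩
  obtain ⟨k, e1, e2, e3, e4, e5, e6⟩ := bar_cr (r2 j) (a2 j) (b2 j) (r2_pos j) (a2_nonneg j)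
    (b2_le j) φ _ _ s t h1 h2
  exact short_sep j m n (fun h => hne (by rw [h])) _ e3 e4 e5 e6

theorem E2 (l : Fin (ss j)) (m : Fin (NN (ss j))) :
    (visGraph (r2 j) (a2 j) (b2 j) j).Adj (Sum.inr m) (Sum.inl l) := by
  classical
  have hφ0 := a2_nonneg j (Sum.inr m)
  have hφ1 := (ab2 j (Sum.inr m)).le.trans (b2_le j _)
  have hx : Cr (r2 j) (a2 j) (b2 j) (a2 j (Sum.inr m)) (Sum.inr m) ((j : ℝ) + 2) :=
    ⟨a2 j (Sum.inr m), le_rfl, (ab2 j (Sum.inr m)).le, rfl⟩
  have hl : Cr (r2 j) (a2 j) (b2 j) (a2 j (Sum.inr m)) (Sum.inl l) (r2 j (Sum.inl l)) :=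
    ⟨a2 j (Sum.inr m), hφ0, hφ1, rfl⟩
  refine ⟨by simp, a2 j (Sum.inr m), (j : ℝ) + 2, r2 j (Sum.inl l), hx, hl, ?_⟩
  let T : Finset (Fin (ss j)) := Finset.univ.filter (fun l' =>
    if l.val ≤ j then l.val < l'.val ∧ l'.val ≤ j else ¬ l'.val ≤ j ∧ l'.val < l.val)
  have hT : T.card ≤ j := by
    have : T.image (fun l' => l'.val) ⊆ if l.val ≤ j then Finset.Ioc l.val j else
        Finset.Ico (j + 1) l.val := by
      intro x hx
      obtain ⟨l', hl', rfl⟩ := Finset.mem_image.mp hx
      have h3 := (Finset.mem_filter.mp hl').2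
      by_cases h : l.val ≤ j
      · rw [if_pos h] at h3 ⊢
        rw [Finset.mem_Ioc]
        exact h3
      · rw [if_neg h] at h3 ⊢
        rw [Finset.mem_Ico]
        omega
    have h4 := Finset.card_le_card this
    rw [Finset.card_image_of_injective _ Fin.val_injective] at h4
    refine h4.trans ?_
    split_ifs with h
    · rw [Nat.card_Ioc]; omega
    · rw [Nat.card_Ico]
      have := l.isLt
      unfold ss at this
      omega
  have hsub : {w : W2 (ss j) | w ≠ Sum.inr m ∧ w ≠ Sum.inl l ∧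
      ∃ z, min ((j : ℝ) + 2) (r2 j (Sum.inl l)) ≤ z ∧ z ≤ max ((j : ℝ) + 2) (r2 j (Sum.inl l)) ∧
        rayPt z (a2 j (Sum.inr m)) ∈ arcSet (r2 j w) (a2 j w) (b2 j w)} ⊆
      (T.image Sum.inl : Finset (W2 (ss j))) := by
    rintro w ⟨w1, w2, z, z1, z2, hz⟩
    obtain ⟨k, e1, e2, e3, e4, e5, e6⟩ := bar_cr (r2 j) (a2 j) (b2 j) (r2_pos j) (a2_nonneg j)
      (b2_le j) _ _ _ _ _ hx hz
    have hj : (0 : ℝ) ≤ j := by positivity
    have hk : ((-1 : ℝ) ^ k) = 1 := by
      rcases sign_or k with h | h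
      · exact h
      · rw [h] at e1
        simp only [r2] at e1
        linarith
    rw [hk, mul_one] at e2
    rcases w with l' | n
    · have hne : l'.val ≠ l.val := fun h => w2 (by rw [Fin.ext h])
      simp only [Finset.coe_image, Set.mem_image, Finset.mem_coe]
      refine ⟨l', ?_, rfl⟩
      rw [Finset.mem_filter]
      refine ⟨Finset.mem_univ _, ?_⟩
      by_cases h : l.val ≤ j
      · rw [if_pos h]
        have h5 := (long_ne j l).1 h
        rw [min_eq_right h5.le, e2, r2_mono] at z1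
        rw [max_eq_left h5.le, e2] at z2
        have h6 : l'.val ≤ j := by
          by_contra h7
          have := (long_ne j l').2 h7
          linarith
        omega
      · rw [if_neg h]
        have h5 := (long_ne j l).2 h
        rw [max_eq_right h5.le, e2, r2_mono] at z2
        rw [min_eq_left h5.le, e2] at z1
        have h6 : ¬ l'.val ≤ j := by
          intro h7
          have := (long_ne j l').1 h7
          linarith
        omega
    · exfalso
      exact short_sep j m n (fun h => w1 (by rw [h])) _ e3 e4 e5 e6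
  calc _ ≤ _ := Set.ncard_le_ncard hsub (Set.toFinite _)
    _ = (T.image (Sum.inl : _ → W2 (ss j))).card := Set.ncard_coe_finset _
    _ ≤ T.card := Finset.card_image_le
    _ ≤ j := hT

/-- `A_j` is not contained in `A_i` for `i < j` -/
theorem high (i : ℕ) (hij : i < j) : ∃ (V : Type) (_ : Fintype V) (G : SimpleGraph V),
    InA j G ∧ ¬ ∃ r a b : V → ℝ, IsRep i G r a b := by
  refine ⟨W2 (ss j), inferInstance, visGraph (r2 j) (a2 j) (b2 j) j, inA2 j, ?_⟩
  rintro ⟨r, a, b, h⟩
  exact not_rep_high i (ss j) (by unfold ss; omega) _ (E1 j) (E2 j) r a b h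

end fam2

end Pool.Agent.X63.AL
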