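import Mathlib

/-!
Arc `k`-visibility graphs by lines of sight.
-/

set_option autoImplicit false

namespace Pool.Agent.X63.AL

/-- the point `s (cos φ, sin φ)` of the plane -/
noncomputable def rayPt (s φ : ℝ) : ℝ × ℝ := (s * Real.cos φ, s * Real.sin φ)

/-- the circular arc about the origin of radius `r` over the angles `[a, b]` -/
def arcSet (r a b : ℝ) : Set (ℝ × ℝ) := {p | ∃ φ, a ≤ φ ∧ φ ≤ b ∧ p = rayPt r φ}

/-- The arcs `A u` and `A v` are joined by a radial segment, going from the point `rayPt s φ` of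
`A u` to the point `rayPt t φ` of `A v` on a line through the origin, which meets at most `k`
further arcs. -/
def Sees {V : Type} (A : V → Set (ℝ × ℝ)) (k : ℕ) (u v : V) : Prop :=
  ∃ φ s t : ℝ, rayPt s φ ∈ A u ∧ rayPt t φ ∈ A v ∧
    Set.ncard {w : V | w ≠ u ∧ w ≠ v ∧ ∃ z, min s t ≤ z ∧ z ≤ max s t ∧ rayPt z φ ∈ A w} ≤ k

/-- the pairwise disjoint arcs with radii `r v > 0` over the angles `[a v, b v]` represent `G` as
an arc `k`-visibility graph -/
def IsRep {V : Type} (k : ℕ) (G : SimpleGraph V) (r a b : V → ℝ) : Prop :=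
  (∀ v, 0 < r v ∧ a v ≤ b v) ∧
    (∀ u v, u ≠ v → Disjoint (arcSet (r u) (a u) (b u)) (arcSet (r v) (a v) (b v))) ∧
    ∀ u v, u ≠ v → (G.Adj u v ↔ Sees (fun w => arcSet (r w) (a w) (b w)) k u v)

/-- the class `A_k`: arc `k`-visibility graphs, the arcs being of positive length and no full
circles -/
def InA {V : Type} (k : ℕ) (G : SimpleGraph V) : Prop :=
  ∃ r a b : V → ℝ, (∀ v, a v < b v ∧ b v < a v + 2 * Real.pi) ∧ IsRep k G r a b

open Real

theorem mem_line (r a b s φ : ℝ) (hr : 0 < r) :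
    rayPt s φ ∈ arcSet r a b ↔ ∃ n : ℤ, s = r * (-1) ^ n ∧ a ≤ φ + n * π ∧ φ + n * π ≤ b := by
  constructor
  · rintro ⟨ψ, h1, h2, h3⟩
    unfold rayPt at h3
    have e1 : s * cos φ = r * cos ψ := congrArg Prod.fst h3
    have e2 : s * sin φ = r * sin ψ := congrArg Prod.snd h3
    have h4 : r * sin (ψ - φ) = 0 := by
      rw [Real.sin_sub]
      calc r * (sin ψ * cos φ - cos ψ * sin φ) = (r * sin ψ) * cos φ - (r * cos ψ) * sin φ := by
            ring
        _ = 0 := by rw [← e1, ← e2]; ring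
    have h5 : sin (ψ - φ) = 0 := by
      rcases mul_eq_zero.mp h4 with h | h
      · exact absurd h hr.ne'
      · exact h
    rw [Real.sin_eq_zero_iff] at h5
    obtain ⟨n, hn⟩ := h5
    refine ⟨n, ?_, ?_, ?_⟩
    · have h6 : s = r * cos (ψ - φ) := by
        rw [Real.cos_sub]
        have h7 := Real.sin_sq_add_cos_sq φ
        calc s = s * (sin φ ^ 2 + cos φ ^ 2) := by rw [h7, mul_one]
          _ = (s * cos φ) * cos φ + (s * sin φ) * sin φ := by ring
          _ = r * (cos ψ * cos φ + sin ψ * sin φ) := by rw [e1, e2]; ring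
      rw [h6, ← hn, Real.cos_int_mul_pi]
    · linarith
    · linarith
  · rintro ⟨n, h1, h2, h3⟩
    refine ⟨φ + n * π, h2, h3, ?_⟩
    unfold rayPt
    rw [Real.cos_add_int_mul_pi, Real.sin_add_int_mul_pi, h1]
    have h : ((-1 : ℝ) ^ n) = 1 ∨ ((-1 : ℝ) ^ n) = -1 := by
      rcases Int.even_or_odd n with h | h
      · left; exact h.neg_one_zpow
      · right; exact h.neg_one_zpow
    rcases h with h | h <;> rw [h] <;> simp

theorem sign_or (n : ℤ) : ((-1 : ℝ) ^ n) = 1 ∨ ((-1 : ℝ) ^ n) = -1 := by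
  rcases Int.even_or_odd n with h | h
  · left; exact h.neg_one_zpow
  · right; exact h.neg_one_zpow

/-- `σ true = r`, `σ false = -r` -/
def sg (r : ℝ) (e : Bool) : ℝ := if e then r else -r

theorem mem_sg (r a b s φ : ℝ) (hr : 0 < r) (h : rayPt s φ ∈ arcSet r a b) : ∃ e, s = sg r e := by
  rw [mem_line r a b s φ hr] at h
  obtain ⟨n, h1, _, _⟩ := h
  rcases sign_or n with h | h
  · exact ⟨true, by rw [h1, h, sg]; simp⟩
  · exact ⟨false, by rw [h1, h, sg]; simp⟩

/-- closest pair of crossings with different colours -/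
theorem closest {V K : Type} [Finite V] (r : V → ℝ) (C : V → ℝ → Prop)
    (hC : ∀ w z, C w z → ∃ e, z = sg (r w) e)
    (hU : ∀ u v z, C u z → C v z → u = v) (c : V → Option K) (u₀ v₀ : V) (s₀ t₀ : ℝ)
    (hu : C u₀ s₀) (hv : C v₀ t₀) (cu : c u₀ ≠ none) (cv : c v₀ ≠ none) (cuv : c u₀ ≠ c v₀) :
    ∃ u v s t, C u s ∧ C v t ∧ c u ≠ none ∧ c v ≠ none ∧ c u ≠ c v ∧
      min s₀ t₀ ≤ min s t ∧ max s t ≤ max s₀ t₀ ∧
      ∀ w z, C w z → w ≠ u → w ≠ v → min s t ≤ z → z ≤ max s t → c w = none := by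
  classical
  let P : Set ((V × Bool) × (V × Bool)) := {x |
    C x.1.1 (sg (r x.1.1) x.1.2) ∧ C x.2.1 (sg (r x.2.1) x.2.2) ∧ c x.1.1 ≠ none ∧ c x.2.1 ≠ none ∧
    c x.1.1 ≠ c x.2.1 ∧
    min s₀ t₀ ≤ min (sg (r x.1.1) x.1.2) (sg (r x.2.1) x.2.2) ∧
    max (sg (r x.1.1) x.1.2) (sg (r x.2.1) x.2.2) ≤ max s₀ t₀}
  have hPf : P.Finite := Set.toFinite P
  have hPn : P.Nonempty := by
    obtain ⟨e, he⟩ := hC _ _ hu
    obtain ⟨f, hf⟩ := hC _ _ hv
    refine ⟨((u₀, e), (v₀, f)), ?_⟩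
    change C u₀ (sg (r u₀) e) ∧ C v₀ (sg (r v₀) f) ∧ _
    rw [← he, ← hf]
    exact ⟨hu, hv, cu, cv, cuv, le_rfl, le_rfl⟩
  obtain ⟨x, hx, hmin⟩ := Set.exists_min_image P
    (fun x => |sg (r x.1.1) x.1.2 - sg (r x.2.1) x.2.2|) hPf hPn
  obtain ⟨⟨u, e⟩, v, f⟩ := x
  obtain ⟨h1, h2, h3, h4, h5, h6, h7⟩ := hx
  simp only at h1 h2 h3 h4 h5 h6 h7
  refine ⟨u, v, sg (r u) e, sg (r v) f, h1, h2, h3, h4, h5, h6, h7, ?_⟩
  intro w z hw hwu hwv hz1 hz2
  by_contra hcw
  obtain ⟨g, hg⟩ := hC _ _ hw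
  have hzs : z ≠ sg (r u) e := by
    rintro rfl
    exact hwu (hU _ _ _ hw h1)
  have hzt : z ≠ sg (r v) f := by
    rintro rfl
    exact hwv (hU _ _ _ hw h2)
  by_cases hcu : c w = c u
  · -- pair (w, z), (v, t)
    have hcv : c w ≠ c v := by rw [hcu]; exact h5
    have hmem : (((w, g), (v, f)) : (V × Bool) × (V × Bool)) ∈ P := by
      refine ⟨?_, h2, hcw, h4, hcv, ?_, ?_⟩
      · change C w (sg (r w) g)
        rw [← hg]; exact hw
      · change min s₀ t₀ ≤ min (sg (r w) g) (sg (r v) f)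
        rw [← hg]
        exact le_min (h6.trans hz1) (h6.trans (min_le_right _ _))
      · change max (sg (r w) g) (sg (r v) f) ≤ max s₀ t₀
        rw [← hg]
        exact max_le (hz2.trans h7) ((le_max_right _ _).trans h7)
    have hle := hmin _ hmem
    simp only at hle
    rw [← hg] at hle
    rcases le_total (sg (r u) e) (sg (r v) f) with hl | hl
    · rw [min_eq_left hl] at hz1
      rw [max_eq_right hl] at hz2
      have : sg (r u) e < z := lt_of_le_of_ne hz1 (Ne.symm hzs)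
      rw [abs_of_nonpos (by linarith), abs_of_nonpos (by linarith)] at hle
      linarith
    · rw [min_eq_right hl] at hz1
      rw [max_eq_left hl] at hz2
      have : z < sg (r u) e := lt_of_le_of_ne hz2 hzs
      rw [abs_of_nonneg (by linarith), abs_of_nonneg (by linarith)] at hle
      linarith
  · have hmem : (((u, e), (w, g)) : (V × Bool) × (V × Bool)) ∈ P := by
      refine ⟨h1, ?_, h3, hcw, Ne.symm hcu, ?_, ?_⟩
      · change C w (sg (r w) g)
        rw [← hg]; exact hw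
      · change min s₀ t₀ ≤ min (sg (r u) e) (sg (r w) g)
        rw [← hg]
        exact le_min (h6.trans (min_le_left _ _)) (h6.trans hz1)
      · change max (sg (r u) e) (sg (r w) g) ≤ max s₀ t₀
        rw [← hg]
        exact max_le ((le_max_left _ _).trans h7) (hz2.trans h7)
    have hle := hmin _ hmem
    simp only at hle
    rw [← hg] at hle
    rcases le_total (sg (r u) e) (sg (r v) f) with hl | hl
    · rw [min_eq_left hl] at hz1
      rw [max_eq_right hl] at hz2
      have : z < sg (r v) f := lt_of_le_of_ne hz2 hzt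
      rw [abs_of_nonpos (by linarith), abs_of_nonpos (by linarith)] at hle
      linarith
    · rw [min_eq_right hl] at hz1
      rw [max_eq_left hl] at hz2
      have : sg (r v) f < z := lt_of_le_of_ne hz1 (Ne.symm hzt)
      rw [abs_of_nonneg (by linarith), abs_of_nonneg (by linarith)] at hle
      linarith

end Pool.Agent.X63.AL
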