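import Pool.Agent.X63.StraightPlanar

/-!
A planar graph on 70 vertices in which every orientation has a vertex with in-degree and
out-degree at least two.
-/

set_option autoImplicit false

namespace Pool.Agent.X63.BH

open Pool.Agent.X63

/-! ### Data -/

/-- interior edges of the template fragment (boundary vertices `0,1,2`, interior `3..9`) -/
def te : List (ℕ × ℕ) := [(0, 4), (0, 6), (0, 7), (1, 7), (1, 9), (2, 3), (2, 6), (2, 8), (2, 9), (3, 5), (3, 8), (3, 9), (4, 5), (4, 6), (4, 7), (4, 8), (5, 7), (5, 8), (5, 9), (6, 8), (7, 9)]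

/-- faces of the template fragment -/
def tf : List (ℕ × ℕ × ℕ) := [(0, 1, 7), (0, 4, 6), (0, 6, 2), (0, 7, 4), (1, 2, 9), (1, 9, 7), (2, 3, 9), (2, 6, 8), (2, 8, 3), (3, 5, 9), (3, 8, 5), (4, 5, 8), (4, 7, 5), (4, 8, 6), (5, 7, 9)]

/-- Hall violators -/
def SS : List (List ℕ) := [[3, 4, 5, 6, 7, 8, 9], [3, 6], [4, 6], [3, 6, 8], [3, 4, 5, 6]]

/-- base edges -/
def be : List (ℕ × ℕ) := [(0, 1), (0, 2), (1, 2), (0, 3), (1, 3), (2, 3), (0, 4), (1, 4), (3, 4), (1, 5), (2, 5), (3, 5), (2, 6), (0, 6), (3, 6)]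

/-- corners of the fragments -/
def fr : List (List ℕ) := [[0, 4, 1], [1, 4, 3], [3, 4, 0], [1, 5, 2], [2, 5, 3], [3, 5, 1], [2, 6, 0], [0, 6, 3], [3, 6, 2]]

/-- positions -/
def PP : List (ℕ × ℕ) := [(1, 1), (301, 1), (121, 271), (139, 95), (147, 31), (186, 122), (88, 125), (213, 8), (108, 6), (159, 10), (142, 3), (112, 13), (187, 5), (185, 15), (171, 65), (229, 33), (195, 47), (216, 47), (212, 30), (189, 58), (169, 53), (56, 24), (101, 57), (86, 39), (79, 49), (118, 52), (63, 33), (88, 29), (167, 189), (228, 101), (195, 144), (209, 134), (219, 102), (181, 173), (177, 164), (146, 133), (138, 195), (147, 159), (134, 179), (153, 175), (141, 151), (158, 134), (248, 43), (192, 73), (214, 67), (215, 54), (187, 90), (237, 45), (225, 69), (42, 77), (80, 167), (64, 122), (66, 143), (86, 162), (48, 98), (58, 98), (104, 85), (57, 51), (81, 74), (71, 53), (64, 71), (92, 72), (97, 95), (117, 210), (125, 153), (117, 175), (127, 178), (115, 139), (122, 199), (109, 180)]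

/-- embedding of the template as fragment `i` -/
def phi (i j : ℕ) : ℕ := if j < 3 then ((fr.getD i []).getD j 0) else 4 + 7 * i + j

/-- all edges -/
def EL : List (ℕ × ℕ) :=
  be ++ (List.range 9).flatMap fun i => te.map fun e => (phi i e.1, phi i e.2)

/-- position -/
def pos (v : ℕ) : ℕ × ℕ := PP.getD v (0, 0)

/-! ### Finite checks -/

theorem chk_pair : EL.Pairwise (fun e f => e ≠ f ∧ e ≠ (f.2, f.1)) := by
  decide +kernel

theorem chk_lt : ∀ e ∈ EL, e.1 ≠ e.2 ∧ e.1 < 70 ∧ e.2 < 70 := by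
  decide +kernel

theorem chk_len : EL.length = 204 := by decide +kernel

theorem chk_pos : PP.Nodup ∧ PP.length = 70 := by decide +kernel

theorem chk_nc : ∀ e ∈ EL, ∀ w < 70, w = e.1 ∨ w = e.2 ∨ ncN (pos e.1) (pos e.2) (pos w) = true := by
  decide +kernel

theorem chk_sep : ∀ e ∈ EL, ∀ f ∈ EL, f.1 = e.1 ∨ f.1 = e.2 ∨ f.2 = e.1 ∨ f.2 = e.2 ∨
    sepN (pos e.1) (pos e.2) (pos f.1) (pos f.2) = true := by
  decide +kernel

/-- number of monochromatic pairs in a list -/
def cm (l : List (ℕ × ℕ)) (c : ℕ → Bool) : ℕ := l.countP fun e => c e.1 == c e.2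

/-- number of monochromatic triples in a list -/
def cf (l : List (ℕ × ℕ × ℕ)) (c : ℕ → Bool) : ℕ := l.countP fun e => c e.1 == c e.2.1 && c e.1 == c e.2.2

/-- boundary pairs -/
def bd (c : ℕ → Bool) : ℕ := cm [(0, 1), (1, 2), (0, 2)] c

/-- monochromatic edges of the template meeting `S` -/
def ci (S : List ℕ) (c : ℕ → Bool) : ℕ :=
  te.countP fun e => (c e.1 == c e.2) && (S.contains e.1 || S.contains e.2)

/-- all Boolean lists of length `k` appended to `l` pass the test -/
def allB : ℕ → (List Bool → Bool) → Bool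
  | 0, t => t []
  | k + 1, t => allB k (fun l => t (true :: l)) && allB k (fun l => t (false :: l))

theorem allB_sound : ∀ (k : ℕ) (t : List Bool → Bool), allB k t = true →
    ∀ l : List Bool, l.length = k → t l = true
  | 0, t, h, l, hl => by
    rw [List.length_eq_zero_iff] at hl
    subst hl
    exact h
  | k + 1, t, h, l, hl => by
    rw [allB, Bool.and_eq_true] at h
    cases l with
    | nil => simp at hl
    | cons b l =>
      have hl' : l.length = k := by simpa using hl
      cases b with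
      | true => exact allB_sound k _ h.1 l hl'
      | false => exact allB_sound k _ h.2 l hl'

/-- lookup -/
def lk (l : List Bool) (j : ℕ) : Bool := l.getD j false

/-- the fragment test -/
def ftest (l : List Bool) : Bool :=
  (2 * cm te (lk l) + bd (lk l) == 15 + 2 * cf tf (lk l)) &&
  (!(lk l 0 == lk l 2) || (0 < cf tf (lk l)) || SS.any fun S => ci S (lk l) < S.length)

theorem chk_frag : allB 10 ftest = true := by decide +kernel

/-- base test: number of monochromatic base edges, fragments with equal designated corners -/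
def btest (l : List Bool) : Bool :=
  (((List.range 9).map fun i => bd fun j => lk l (phi i j)).sum + 1 ≤ 2 * cm be (lk l)) &&
  (3 ≤ (List.range 9).countP fun i => lk l (phi i 0) == lk l (phi i 2))

theorem chk_base : allB 7 btest = true := by decide +kernel

theorem chk_incB : ((List.range 9).all fun i => (List.range 10).all fun j =>
    (Nat.blt j 3) || EL.all fun e => !((e.1 == phi i j) || (e.2 == phi i j)) ||
      te.any fun f => (e.1 == phi i f.1) && (e.2 == phi i f.2) && ((f.1 == j) || (f.2 == j))) = true := by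
  decide +kernel

theorem chk_inc (i : ℕ) (hi : i < 9) (j : ℕ) (hj : j < 10) (hj3 : 3 ≤ j) (e : ℕ × ℕ)
    (he : e ∈ EL) (h : e.1 = phi i j ∨ e.2 = phi i j) :
    ∃ f ∈ te, e = (phi i f.1, phi i f.2) ∧ (f.1 = j ∨ f.2 = j) := by
  have hB := chk_incB
  rw [List.all_eq_true] at hB
  have hB := hB i (List.mem_range.mpr hi)
  rw [List.all_eq_true] at hB
  have hB := hB j (List.mem_range.mpr hj)
  rw [Bool.or_eq_true] at hB
  rcases hB with hB | hB
  · rw [Nat.blt_eq] at hB
    omega
  rw [List.all_eq_true] at hB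
  have hB := hB e he
  rw [Bool.or_eq_true] at hB
  rcases hB with hB | hB
  · exfalso
    rw [Bool.not_eq_true', Bool.or_eq_false_iff] at hB
    rcases h with h | h
    · rw [h] at hB
      simp at hB
    · rw [h] at hB
      simp at hB
  · rw [List.any_eq_true] at hB
    obtain ⟨f, hf, hB⟩ := hB
    rw [Bool.and_eq_true, Bool.and_eq_true, Bool.or_eq_true, beq_iff_eq, beq_iff_eq, beq_iff_eq,
      beq_iff_eq] at hB
    exact ⟨f, hf, Prod.ext hB.1.1 hB.1.2, hB.2⟩

theorem chk_SS : ∀ S ∈ SS, S.Nodup ∧ ∀ j ∈ S, 3 ≤ j ∧ j < 10 := by decide +kernel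

theorem chk_te : te.Nodup ∧ ∀ e ∈ te, e.1 < 10 ∧ e.2 < 10 ∧ e.1 ≠ e.2 := by decide +kernel

theorem chk_tf : ∀ e ∈ tf, e.1 < 10 ∧ e.2.1 < 10 ∧ e.2.2 < 10 := by decide +kernel

theorem chk_be : ∀ e ∈ be, e.1 < 7 ∧ e.2 < 7 := by decide +kernel

theorem chk_phi : ∀ i < 9, (∀ j < 3, phi i j < 7) ∧ ∀ j < 10, phi i j < 70 := by decide +kernel

end Pool.Agent.X63.BH
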