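import Pool.Agent.X63.PlaneDefs

/-!
Orientations and bi-heavy vertices.
-/

set_option autoImplicit false

namespace Pool.Agent.X63

/-- `D` is an orientation of `G`: every edge `uv` of `G` gets exactly one of the arcs `u → v`,
`v → u`, and there are no other arcs. -/
def IsOrientation {V : Type} (G : SimpleGraph V) (D : V → V → Prop) : Prop :=
  (∀ u v, D u v → G.Adj u v) ∧ ∀ u v, G.Adj u v → (D u v ∧ ¬ D v u) ∨ (D v u ∧ ¬ D u v)

/-- `f(D,k)`: the number of vertices with out-degree and in-degree both at least `k`. -/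
noncomputable def heavyD {V : Type} (D : V → V → Prop) (k : ℕ) : ℕ :=
  Set.ncard {v : V | k ≤ Set.ncard {w : V | D v w} ∧ k ≤ Set.ncard {w : V | D w v}}

/-- `f(G,k)`: the minimum of `f(D,k)` over all orientations `D` of `G`. -/
noncomputable def heavyG {V : Type} (G : SimpleGraph V) (k : ℕ) : ℕ :=
  sInf {m : ℕ | ∃ D : V → V → Prop, IsOrientation G D ∧ m = heavyD D k}

end Pool.Agent.X63
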