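import Pool.Agent.X63.BiHeavy
import Pool.Agent.X63.BHDefs

set_option autoImplicit false

namespace Pool.Agent.X63.BH

open Pool.Agent.X63

/-- the graph on 70 vertices -/
def G0 : SimpleGraph (Fin 70) where
  Adj u v := (u.val, v.val) ∈ EL ∨ (v.val, u.val) ∈ EL
  symm := ⟨fun _ _ h => h.symm⟩
  loopless := ⟨fun u h => by
    rcases h with h | h
    · exact (chk_lt _ h).1 rfl
    · exact (chk_lt _ h).1 rfl⟩

theorem posN_inj (u v : ℕ) (hu : u < 70) (hv : v < 70) (h : pos u = pos v) : u = v := by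
  unfold pos at h
  have hl := chk_pos.2
  rw [List.getD_eq_getElem _ _ (by omega), List.getD_eq_getElem _ _ (by omega)] at h
  exact (List.Nodup.getElem_inj_iff chk_pos.1).mp h

theorem sepN_symm (a b c d : ℕ × ℕ) (h : sepN a b c d = true) : sepN b a c d = true := by
  unfold sepN at *
  simp only [Bool.or_eq_true, Bool.and_eq_true] at *
  tauto

theorem sepN_symm' (a b c d : ℕ × ℕ) (h : sepN a b c d = true) : sepN a b d c = true := by
  unfold sepN at *
  simp only [Bool.or_eq_true, Bool.and_eq_true] at *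
  tauto

theorem ncN_symm (a b c : ℕ × ℕ) (h : ncN a b c = true) : ncN b a c = true := by
  unfold ncN at *
  simp only [Bool.or_eq_true] at *
  tauto

theorem planar_G0 : IsPlanar G0 := by
  apply planar_of_straight G0 (fun v => pos v.val)
  · intro u v h
    exact Fin.ext (posN_inj _ _ u.isLt v.isLt h)
  · intro u v w huv hwu hwv
    have a1 : w.val ≠ u.val := fun h => hwu (Fin.ext h)
    have a2 : w.val ≠ v.val := fun h => hwv (Fin.ext h)
    rcases huv with h | h
    · rcases chk_nc _ h w.val w.isLt with h' | h' | h'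
      · exact absurd h' a1
      · exact absurd h' a2
      · exact h'
    · rcases chk_nc _ h w.val w.isLt with h' | h' | h'
      · exact absurd h' a2
      · exact absurd h' a1
      · exact ncN_symm _ _ _ h'
  · intro u v x y huv hxy h1 h2 h3 h4
    have a1 : x.val ≠ u.val := fun h => h1 (Fin.ext h)
    have a2 : x.val ≠ v.val := fun h => h2 (Fin.ext h)
    have a3 : y.val ≠ u.val := fun h => h3 (Fin.ext h)
    have a4 : y.val ≠ v.val := fun h => h4 (Fin.ext h)
    rcases huv with h | h <;> rcases hxy with h' | h'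
    · rcases chk_sep _ h _ h' with k | k | k | k | k
      · exact absurd k a1
      · exact absurd k a2
      · exact absurd k a3
      · exact absurd k a4
      · exact k
    · rcases chk_sep _ h _ h' with k | k | k | k | k
      · exact absurd k a3
      · exact absurd k a4
      · exact absurd k a1
      · exact absurd k a2
      · exact sepN_symm' _ _ _ _ k
    · rcases chk_sep _ h _ h' with k | k | k | k | k
      · exact absurd k a2
      · exact absurd k a1
      · exact absurd k a4
      · exact absurd k a3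
      · exact sepN_symm _ _ _ _ k
    · rcases chk_sep _ h _ h' with k | k | k | k | k
      · exact absurd k a4
      · exact absurd k a3
      · exact absurd k a2
      · exact absurd k a1
      · exact sepN_symm _ _ _ _ (sepN_symm' _ _ _ _ k)

/-- every orientation of `G0` has a bi-heavy vertex -/
theorem heavy_G0 (D : Fin 70 → Fin 70 → Prop) (hD : IsOrientation G0 D) :
    ∃ v, 2 ≤ Set.ncard {w | D v w} ∧ 2 ≤ Set.ncard {w | D w v} := by
  classical
  by_contra hcon
  push Not at hcon
  let c : ℕ → Bool := fun u => if h : u < 70 then decide (Set.ncard {w | D ⟨u, h⟩ w} ≤ 1) else false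
  have hct : ∀ u : Fin 70, c u.val = true → Set.ncard {w | D u w} ≤ 1 := by
    intro u hu
    simp only [c, u.isLt, dif_pos, decide_eq_true_eq] at hu
    exact hu
  have hcf : ∀ u : Fin 70, c u.val = false → Set.ncard {w | D w u} ≤ 1 := by
    intro u hu
    simp only [c, u.isLt, dif_pos, decide_eq_false_iff_not, not_le] at hu
    have := hcon u hu
    omega
  let ch : ℕ → ℕ → Prop := fun u v => ∃ (hu : u < 70) (hv : v < 70), c u = c v ∧
    ((c u = true ∧ D ⟨u, hu⟩ ⟨v, hv⟩) ∨ (c u = false ∧ D ⟨v, hv⟩ ⟨u, hu⟩))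
  apply main_count c ch
  · intro e he hc
    obtain ⟨_, h1, h2⟩ := chk_lt e he
    have hadj : G0.Adj ⟨e.1, h1⟩ ⟨e.2, h2⟩ := Or.inl he
    rcases hD.2 _ _ hadj with h | h
    · cases hce : c e.1 with
      | true => exact Or.inl ⟨h1, h2, hc, Or.inl ⟨hce, h.1⟩⟩
      | false => exact Or.inr ⟨h2, h1, hc.symm, Or.inr ⟨by rw [← hc]; exact hce, h.1⟩⟩
    · cases hce : c e.1 with
      | true => exact Or.inr ⟨h2, h1, hc.symm, Or.inl ⟨by rw [← hc]; exact hce, h.1⟩⟩
      | false => exact Or.inl ⟨h1, h2, hc, Or.inr ⟨hce, h.1⟩⟩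
  · rintro u v ⟨hu, hv, hc, h⟩
    refine ⟨hc, ?_⟩
    rcases h with ⟨_, h⟩ | ⟨_, h⟩
    · exact hD.1 _ _ h
    · exact (hD.1 _ _ h).symm
  · rintro u v w ⟨hu, hv, hc, h⟩ ⟨hu', hw, hc', h'⟩
    rcases h with ⟨h0, h⟩ | ⟨h0, h⟩ <;> rcases h' with ⟨h0', h'⟩ | ⟨h0', h'⟩
    · have := (Set.ncard_le_one_iff (Set.toFinite _)).mp (hct ⟨u, hu⟩ h0) h h'
      exact congrArg Fin.val this
    · rw [h0] at h0'; exact absurd h0' (by decide)
    · rw [h0] at h0'; exact absurd h0' (by decide)
    · have := (Set.ncard_le_one_iff (Set.toFinite _)).mp (hcf ⟨u, hu⟩ h0) h h'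
      exact congrArg Fin.val this
  · rintro u v ⟨hu, hv, hc, h⟩ ⟨_, _, _, h'⟩
    rcases h with ⟨h0, h⟩ | ⟨h0, h⟩ <;> rcases h' with ⟨h0', h'⟩ | ⟨h0', h'⟩
    · rcases hD.2 _ _ (hD.1 _ _ h) with x | x
      · exact x.2 h'
      · exact x.2 h
    · rw [← hc, h0] at h0'; exact absurd h0' (by decide)
    · rw [← hc, h0] at h0'; exact absurd h0' (by decide)
    · rcases hD.2 _ _ (hD.1 _ _ h) with x | x
      · exact x.2 h'
      · exact x.2 h

end Pool.Agent.X63.BH
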