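import Pool.Agent.X63.BHData

set_option autoImplicit false

namespace Pool.Agent.X63.BH

open Pool.Agent.X63

theorem lk_map (c : ℕ → Bool) (k j : ℕ) (h : j < k) : lk ((List.range k).map c) j = c j := by
  unfold lk
  rw [List.getD_eq_getElem _ _ (by simpa using h)]
  simp

theorem cm_congr (l : List (ℕ × ℕ)) (c d : ℕ → Bool) (k : ℕ) (hl : ∀ e ∈ l, e.1 < k ∧ e.2 < k)
    (h : ∀ j < k, c j = d j) : cm l c = cm l d := by
  unfold cm
  apply List.countP_congr
  intro e he
  rw [h _ (hl e he).1, h _ (hl e he).2]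

theorem frag (c : ℕ → Bool) :
    2 * cm te c + bd c = 15 + 2 * cf tf c ∧
      (c 0 = c 2 → 0 < cf tf c ∨ ∃ S ∈ SS, ci S c < S.length) := by
  have h := allB_sound 10 _ chk_frag ((List.range 10).map c) (by simp)
  have hk : ∀ j < 10, lk ((List.range 10).map c) j = c j := fun j hj => lk_map c 10 j hj
  set d := lk ((List.range 10).map c) with hd
  unfold ftest at h
  rw [← hd] at h
  have e1 : cm te d = cm te c := cm_congr te d c 10 (fun e he => ⟨(chk_te.2 e he).1, (chk_te.2 e he).2.1⟩) hk
  have e2 : bd d = bd c := by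
    unfold bd
    exact cm_congr _ d c 10 (by decide) hk
  have e3 : cf tf d = cf tf c := by
    unfold cf
    apply List.countP_congr
    intro e he
    obtain ⟨h1, h2, h3⟩ := chk_tf e he
    rw [hk _ h1, hk _ h2, hk _ h3]
  have e4 : ∀ S, ci S d = ci S c := by
    intro S
    unfold ci
    apply List.countP_congr
    intro e he
    obtain ⟨h1, h2, h3⟩ := chk_te.2 e he
    rw [hk _ h1, hk _ h2]
  simp only [e1, e2, e3, e4, hk 0 (by norm_num), hk 2 (by norm_num), Bool.and_eq_true,
    Bool.or_eq_true, beq_iff_eq, Bool.not_eq_true', beq_eq_false_iff_ne, decide_eq_true_eq,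
    List.any_eq_true, ne_eq] at h
  refine ⟨h.1, fun h02 => ?_⟩
  rcases h.2 with (h2 | h2) | h2
  · exact absurd h02 h2
  · exact Or.inl h2
  · exact Or.inr h2

theorem base (c : ℕ → Bool) :
    ((List.range 9).map fun i => bd fun j => c (phi i j)).sum + 1 ≤ 2 * cm be c ∧
      3 ≤ (List.range 9).countP fun i => c (phi i 0) == c (phi i 2) := by
  have h := allB_sound 7 _ chk_base ((List.range 7).map c) (by simp)
  have hk : ∀ j < 7, lk ((List.range 7).map c) j = c j := fun j hj => lk_map c 7 j hj
  set d := lk ((List.range 7).map c) with hd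
  unfold btest at h
  rw [← hd] at h
  have e1 : cm be d = cm be c := cm_congr be d c 7 chk_be hk
  have e2 : ((List.range 9).map fun i => bd fun j => d (phi i j)) =
      ((List.range 9).map fun i => bd fun j => c (phi i j)) := by
    apply List.map_congr_left
    intro i hi
    rw [List.mem_range] at hi
    exact cm_congr _ _ _ 3 (by decide) fun j hj => hk _ ((chk_phi i hi).1 j hj)
  have e3 : (List.range 9).countP (fun i => d (phi i 0) == d (phi i 2)) =
      (List.range 9).countP (fun i => c (phi i 0) == c (phi i 2)) := by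
    apply List.countP_congr
    intro i hi
    rw [List.mem_range] at hi
    rw [hk _ ((chk_phi i hi).1 0 (by norm_num)), hk _ ((chk_phi i hi).1 2 (by norm_num))]
  simp only [e1, e2, e3, Bool.and_eq_true, decide_eq_true_eq] at h
  exact h

theorem cm_append (l m : List (ℕ × ℕ)) (c : ℕ → Bool) : cm (l ++ m) c = cm l c + cm m c :=
  List.countP_append

theorem cm_map (l : List (ℕ × ℕ)) (g : ℕ → ℕ) (c : ℕ → Bool) :
    cm (l.map fun e => (g e.1, g e.2)) c = cm l fun j => c (g j) := by
  unfold cm
  rw [List.countP_map]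
  rfl

theorem cm_flat (r : List ℕ) (l : List (ℕ × ℕ)) (g : ℕ → ℕ → ℕ) (c : ℕ → Bool) :
    cm (r.flatMap fun i => l.map fun e => (g i e.1, g i e.2)) c =
      (r.map fun i => cm l fun j => c (g i j)).sum := by
  induction r with
  | nil => rfl
  | cons a r ih =>
    rw [List.flatMap_cons, cm_append, ih, cm_map, List.map_cons, List.sum_cons]

theorem cm_EL (c : ℕ → Bool) :
    cm EL c = cm be c + ((List.range 9).map fun i => cm te fun j => c (phi i j)).sum := by
  unfold EL
  rw [cm_append, cm_flat]

/-! ### Charging -/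

section charge

variable (c : ℕ → Bool) (ch : ℕ → ℕ → Prop)

theorem count_le (h1 : ∀ e ∈ EL, c e.1 = c e.2 → ch e.1 e.2 ∨ ch e.2 e.1)
    (h2 : ∀ u v w, ch u v → ch u w → v = w) (C : Finset ℕ) (hC : ∀ u v, ch u v → u ∈ C) :
    cm EL c ≤ C.card := by
  classical
  let tgt : ℕ × ℕ → ℕ := fun e => if ch e.1 e.2 then e.1 else e.2
  let oth : ℕ × ℕ → ℕ := fun e => if ch e.1 e.2 then e.2 else e.1
  let l := EL.filter fun e => c e.1 == c e.2
  have hl : ∀ e ∈ l, e ∈ EL ∧ c e.1 = c e.2 := by
    intro e he
    have := List.mem_filter.mp he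
    exact ⟨this.1, by simpa using this.2⟩
  have hch : ∀ e ∈ l, ch (tgt e) (oth e) := by
    intro e he
    obtain ⟨he1, he2⟩ := hl e he
    by_cases h : ch e.1 e.2
    · simp only [tgt, oth, if_pos h]; exact h
    · simp only [tgt, oth, if_neg h]
      exact (h1 e he1 he2).resolve_left h
  have hnd : (l.map tgt).Nodup := by
    rw [List.Nodup, List.pairwise_map]
    have hp : l.Pairwise (fun e f => e ≠ f ∧ e ≠ (f.2, f.1)) := chk_pair.filter _
    refine List.Pairwise.imp_of_mem ?_ hp
    intro e f he hf hef heq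
    have a1 := hch e he
    have a2 := hch f hf
    rw [← heq] at a2
    have a3 := h2 _ _ _ a1 a2
    simp only [tgt, oth] at heq a3
    by_cases x : ch e.1 e.2 <;> by_cases y : ch f.1 f.2
    · rw [if_pos x, if_pos y] at heq a3
      exact hef.1 (Prod.ext heq a3)
    · rw [if_pos x, if_neg y] at heq a3
      exact hef.2 (Prod.ext heq a3)
    · rw [if_neg x, if_pos y] at heq a3
      exact hef.2 (Prod.ext a3 heq)
    · rw [if_neg x, if_neg y] at heq a3
      exact hef.1 (Prod.ext a3 heq)
  have e1 : cm EL c = (l.map tgt).length := by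
    rw [List.length_map]
    unfold cm
    rw [List.countP_eq_length_filter]
  rw [e1, ← List.toFinset_card_of_nodup hnd]
  apply Finset.card_le_card
  intro u hu
  rw [List.mem_toFinset, List.mem_map] at hu
  obtain ⟨e, he, rfl⟩ := hu
  exact hC _ _ (hch e he)

theorem hall (h1' : ∀ u v, ch u v → c u = c v ∧ ((u, v) ∈ EL ∨ (v, u) ∈ EL))
    (h3 : ∀ u v, ch u v → ¬ ch v u) (i : ℕ) (hi : i < 9)
    (hall : ∀ j < 10, 3 ≤ j → ∃ w, ch (phi i j) w) (S : List ℕ) (hS : S ∈ SS) :
    S.length ≤ ci S fun j => c (phi i j) := by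
  classical
  obtain ⟨hnd, hSj⟩ := chk_SS S hS
  have key : ∀ j ∈ S.toFinset, ∃ f : ℕ × ℕ, f ∈ te ∧ c (phi i f.1) = c (phi i f.2) ∧
      ((f.1 = j ∧ ch (phi i f.1) (phi i f.2)) ∨ (f.2 = j ∧ ch (phi i f.2) (phi i f.1))) := by
    intro j hj
    rw [List.mem_toFinset] at hj
    obtain ⟨hj3, hj10⟩ := hSj j hj
    obtain ⟨w, hw⟩ := hall j hj10 hj3
    obtain ⟨hc, he⟩ := h1' _ _ hw
    rcases he with he | he
    · obtain ⟨f, hf, hfe, hfj⟩ := chk_inc i hi j hj10 hj3 _ he (Or.inl rfl)
      have e1 : phi i j = phi i f.1 := congrArg Prod.fst hfe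
      have e2 : w = phi i f.2 := congrArg Prod.snd hfe
      rcases hfj with hfj | hfj
      · refine ⟨f, hf, ?_, Or.inl ⟨hfj, ?_⟩⟩
        · rw [← e1, ← e2]; exact hc
        · rw [← e1, ← e2]; exact hw
      · exfalso
        rw [← hfj] at hw
        rw [e2] at hw
        exact h3 _ _ hw hw
    · obtain ⟨f, hf, hfe, hfj⟩ := chk_inc i hi j hj10 hj3 _ he (Or.inr rfl)
      have e1 : w = phi i f.1 := congrArg Prod.fst hfe
      have e2 : phi i j = phi i f.2 := congrArg Prod.snd hfe
      rcases hfj with hfj | hfj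
      · exfalso
        rw [← hfj] at hw
        rw [e1] at hw
        exact h3 _ _ hw hw
      · refine ⟨f, hf, ?_, Or.inr ⟨hfj, ?_⟩⟩
        · rw [← e1, ← e2]; exact hc.symm
        · rw [← e1, ← e2]; exact hw
  choose! f hf using key
  have hcard : S.toFinset.card ≤ (te.filter fun e => (c (phi i e.1) == c (phi i e.2)) &&
      (S.contains e.1 || S.contains e.2)).toFinset.card := by
    apply Finset.card_le_card_of_injOn f
    · intro j hj
      have hj' : j ∈ S.toFinset := hj
      obtain ⟨a1, a2, a3⟩ := hf j hj'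
      rw [List.mem_toFinset] at hj'
      simp only [List.coe_toFinset, Set.mem_ofPred_eq, List.mem_filter, Bool.and_eq_true,
        Bool.or_eq_true, beq_iff_eq]
      refine ⟨a1, a2, ?_⟩
      rcases a3 with a3 | a3
      · left; rw [a3.1]; simpa using hj'
      · right; rw [a3.1]; simpa using hj'
    · intro j hj k hk hjk
      obtain ⟨_, _, a3⟩ := hf j hj
      obtain ⟨_, _, b3⟩ := hf k hk
      rw [← hjk] at b3
      rcases a3 with ⟨a, a'⟩ | ⟨a, a'⟩ <;> rcases b3 with ⟨b, b'⟩ | ⟨b, b'⟩
      · exact a.symm.trans b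
      · exact absurd b' (h3 _ _ a')
      · exact absurd b' (h3 _ _ a')
      · exact a.symm.trans b
  rw [List.toFinset_card_of_nodup hnd, List.toFinset_card_of_nodup (chk_te.1.filter _),
    ← List.countP_eq_length_filter] at hcard
  exact hcard

theorem main_count (h1 : ∀ e ∈ EL, c e.1 = c e.2 → ch e.1 e.2 ∨ ch e.2 e.1)
    (h1' : ∀ u v, ch u v → c u = c v ∧ ((u, v) ∈ EL ∨ (v, u) ∈ EL))
    (h2 : ∀ u v w, ch u v → ch u w → v = w)
    (h3 : ∀ u v, ch u v → ¬ ch v u) : False := by
  classical
  set C : Finset ℕ := (Finset.range 70).filter fun u => ∃ v, ch u v with hC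
  have hCmem : ∀ u v, ch u v → u ∈ C := by
    intro u v huv
    rw [hC, Finset.mem_filter, Finset.mem_range]
    refine ⟨?_, v, huv⟩
    rcases (h1' u v huv).2 with h | h
    · exact (chk_lt _ h).2.1
    · exact (chk_lt _ h).2.2
  have A := count_le c ch h1 h2 C hCmem
  rw [cm_EL] at A
  obtain ⟨B1, B2⟩ := base c
  -- uncharged interior vertices
  let U : ℕ → Finset ℕ := fun i => ((Finset.range 7).image fun k => phi i (k + 3)) \ C
  have hU : C.card + ∑ i ∈ Finset.range 9, (U i).card ≤ 70 := by
    have hdis : ∀ i ∈ Finset.range 9, ∀ j ∈ Finset.range 9, i ≠ j → Disjoint (U i) (U j) := by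
      intro i _ j _ hij
      rw [Finset.disjoint_left]
      intro a ha hb
      simp only [U, Finset.mem_sdiff, Finset.mem_image, Finset.mem_range] at ha hb
      obtain ⟨⟨k, hk, hka⟩, _⟩ := ha
      obtain ⟨⟨k', hk', hkb⟩, _⟩ := hb
      unfold phi at hka hkb
      rw [if_neg (by omega)] at hka hkb
      omega
    rw [← Finset.card_biUnion hdis, ← Finset.card_union_of_disjoint]
    · have : (Finset.range 70).card = 70 := Finset.card_range 70
      rw [← this]
      apply Finset.card_le_card
      intro a ha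
      rw [Finset.mem_union, Finset.mem_biUnion] at ha
      rcases ha with ha | ⟨i, hi, ha⟩
      · rw [hC, Finset.mem_filter] at ha
        exact ha.1
      · simp only [U, Finset.mem_sdiff, Finset.mem_image, Finset.mem_range] at ha
        obtain ⟨⟨k, hk, rfl⟩, _⟩ := ha
        rw [Finset.mem_range]
        exact (chk_phi i (Finset.mem_range.mp hi)).2 _ (by omega)
    · rw [Finset.disjoint_left]
      intro a ha hb
      rw [Finset.mem_biUnion] at hb
      obtain ⟨i, _, hb⟩ := hb
      simp only [U, Finset.mem_sdiff] at hb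
      exact hb.2 ha
  have hF : ∀ i ∈ Finset.range 9, (if c (phi i 0) == c (phi i 2) then 1 else 0) ≤
      (cf tf fun j => c (phi i j)) + (U i).card := by
    intro i hi
    rw [Finset.mem_range] at hi
    split_ifs with h02
    · rcases (frag fun j => c (phi i j)).2 (by simpa using h02) with h | ⟨S, hS, h⟩
      · omega
      · by_contra hcon
        have hU0 : (U i).card = 0 := by omega
        rw [Finset.card_eq_zero] at hU0
        have hall' : ∀ j < 10, 3 ≤ j → ∃ w, ch (phi i j) w := by
          intro j hj hj3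
          by_contra hno
          have : phi i j ∈ U i := by
            simp only [U, Finset.mem_sdiff, Finset.mem_image, Finset.mem_range]
            refine ⟨⟨j - 3, by omega, by rw [Nat.sub_add_cancel hj3]⟩, ?_⟩
            rw [hC, Finset.mem_filter]
            exact fun h => hno h.2
          rw [hU0] at this
          exact absurd this (Finset.notMem_empty _)
        have := hall c ch h1' h3 i hi hall' S hS
        omega
    · omega
  have hsum1 : ∀ g : ℕ → ℕ, ((List.range 9).map g).sum = ∑ i ∈ Finset.range 9, g i := by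
    intro g
    simp only [Finset.sum_range_succ, List.range_succ, List.range_zero, List.nil_append,
      List.cons_append, List.map_cons, List.map_nil, List.sum_cons, List.sum_nil,
      Finset.sum_range_zero]
    omega
  rw [hsum1] at A B1
  have hcount : (List.range 9).countP (fun i => c (phi i 0) == c (phi i 2)) =
      ∑ i ∈ Finset.range 9, (if c (phi i 0) == c (phi i 2) then 1 else 0) := by
    rw [← hsum1]
    simp [List.range, List.range.loop, List.countP_cons]
    omega
  rw [hcount] at B2
  have hF' := Finset.sum_le_sum hF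
  have hI : ∑ i ∈ Finset.range 9, (2 * (cm te fun j => c (phi i j)) + bd fun j => c (phi i j)) =
      ∑ i ∈ Finset.range 9, (15 + 2 * cf tf fun j => c (phi i j)) :=
    Finset.sum_congr rfl fun i _ => (frag fun j => c (phi i j)).1
  rw [Finset.sum_add_distrib] at hI hF'
  rw [Finset.sum_add_distrib, ← Finset.mul_sum, ← Finset.mul_sum, Finset.sum_const,
    Finset.card_range, smul_eq_mul] at hI
  omega

end charge

end Pool.Agent.X63.BH
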