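import Pool.Agent.X63.RectDefs

/-!
The join of two paths is an open rectangle-of-influence graph and a corner rectangle visibility
graph.
-/

set_option autoImplicit false

namespace Pool.Agent.X63.JC

open Pool.Agent.X63

/-- the join of two paths on `11` vertices: `(false, i)` is the `i`-th vertex of the first path and
`(true, j)` the `j`-th vertex of the second -/
def J : SimpleGraph (Bool × Fin 11) where
  Adj a b := a.1 ≠ b.1 ∨ a.2.val + 1 = b.2.val ∨ b.2.val + 1 = a.2.val
  symm := ⟨fun a b h => by tauto⟩
  loopless := ⟨fun a h => by
    rcases h with h | h | h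
    · exact h rfl
    · omega
    · omega⟩

/-- code of a vertex -/
def code (a : Bool × Fin 11) : ℕ := (if a.1 then 11 else 0) + a.2.val

/-- ordered edges -/
def T : Finset ((Bool × Fin 11) × (Bool × Fin 11)) :=
  Finset.univ.filter fun p => code p.1 < code p.2 ∧
    (p.1.1 ≠ p.2.1 ∨ p.1.2.val + 1 = p.2.2.val ∨ p.2.2.val + 1 = p.1.2.val)

theorem T_card : T.card = 141 := by decide +kernel

theorem J_card : 141 ≤ J.edgeSet.ncard := by
  classical
  have hsub : ((T.image fun p => s(p.1, p.2) : Finset (Sym2 (Bool × Fin 11))) : Set _) ⊆ J.edgeSet := by
    intro e he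
    rw [Finset.mem_coe, Finset.mem_image] at he
    obtain ⟨p, hp, rfl⟩ := he
    rw [SimpleGraph.mem_edgeSet]
    exact (Finset.mem_filter.mp hp).2.2
  have hinj : Set.InjOn (fun p : (Bool × Fin 11) × (Bool × Fin 11) => s(p.1, p.2)) T := by
    intro p hp q hq h
    have hp' := (Finset.mem_filter.mp hp).2.1
    have hq' := (Finset.mem_filter.mp hq).2.1
    simp only [Sym2.eq_iff] at h
    rcases h with h | h
    · exact Prod.ext h.1 h.2
    · exfalso
      rw [h.1, h.2] at hp'
      omega
  calc 141 = T.card := T_card.symm
    _ = (T.image fun p => s(p.1, p.2)).card := (Finset.card_image_of_injOn hinj).symm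
    _ ≤ J.edgeSet.ncard := by
        rw [← Set.ncard_coe_finset]
        exact Set.ncard_le_ncard hsub (Set.toFinite _)

/-! ### Open rectangle-of-influence representation -/

/-- points -/
def P (a : Bool × Fin 11) : ℝ × ℝ :=
  if a.1 then (100 + a.2.val, 100 - a.2.val) else ((a.2.val : ℝ), -(a.2.val : ℝ))

theorem val_le (i : Fin 11) : (i.val : ℝ) ≤ 10 := by
  have : i.val ≤ 10 := by omega
  exact_mod_cast this

theorem val_nn (i : Fin 11) : (0 : ℝ) ≤ i.val := by positivity

theorem chain_free (c d : ℝ) (i j k : ℕ) :
    ((c + (k : ℝ), d - (k : ℝ)) : ℝ × ℝ) ∈ boxInt (c + (i : ℝ), d - (i : ℝ)) (c + (j : ℝ), d - (j : ℝ)) ↔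
      min i j < k ∧ k < max i j := by
  unfold boxInt
  simp only [Set.mem_ofPred_eq]
  rw [min_lt_iff, lt_max_iff, min_lt_iff, lt_max_iff, min_lt_iff, lt_max_iff]
  constructor
  · rintro ⟨h1, h2, _, _⟩
    constructor
    · rcases h1 with h | h
      · left; have : (i : ℝ) < k := by linarith
        exact_mod_cast this
      · right; have : (j : ℝ) < k := by linarith
        exact_mod_cast this
    · rcases h2 with h | h
      · left; have : (k : ℝ) < i := by linarith
        exact_mod_cast this
      · right; have : (k : ℝ) < j := by linarith
        exact_mod_cast this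
  · rintro ⟨h1, h2⟩
    refine ⟨?_, ?_, ?_, ?_⟩
    · rcases h1 with h | h
      · left; have : (i : ℝ) < k := by exact_mod_cast h
        linarith
      · right; have : (j : ℝ) < k := by exact_mod_cast h
        linarith
    · rcases h2 with h | h
      · left; have : (k : ℝ) < i := by exact_mod_cast h
        linarith
      · right; have : (k : ℝ) < j := by exact_mod_cast h
        linarith
    · rcases h2 with h | h
      · left; have : (k : ℝ) < i := by exact_mod_cast h
        linarith
      · right; have : (k : ℝ) < j := by exact_mod_cast h
        linarith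
    · rcases h1 with h | h
      · left; have : (i : ℝ) < k := by exact_mod_cast h
        linarith
      · right; have : (j : ℝ) < k := by exact_mod_cast h
        linarith

theorem P_eq (a : Bool × Fin 11) : P a = ((if a.1 then (100:ℝ) else 0) + (a.2.val : ℝ),
    (if a.1 then (100:ℝ) else 0) - (a.2.val : ℝ)) := by
  unfold P
  split_ifs <;> simp

theorem rig : IsOpenRIG J := by
  refine ⟨P, ?_, ?_⟩
  · rintro ⟨a, i⟩ ⟨b, j⟩ h
    have h1 := congrArg Prod.fst h
    have h2 := congrArg Prod.snd h
    have := val_le i
    have := val_le j
    have := val_nn i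
    have := val_nn j
    rw [P_eq, P_eq] at h1 h2
    simp only at h1 h2
    cases a <;> cases b <;> simp only [Bool.false_eq_true, if_true, if_false] at h1 h2
    · have : (i.val : ℝ) = j.val := by linarith
      have : i = j := Fin.ext (by exact_mod_cast this)
      rw [this]
    · linarith
    · linarith
    · have : (i.val : ℝ) = j.val := by linarith
      have : i = j := Fin.ext (by exact_mod_cast this)
      rw [this]
  · rintro ⟨a, i⟩ ⟨b, j⟩ hne
    have hi := val_le i
    have hj := val_le j
    have hi0 := val_nn i
    have hj0 := val_nn j
    by_cases hab : a = b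
    · subst hab
      have hij : i.val ≠ j.val := fun h => hne (by rw [Fin.ext h])
      constructor
      · intro h
        have h' : i.val + 1 = j.val ∨ j.val + 1 = i.val := by
          rcases h with h | h
          · exact absurd rfl h
          · exact h
        rintro ⟨c, k⟩ hmem
        have hk := val_le k
        have hk0 := val_nn k
        by_cases hac : c = a
        · subst hac
          rw [P_eq, P_eq, P_eq] at hmem
          have := (chain_free _ _ _ _ _).mp hmem
          simp only at this h'
          omega
        · rw [P_eq, P_eq, P_eq] at hmem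
          obtain ⟨m1, m2, m3, m4⟩ := hmem
          rw [min_lt_iff] at m1 m3
          rw [lt_max_iff] at m2 m4
          cases a <;> cases c <;> simp only [Bool.false_eq_true, if_true, if_false] at m1 m2 m3 m4
          · exact hac rfl
          · rcases m2 with m2 | m2 <;> linarith
          · rcases m1 with m1 | m1 <;> linarith
          · exact hac rfl
      · intro h
        right
        by_contra hcon
        push Not at hcon
        have hk : ∃ k : Fin 11, min i.val j.val < k.val ∧ k.val < max i.val j.val := by
          refine ⟨⟨min i.val j.val + 1, ?_⟩, ?_, ?_⟩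
          · have := i.isLt; have := j.isLt; omega
          · simp only; omega
          · simp only; simp only at hcon; omega
        obtain ⟨k, hk⟩ := hk
        apply h (a, k)
        rw [P_eq, P_eq, P_eq]
        exact (chain_free _ _ _ _ _).mpr hk
    · constructor
      · rintro _ ⟨c, k⟩ hmem
        have hk := val_le k
        have hk0 := val_nn k
        rw [P_eq, P_eq, P_eq] at hmem
        obtain ⟨m1, m2, m3, m4⟩ := hmem
        rw [min_lt_iff] at m1 m3
        rw [lt_max_iff] at m2 m4
        cases a <;> cases b <;> cases c <;>
          simp only [Bool.false_eq_true, if_true, if_false] at m1 m2 m3 m4 <;>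
          first
          | exact hab rfl
          | (rcases m1 with m1 | m1 <;> rcases m2 with m2 | m2 <;> rcases m3 with m3 | m3 <;>
              rcases m4 with m4 | m4 <;> linarith)
      · intro _
        exact Or.inl hab

end Pool.Agent.X63.JC
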