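import Pool.Agent.X63.JoinCRVG

set_option autoImplicit false

namespace Pool.Agent.X63.JC

open Pool.Agent.X63

section eyes

variable {V : Type} (R : V → Rect)

theorem S_sees (u v : V) (qx qy : ℝ) (h1 : (R u).x2 < qx) (h2 : qy < (R u).y1)
    (hv : (qx, qy) ∈ (R v).pts) (hb : qx = (R v).x1 ∨ qy = (R v).y2)
    (hd : ∀ w, w ≠ u → w ≠ v → (R w).x2 < (R u).x2 ∨ qx < (R w).x1 ∨ (R w).y2 < qy ∨
      (R u).y1 < (R w).y1) : Sees R (true, false) u v := by
  have hux := (R u).hx
  have huy := (R u).hy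
  refine ⟨(qx, qy), h1.ne', h2.ne, ⟨hv, ?_⟩, ?_, ?_, ?_⟩
  · rcases hb with hb | hb
    · exact Or.inl hb
    · exact Or.inr (Or.inr (Or.inr hb))
  · ext z
    constructor
    · rintro ⟨⟨a1, a2, a3, a4⟩, ⟨b1, b2, b3, b4⟩⟩
      simp only [Rect.corner, if_true, Bool.false_eq_true, if_false] at a1 a2 a3 a4
      rw [min_eq_left h1.le] at a1
      rw [max_eq_left h2.le] at a4
      exact Prod.ext (le_antisymm b2 a1) (le_antisymm a4 b3)
    · intro hz
      rw [Set.mem_singleton_iff] at hz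
      subst hz
      refine ⟨⟨min_le_left _ _, le_max_left _ _, min_le_left _ _, le_max_left _ _⟩, ?_⟩
      simp only [Rect.corner, if_true, Bool.false_eq_true, if_false]
      exact ⟨hux.le, le_rfl, le_rfl, huy.le⟩
  · rintro z ⟨⟨a1, a2, a3, a4⟩, hz⟩
    simp only [Rect.corner, if_true, Bool.false_eq_true, if_false] at a1 a2 a3 a4
    rw [max_eq_right h1.le] at a2
    rw [min_eq_right h2.le] at a3
    refine ⟨hz, ?_⟩
    obtain ⟨b1, b2, b3, b4⟩ := hz
    rcases hb with hb | hb
    · left; linarith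
    · right; right; right; linarith
  · intro w hwu hwv
    rw [Set.disjoint_left]
    rintro z ⟨a1, a2, a3, a4⟩ ⟨b1, b2, b3, b4⟩
    simp only [Rect.corner, if_true, Bool.false_eq_true, if_false] at a1 a2 a3 a4
    rw [min_eq_left h1.le] at a1
    rw [max_eq_right h1.le] at a2
    rw [min_eq_right h2.le] at a3
    rw [max_eq_left h2.le] at a4
    rcases hd w hwu hwv with h | h | h | h <;> linarith

theorem W_sees (u v : V) (qx qy : ℝ) (h1 : qx < (R u).x1) (h2 : qy < (R u).y1)
    (hv : (qx, qy) ∈ (R v).pts) (hb : qx = (R v).x2 ∨ qy = (R v).y2)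
    (hd : ∀ w, w ≠ u → w ≠ v → (R u).x1 < (R w).x1 ∨ (R w).x2 < qx ∨ (R w).y2 < qy ∨
      (R u).y1 < (R w).y1) : Sees R (false, false) u v := by
  have hux := (R u).hx
  have huy := (R u).hy
  refine ⟨(qx, qy), h1.ne, h2.ne, ⟨hv, ?_⟩, ?_, ?_, ?_⟩
  · rcases hb with hb | hb
    · exact Or.inr (Or.inl hb)
    · exact Or.inr (Or.inr (Or.inr hb))
  · ext z
    constructor
    · rintro ⟨⟨a1, a2, a3, a4⟩, ⟨b1, b2, b3, b4⟩⟩
      simp only [Rect.corner, Bool.false_eq_true, if_false] at a1 a2 a3 a4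
      rw [max_eq_left h1.le] at a2
      rw [max_eq_left h2.le] at a4
      exact Prod.ext (le_antisymm a2 b1) (le_antisymm a4 b3)
    · intro hz
      rw [Set.mem_singleton_iff] at hz
      subst hz
      refine ⟨⟨min_le_left _ _, le_max_left _ _, min_le_left _ _, le_max_left _ _⟩, ?_⟩
      simp only [Rect.corner, Bool.false_eq_true, if_false]
      exact ⟨le_rfl, hux.le, le_rfl, huy.le⟩
  · rintro z ⟨⟨a1, a2, a3, a4⟩, hz⟩
    simp only [Rect.corner, Bool.false_eq_true, if_false] at a1 a2 a3 a4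
    rw [min_eq_right h1.le] at a1
    rw [min_eq_right h2.le] at a3
    refine ⟨hz, ?_⟩
    obtain ⟨b1, b2, b3, b4⟩ := hz
    rcases hb with hb | hb
    · right; left; linarith
    · right; right; right; linarith
  · intro w hwu hwv
    rw [Set.disjoint_left]
    rintro z ⟨a1, a2, a3, a4⟩ ⟨b1, b2, b3, b4⟩
    simp only [Rect.corner, Bool.false_eq_true, if_false] at a1 a2 a3 a4
    rw [min_eq_right h1.le] at a1
    rw [max_eq_left h1.le] at a2
    rw [min_eq_right h2.le] at a3
    rw [max_eq_left h2.le] at a4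
    rcases hd w hwu hwv with h | h | h | h <;> linarith

theorem S_inv (u v : V) (h : Sees R (true, false) u v) : ∃ qx qy : ℝ, (R u).x2 < qx ∧
    qy < (R u).y1 ∧ (qx, qy) ∈ (R v).pts ∧ ∀ w, w ≠ u → w ≠ v → (R w).x2 < (R u).x2 ∨
      qx < (R w).x1 ∨ (R w).y2 < qy ∨ (R u).y1 < (R w).y1 := by
  have hux := (R u).hx
  have huy := (R u).hy
  obtain ⟨⟨qx, qy⟩, h1, h2, ⟨h3, _⟩, h4, _, h5⟩ := h
  simp only [Rect.corner, if_true, Bool.false_eq_true, if_false] at h1 h2 h4 h5
  have hx : (R u).x2 < qx := by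
    by_contra hc
    have hlt : qx < (R u).x2 := lt_of_le_of_ne (not_lt.mp hc) h1
    have hz : ((max qx (R u).x1, (R u).y1) : ℝ × ℝ) ∈
        boxPts ((R u).x2, (R u).y1) (qx, qy) ∩ (R u).pts := by
      refine ⟨⟨?_, ?_, min_le_left _ _, le_max_left _ _⟩, le_max_right _ _,
        max_le hlt.le hux.le, le_rfl, huy.le⟩
      · exact le_trans (min_le_right _ _) (le_max_left _ _)
      · exact le_trans (max_le hlt.le hux.le) (le_max_left _ _)
    rw [h4, Set.mem_singleton_iff] at hz
    have := congrArg Prod.fst hz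
    simp only at this
    have := max_lt hlt hux
    linarith
  have hy : qy < (R u).y1 := by
    by_contra hc
    have hlt : (R u).y1 < qy := lt_of_le_of_ne (not_lt.mp hc) (Ne.symm h2)
    have hz : (((R u).x2, min qy (R u).y2) : ℝ × ℝ) ∈
        boxPts ((R u).x2, (R u).y1) (qx, qy) ∩ (R u).pts := by
      refine ⟨⟨min_le_left _ _, le_max_left _ _, ?_, ?_⟩, hux.le, le_rfl,
        le_min hlt.le huy.le, min_le_right _ _⟩
      · exact le_trans (min_le_left _ _) (le_min hlt.le huy.le)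
      · exact le_trans (min_le_left _ _) (le_max_right _ _)
    rw [h4, Set.mem_singleton_iff] at hz
    have := congrArg Prod.snd hz
    simp only at this
    have := lt_min hlt huy
    linarith
  refine ⟨qx, qy, hx, hy, h3, ?_⟩
  intro w hwu hwv
  by_contra hc
  push Not at hc
  obtain ⟨c1, c2, c3, c4⟩ := hc
  have hwx := (R w).hx
  have hwy := (R w).hy
  have hd := h5 w hwu hwv
  rw [Set.disjoint_left] at hd
  refine hd (a := (max (R u).x2 (R w).x1, max qy (R w).y1)) ⟨?_, ?_, ?_, ?_⟩ ⟨?_, ?_, ?_, ?_⟩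
  · exact le_trans (min_le_left _ _) (le_max_left _ _)
  · exact le_trans (max_le hx.le c2) (le_max_right _ _)
  · exact le_trans (min_le_right _ _) (le_max_left _ _)
  · exact le_trans (max_le hy.le c4) (le_max_left _ _)
  · exact le_max_right _ _
  · exact max_le c1 hwx.le
  · exact le_max_right _ _
  · exact max_le c3 hwy.le

theorem W_inv (u v : V) (h : Sees R (false, false) u v) : ∃ qx qy : ℝ, qx < (R u).x1 ∧
    qy < (R u).y1 ∧ (qx, qy) ∈ (R v).pts ∧ ∀ w, w ≠ u → w ≠ v → (R u).x1 < (R w).x1 ∨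
      (R w).x2 < qx ∨ (R w).y2 < qy ∨ (R u).y1 < (R w).y1 := by
  have hux := (R u).hx
  have huy := (R u).hy
  obtain ⟨⟨qx, qy⟩, h1, h2, ⟨h3, _⟩, h4, _, h5⟩ := h
  simp only [Rect.corner, Bool.false_eq_true, if_false] at h1 h2 h4 h5
  have hx : qx < (R u).x1 := by
    by_contra hc
    have hlt : (R u).x1 < qx := lt_of_le_of_ne (not_lt.mp hc) (Ne.symm h1)
    have hz : ((min qx (R u).x2, (R u).y1) : ℝ × ℝ) ∈
        boxPts ((R u).x1, (R u).y1) (qx, qy) ∩ (R u).pts := by
      refine ⟨⟨?_, ?_, min_le_left _ _, le_max_left _ _⟩, le_min hlt.le hux.le,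
        min_le_right _ _, le_rfl, huy.le⟩
      · exact le_trans (min_le_left _ _) (le_min hlt.le hux.le)
      · exact le_trans (min_le_left _ _) (le_max_right _ _)
    rw [h4, Set.mem_singleton_iff] at hz
    have := congrArg Prod.fst hz
    simp only at this
    have := lt_min hlt hux
    linarith
  have hy : qy < (R u).y1 := by
    by_contra hc
    have hlt : (R u).y1 < qy := lt_of_le_of_ne (not_lt.mp hc) (Ne.symm h2)
    have hz : (((R u).x1, min qy (R u).y2) : ℝ × ℝ) ∈
        boxPts ((R u).x1, (R u).y1) (qx, qy) ∩ (R u).pts := by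
      refine ⟨⟨min_le_left _ _, le_max_left _ _, ?_, ?_⟩, le_rfl, hux.le,
        le_min hlt.le huy.le, min_le_right _ _⟩
      · exact le_trans (min_le_left _ _) (le_min hlt.le huy.le)
      · exact le_trans (min_le_left _ _) (le_max_right _ _)
    rw [h4, Set.mem_singleton_iff] at hz
    have := congrArg Prod.snd hz
    simp only at this
    have := lt_min hlt huy
    linarith
  refine ⟨qx, qy, hx, hy, h3, ?_⟩
  intro w hwu hwv
  by_contra hc
  push Not at hc
  obtain ⟨c1, c2, c3, c4⟩ := hc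
  have hwx := (R w).hx
  have hwy := (R w).hy
  have hd := h5 w hwu hwv
  rw [Set.disjoint_left] at hd
  refine hd (a := (max qx (R w).x1, max qy (R w).y1)) ⟨?_, ?_, ?_, ?_⟩ ⟨?_, ?_, ?_, ?_⟩
  · exact le_trans (min_le_right _ _) (le_max_left _ _)
  · exact le_trans (max_le hx.le c1) (le_max_left _ _)
  · exact le_trans (min_le_right _ _) (le_max_left _ _)
  · exact le_trans (max_le hy.le c4) (le_max_left _ _)
  · exact le_max_right _ _
  · exact max_le c2 hwx.le
  · exact le_max_right _ _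
  · exact max_le c3 hwy.le

end eyes

/-- the rectangles -/
noncomputable def RR (a : Bool × Fin 11) : Rect :=
  if a.1 then
    ⟨a.2.val, 22 - a.2.val, -70 + 2 * a.2.val, -69 + 2 * a.2.val, by
      have := val_le a.2; linarith, by linarith⟩
  else if a.2.val % 2 = 0 then
    ⟨-a.2.val - 3, -a.2.val - 1, -4 * a.2.val, -4 * a.2.val + 5, by linarith, by linarith⟩
  else ⟨24 + a.2.val, 26 + a.2.val, -4 * a.2.val, -4 * a.2.val + 5, by linarith, by linarith⟩

/-- the eyes -/
def ee (a : Bool × Fin 11) : Bool × Bool :=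
  if a.1 then (true, false) else if a.2.val % 2 = 0 then (true, false) else (false, false)

theorem RR_Y (j : Fin 11) : RR (true, j) = ⟨j.val, 22 - j.val, -70 + 2 * j.val, -69 + 2 * j.val, by
      have := val_le j; linarith, by linarith⟩ := rfl

theorem RR_L (i : Fin 11) (h : i.val % 2 = 0) : RR (false, i) =
    ⟨-i.val - 3, -i.val - 1, -4 * i.val, -4 * i.val + 5, by linarith, by linarith⟩ := by
  unfold RR
  simp [h]

theorem RR_R (i : Fin 11) (h : ¬ i.val % 2 = 0) : RR (false, i) =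
    ⟨24 + i.val, 26 + i.val, -4 * i.val, -4 * i.val + 5, by linarith, by linarith⟩ := by
  unfold RR
  simp [h]

theorem castle {a b c : ℕ} (h : a + c ≤ b) : (a : ℝ) + c ≤ b := by exact_mod_cast h

/-- case analysis on a rectangle -/
theorem cases_w (w : Bool × Fin 11) : (∃ m : Fin 11, w = (false, m) ∧ m.val % 2 = 0) ∨
    (∃ m : Fin 11, w = (false, m) ∧ ¬ m.val % 2 = 0) ∨ ∃ m : Fin 11, w = (true, m) := by
  obtain ⟨a, m⟩ := w
  cases a
  · by_cases h : m.val % 2 = 0
    · exact Or.inl ⟨m, rfl, h⟩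
    · exact Or.inr (Or.inl ⟨m, rfl, h⟩)
  · exact Or.inr (Or.inr ⟨m, rfl⟩)

theorem RR_disj : PwDisjoint RR := by
  intro u v huv
  rw [Set.disjoint_left]
  rintro p ⟨a1, a2, a3, a4⟩ ⟨b1, b2, b3, b4⟩
  rcases cases_w u with ⟨i, rfl, hi⟩ | ⟨i, rfl, hi⟩ | ⟨i, rfl⟩ <;>
    rcases cases_w v with ⟨j, rfl, hj⟩ | ⟨j, rfl, hj⟩ | ⟨j, rfl⟩
  all_goals
    have ri := val_le i
    have ri0 := val_nn i
    have rj := val_le j
    have rj0 := val_nn j
    have hij : ((false, i) : Bool × Fin 11) ≠ (false, j) ∨ True := Or.inr trivial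
  · have hne : i.val ≠ j.val := fun h => huv (by rw [Fin.ext h])
    rw [RR_L i hi] at a1 a2 a3 a4
    rw [RR_L j hj] at b1 b2 b3 b4
    simp only at a1 a2 a3 a4 b1 b2 b3 b4
    rcases Nat.lt_or_gt_of_ne hne with h | h
    · have : i.val + 2 ≤ j.val := by omega
      have := castle this
      push_cast at this
      linarith
    · have : j.val + 2 ≤ i.val := by omega
      have := castle this
      push_cast at this
      linarith
  · rw [RR_L i hi] at a1 a2 a3 a4
    rw [RR_R j hj] at b1 b2 b3 b4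
    simp only at a1 a2 a3 a4 b1 b2 b3 b4
    linarith
  · rw [RR_L i hi] at a1 a2 a3 a4
    rw [RR_Y j] at b1 b2 b3 b4
    simp only at a1 a2 a3 a4 b1 b2 b3 b4
    linarith
  · rw [RR_R i hi] at a1 a2 a3 a4
    rw [RR_L j hj] at b1 b2 b3 b4
    simp only at a1 a2 a3 a4 b1 b2 b3 b4
    linarith
  · have hne : i.val ≠ j.val := fun h => huv (by rw [Fin.ext h])
    rw [RR_R i hi] at a1 a2 a3 a4
    rw [RR_R j hj] at b1 b2 b3 b4
    simp only at a1 a2 a3 a4 b1 b2 b3 b4
    rcases Nat.lt_or_gt_of_ne hne with h | h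
    · have : i.val + 2 ≤ j.val := by omega
      have := castle this
      push_cast at this
      linarith
    · have : j.val + 2 ≤ i.val := by omega
      have := castle this
      push_cast at this
      linarith
  · rw [RR_R i hi] at a1 a2 a3 a4
    rw [RR_Y j] at b1 b2 b3 b4
    simp only at a1 a2 a3 a4 b1 b2 b3 b4
    linarith
  · rw [RR_Y i] at a1 a2 a3 a4
    rw [RR_L j hj] at b1 b2 b3 b4
    simp only at a1 a2 a3 a4 b1 b2 b3 b4
    linarith
  · rw [RR_Y i] at a1 a2 a3 a4
    rw [RR_R j hj] at b1 b2 b3 b4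
    simp only at a1 a2 a3 a4 b1 b2 b3 b4
    linarith
  · have hne : i.val ≠ j.val := fun h => huv (by rw [Fin.ext h])
    rw [RR_Y i] at a1 a2 a3 a4
    rw [RR_Y j] at b1 b2 b3 b4
    simp only at a1 a2 a3 a4 b1 b2 b3 b4
    rcases Nat.lt_or_gt_of_ne hne with h | h
    · have : i.val + 1 ≤ j.val := by omega
      have := castle this
      push_cast at this
      linarith
    · have : j.val + 1 ≤ i.val := by omega
      have := castle this
      push_cast at this
      linarith

end Pool.Agent.X63.JC
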