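import Pool.Agent.X63.JoinCRVG2

set_option autoImplicit false

namespace Pool.Agent.X63.JC

open Pool.Agent.X63

theorem lt_cast {a b : ℕ} (h : a < b) : (a : ℝ) + 1 ≤ b := by exact_mod_cast h

/-- the first path sees the second -/
theorem X_sees_Y (i j : Fin 11) : Sees RR (ee (false, i)) (false, i) (true, j) := by
  have ri := val_le i
  have ri0 := val_nn i
  have rj := val_le j
  have rj0 := val_nn j
  by_cases hi : i.val % 2 = 0
  · have he : ee (false, i) = (true, false) := by simp [ee, hi]
    rw [he]
    apply S_sees RR _ _ (j.val : ℝ) (-69 + 2 * j.val)
    · rw [RR_L i hi]; simp only; linarith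
    · rw [RR_L i hi]; simp only; linarith
    · rw [RR_Y j]; exact ⟨le_rfl, by simp only; linarith, by simp only; linarith, le_rfl⟩
    · left; rw [RR_Y j]
    · intro w hwu hwv
      rw [RR_L i hi]
      rcases cases_w w with ⟨m, rfl, hm⟩ | ⟨m, rfl, hm⟩ | ⟨m, rfl⟩
      · have hne : m.val ≠ i.val := fun h => hwu (by rw [Fin.ext h])
        rw [RR_L m hm]
        simp only
        rcases Nat.lt_or_gt_of_ne hne with h | h
        · right; right; right
          have := lt_cast h
          linarith
        · left
          have := lt_cast h
          linarith
      · rw [RR_R m hm]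
        simp only
        have := val_nn m
        right; left; linarith
      · have hne : m.val ≠ j.val := fun h => hwv (by rw [Fin.ext h])
        rw [RR_Y m]
        simp only
        rcases Nat.lt_or_gt_of_ne hne with h | h
        · right; right; left
          have := lt_cast h
          linarith
        · right; left
          have := lt_cast h
          linarith
  · have he : ee (false, i) = (false, false) := by simp [ee, hi]
    rw [he]
    apply W_sees RR _ _ (22 - j.val : ℝ) (-69 + 2 * j.val)
    · rw [RR_R i hi]; simp only; linarith
    · rw [RR_R i hi]; simp only; linarith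
    · rw [RR_Y j]; exact ⟨by simp only; linarith, le_rfl, by simp only; linarith, le_rfl⟩
    · left; rw [RR_Y j]
    · intro w hwu hwv
      rw [RR_R i hi]
      rcases cases_w w with ⟨m, rfl, hm⟩ | ⟨m, rfl, hm⟩ | ⟨m, rfl⟩
      · rw [RR_L m hm]
        simp only
        have := val_nn m
        right; left; linarith
      · have hne : m.val ≠ i.val := fun h => hwu (by rw [Fin.ext h])
        rw [RR_R m hm]
        simp only
        rcases Nat.lt_or_gt_of_ne hne with h | h
        · right; right; right
          have := lt_cast h
          linarith
        · left
          have := lt_cast h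
          linarith
      · have hne : m.val ≠ j.val := fun h => hwv (by rw [Fin.ext h])
        rw [RR_Y m]
        simp only
        rcases Nat.lt_or_gt_of_ne hne with h | h
        · right; right; left
          have := lt_cast h
          linarith
        · right; left
          have := lt_cast h
          linarith

/-- consecutive vertices of the first path -/
theorem X_sees_X (i j : Fin 11) (hij : i.val + 1 = j.val) :
    Sees RR (ee (false, i)) (false, i) (false, j) := by
  have ri := val_le i
  have ri0 := val_nn i
  have rj := val_le j
  have rj0 := val_nn j
  have cij : (i.val : ℝ) + 1 = j.val := by exact_mod_cast hij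
  by_cases hi : i.val % 2 = 0
  · have hj : ¬ j.val % 2 = 0 := by omega
    have he : ee (false, i) = (true, false) := by simp [ee, hi]
    rw [he]
    apply S_sees RR _ _ (24 + j.val : ℝ) (-4 * i.val - 1 / 2)
    · rw [RR_L i hi]; simp only; linarith
    · rw [RR_L i hi]; simp only; linarith
    · rw [RR_R j hj]
      exact ⟨le_rfl, by simp only; linarith, by simp only; linarith, by simp only; linarith⟩
    · left; rw [RR_R j hj]
    · intro w hwu hwv
      rw [RR_L i hi]
      rcases cases_w w with ⟨m, rfl, hm⟩ | ⟨m, rfl, hm⟩ | ⟨m, rfl⟩
      · have hne : m.val ≠ i.val := fun h => hwu (by rw [Fin.ext h])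
        rw [RR_L m hm]
        simp only
        rcases Nat.lt_or_gt_of_ne hne with h | h
        · right; right; right
          have := lt_cast h
          linarith
        · right; right; left
          have h2 : i.val + 2 ≤ m.val := by omega
          have := castle h2
          push_cast at this
          linarith
      · have hne : m.val ≠ j.val := fun h => hwv (by rw [Fin.ext h])
        rw [RR_R m hm]
        simp only
        rcases Nat.lt_or_gt_of_ne hne with h | h
        · right; right; right
          have h2 : m.val + 1 ≤ i.val := by omega
          have := castle h2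
          push_cast at this
          linarith
        · right; left
          have := lt_cast h
          linarith
      · rw [RR_Y m]
        simp only
        have := val_le m
        right; right; left; linarith
  · have hj : j.val % 2 = 0 := by omega
    have he : ee (false, i) = (false, false) := by simp [ee, hi]
    rw [he]
    apply W_sees RR _ _ (-j.val - 1 : ℝ) (-4 * i.val - 1 / 2)
    · rw [RR_R i hi]; simp only; linarith
    · rw [RR_R i hi]; simp only; linarith
    · rw [RR_L j hj]
      exact ⟨by simp only; linarith, le_rfl, by simp only; linarith, by simp only; linarith⟩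
    · left; rw [RR_L j hj]
    · intro w hwu hwv
      rw [RR_R i hi]
      rcases cases_w w with ⟨m, rfl, hm⟩ | ⟨m, rfl, hm⟩ | ⟨m, rfl⟩
      · have hne : m.val ≠ j.val := fun h => hwv (by rw [Fin.ext h])
        rw [RR_L m hm]
        simp only
        rcases Nat.lt_or_gt_of_ne hne with h | h
        · right; right; right
          have h2 : m.val + 1 ≤ i.val := by omega
          have := castle h2
          push_cast at this
          linarith
        · right; left
          have := lt_cast h
          linarith
      · have hne : m.val ≠ i.val := fun h => hwu (by rw [Fin.ext h])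
        rw [RR_R m hm]
        simp only
        rcases Nat.lt_or_gt_of_ne hne with h | h
        · right; right; right
          have := lt_cast h
          linarith
        · right; right; left
          have h2 : i.val + 2 ≤ m.val := by omega
          have := castle h2
          push_cast at this
          linarith
      · rw [RR_Y m]
        simp only
        have := val_le m
        right; right; left; linarith

/-- non-consecutive vertices of the first path do not see each other -/
theorem X_inv (i j : Fin 11) (h : Sees RR (ee (false, i)) (false, i) (false, j)) (hne : i ≠ j) :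
    i.val + 1 = j.val := by
  have ri := val_le i
  have ri0 := val_nn i
  have rj := val_le j
  have rj0 := val_nn j
  have hne' : i.val ≠ j.val := fun h => hne (Fin.ext h)
  by_contra hcon
  by_cases hi : i.val % 2 = 0
  · have he : ee (false, i) = (true, false) := by simp [ee, hi]
    rw [he] at h
    obtain ⟨qx, qy, h1, h2, h3, h4⟩ := S_inv RR _ _ h
    rw [RR_L i hi] at h1 h2 h4
    simp only at h1 h2 h4
    by_cases hj : j.val % 2 = 0
    · rw [RR_L j hj] at h3
      obtain ⟨b1, b2, b3, b4⟩ := h3
      simp only at b1 b2 b3 b4
      linarith
    · rw [RR_R j hj] at h3
      obtain ⟨b1, b2, b3, b4⟩ := h3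
      simp only at b1 b2 b3 b4
      have hlt : (i.val : ℝ) < j.val := by linarith
      have hlt' : i.val < j.val := by exact_mod_cast hlt
      have h3' : i.val + 3 ≤ j.val := by omega
      let m : Fin 11 := ⟨i.val + 1, by have := j.isLt; omega⟩
      have hm : ¬ m.val % 2 = 0 := by simp only [m]; omega
      have hmv : (m.val : ℝ) = i.val + 1 := by simp only [m]; push_cast; ring
      have c := castle h3'
      push_cast at c
      have := h4 (false, m) (by
        intro h; have := congrArg (fun a => a.2.val) h; simp only [m] at this; omega) (by
        intro h; have := congrArg (fun a => a.2.val) h; simp only [m] at this; omega)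
      rw [RR_R m hm] at this
      simp only [hmv] at this
      rcases this with t | t | t | t <;> linarith
  · have he : ee (false, i) = (false, false) := by simp [ee, hi]
    rw [he] at h
    obtain ⟨qx, qy, h1, h2, h3, h4⟩ := W_inv RR _ _ h
    rw [RR_R i hi] at h1 h2 h4
    simp only at h1 h2 h4
    by_cases hj : j.val % 2 = 0
    · rw [RR_L j hj] at h3
      obtain ⟨b1, b2, b3, b4⟩ := h3
      simp only at b1 b2 b3 b4
      have hlt : (i.val : ℝ) < j.val := by linarith
      have hlt' : i.val < j.val := by exact_mod_cast hlt
      have h3' : i.val + 3 ≤ j.val := by omega
      let m : Fin 11 := ⟨i.val + 1, by have := j.isLt; omega⟩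
      have hm : m.val % 2 = 0 := by simp only [m]; omega
      have hmv : (m.val : ℝ) = i.val + 1 := by simp only [m]; push_cast; ring
      have c := castle h3'
      push_cast at c
      have := h4 (false, m) (by
        intro h; have := congrArg (fun a => a.2.val) h; simp only [m] at this; omega) (by
        intro h; have := congrArg (fun a => a.2.val) h; simp only [m] at this; omega)
      rw [RR_L m hm] at this
      simp only [hmv] at this
      rcases this with t | t | t | t <;> linarith
    · rw [RR_R j hj] at h3
      obtain ⟨b1, b2, b3, b4⟩ := h3
      simp only at b1 b2 b3 b4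
      linarith

/-- consecutive vertices of the second path -/
theorem Y_sees_Y (j l : Fin 11) (hjl : l.val + 1 = j.val) :
    Sees RR (ee (true, j)) (true, j) (true, l) := by
  have rj := val_le j
  have rj0 := val_nn j
  have rl := val_le l
  have rl0 := val_nn l
  have c : (l.val : ℝ) + 1 = j.val := by exact_mod_cast hjl
  have he : ee (true, j) = (true, false) := by simp [ee]
  rw [he]
  apply S_sees RR _ _ (22 - j.val + 1 / 2 : ℝ) (-71 + 2 * j.val)
  · rw [RR_Y j]; simp only; linarith
  · rw [RR_Y j]; simp only; linarith
  · rw [RR_Y l]
    exact ⟨by simp only; linarith, by simp only; linarith, by simp only; linarith,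
      by simp only; linarith⟩
  · right; rw [RR_Y l]; simp only; linarith
  · intro w hwu hwv
    rw [RR_Y j]
    rcases cases_w w with ⟨m, rfl, hm⟩ | ⟨m, rfl, hm⟩ | ⟨m, rfl⟩
    · rw [RR_L m hm]
      simp only
      have := val_le m
      right; right; right; linarith
    · rw [RR_R m hm]
      simp only
      have := val_le m
      right; right; right; linarith
    · have hne : m.val ≠ j.val := fun h => hwu (by rw [Fin.ext h])
      have hne' : m.val ≠ l.val := fun h => hwv (by rw [Fin.ext h])
      rw [RR_Y m]
      simp only
      rcases Nat.lt_or_gt_of_ne hne with h | h
      · right; right; left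
        have h2 : m.val + 2 ≤ j.val := by omega
        have := castle h2
        push_cast at this
        linarith
      · right; right; right
        have := lt_cast h
        linarith

theorem Y_inv (j l : Fin 11) (h : Sees RR (ee (true, j)) (true, j) (true, l)) (hne : j ≠ l) :
    l.val + 1 = j.val := by
  have rj := val_le j
  have rj0 := val_nn j
  have rl := val_le l
  have rl0 := val_nn l
  have hne' : j.val ≠ l.val := fun h => hne (Fin.ext h)
  by_contra hcon
  have he : ee (true, j) = (true, false) := by simp [ee]
  rw [he] at h
  obtain ⟨qx, qy, h1, h2, h3, h4⟩ := S_inv RR _ _ h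
  rw [RR_Y j] at h1 h2 h4
  simp only at h1 h2 h4
  rw [RR_Y l] at h3
  obtain ⟨b1, b2, b3, b4⟩ := h3
  simp only at b1 b2 b3 b4
  have hlt : (l.val : ℝ) < j.val := by linarith
  have hlt' : l.val < j.val := by exact_mod_cast hlt
  have h3' : l.val + 2 ≤ j.val := by omega
  let m : Fin 11 := ⟨j.val - 1, by have := j.isLt; omega⟩
  have hmv : (m.val : ℝ) + 1 = j.val := by
    have : m.val + 1 = j.val := by simp only [m]; omega
    exact_mod_cast this
  have c := castle h3'
  push_cast at c
  have := h4 (true, m) (by
    intro h; have := congrArg (fun a => a.2.val) h; simp only [m] at this; omega) (by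
    intro h; have := congrArg (fun a => a.2.val) h; simp only [m] at this; omega)
  rw [RR_Y m] at this
  simp only at this
  rcases this with t | t | t | t <;> linarith

theorem crvg : IsCRVG J := by
  refine ⟨RR, ee, RR_disj, ?_⟩
  rintro ⟨a, i⟩ ⟨b, j⟩ hne
  cases a <;> cases b
  · have hij : i ≠ j := fun h => hne (by rw [h])
    constructor
    · intro h
      rcases h with h | h | h
      · exact absurd rfl h
      · exact Or.inl (X_sees_X i j h)
      · exact Or.inr (X_sees_X j i h)
    · rintro (h | h)
      · exact Or.inr (Or.inl (X_inv i j h hij))
      · exact Or.inr (Or.inr (X_inv j i h hij.symm))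
  · constructor
    · intro _
      exact Or.inl (X_sees_Y i j)
    · intro _
      exact Or.inl (by simp)
  · constructor
    · intro _
      exact Or.inr (X_sees_Y j i)
    · intro _
      exact Or.inl (by simp)
  · have hij : i ≠ j := fun h => hne (by rw [h])
    constructor
    · intro h
      rcases h with h | h | h
      · exact absurd rfl h
      · exact Or.inr (Y_sees_Y j i h)
      · exact Or.inl (Y_sees_Y i j h)
    · rintro (h | h)
      · exact Or.inr (Or.inr (Y_inv i j h hij))
      · exact Or.inr (Or.inl (Y_inv j i h hij.symm))

end Pool.Agent.X63.JC
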