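import Mathlib

/-!
Plane drawings of finite graphs by arcs.
-/

set_option autoImplicit false

namespace Pool.Agent.X63

/-- `G` is planar: it can be drawn in the plane with distinct points for the vertices and a simple
arc for every edge, so that no arc passes through a vertex and no point inside an arc lies on the
arc of another edge. -/
def IsPlanar {V : Type} (G : SimpleGraph V) : Prop :=
  ∃ p : V → ℝ × ℝ, Function.Injective p ∧
    ∃ γ : ∀ u v : V, Path (p u) (p v),
      (∀ u v, G.Adj u v → Function.Injective (γ u v)) ∧
      (∀ u v w, G.Adj u v → ∀ t : unitInterval,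
          0 < (t : ℝ) → (t : ℝ) < 1 → γ u v t ≠ p w) ∧
      (∀ u v x y, G.Adj u v → G.Adj x y → ¬(x = u ∧ y = v) →
          ¬(x = v ∧ y = u) → ∀ s t : unitInterval,
          0 < (s : ℝ) → (s : ℝ) < 1 → γ u v s ≠ γ x y t)

/-- maximal planar: planar, and no edge can be added keeping the graph planar. -/
def MaximalPlanar {V : Type} (G : SimpleGraph V) : Prop :=
  IsPlanar G ∧ ∀ H : SimpleGraph V, G ≤ H → IsPlanar H → H = G

end Pool.Agent.X63
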