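import Mathlib

/-!
Radial homeomorphisms of a normed space which rescale the inner ball and are the identity outside
a larger ball.
-/

set_option autoImplicit false

namespace Pool.Agent.X63

/-- piecewise linear increasing bijection of `[0, ∞)`: `s ↦ t`, identity beyond `R`. -/
noncomputable def gfun (R s t ρ : ℝ) : ℝ :=
  if ρ ≤ s then t / s * ρ else if ρ ≤ R then t + (ρ - s) * ((R - t) / (R - s)) else ρ

/-- the scaling factor. -/
noncomputable def kfun (R s t ρ : ℝ) : ℝ :=
  if ρ ≤ s then t / s else if ρ ≤ R then (t + (ρ - s) * ((R - t) / (R - s))) / ρ else 1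

theorem gfun_eq (R s t ρ : ℝ) (hs : 0 < s) (_hsR : s < R) (h : 0 ≤ ρ) :
    gfun R s t ρ = kfun R s t ρ * ρ := by
  unfold gfun kfun
  split_ifs with h1 h2
  · ring
  · have : ρ ≠ 0 := by linarith
    field_simp
  · ring

theorem kfun_cont (R s t : ℝ) (hs : 0 < s) (hsR : s < R) : Continuous (kfun R s t) := by
  have hR : 0 < R := hs.trans hsR
  have hRs : R - s ≠ 0 := by linarith
  unfold kfun
  have e : (fun ρ : ℝ => if ρ ≤ s then t / s else
      if ρ ≤ R then (t + (ρ - s) * ((R - t) / (R - s))) / ρ else 1) =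
      fun ρ : ℝ => if ρ ≤ s then t / s else
      if ρ ≤ R then (t + (ρ - s) * ((R - t) / (R - s))) / (max ρ s) else 1 := by
    funext ρ
    split_ifs with h1 h2
    · rfl
    · rw [max_eq_left (le_of_not_ge h1)]
    · rfl
  rw [e]
  have hmax : ∀ ρ : ℝ, max ρ s ≠ 0 := fun ρ => (lt_of_lt_of_le hs (le_max_right _ _)).ne'
  refine Continuous.if_le continuous_const ?_ continuous_id continuous_const ?_
  · refine Continuous.if_le ?_ continuous_const continuous_id continuous_const ?_
    · exact Continuous.div (by fun_prop) (by fun_prop) hmax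
    · intro ρ hρ
      have : ρ = R := hρ
      subst this
      rw [max_eq_left hsR.le]
      field_simp
      ring
  · intro ρ hρ
    have : ρ = s := hρ
    subst this
    rw [if_pos hsR.le]
    simp

theorem gfun_pos (R s t ρ : ℝ) (hs : 0 < s) (hsR : s < R) (ht : 0 < t) (htR : t < R) (h : 0 < ρ) :
    0 < gfun R s t ρ := by
  unfold gfun
  split_ifs with h1 h2
  · positivity
  · have : 0 < (ρ - s) * ((R - t) / (R - s)) :=
      mul_pos (by linarith) (div_pos (by linarith) (by linarith))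
    linarith
  · exact h

theorem kfun_pos (R s t ρ : ℝ) (hs : 0 < s) (hsR : s < R) (ht : 0 < t) (htR : t < R) (h : 0 ≤ ρ) :
    0 < kfun R s t ρ := by
  unfold kfun
  split_ifs with h1 h2
  · positivity
  · have : 0 < (ρ - s) * ((R - t) / (R - s)) :=
      mul_pos (by linarith) (div_pos (by linarith) (by linarith))
    exact div_pos (by linarith) (by linarith)
  · exact one_pos

theorem gfun_gfun (R s t ρ : ℝ) (hs : 0 < s) (hsR : s < R) (ht : 0 < t) (htR : t < R) (_h : 0 ≤ ρ) :
    gfun R t s (gfun R s t ρ) = ρ := by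
  have hRs : 0 < R - s := by linarith
  have hRt : 0 < R - t := by linarith
  by_cases h1 : ρ ≤ s
  · have e1 : gfun R s t ρ = t / s * ρ := by simp [gfun, h1]
    have h2 : t / s * ρ ≤ t := by
      rw [div_mul_eq_mul_div, div_le_iff₀ hs]
      exact mul_le_mul_of_nonneg_left h1 ht.le
    rw [e1]
    simp only [gfun, h2, if_true]
    field_simp
  · by_cases h2 : ρ ≤ R
    · have e1 : gfun R s t ρ = t + (ρ - s) * ((R - t) / (R - s)) := by simp [gfun, h1, h2]
      have h3 : 0 < (ρ - s) * ((R - t) / (R - s)) :=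
        mul_pos (by linarith) (div_pos hRt hRs)
      have h4 : ¬ (t + (ρ - s) * ((R - t) / (R - s)) ≤ t) := by linarith
      have h5 : t + (ρ - s) * ((R - t) / (R - s)) ≤ R := by
        have : (ρ - s) * ((R - t) / (R - s)) ≤ R - t := by
          rw [mul_div_assoc', div_le_iff₀ hRs]
          nlinarith
        linarith
      rw [e1]
      simp only [gfun, h4, h5, if_true, if_false]
      field_simp
      ring
    · have e1 : gfun R s t ρ = ρ := by simp [gfun, h1, h2]
      have h3 : ¬ (ρ ≤ t) := by linarith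
      rw [e1]
      simp only [gfun, h2, h3, if_false]

theorem gfun_mono (R s t a b : ℝ) (hs : 0 < s) (hsR : s < R) (ht : 0 < t) (htR : t < R)
    (_h : 0 ≤ a) (hab : a ≤ b) : gfun R s t a ≤ gfun R s t b := by
  have hRs : 0 < R - s := by linarith
  have hRt : 0 < R - t := by linarith
  have hq : 0 < (R - t) / (R - s) := div_pos hRt hRs
  have hmid : ∀ c, ¬ c ≤ s → c ≤ R → (c - s) * ((R - t) / (R - s)) ≤ R - t := by
    intro c h1 h2
    rw [mul_div_assoc', div_le_iff₀ hRs]
    nlinarith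
  have hlow : ∀ c, c ≤ s → t / s * c ≤ t := by
    intro c hc
    rw [div_mul_eq_mul_div, div_le_iff₀ hs]
    exact mul_le_mul_of_nonneg_left hc ht.le
  unfold gfun
  split_ifs with h1 h2 h3 h4 h5 h6
  · exact mul_le_mul_of_nonneg_left hab (by positivity)
  · have := hlow a h1
    have : 0 < (b - s) * ((R - t) / (R - s)) := mul_pos (by linarith) hq
    linarith
  · have := hlow a h1
    linarith
  · linarith
  · have : (a - s) * ((R - t) / (R - s)) ≤ (b - s) * ((R - t) / (R - s)) :=
      mul_le_mul_of_nonneg_right (by linarith) hq.le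
    linarith
  · have := hmid a h1 h4
    linarith
  all_goals linarith

theorem gfun_big (R s t ρ : ℝ) (hsR : s < R) (h : R ≤ ρ) (htR : t < R) : gfun R s t ρ = ρ := by
  have h1 : ¬ ρ ≤ s := by linarith
  unfold gfun
  rw [if_neg h1]
  split_ifs with h2
  · have : ρ = R := le_antisymm h2 h
    subst this
    have : ρ - s ≠ 0 := by linarith
    field_simp
    ring
  · rfl

variable {E : Type*} [NormedAddCommGroup E] [NormedSpace ℝ E]

/-- the radial map. -/
noncomputable def rmap (c : E) (R s t : ℝ) (p : E) : E := c + kfun R s t ‖p - c‖ • (p - c)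

theorem rmap_norm (c : E) (R s t : ℝ) (p : E) (hs : 0 < s) (hsR : s < R) (ht : 0 < t) (htR : t < R) :
    ‖rmap c R s t p - c‖ = gfun R s t ‖p - c‖ := by
  rw [gfun_eq R s t _ hs hsR (norm_nonneg _)]
  unfold rmap
  rw [add_sub_cancel_left, norm_smul, Real.norm_eq_abs,
    abs_of_pos (kfun_pos R s t _ hs hsR ht htR (norm_nonneg _))]

theorem rmap_rmap (c : E) (R s t : ℝ) (p : E) (hs : 0 < s) (hsR : s < R) (ht : 0 < t) (htR : t < R) :
    rmap c R t s (rmap c R s t p) = p := by
  have h1 := rmap_norm c R s t p hs hsR ht htR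
  rw [rmap, h1]
  have h2 : rmap c R s t p - c = kfun R s t ‖p - c‖ • (p - c) := by
    unfold rmap; rw [add_sub_cancel_left]
  rw [h2, smul_smul]
  by_cases h0 : ‖p - c‖ = 0
  · have : p - c = 0 := norm_eq_zero.mp h0
    rw [this, smul_zero, add_zero]
    exact (sub_eq_zero.mp this).symm
  · have hpos : 0 < ‖p - c‖ := lt_of_le_of_ne (norm_nonneg _) (Ne.symm h0)
    have hg := gfun_pos R s t _ hs hsR ht htR hpos
    have e1 := gfun_eq R t s _ ht htR hg.le
    rw [gfun_gfun R s t _ hs hsR ht htR hpos.le] at e1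
    have e2 := gfun_eq R s t _ hs hsR hpos.le
    have e3 : kfun R t s (gfun R s t ‖p - c‖) * kfun R s t ‖p - c‖ = 1 := by
      have : kfun R t s (gfun R s t ‖p - c‖) * kfun R s t ‖p - c‖ * ‖p - c‖ = ‖p - c‖ := by
        rw [mul_assoc, ← e2, ← e1]
      exact mul_right_cancel₀ h0 (by rw [this, one_mul])
    rw [e3, one_smul]
    abel

theorem rmap_cont (c : E) (R s t : ℝ) (hs : 0 < s) (hsR : s < R) : Continuous (rmap c R s t) := by
  unfold rmap
  have := kfun_cont R s t hs hsR
  fun_prop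

/-- the radial homeomorphism. -/
noncomputable def radial (c : E) (R s t : ℝ) (hs : 0 < s) (hsR : s < R) (ht : 0 < t) (htR : t < R) :
    E ≃ₜ E where
  toFun := rmap c R s t
  invFun := rmap c R t s
  left_inv p := rmap_rmap c R s t p hs hsR ht htR
  right_inv p := rmap_rmap c R t s p ht htR hs hsR
  continuous_toFun := rmap_cont c R s t hs hsR
  continuous_invFun := rmap_cont c R t s ht htR

theorem rmap_far (c : E) (R s t : ℝ) (p : E) (hsR : s < R) (htR : t < R) (hR : 0 < R)
    (h : R ≤ ‖p - c‖) : rmap c R s t p = p := by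
  have h0 : ‖p - c‖ ≠ 0 := by linarith
  have h1 : kfun R s t ‖p - c‖ = 1 := by
    have h1 : ¬ ‖p - c‖ ≤ s := by linarith
    unfold kfun
    rw [if_neg h1]
    split_ifs with h2
    · have e : ‖p - c‖ = R := le_antisymm h2 h
      rw [e]
      have : R - s ≠ 0 := by linarith
      field_simp
      ring
    · rfl
  unfold rmap
  rw [h1, one_smul]
  abel

theorem rmap_center (c : E) (R s t : ℝ) : rmap c R s t c = c := by
  simp [rmap]

theorem rmap_ray (c u : E) (R s t a : ℝ) (ha : 0 ≤ a) (hs : 0 < s) (hsR : s < R) (hu : u ≠ 0) :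
    rmap c R s t (c + a • u) = c + (gfun R s t (a * ‖u‖) / ‖u‖) • u := by
  have hn : ‖u‖ ≠ 0 := norm_ne_zero_iff.mpr hu
  unfold rmap
  rw [add_sub_cancel_left, norm_smul, Real.norm_eq_abs, abs_of_nonneg ha, smul_smul,
    gfun_eq R s t _ hs hsR (mul_nonneg ha (norm_nonneg _))]
  congr 2
  field_simp

theorem mem_segment_ray (c u p : E) : p ∈ segment ℝ c (c + u) ↔ ∃ a : ℝ, 0 ≤ a ∧ a ≤ 1 ∧ p = c + a • u := by
  rw [segment_eq_image']
  constructor
  · rintro ⟨a, ⟨h0, h1⟩, rfl⟩
    exact ⟨a, h0, h1, by simp⟩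
  · rintro ⟨a, h0, h1, rfl⟩
    exact ⟨a, ⟨h0, h1⟩, by simp⟩

theorem rmap_segment_sub (c u : E) (R s t : ℝ) (hs : 0 < s) (hsR : s < R) (ht : 0 < t) (htR : t < R)
    (hu : u ≠ 0) (b : ℝ) (hb : 0 < b) (hgb : gfun R s t ‖u‖ = b * ‖u‖) (p : E)
    (hp : p ∈ segment ℝ c (c + u)) :
    rmap c R s t p ∈ segment ℝ c (c + b • u) := by
  obtain ⟨a, h0, h1, rfl⟩ := (mem_segment_ray _ _ _).mp hp
  have hn : 0 < ‖u‖ := norm_pos_iff.mpr hu
  rw [rmap_ray c u R s t a h0 hs hsR hu, mem_segment_ray]
  have hmono := gfun_mono R s t (a * ‖u‖) ‖u‖ hs hsR ht htR (by positivity)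
    (by nlinarith [norm_nonneg u])
  have hnn : 0 ≤ gfun R s t (a * ‖u‖) := by
    rw [gfun_eq R s t _ hs hsR (by positivity)]
    exact mul_nonneg (kfun_pos R s t _ hs hsR ht htR (by positivity)).le (by positivity)
  refine ⟨gfun R s t (a * ‖u‖) / ‖u‖ / b, by positivity, ?_, ?_⟩
  · rw [div_le_one hb, div_le_iff₀ hn, ← hgb]
    exact hmono
  · rw [smul_smul]
    congr 2
    field_simp

/-- The radial map carries the segment from the center to `c + u` onto the segment from the center
to `c + b u`, where `g ‖u‖ = b ‖u‖`. -/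
theorem rmap_segment (c u : E) (R s t : ℝ) (hs : 0 < s) (hsR : s < R) (ht : 0 < t) (htR : t < R)
    (hu : u ≠ 0) (b : ℝ) (hb : 0 < b) (hgb : gfun R s t ‖u‖ = b * ‖u‖) :
    rmap c R s t '' segment ℝ c (c + u) = segment ℝ c (c + b • u) := by
  have hn : 0 < ‖u‖ := norm_pos_iff.mpr hu
  apply Set.Subset.antisymm
  · rintro _ ⟨p, hp, rfl⟩
    exact rmap_segment_sub c u R s t hs hsR ht htR hu b hb hgb p hp
  · intro p hp
    refine ⟨rmap c R t s p, ?_, rmap_rmap c R t s p ht htR hs hsR⟩
    have h2 : gfun R t s ‖b • u‖ = b⁻¹ * ‖b • u‖ := by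
      rw [norm_smul, Real.norm_eq_abs, abs_of_pos hb, ← hgb,
        gfun_gfun R s t _ hs hsR ht htR hn.le, hgb]
      field_simp
    have := rmap_segment_sub c (b • u) R t s ht htR hs hsR (smul_ne_zero hb.ne' hu) b⁻¹
      (inv_pos.mpr hb) h2 p hp
    rwa [smul_smul, inv_mul_cancel₀ hb.ne', one_smul] at this

end Pool.Agent.X63
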