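import Mathlib

/-!
Rectangle visibility graphs, open rectangle-of-influence graphs, corner rectangle visibility graphs.
-/

set_option autoImplicit false

namespace Pool.Agent.X63

/-- closed axis-parallel rectangle `[x1,x2] × [y1,y2]` of positive width and height -/
structure Rect where
  /-- left side -/
  x1 : ℝ
  /-- right side -/
  x2 : ℝ
  /-- bottom side -/
  y1 : ℝ
  /-- top side -/
  y2 : ℝ
  hx : x1 < x2
  hy : y1 < y2

/-- the point set of a rectangle -/
def Rect.pts (A : Rect) : Set (ℝ × ℝ) :=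
  {p | A.x1 ≤ p.1 ∧ p.1 ≤ A.x2 ∧ A.y1 ≤ p.2 ∧ p.2 ≤ A.y2}

/-- the boundary of a rectangle -/
def Rect.bdry (A : Rect) : Set (ℝ × ℝ) :=
  {p | p ∈ A.pts ∧ (p.1 = A.x1 ∨ p.1 = A.x2 ∨ p.2 = A.y1 ∨ p.2 = A.y2)}

/-- the closed axis-parallel rectangle with `p` and `q` as opposite corners -/
def boxPts (p q : ℝ × ℝ) : Set (ℝ × ℝ) :=
  {z | min p.1 q.1 ≤ z.1 ∧ z.1 ≤ max p.1 q.1 ∧ min p.2 q.2 ≤ z.2 ∧ z.2 ≤ max p.2 q.2}

/-- the interior of `boxPts p q` -/
def boxInt (p q : ℝ × ℝ) : Set (ℝ × ℝ) :=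
  {z | min p.1 q.1 < z.1 ∧ z.1 < max p.1 q.1 ∧ min p.2 q.2 < z.2 ∧ z.2 < max p.2 q.2}

/-- a family of pairwise disjoint rectangles -/
def PwDisjoint {V : Type} (R : V → Rect) : Prop :=
  ∀ u v, u ≠ v → Disjoint (R u).pts (R v).pts

/-- some vertical band `[a,b] × [c,d]` of positive width has its bottom side in `R u`, its top side
in `R v` and meets no other member of the family -/
def VBand {V : Type} (R : V → Rect) (u v : V) : Prop :=
  ∃ a b c d : ℝ, a < b ∧ c < d ∧ (∀ x, a ≤ x → x ≤ b → (x, c) ∈ (R u).pts ∧ (x, d) ∈ (R v).pts) ∧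
    ∀ w, w ≠ u → w ≠ v → ∀ x y, a ≤ x → x ≤ b → c ≤ y → y ≤ d → (x, y) ∉ (R w).pts

/-- some horizontal band `[c,d] × [a,b]` of positive width has its left side in `R u`, its right
side in `R v` and meets no other member of the family -/
def HBand {V : Type} (R : V → Rect) (u v : V) : Prop :=
  ∃ a b c d : ℝ, a < b ∧ c < d ∧ (∀ y, a ≤ y → y ≤ b → (c, y) ∈ (R u).pts ∧ (d, y) ∈ (R v).pts) ∧
    ∀ w, w ≠ u → w ≠ v → ∀ x y, c ≤ x → x ≤ d → a ≤ y → y ≤ b → (x, y) ∉ (R w).pts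

/-- `G` is a rectangle visibility graph -/
def IsRVG {V : Type} (G : SimpleGraph V) : Prop :=
  ∃ R : V → Rect, PwDisjoint R ∧
    ∀ u v, u ≠ v → (G.Adj u v ↔ VBand R u v ∨ VBand R v u ∨ HBand R u v ∨ HBand R v u)

/-- `G` is an open rectangle-of-influence graph -/
def IsOpenRIG {V : Type} (G : SimpleGraph V) : Prop :=
  ∃ P : V → ℝ × ℝ, Function.Injective P ∧
    ∀ u v, u ≠ v → (G.Adj u v ↔ ∀ w, P w ∉ boxInt (P u) (P v))

/-- the corner of `A` chosen by two Booleans: right or left, top or bottom -/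
def Rect.corner (A : Rect) (e : Bool × Bool) : ℝ × ℝ :=
  (if e.1 then A.x2 else A.x1, if e.2 then A.y2 else A.y1)

/-- `R u` with eye at the corner `e` sees `R v`: some closed box `Q` of positive width and height
has one corner at the eye and the opposite corner `q` on the boundary of `R v`, meets `R u` only in
the eye, meets `R v` only in boundary points, and is disjoint from all other members. -/
def Sees {V : Type} (R : V → Rect) (e : Bool × Bool) (u v : V) : Prop :=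
  ∃ q : ℝ × ℝ, q.1 ≠ ((R u).corner e).1 ∧ q.2 ≠ ((R u).corner e).2 ∧ q ∈ (R v).bdry ∧
    boxPts ((R u).corner e) q ∩ (R u).pts = {(R u).corner e} ∧
    boxPts ((R u).corner e) q ∩ (R v).pts ⊆ (R v).bdry ∧
    ∀ w, w ≠ u → w ≠ v → Disjoint (boxPts ((R u).corner e) q) (R w).pts

/-- `G` is a corner rectangle visibility graph -/
def IsCRVG {V : Type} (G : SimpleGraph V) : Prop :=
  ∃ (R : V → Rect) (e : V → Bool × Bool), PwDisjoint R ∧
    ∀ u v, u ≠ v → (G.Adj u v ↔ Sees R (e u) u v ∨ Sees R (e v) v u)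

end Pool.Agent.X63
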