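import Pool.Agent.X63.JoinCRVG2

/-!
The join of two paths on 11 vertices is a closed rectangle-of-influence graph but not a south corner
rectangle visibility graph.
-/

set_option autoImplicit false

namespace Pool.Agent.X63

/-- `G` is a closed rectangle-of-influence graph -/
def IsClosedRIG {V : Type} (G : SimpleGraph V) : Prop :=
  ∃ P : V → ℝ × ℝ, Function.Injective P ∧
    ∀ u v, u ≠ v → (G.Adj u v ↔ ∀ w, w ≠ u → w ≠ v → P w ∉ boxPts (P u) (P v))

/-- `G` is a south corner rectangle visibility graph: all eyes are the lower-right corners -/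
def IsSCRVG {V : Type} (G : SimpleGraph V) : Prop :=
  ∃ R : V → Rect, PwDisjoint R ∧
    ∀ u v, u ≠ v → (G.Adj u v ↔ Sees R (true, false) u v ∨ Sees R (true, false) v u)

namespace SC

open Pool.Agent.X63 Pool.Agent.X63.JC

section gen

variable {V : Type} (R : V → Rect)

/-- strict south-east order of the eyes -/
def SE (u v : V) : Prop := (R u).x2 < (R v).x2 ∧ (R v).y1 < (R u).y1

theorem SE_of_sees (u v : V) (h : Sees R (true, false) u v) : SE R u v := by
  obtain ⟨qx, qy, h1, h2, ⟨a1, a2, a3, a4⟩, _⟩ := S_inv R u v h
  simp only at a1 a2 a3 a4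
  exact ⟨by linarith, by linarith⟩

theorem SE_trans (u v w : V) (h : SE R u v) (h' : SE R v w) : SE R u w :=
  ⟨h.1.trans h'.1, h'.2.trans h.2⟩

theorem SE_asymm (u v : V) (h : SE R u v) (h' : SE R v u) : False :=
  absurd (h.1.trans h'.1) (lt_irrefl _)

/-- a rectangle seen by both of two comparable rectangles spans a line of the second eye -/
theorem span (x x' y : V) (hxx : SE R x x') (hyx : y ≠ x) (hyx' : y ≠ x')
    (h : Sees R (true, false) x y) : (R y).x1 ≤ (R x').x2 ∨ (R x').y1 ≤ (R y).y2 := by
  by_contra hc
  push Not at hc
  obtain ⟨c1, c2⟩ := hc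
  obtain ⟨qx, qy, h1, h2, ⟨a1, a2, a3, a4⟩, h4⟩ := S_inv R x y h
  simp only at a1 a2 a3 a4
  have hne : x' ≠ x := by
    rintro rfl
    exact SE_asymm R _ _ hxx hxx
  have e1 := hxx.1
  have e2 := hxx.2
  have hx := (R x').hx
  have hy := (R x').hy
  rcases h4 x' hne (Ne.symm hyx') with h | h | h | h <;> linarith

/-- at most one seen rectangle spans the vertical line -/
theorem one_v (hR : PwDisjoint R) (x y₁ y₂ : V) (h₁ : Sees R (true, false) x y₁)
    (h₂ : Sees R (true, false) x y₂) (hne : y₁ ≠ y₂) (hx₁ : y₁ ≠ x) (hx₂ : y₂ ≠ x)
    (s₁ : (R y₁).x1 ≤ (R x).x2) (s₂ : (R y₂).x1 ≤ (R x).x2) : False := by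
  have key : ∀ a b : V, a ≠ b → a ≠ x → b ≠ x → Sees R (true, false) x a → Sees R (true, false) x b →
      (R a).x1 ≤ (R x).x2 → (R b).x1 ≤ (R x).x2 → (R b).y1 ≤ (R a).y1 → False := by
    intro a b hab hax hbx ha hb sa sb hle
    have ea := SE_of_sees R x a ha
    have eb := SE_of_sees R x b hb
    obtain ⟨qx, qy, h1, h2, ⟨a1, a2, a3, a4⟩, h4⟩ := S_inv R x b hb
    simp only at a1 a2 a3 a4
    have hxx := (R x).hx
    have hxy := (R x).hy
    have hay := (R a).hy
    have hby := (R b).hy
    -- `a` lies below the eye of `x`
    have hatop : (R a).y2 < (R x).y1 := by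
      by_contra hc
      push Not at hc
      have hd := hR a x hax
      rw [Set.disjoint_left] at hd
      exact hd (a := ((R x).x2, (R x).y1)) ⟨sa, ea.1.le, ea.2.le, hc⟩
        ⟨hxx.le, le_rfl, le_rfl, hxy.le⟩
    -- `b` lies below `a`
    have hbtop : (R b).y2 < (R a).y1 := by
      by_contra hc
      push Not at hc
      have hd := hR a b hab
      rw [Set.disjoint_left] at hd
      exact hd (a := ((R x).x2, (R a).y1)) ⟨sa, ea.1.le, le_rfl, hay.le⟩
        ⟨sb, eb.1.le, hle, hc⟩
    rcases h4 a hax hab with h | h | h | h
    · have := ea.1; linarith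
    · linarith
    · linarith
    · have := ea.2; linarith
  rcases le_total (R y₂).y1 (R y₁).y1 with h | h
  · exact key y₁ y₂ hne hx₁ hx₂ h₁ h₂ s₁ s₂ h
  · exact key y₂ y₁ hne.symm hx₂ hx₁ h₂ h₁ s₂ s₁ h

/-- at most one seen rectangle spans the horizontal line -/
theorem one_h (hR : PwDisjoint R) (x y₁ y₂ : V) (h₁ : Sees R (true, false) x y₁)
    (h₂ : Sees R (true, false) x y₂) (hne : y₁ ≠ y₂) (hx₁ : y₁ ≠ x) (hx₂ : y₂ ≠ x)
    (s₁ : (R x).y1 ≤ (R y₁).y2) (s₂ : (R x).y1 ≤ (R y₂).y2) : False := by
  have key : ∀ a b : V, a ≠ b → a ≠ x → b ≠ x → Sees R (true, false) x a → Sees R (true, false) x b →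
      (R x).y1 ≤ (R a).y2 → (R x).y1 ≤ (R b).y2 → (R a).x2 ≤ (R b).x2 → False := by
    intro a b hab hax hbx ha hb sa sb hle
    have ea := SE_of_sees R x a ha
    have eb := SE_of_sees R x b hb
    obtain ⟨qx, qy, h1, h2, ⟨a1, a2, a3, a4⟩, h4⟩ := S_inv R x b hb
    simp only at a1 a2 a3 a4
    have hxx := (R x).hx
    have hxy := (R x).hy
    have hax' := (R a).hx
    have hbx' := (R b).hx
    have haleft : (R x).x2 < (R a).x1 := by
      by_contra hc
      push Not at hc
      have hd := hR a x hax
      rw [Set.disjoint_left] at hd
      exact hd (a := ((R x).x2, (R x).y1)) ⟨hc, ea.1.le, ea.2.le, sa⟩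
        ⟨hxx.le, le_rfl, le_rfl, hxy.le⟩
    have hbleft : (R a).x2 < (R b).x1 := by
      by_contra hc
      push Not at hc
      have hd := hR a b hab
      rw [Set.disjoint_left] at hd
      exact hd (a := ((R a).x2, (R x).y1)) ⟨hax'.le, le_rfl, ea.2.le, sa⟩
        ⟨hc, hle, eb.2.le, sb⟩
    rcases h4 a hax hab with h | h | h | h
    · have := ea.1; linarith
    · linarith
    · linarith
    · have := ea.2; linarith
  rcases le_total (R y₁).x2 (R y₂).x2 with h | h
  · exact key y₁ y₂ hne hx₁ hx₂ h₁ h₂ s₁ s₂ h
  · exact key y₂ y₁ hne.symm hx₂ hx₁ h₂ h₁ s₂ s₁ h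

/-- two comparable rectangles do not see three common rectangles -/
theorem no_three (hR : PwDisjoint R) (x x' : V) (hxx : SE R x x') (y : Fin 3 → V)
    (hinj : Function.Injective y) (hx : ∀ i, y i ≠ x) (hx' : ∀ i, y i ≠ x')
    (h : ∀ i, Sees R (true, false) x (y i)) (h' : ∀ i, Sees R (true, false) x' (y i)) : False := by
  have hs := fun i => span R x x' (y i) hxx (hx i) (hx' i) (h i)
  have hv : ∀ i j, i ≠ j → (R (y i)).x1 ≤ (R x').x2 → (R (y j)).x1 ≤ (R x').x2 → False :=
    fun i j hij a b => one_v R hR x' (y i) (y j) (h' i) (h' j) (fun e => hij (hinj e)) (hx' i)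
      (hx' j) a b
  have hh : ∀ i j, i ≠ j → (R x').y1 ≤ (R (y i)).y2 → (R x').y1 ≤ (R (y j)).y2 → False :=
    fun i j hij a b => one_h R hR x' (y i) (y j) (h' i) (h' j) (fun e => hij (hinj e)) (hx' i)
      (hx' j) a b
  rcases hs 0 with a | a <;> rcases hs 1 with b | b <;> rcases hs 2 with c | c
  · exact hv 0 1 (by decide) a b
  · exact hv 0 1 (by decide) a b
  · exact hv 0 2 (by decide) a c
  · exact hh 1 2 (by decide) b c
  · exact hv 1 2 (by decide) b c
  · exact hh 0 2 (by decide) a c
  · exact hh 0 1 (by decide) a b
  · exact hh 0 1 (by decide) a b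

end gen

/-- the counting argument for the join of two paths -/
theorem not_scrvg : ¬ IsSCRVG J := by
  classical
  rintro ⟨R, hR, hadj⟩
  have hcross : ∀ a b : Bool × Fin 11, a.1 ≠ b.1 →
      Sees R (true, false) a b ∨ Sees R (true, false) b a := by
    intro a b hab
    exact (hadj a b (fun h => hab (by rw [h]))).mp (Or.inl hab)
  -- a vertex above a vertex of its own side sees at most two vertices of the other side
  have late : ∀ (s : Bool) (i j : Fin 11), SE R (s, i) (s, j) → ∀ y : Fin 3 → Fin 11,
      Function.Injective y → (∀ k, Sees R (true, false) (s, j) (!s, y k)) → False := by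
    intro s i j hse y hy hsee
    refine no_three R hR (s, i) (s, j) hse (fun k => (!s, y k)) ?_ ?_ ?_ ?_ hsee
    · intro k l hkl
      exact hy (congrArg Prod.snd hkl)
    · intro k h
      have := congrArg Prod.fst h
      cases s <;> simp at this
    · intro k h
      have := congrArg Prod.fst h
      cases s <;> simp at this
    · intro k
      rcases hcross (s, i) (!s, y k) (by cases s <;> simp) with h | h
      · exact h
      · exfalso
        exact SE_asymm R _ _ (SE_trans R _ _ _ hse (SE_of_sees R _ _ (hsee k)))
          (SE_of_sees R _ _ h)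
  -- five late vertices on each side
  have hlate : ∀ (s : Bool) (k : Fin 5), ∃ i : Fin 11, i.val / 2 = k.val ∧
      ∀ y : Fin 3 → Fin 11, Function.Injective y →
        (∀ l, Sees R (true, false) (s, i) (!s, y l)) → False := by
    intro s k
    let a : Fin 11 := ⟨2 * k.val, by omega⟩
    let b : Fin 11 := ⟨2 * k.val + 1, by omega⟩
    have hab : ((s, a) : Bool × Fin 11) ≠ (s, b) := by
      intro h
      have := congrArg (fun z => z.2.val) h
      simp only [a, b] at this
      omega
    rcases (hadj (s, a) (s, b) hab).mp (Or.inr (Or.inl rfl)) with h | h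
    · exact ⟨b, by simp only [b]; omega, late s a b (SE_of_sees R _ _ h)⟩
    · exact ⟨a, by simp only [a]; omega, late s b a (SE_of_sees R _ _ h)⟩
  choose f hf hf' using hlate
  have finj : ∀ s, Function.Injective (f s) := by
    intro s k l hkl
    have h1 := hf s k
    have h2 := hf s l
    rw [hkl] at h1
    exact Fin.ext (h1.symm.trans h2)
  let A : Finset (Fin 5 × Fin 5) := Finset.univ.filter fun p =>
    Sees R (true, false) (false, f false p.1) (true, f true p.2)
  let B : Finset (Fin 5 × Fin 5) := Finset.univ.filter fun p =>
    Sees R (true, false) (true, f true p.2) (false, f false p.1)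
  have hAB : (Finset.univ : Finset (Fin 5 × Fin 5)) ⊆ A ∪ B := by
    intro p _
    rw [Finset.mem_union]
    rcases hcross (false, f false p.1) (true, f true p.2) (by simp) with h | h
    · left; simp only [A, Finset.mem_filter, Finset.mem_univ, true_and]; exact h
    · right; simp only [B, Finset.mem_filter, Finset.mem_univ, true_and]; exact h
  have hA : A.card ≤ 10 := by
    have h1 : A.card = ∑ i : Fin 5, (A.filter fun p => p.1 = i).card :=
      Finset.card_eq_sum_card_fiberwise (fun p _ => Finset.mem_coe.mpr (Finset.mem_univ _))
    rw [h1]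
    calc ∑ i : Fin 5, (A.filter fun p => p.1 = i).card ≤ ∑ _i : Fin 5, 2 := by
          apply Finset.sum_le_sum
          intro i _
          by_contra hc
          push Not at hc
          obtain ⟨p, q, r, hp, hq, hr, h1, h2, h3⟩ := Finset.two_lt_card_iff.mp hc
          simp only [A, Finset.mem_filter, Finset.mem_univ, true_and] at hp hq hr
          have n1 : p.2 ≠ q.2 := fun h => h1 (Prod.ext (hp.2.trans hq.2.symm) h)
          have n2 : p.2 ≠ r.2 := fun h => h2 (Prod.ext (hp.2.trans hr.2.symm) h)
          have n3 : q.2 ≠ r.2 := fun h => h3 (Prod.ext (hq.2.trans hr.2.symm) h)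
          refine hf' false i (fun l => f true (![p.2, q.2, r.2] l)) ?_ ?_
          · intro k l hkl
            have := finj true hkl
            fin_cases k <;> fin_cases l <;> simp at this ⊢
            · exact absurd this n1
            · exact absurd this n2
            · exact absurd this.symm n1
            · exact absurd this n3
            · exact absurd this.symm n2
            · exact absurd this.symm n3
          · intro l
            fin_cases l
            · have := hp.1; rw [hp.2] at this; exact this
            · have := hq.1; rw [hq.2] at this; exact this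
            · have := hr.1; rw [hr.2] at this; exact this
      _ = 10 := by simp
  have hB : B.card ≤ 10 := by
    have h1 : B.card = ∑ i : Fin 5, (B.filter fun p => p.2 = i).card :=
      Finset.card_eq_sum_card_fiberwise (fun p _ => Finset.mem_coe.mpr (Finset.mem_univ _))
    rw [h1]
    calc ∑ i : Fin 5, (B.filter fun p => p.2 = i).card ≤ ∑ _i : Fin 5, 2 := by
          apply Finset.sum_le_sum
          intro i _
          by_contra hc
          push Not at hc
          obtain ⟨p, q, r, hp, hq, hr, h1, h2, h3⟩ := Finset.two_lt_card_iff.mp hc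
          simp only [B, Finset.mem_filter, Finset.mem_univ, true_and] at hp hq hr
          have n1 : p.1 ≠ q.1 := fun h => h1 (Prod.ext h (hp.2.trans hq.2.symm))
          have n2 : p.1 ≠ r.1 := fun h => h2 (Prod.ext h (hp.2.trans hr.2.symm))
          have n3 : q.1 ≠ r.1 := fun h => h3 (Prod.ext h (hq.2.trans hr.2.symm))
          refine hf' true i (fun l => f false (![p.1, q.1, r.1] l)) ?_ ?_
          · intro k l hkl
            have := finj false hkl
            fin_cases k <;> fin_cases l <;> simp at this ⊢
            · exact absurd this n1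
            · exact absurd this n2
            · exact absurd this.symm n1
            · exact absurd this n3
            · exact absurd this.symm n2
            · exact absurd this.symm n3
          · intro l
            fin_cases l
            · have := hp.1; rw [hp.2] at this; exact this
            · have := hq.1; rw [hq.2] at this; exact this
            · have := hr.1; rw [hr.2] at this; exact this
      _ = 10 := by simp
  have h1 := Finset.card_le_card hAB
  have h2 := Finset.card_union_le A B
  rw [Finset.card_univ, Fintype.card_prod, Fintype.card_fin] at h1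
  omega

theorem chain_closed (c d : ℝ) (i j k : ℕ) :
    ((c + (k : ℝ), d - (k : ℝ)) : ℝ × ℝ) ∈ boxPts (c + (i : ℝ), d - (i : ℝ)) (c + (j : ℝ), d - (j : ℝ)) ↔
      min i j ≤ k ∧ k ≤ max i j := by
  unfold boxPts
  simp only [Set.mem_ofPred_eq]
  rw [min_le_iff, le_max_iff, min_le_iff, le_max_iff, min_le_iff, le_max_iff]
  constructor
  · rintro ⟨h1, h2, _, _⟩
    constructor
    · rcases h1 with h | h
      · left; have : (i : ℝ) ≤ k := by linarith
        exact_mod_cast this
      · right; have : (j : ℝ) ≤ k := by linarith
        exact_mod_cast this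
    · rcases h2 with h | h
      · left; have : (k : ℝ) ≤ i := by linarith
        exact_mod_cast this
      · right; have : (k : ℝ) ≤ j := by linarith
        exact_mod_cast this
  · rintro ⟨h1, h2⟩
    refine ⟨?_, ?_, ?_, ?_⟩
    · rcases h1 with h | h
      · left; have : (i : ℝ) ≤ k := by exact_mod_cast h
        linarith
      · right; have : (j : ℝ) ≤ k := by exact_mod_cast h
        linarith
    · rcases h2 with h | h
      · left; have : (k : ℝ) ≤ i := by exact_mod_cast h
        linarith
      · right; have : (k : ℝ) ≤ j := by exact_mod_cast h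
        linarith
    · rcases h2 with h | h
      · left; have : (k : ℝ) ≤ i := by exact_mod_cast h
        linarith
      · right; have : (k : ℝ) ≤ j := by exact_mod_cast h
        linarith
    · rcases h1 with h | h
      · left; have : (i : ℝ) ≤ k := by exact_mod_cast h
        linarith
      · right; have : (j : ℝ) ≤ k := by exact_mod_cast h
        linarith

/-- the join of two paths is a closed rectangle-of-influence graph -/
theorem closed_rig : IsClosedRIG J := by
  refine ⟨P, ?_, ?_⟩
  · rintro ⟨a, i⟩ ⟨b, j⟩ h
    have h1 := congrArg Prod.fst h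
    have h2 := congrArg Prod.snd h
    have := val_le i
    have := val_le j
    have := val_nn i
    have := val_nn j
    rw [P_eq, P_eq] at h1 h2
    simp only at h1 h2
    cases a <;> cases b <;> simp only [Bool.false_eq_true, if_true, if_false] at h1 h2
    · have : (i.val : ℝ) = j.val := by linarith
      have : i = j := Fin.ext (by exact_mod_cast this)
      rw [this]
    · linarith
    · linarith
    · have : (i.val : ℝ) = j.val := by linarith
      have : i = j := Fin.ext (by exact_mod_cast this)
      rw [this]
  · rintro ⟨a, i⟩ ⟨b, j⟩ hne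
    have hi := val_le i
    have hj := val_le j
    have hi0 := val_nn i
    have hj0 := val_nn j
    by_cases hab : a = b
    · subst hab
      have hij : i.val ≠ j.val := fun h => hne (by rw [Fin.ext h])
      constructor
      · intro h
        have h' : i.val + 1 = j.val ∨ j.val + 1 = i.val := by
          rcases h with h | h
          · exact absurd rfl h
          · exact h
        rintro ⟨c, k⟩ hw1 hw2 hmem
        have hk := val_le k
        have hk0 := val_nn k
        by_cases hac : c = a
        · subst hac
          rw [P_eq, P_eq, P_eq] at hmem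
          have := (chain_closed _ _ _ _ _).mp hmem
          have k1 : k.val ≠ i.val := fun h => hw1 (by rw [Fin.ext h])
          have k2 : k.val ≠ j.val := fun h => hw2 (by rw [Fin.ext h])
          simp only at this h'
          omega
        · rw [P_eq, P_eq, P_eq] at hmem
          obtain ⟨m1, m2, m3, m4⟩ := hmem
          rw [min_le_iff] at m1 m3
          rw [le_max_iff] at m2 m4
          cases a <;> cases c <;> simp only [Bool.false_eq_true, if_true, if_false] at m1 m2 m3 m4
          · exact hac rfl
          · rcases m2 with m2 | m2 <;> linarith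
          · rcases m1 with m1 | m1 <;> linarith
          · exact hac rfl
      · intro h
        right
        by_contra hcon
        push Not at hcon
        have hk : ∃ k : Fin 11, k ≠ i ∧ k ≠ j ∧ min i.val j.val ≤ k.val ∧ k.val ≤ max i.val j.val := by
          refine ⟨⟨min i.val j.val + 1, ?_⟩, ?_, ?_, ?_, ?_⟩
          · have := i.isLt; have := j.isLt; omega
          · intro h; have := congrArg Fin.val h; simp only at this hcon; omega
          · intro h; have := congrArg Fin.val h; simp only at this hcon; omega
          · simp only; omega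
          · simp only; simp only at hcon; omega
        obtain ⟨k, hk1, hk2, hk⟩ := hk
        apply h (a, k) (fun h => hk1 (congrArg Prod.snd h)) (fun h => hk2 (congrArg Prod.snd h))
        rw [P_eq, P_eq, P_eq]
        exact (chain_closed _ _ _ _ _).mpr hk
    · constructor
      · rintro _ ⟨c, k⟩ hw1 hw2 hmem
        have hk := val_le k
        have hk0 := val_nn k
        rw [P_eq, P_eq, P_eq] at hmem
        obtain ⟨m1, m2, m3, m4⟩ := hmem
        rw [min_le_iff] at m1 m3
        rw [le_max_iff] at m2 m4
        have hki : c = a → (k.val : ℝ) = i.val → False := by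
          intro h1 h2
          have : k = i := Fin.ext (by exact_mod_cast h2)
          exact hw1 (by rw [h1, this])
        have hkj : c = b → (k.val : ℝ) = j.val → False := by
          intro h1 h2
          have : k = j := Fin.ext (by exact_mod_cast h2)
          exact hw2 (by rw [h1, this])
        cases a <;> cases b <;> cases c <;>
          simp only [Bool.false_eq_true, if_true, if_false] at m1 m2 m3 m4
        · exact hab rfl
        · exact hab rfl
        · apply hki rfl
          have e1 : (i.val : ℝ) ≤ k.val := by rcases m1 with m | m <;> linarith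
          have e2 : (k.val : ℝ) ≤ i.val := by rcases m3 with m | m <;> linarith
          exact le_antisymm e2 e1
        · apply hkj rfl
          have e1 : (k.val : ℝ) ≤ j.val := by rcases m2 with m | m <;> linarith
          have e2 : (j.val : ℝ) ≤ k.val := by rcases m4 with m | m <;> linarith
          exact le_antisymm e1 e2
        · apply hkj rfl
          have e1 : (j.val : ℝ) ≤ k.val := by rcases m1 with m | m <;> linarith
          have e2 : (k.val : ℝ) ≤ j.val := by rcases m3 with m | m <;> linarith
          exact le_antisymm e2 e1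
        · apply hki rfl
          have e1 : (k.val : ℝ) ≤ i.val := by rcases m2 with m | m <;> linarith
          have e2 : (i.val : ℝ) ≤ k.val := by rcases m4 with m | m <;> linarith
          exact le_antisymm e1 e2
        · exact hab rfl
        · exact hab rfl
      · intro _
        exact Or.inl hab

end SC

end Pool.Agent.X63
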