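import Pool.Agent.X63.ArcDefs

set_option autoImplicit false

namespace Pool.Agent.X63.SA

open Pool.Agent.X63 Real

/-- equal points on rays with the same positive radius and angles in `[0, 2π)` -/
theorem rayPt_inj (r s φ ψ : ℝ) (hr : 0 < r) (hs : 0 < s) (h0 : 0 ≤ φ) (h1 : φ < 2 * π)
    (g0 : 0 ≤ ψ) (g1 : ψ < 2 * π) (h : rayPt r φ = rayPt s ψ) : r = s ∧ φ = ψ := by
  unfold rayPt at h
  have e1 : r * cos φ = s * cos ψ := congrArg Prod.fst h
  have e2 : r * sin φ = s * sin ψ := congrArg Prod.snd h
  have hrs : r ^ 2 = s ^ 2 := by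
    have a1 := Real.sin_sq_add_cos_sq φ
    have a2 := Real.sin_sq_add_cos_sq ψ
    calc r ^ 2 = (r * cos φ) ^ 2 + (r * sin φ) ^ 2 := by
          rw [mul_pow, mul_pow, ← mul_add, add_comm (cos φ ^ 2), a1, mul_one]
      _ = (s * cos ψ) ^ 2 + (s * sin ψ) ^ 2 := by rw [e1, e2]
      _ = s ^ 2 := by rw [mul_pow, mul_pow, ← mul_add, add_comm (cos ψ ^ 2), a2, mul_one]
  have hrs' : r = s := (sq_eq_sq₀ hr.le hs.le).mp hrs
  subst hrs'
  refine ⟨rfl, ?_⟩
  have c1 : cos φ = cos ψ := mul_left_cancel₀ hr.ne' e1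
  have c2 : sin φ = sin ψ := mul_left_cancel₀ hr.ne' e2
  have c3 : cos (φ - ψ) = 1 := by
    rw [Real.cos_sub, c1, c2]
    have := Real.sin_sq_add_cos_sq ψ
    nlinarith
  rw [Real.cos_eq_one_iff] at c3
  obtain ⟨n, hn⟩ := c3
  have hpi := Real.pi_pos
  have hn1 : (n : ℝ) < 1 := by
    by_contra hc
    push Not at hc
    nlinarith
  have hn2 : (-1 : ℝ) < n := by
    by_contra hc
    push Not at hc
    nlinarith
  have hn3 : n = 0 := by
    have a : n < 1 := by exact_mod_cast hn1
    have b : -1 < n := by exact_mod_cast hn2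
    omega
  rw [hn3] at hn
  simp at hn
  linarith

theorem rayPt_neg (s φ : ℝ) : rayPt s φ = rayPt (-s) (φ + π) := by
  unfold rayPt
  rw [Real.cos_add_pi, Real.sin_add_pi]
  simp

section rep

variable (k : ℕ)

/-- threshold index -/
def tau (w : ℕ) : ℕ := if w ≤ k + 1 then k + 1 + w else if w ≤ 2 * k + 2 then w - (k + 2) else w

/-- angular unit -/
noncomputable def del : ℝ := π / (3 * k + 5)

/-- upper angle -/
noncomputable def ang (w : ℕ) : ℝ := (if w ≤ k + 1 then 0 else π) + (tau k w + 1) * del k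

theorem del_pos : 0 < del k := by
  unfold del
  have := Real.pi_pos
  positivity

theorem del_mul : (3 * k + 5) * del k = π := by
  unfold del
  have : (3 * (k : ℝ) + 5) ≠ 0 := by positivity
  field_simp

theorem tau_le (w : ℕ) (hw : w < 3 * k + 4) : tau k w ≤ 3 * k + 3 := by
  unfold tau
  split_ifs <;> omega

theorem tau_del (w : ℕ) (hw : w < 3 * k + 4) : (tau k w + 1) * del k < π := by
  have h1 : ((tau k w : ℕ) : ℝ) ≤ ((3 * k + 3 : ℕ) : ℝ) := by exact_mod_cast tau_le k w hw
  push_cast at h1
  have h2 := del_pos k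
  have h3 := del_mul k
  nlinarith

theorem ang_nonneg (w : ℕ) : 0 ≤ ang k w := by
  unfold ang
  have := del_pos k
  have := Real.pi_pos
  split_ifs <;> positivity

theorem ang_lt (w : ℕ) (hw : w < 3 * k + 4) : ang k w < 2 * π := by
  unfold ang
  have h := tau_del k w hw
  have := Real.pi_pos
  split_ifs <;> linarith

/-- arc is met by the positive ray at time `t` -/
def AP (w t : ℕ) : Prop := k + 2 ≤ w ∨ t ≤ tau k w
/-- arc is met by the negative ray at time `t` -/
def AN (w t : ℕ) : Prop := k + 2 ≤ w ∧ t ≤ tau k w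

/-- arcs of the representation -/
noncomputable def AA (w : Fin (3 * k + 4)) : Set (ℝ × ℝ) := arcSet (w.val + 1) 0 (ang k w.val)

/-- start angle of the window at time `t` -/
noncomputable def lo (t : ℕ) : ℝ := (t + 1 / 4) * del k
/-- end angle of the window at time `t` -/
noncomputable def hi (t : ℕ) : ℝ := (t + 3 / 4) * del k

theorem lo_pos (t : ℕ) : 0 < lo k t := by
  unfold lo
  have := del_pos k
  positivity

theorem lo_hi (t : ℕ) : lo k t < hi k t := by
  unfold lo hi
  have := del_pos k
  nlinarith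

theorem hi_pi (t : ℕ) (ht : t < 3 * k + 4) : hi k t < π := by
  unfold hi
  have h1 : ((t : ℕ) : ℝ) ≤ ((3 * k + 3 : ℕ) : ℝ) := by exact_mod_cast (by omega)
  push_cast at h1
  have h2 := del_pos k
  have h3 := del_mul k
  nlinarith

theorem AP_hi (w t : ℕ) (ht : t < 3 * k + 4) (h : AP k w t) : hi k t ≤ ang k w := by
  have hd := del_pos k
  have hp := hi_pi k t ht
  unfold ang
  by_cases hw : w ≤ k + 1
  · rw [if_pos hw, zero_add]
    rcases h with h | h
    · omega
    · have h' : (t : ℝ) ≤ tau k w := by exact_mod_cast h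
      unfold hi
      nlinarith
  · rw [if_neg hw]
    have : 0 < (tau k w + 1) * del k := by positivity
    linarith

theorem not_AP_lo (w t : ℕ) (h : ¬ AP k w t) : ang k w < lo k t := by
  have hd := del_pos k
  unfold AP at h
  push Not at h
  unfold ang lo
  rw [if_pos (by omega), zero_add]
  have h' : ((tau k w + 1 : ℕ) : ℝ) ≤ t := by exact_mod_cast h.2
  push_cast at h'
  nlinarith

theorem AN_hi (w t : ℕ) (h : AN k w t) : hi k t + π ≤ ang k w := by
  have hd := del_pos k
  unfold ang
  rw [if_neg (by have := h.1; omega)]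
  have h' : (t : ℝ) ≤ tau k w := by exact_mod_cast h.2
  unfold hi
  nlinarith

theorem not_AN_lo (w t : ℕ) (hw : w < 3 * k + 4) (h : ¬ AN k w t) : ang k w < lo k t + π := by
  have hd := del_pos k
  have hp := Real.pi_pos
  unfold ang
  by_cases hw' : w ≤ k + 1
  · rw [if_pos hw', zero_add]
    have := tau_del k w hw
    have := lo_pos k t
    linarith
  · rw [if_neg hw']
    unfold AN at h
    have h2 : ¬ t ≤ tau k w := fun h' => h ⟨by omega, h'⟩
    have h' : ((tau k w + 1 : ℕ) : ℝ) ≤ t := by exact_mod_cast (by omega)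
    push_cast at h'
    unfold lo
    nlinarith

/-- which arcs meet a cone of the window at time `t` -/
theorem meets (w : Fin (3 * k + 4)) (t : ℕ) (ht : t < 3 * k + 4) (s₁ s₂ : ℝ)
    (h : (AA k w ∩ coneSet s₁ s₂ (lo k t) (hi k t)).Nonempty) :
    (AP k w.val t ∧ s₁ ≤ w.val + 1 ∧ (w.val : ℝ) + 1 ≤ s₂) ∨
      (AN k w.val t ∧ s₁ ≤ -(w.val + 1)) := by
  obtain ⟨p, ⟨φ, h0, h1, hp⟩, s, ψ, hs1, hs2, g0, g1, hp'⟩ := h
  have hw : (0 : ℝ) < w.val + 1 := by positivity
  have hpi := Real.pi_pos
  have hlo := lo_pos k t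
  have hhi := hi_pi k t ht
  have hang := ang_lt k w.val w.isLt
  rw [hp] at hp'
  rcases lt_trichotomy s 0 with hs | hs | hs
  · right
    rw [rayPt_neg s ψ] at hp'
    obtain ⟨e1, e2⟩ := rayPt_inj _ _ _ _ hw (by linarith) h0 (by linarith) (by linarith)
      (by linarith) hp'
    constructor
    · by_contra hc
      have := not_AN_lo k w.val t w.isLt hc
      linarith
    · linarith
  · exfalso
    rw [hs] at hp'
    unfold rayPt at hp'
    simp only [zero_mul, Prod.mk.injEq, mul_eq_zero] at hp'
    have a1 := hp'.1.resolve_left hw.ne'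
    have a2 := hp'.2.resolve_left hw.ne'
    have := Real.sin_sq_add_cos_sq φ
    rw [a1, a2] at this
    norm_num at this
  · left
    obtain ⟨e1, e2⟩ := rayPt_inj _ _ _ _ hw hs h0 (by linarith) (by linarith) (by linarith) hp'
    refine ⟨?_, by linarith, by linarith⟩
    by_contra hc
    have := not_AP_lo k w.val t hc
    linarith

theorem side_pos (w : Fin (3 * k + 4)) (t : ℕ) (ht : t < 3 * k + 4) (h : AP k w.val t) :
    coneSet (w.val + 1) (w.val + 1) (lo k t) (hi k t) ⊆ AA k w := by
  rintro p ⟨s, φ, h1, h2, h3, h4, rfl⟩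
  have hs : s = w.val + 1 := le_antisymm h2 h1
  subst hs
  refine ⟨φ, ?_, ?_, rfl⟩
  · have := lo_pos k t; linarith
  · have := AP_hi k w.val t ht h; linarith

theorem side_neg (w : Fin (3 * k + 4)) (t : ℕ) (h : AN k w.val t) :
    coneSet (-(w.val + 1)) (-(w.val + 1)) (lo k t) (hi k t) ⊆ AA k w := by
  rintro p ⟨s, φ, h1, h2, h3, h4, rfl⟩
  have hs : s = -(w.val + 1) := le_antisymm h2 h1
  subst hs
  refine ⟨φ + π, ?_, ?_, ?_⟩
  · have := lo_pos k t; have := Real.pi_pos; linarith
  · have := AN_hi k w.val t h; linarith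
  · rw [rayPt_neg, neg_neg]

/-- visibility along the positive ray -/
theorem vis_pos (u v : Fin (3 * k + 4)) (t : ℕ) (ht : t < 3 * k + 4) (huv : u < v)
    (hu : AP k u.val t) (hv : AP k v.val t)
    (hc : Set.ncard {w : Fin (3 * k + 4) | u < w ∧ w < v} ≤ k) : RadVis (AA k) k u v := by
  have huv' : (u.val : ℝ) < v.val := by exact_mod_cast huv
  have hu0 : (0 : ℝ) < u.val + 1 := by positivity
  have hv0 : (0 : ℝ) < v.val + 1 := by positivity
  refine ⟨u.val + 1, v.val + 1, lo k t, hi k t, hu0.ne', hv0.ne', by linarith, lo_hi k t, ?_, ?_,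
    le_trans (Set.ncard_le_ncard ?_ (Set.toFinite _)) hc⟩
  · have := hi_pi k t ht; have := lo_pos k t; linarith
  · left
    exact ⟨side_pos k u t ht hu, side_pos k v t ht hv⟩
  · rintro w ⟨h1, h2, h3⟩
    rcases meets k w t ht _ _ h3 with ⟨_, h4, h5⟩ | ⟨_, h4⟩
    · have h4' : (u.val : ℝ) ≤ w.val := by linarith
      have h5' : (w.val : ℝ) ≤ v.val := by linarith
      have h4'' : u ≤ w := by exact_mod_cast h4'
      have h5'' : w ≤ v := by exact_mod_cast h5'
      exact ⟨lt_of_le_of_ne h4'' (Ne.symm h1), lt_of_le_of_ne h5'' h2⟩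
    · exfalso
      have : (0 : ℝ) ≤ w.val := by positivity
      linarith

/-- visibility through the origin: `u` on the positive ray, `v` on the negative ray -/
theorem vis_cross (u v : Fin (3 * k + 4)) (t : ℕ) (ht : t < 3 * k + 4)
    (hu : AP k u.val t) (hv : AN k v.val t)
    (hc : Set.ncard {w : Fin (3 * k + 4) | (w < u ∧ AP k w.val t) ∨ (w < v ∧ AN k w.val t)} ≤ k) :
    RadVis (AA k) k u v := by
  have hu0 : (0 : ℝ) < u.val + 1 := by positivity
  have hv0 : -(v.val + 1 : ℝ) < 0 := by
    have : (0 : ℝ) ≤ v.val := by positivity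
    linarith
  refine ⟨-(v.val + 1), u.val + 1, lo k t, hi k t, hv0.ne, hu0.ne', by linarith, lo_hi k t, ?_, ?_,
    le_trans (Set.ncard_le_ncard ?_ (Set.toFinite _)) hc⟩
  · have := hi_pi k t ht; have := lo_pos k t; linarith
  · right
    exact ⟨side_neg k v t hv, side_pos k u t ht hu⟩
  · rintro w ⟨h1, h2, h3⟩
    rcases meets k w t ht _ _ h3 with ⟨h6, h4, h5⟩ | ⟨h6, h4⟩
    · left
      have h5' : (w.val : ℝ) ≤ u.val := by linarith
      have h5'' : w ≤ u := by exact_mod_cast h5'
      exact ⟨lt_of_le_of_ne h5'' h1, h6⟩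
    · right
      have h5' : (w.val : ℝ) ≤ v.val := by linarith
      have h5'' : w ≤ v := by exact_mod_cast h5'
      exact ⟨lt_of_le_of_ne h5'' h2, h6⟩

theorem RadVis.symm' {V : Type} {A : V → Set (ℝ × ℝ)} {k : ℕ} {u v : V} (h : RadVis A k u v) :
    RadVis A k v u := by
  obtain ⟨s₁, s₂, b₁, b₂, h1, h2, h3, h4, h5, h6, h7⟩ := h
  refine ⟨s₁, s₂, b₁, b₂, h1, h2, h3, h4, h5, h6.symm, ?_⟩
  have e : {w : V | w ≠ v ∧ w ≠ u ∧ (A w ∩ coneSet s₁ s₂ b₁ b₂).Nonempty} =
      {w : V | w ≠ u ∧ w ≠ v ∧ (A w ∩ coneSet s₁ s₂ b₁ b₂).Nonempty} := by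
    ext w
    constructor
    · rintro ⟨a, b, c⟩
      exact ⟨b, a, c⟩
    · rintro ⟨a, b, c⟩
      exact ⟨b, a, c⟩
  rw [e]
  exact h7

/-- counting an interval of `Fin` -/
theorem ncard_Ico (n a b c : ℕ) (S : Set (Fin n)) (hS : ∀ w ∈ S, a ≤ w.val ∧ w.val < b)
    (hab : b ≤ a + c) : S.ncard ≤ c := by
  have h1 : S.ncard = (Fin.val '' S).ncard := (Set.ncard_image_of_injective S Fin.val_injective).symm
  rw [h1]
  have h2 : Fin.val '' S ⊆ (Finset.Ico a b : Set ℕ) := by
    rintro x ⟨w, hw, rfl⟩
    simp only [Finset.coe_Ico, Set.mem_Ico]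
    exact hS w hw
  calc (Fin.val '' S).ncard ≤ (Finset.Ico a b : Set ℕ).ncard :=
        Set.ncard_le_ncard h2 (Finset.finite_toSet _)
    _ = b - a := by rw [Set.ncard_coe_finset, Nat.card_Ico]
    _ ≤ c := by omega

theorem vis_lt (u v : Fin (3 * k + 4)) (huv : u < v) : RadVis (AA k) k u v := by
  have huv' : u.val < v.val := huv
  have hvl := v.isLt
  have hAP0 : ∀ w : ℕ, AP k w 0 := fun w => Or.inr (Nat.zero_le _)
  by_cases h1 : v.val ≤ u.val + (k + 1)
  · apply vis_pos k u v 0 (by omega) huv (hAP0 _) (hAP0 _)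
    apply ncard_Ico _ (u.val + 1) v.val
    · intro w hw
      have a1 : u.val < w.val := hw.1
      have a2 : w.val < v.val := hw.2
      omega
    · omega
  by_cases hu : u.val ≤ k + 1
  · by_cases hv : v.val ≤ 2 * k + 2
    · -- case a, b
      have hvB : k + 2 ≤ v.val := by omega
      have htv : tau k v.val = v.val - (k + 2) := by
        unfold tau; rw [if_neg (by omega), if_pos hv]
      have htu : tau k u.val = k + 1 + u.val := by unfold tau; rw [if_pos hu]
      apply vis_cross k u v (v.val - (k + 2)) (by omega)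
      · right; rw [htu]; omega
      · exact ⟨hvB, by rw [htv]⟩
      · apply ncard_Ico _ 0 u.val
        · intro w hw
          refine ⟨Nat.zero_le _, ?_⟩
          rcases hw with hw | hw
          · exact hw.1
          · exfalso
            obtain ⟨a1, a2, a3⟩ := hw
            have a1' : w.val < v.val := a1
            unfold tau at a3
            rw [if_neg (by omega), if_pos (by omega)] at a3
            omega
        · omega
    · -- case a, c
      have htu : tau k u.val = k + 1 + u.val := by unfold tau; rw [if_pos hu]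
      have htv : tau k v.val = v.val := by
        unfold tau; rw [if_neg (by omega), if_neg hv]
      apply vis_cross k u v (k + 1 + u.val) (by omega)
      · right; rw [htu]
      · exact ⟨by omega, by rw [htv]; omega⟩
      · apply ncard_Ico _ (2 * k + 3) v.val
        · intro w hw
          rcases hw with ⟨a1, a2⟩ | ⟨a1, a2, a3⟩
          · exfalso
            have a1' : w.val < u.val := a1
            rcases a2 with a2 | a2
            · omega
            · unfold tau at a2
              rw [if_pos (by omega)] at a2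
              omega
          · have a1' : w.val < v.val := a1
            refine ⟨?_, a1'⟩
            by_contra hc
            unfold tau at a3
            rw [if_neg (by omega), if_pos (by omega)] at a3
            omega
        · omega
  · -- case b, c
    have hvC : ¬ v.val ≤ 2 * k + 2 := by omega
    have htv : tau k v.val = v.val := by
      unfold tau; rw [if_neg (by omega), if_neg hvC]
    have huB : u.val ≤ 2 * k + 2 := by omega
    apply vis_cross k u v v.val (by omega)
    · left; omega
    · exact ⟨by omega, by rw [htv]⟩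
    · apply ncard_Ico _ (k + 2) u.val
      · intro w hw
        rcases hw with ⟨a1, a2⟩ | ⟨a1, a2, a3⟩
        · have a1' : w.val < u.val := a1
          refine ⟨?_, a1'⟩
          rcases a2 with a2 | a2
          · exact a2
          · by_contra hc
            unfold tau at a2
            rw [if_pos (by omega)] at a2
            omega
        · exfalso
          have a1' : w.val < v.val := a1
          unfold tau at a3
          split_ifs at a3 <;> omega
      · omega

end rep

end Pool.Agent.X63.SA
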