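import Pool.Agent.X63.SemiArc

/-!
A general family of semi-arc representations: `n` arcs of radii `1, ..., n`, the first `s` of which
are shorter than half a circle, the ends of the others are beyond the half circle; `τ w` is the
rank of the end of the arc `w` in its half circle.
-/

set_option autoImplicit false

namespace Pool.Agent.X63.SG

open Pool.Agent.X63 Real

section rep

variable (n s N : ℕ) (τ : ℕ → ℕ)

/-- angular unit -/
noncomputable def del : ℝ := π / (N + 1)

/-- upper angle -/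
noncomputable def ang (w : ℕ) : ℝ := (if w < s then 0 else π) + (τ w + 1) * del N

theorem del_pos : 0 < del N := by
  unfold del
  have := Real.pi_pos
  positivity

theorem del_mul : (N + 1) * del N = π := by
  unfold del
  have : ((N : ℝ) + 1) ≠ 0 := by positivity
  field_simp

theorem tau_del (w : ℕ) (hw : τ w < N) : (τ w + 1) * del N < π := by
  have h1 : ((τ w + 1 : ℕ) : ℝ) ≤ (N : ℝ) := by exact_mod_cast hw
  push_cast at h1
  have h2 := del_pos N
  have h3 := del_mul N
  nlinarith

theorem ang_nonneg (w : ℕ) : 0 ≤ ang s N τ w := by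
  unfold ang
  have := del_pos N
  have := Real.pi_pos
  split_ifs <;> positivity

theorem ang_lt (w : ℕ) (hw : τ w < N) : ang s N τ w < 2 * π := by
  unfold ang
  have h := tau_del N τ w hw
  have := Real.pi_pos
  split_ifs <;> linarith

/-- arc is met by the positive ray at time `t` -/
def AP (w t : ℕ) : Prop := s ≤ w ∨ t ≤ τ w
/-- arc is met by the negative ray at time `t` -/
def AN (w t : ℕ) : Prop := s ≤ w ∧ t ≤ τ w

/-- arcs of the representation -/
noncomputable def AA (w : Fin n) : Set (ℝ × ℝ) := arcSet (w.val + 1) 0 (ang s N τ w.val)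

/-- start angle of the window at time `t` -/
noncomputable def lo (t : ℕ) : ℝ := (t + 1 / 4) * del N
/-- end angle of the window at time `t` -/
noncomputable def hi (t : ℕ) : ℝ := (t + 3 / 4) * del N

theorem lo_pos (t : ℕ) : 0 < lo N t := by
  unfold lo
  have := del_pos N
  positivity

theorem lo_hi (t : ℕ) : lo N t < hi N t := by
  unfold lo hi
  have := del_pos N
  nlinarith

theorem hi_pi (t : ℕ) (ht : t < N) : hi N t < π := by
  unfold hi
  have h1 : ((t + 1 : ℕ) : ℝ) ≤ (N : ℝ) := by exact_mod_cast ht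
  push_cast at h1
  have h2 := del_pos N
  have h3 := del_mul N
  nlinarith

theorem AP_hi (w t : ℕ) (ht : t < N) (h : AP s τ w t) : hi N t ≤ ang s N τ w := by
  have hd := del_pos N
  have hp := hi_pi N t ht
  unfold ang
  by_cases hw : w < s
  · rw [if_pos hw, zero_add]
    rcases h with h | h
    · omega
    · have h' : (t : ℝ) ≤ τ w := by exact_mod_cast h
      unfold hi
      nlinarith
  · rw [if_neg hw]
    have : 0 < (τ w + 1) * del N := by positivity
    linarith

theorem not_AP_lo (w t : ℕ) (h : ¬ AP s τ w t) : ang s N τ w < lo N t := by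
  have hd := del_pos N
  unfold AP at h
  push Not at h
  unfold ang lo
  rw [if_pos (by omega), zero_add]
  have h' : ((τ w + 1 : ℕ) : ℝ) ≤ t := by exact_mod_cast h.2
  push_cast at h'
  nlinarith

theorem AN_hi (w t : ℕ) (h : AN s τ w t) : hi N t + π ≤ ang s N τ w := by
  have hd := del_pos N
  unfold ang
  rw [if_neg (by have := h.1; omega)]
  have h' : (t : ℝ) ≤ τ w := by exact_mod_cast h.2
  unfold hi
  nlinarith

theorem not_AN_lo (w t : ℕ) (hw : τ w < N) (h : ¬ AN s τ w t) :
    ang s N τ w < lo N t + π := by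
  have hd := del_pos N
  have hp := Real.pi_pos
  unfold ang
  by_cases hw' : w < s
  · rw [if_pos hw', zero_add]
    have := tau_del N τ w hw
    have := lo_pos N t
    linarith
  · rw [if_neg hw']
    unfold AN at h
    have h2 : ¬ t ≤ τ w := fun h' => h ⟨by omega, h'⟩
    have h' : ((τ w + 1 : ℕ) : ℝ) ≤ t := by exact_mod_cast (by omega)
    push_cast at h'
    unfold lo
    nlinarith

variable {n s N τ}

/-- which arcs meet a cone of the window at time `t` -/
theorem meets (hτ : ∀ w, w < n → τ w < N) (w : Fin n) (t : ℕ) (ht : t < N) (s₁ s₂ : ℝ)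
    (h : (AA n s N τ w ∩ coneSet s₁ s₂ (lo N t) (hi N t)).Nonempty) :
    (AP s τ w.val t ∧ s₁ ≤ w.val + 1 ∧ (w.val : ℝ) + 1 ≤ s₂) ∨
      (AN s τ w.val t ∧ s₁ ≤ -(w.val + 1)) := by
  obtain ⟨p, ⟨φ, h0, h1, hp⟩, σ, ψ, hs1, hs2, g0, g1, hp'⟩ := h
  have hw : (0 : ℝ) < w.val + 1 := by positivity
  have hpi := Real.pi_pos
  have hlo := lo_pos N t
  have hhi := hi_pi N t ht
  have hang := ang_lt s N τ w.val (hτ _ w.isLt)
  rw [hp] at hp'
  rcases lt_trichotomy σ 0 with hs | hs | hs
  · right
    rw [SA.rayPt_neg σ ψ] at hp'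
    obtain ⟨e1, e2⟩ := SA.rayPt_inj _ _ _ _ hw (by linarith) h0 (by linarith) (by linarith)
      (by linarith) hp'
    constructor
    · by_contra hc
      have := not_AN_lo s N τ w.val t (hτ _ w.isLt) hc
      linarith
    · linarith
  · exfalso
    rw [hs] at hp'
    unfold rayPt at hp'
    simp only [zero_mul, Prod.mk.injEq, mul_eq_zero] at hp'
    have a1 := hp'.1.resolve_left hw.ne'
    have a2 := hp'.2.resolve_left hw.ne'
    have := Real.sin_sq_add_cos_sq φ
    rw [a1, a2] at this
    norm_num at this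
  · left
    obtain ⟨e1, e2⟩ := SA.rayPt_inj _ _ _ _ hw hs h0 (by linarith) (by linarith) (by linarith) hp'
    refine ⟨?_, by linarith, by linarith⟩
    by_contra hc
    have := not_AP_lo s N τ w.val t hc
    linarith

theorem side_pos (w : Fin n) (t : ℕ) (ht : t < N) (h : AP s τ w.val t) :
    coneSet (w.val + 1) (w.val + 1) (lo N t) (hi N t) ⊆ AA n s N τ w := by
  rintro p ⟨σ, φ, h1, h2, h3, h4, rfl⟩
  have hs : σ = w.val + 1 := le_antisymm h2 h1
  subst hs
  refine ⟨φ, ?_, ?_, rfl⟩
  · have := lo_pos N t; linarith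
  · have := AP_hi s N τ w.val t ht h; linarith

theorem side_neg (w : Fin n) (t : ℕ) (h : AN s τ w.val t) :
    coneSet (-(w.val + 1)) (-(w.val + 1)) (lo N t) (hi N t) ⊆ AA n s N τ w := by
  rintro p ⟨σ, φ, h1, h2, h3, h4, rfl⟩
  have hs : σ = -(w.val + 1) := le_antisymm h2 h1
  subst hs
  refine ⟨φ + π, ?_, ?_, ?_⟩
  · have := lo_pos N t; have := Real.pi_pos; linarith
  · have := AN_hi s N τ w.val t h; linarith
  · rw [SA.rayPt_neg, neg_neg]

/-- visibility along the positive ray -/
theorem vis_pos (hτ : ∀ w, w < n → τ w < N) (k : ℕ) (u v : Fin n) (t : ℕ) (ht : t < N)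
    (huv : u < v) (hu : AP s τ u.val t) (hv : AP s τ v.val t)
    (hc : Set.ncard {w : Fin n | u < w ∧ w < v} ≤ k) : RadVis (AA n s N τ) k u v := by
  have huv' : (u.val : ℝ) < v.val := by exact_mod_cast huv
  have hu0 : (0 : ℝ) < u.val + 1 := by positivity
  have hv0 : (0 : ℝ) < v.val + 1 := by positivity
  refine ⟨u.val + 1, v.val + 1, lo N t, hi N t, hu0.ne', hv0.ne', by linarith, lo_hi N t, ?_, ?_,
    le_trans (Set.ncard_le_ncard ?_ (Set.toFinite _)) hc⟩
  · have := hi_pi N t ht; have := lo_pos N t; linarith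
  · left
    exact ⟨side_pos u t ht hu, side_pos v t ht hv⟩
  · rintro w ⟨h1, h2, h3⟩
    rcases meets hτ w t ht _ _ h3 with ⟨_, h4, h5⟩ | ⟨_, h4⟩
    · have h4' : (u.val : ℝ) ≤ w.val := by linarith
      have h5' : (w.val : ℝ) ≤ v.val := by linarith
      have h4'' : u ≤ w := by exact_mod_cast h4'
      have h5'' : w ≤ v := by exact_mod_cast h5'
      exact ⟨lt_of_le_of_ne h4'' (Ne.symm h1), lt_of_le_of_ne h5'' h2⟩
    · exfalso
      have : (0 : ℝ) ≤ w.val := by positivity
      linarith

/-- visibility through the origin: `u` on the positive ray, `v` on the negative ray -/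
theorem vis_cross (hτ : ∀ w, w < n → τ w < N) (k : ℕ) (u v : Fin n) (t : ℕ) (ht : t < N)
    (hu : AP s τ u.val t) (hv : AN s τ v.val t)
    (hc : Set.ncard {w : Fin n | (w < u ∧ AP s τ w.val t) ∨ (w < v ∧ AN s τ w.val t)} ≤ k) :
    RadVis (AA n s N τ) k u v := by
  have hu0 : (0 : ℝ) < u.val + 1 := by positivity
  have hv0 : -(v.val + 1 : ℝ) < 0 := by
    have : (0 : ℝ) ≤ v.val := by positivity
    linarith
  refine ⟨-(v.val + 1), u.val + 1, lo N t, hi N t, hv0.ne, hu0.ne', by linarith, lo_hi N t, ?_, ?_,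
    le_trans (Set.ncard_le_ncard ?_ (Set.toFinite _)) hc⟩
  · have := hi_pi N t ht; have := lo_pos N t; linarith
  · right
    exact ⟨side_neg v t hv, side_pos u t ht hu⟩
  · rintro w ⟨h1, h2, h3⟩
    rcases meets hτ w t ht _ _ h3 with ⟨h6, h4, h5⟩ | ⟨h6, h4⟩
    · left
      have h5' : (w.val : ℝ) ≤ u.val := by linarith
      have h5'' : w ≤ u := by exact_mod_cast h5'
      exact ⟨lt_of_le_of_ne h5'' h1, h6⟩
    · right
      have h5' : (w.val : ℝ) ≤ v.val := by linarith
      have h5'' : w ≤ v := by exact_mod_cast h5'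
      exact ⟨lt_of_le_of_ne h5'' h2, h6⟩

/-- the graph of the representation -/
def graph (n s N k : ℕ) (τ : ℕ → ℕ) : SimpleGraph (Fin n) where
  Adj u v := u ≠ v ∧ RadVis (AA n s N τ) k u v
  symm := ⟨fun _ _ h => ⟨h.1.symm, SA.RadVis.symm' h.2⟩⟩
  loopless := ⟨fun _ h => h.1 rfl⟩

theorem graph_semi (hτ : ∀ w, w < n → τ w < N) (k : ℕ) : IsSemiArcVis k (graph n s N k τ) := by
  refine ⟨fun w => w.val + 1, fun w => ang s N τ w.val, fun v => ⟨by positivity,
    ang_nonneg s N τ v.val, ang_lt s N τ v.val (hτ _ v.isLt)⟩, ?_, ?_⟩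
  · intro u v huv
    rw [Set.disjoint_left]
    rintro p ⟨φ, h0, h1, rfl⟩ ⟨ψ, g0, g1, h⟩
    have hu := ang_lt s N τ u.val (hτ _ u.isLt)
    have hv := ang_lt s N τ v.val (hτ _ v.isLt)
    obtain ⟨e, _⟩ := SA.rayPt_inj _ _ _ _ (by positivity) (by positivity) h0
      (lt_of_le_of_lt h1 hu) g0 (lt_of_le_of_lt g1 hv) h
    apply huv
    have e' : (u.val : ℝ) = v.val := by linarith
    exact Fin.ext (by exact_mod_cast e')
  · intro u v huv
    constructor
    · intro h
      exact h.2
    · intro h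
      exact ⟨huv, h⟩

end rep

end Pool.Agent.X63.SG
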