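import Pool.Agent.X63.SemiArc

/-!
The upper bound for the number of edges of semi-arc `k`-visibility graphs.
-/

set_option autoImplicit false

namespace Pool.Agent.X63.SU

open Pool.Agent.X63 Real

/-- normal form of the line through the origin of angle `φ` -/
theorem norm_angle (φ : ℝ) : ∃ α, 0 ≤ α ∧ α < π ∧
    ((∀ s, rayPt s φ = rayPt s α) ∨ (∀ s, rayPt s φ = rayPt (-s) α)) := by
  have hpi := Real.pi_pos
  set m : ℤ := ⌊φ / π⌋ with hm
  have h1 : (m : ℝ) ≤ φ / π := Int.floor_le _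
  have h2 : φ / π < m + 1 := Int.lt_floor_add_one _
  have h1' : (m : ℝ) * π ≤ φ := (le_div_iff₀ hpi).1 h1
  have h2' : φ < (m + 1) * π := (div_lt_iff₀ hpi).1 h2
  refine ⟨φ - m * π, by linarith, by linarith, ?_⟩
  have hφ : φ = (φ - m * π) + m * π := by ring
  have hc : cos φ = (-1) ^ m * cos (φ - m * π) := by
    conv_lhs => rw [hφ]
    exact Real.cos_add_int_mul_pi _ _
  have hs : sin φ = (-1) ^ m * sin (φ - m * π) := by
    conv_lhs => rw [hφ]
    exact Real.sin_add_int_mul_pi _ _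
  rcases Int.even_or_odd m with h | h
  · left
    intro s
    unfold rayPt
    rw [hc, hs, h.neg_one_zpow, one_mul, one_mul]
  · right
    intro s
    unfold rayPt
    rw [hc, hs, h.neg_one_zpow]
    ext <;> ring

section

variable {V : Type} {r b : V → ℝ}

/-- the arcs -/
def arcs (r b : V → ℝ) (w : V) : Set (ℝ × ℝ) := arcSet (r w) 0 (b w)

theorem mem_pos (hr : ∀ v, 0 < r v) (hb : ∀ v, b v < 2 * π) {w : V} {s α : ℝ} (hs : 0 < s)
    (h0 : 0 ≤ α) (h1 : α < 2 * π) : rayPt s α ∈ arcs r b w ↔ r w = s ∧ α ≤ b w := by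
  constructor
  · rintro ⟨φ, g0, g1, h⟩
    obtain ⟨e1, e2⟩ := SA.rayPt_inj _ _ _ _ hs (hr w) h0 h1 g0 (lt_of_le_of_lt g1 (hb w)) h
    exact ⟨e1.symm, by rw [e2]; exact g1⟩
  · rintro ⟨e, h⟩
    exact ⟨α, h0, h, by rw [e]⟩

theorem mem_neg (hr : ∀ v, 0 < r v) (hb : ∀ v, b v < 2 * π) {w : V} {s α : ℝ} (hs : s < 0)
    (h0 : 0 ≤ α) (h1 : α < π) : rayPt s α ∈ arcs r b w ↔ r w = -s ∧ α + π ≤ b w := by
  rw [SA.rayPt_neg]
  exact mem_pos hr hb (by linarith) (by have := Real.pi_pos; linarith) (by linarith)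

/-- what a cone gives -/
theorem of_seg {k : ℕ} [Finite V] (hr : ∀ v, 0 < r v) (hb : ∀ v, b v < 2 * π) {p q : V} {α σ₁ σ₂ : ℝ}
    (h0 : 0 ≤ α) (h1 : α < π) (hσ : σ₁ < σ₂) (n1 : σ₁ ≠ 0) (n2 : σ₂ ≠ 0)
    (hp : rayPt σ₁ α ∈ arcs r b p) (hq : rayPt σ₂ α ∈ arcs r b q)
    (hc : {w : V | w ≠ p ∧ w ≠ q ∧ ∃ σ, σ₁ ≤ σ ∧ σ ≤ σ₂ ∧ rayPt σ α ∈ arcs r b w}.ncard ≤ k) :
    (r p < r q ∧ ∃ a, a ≤ b p ∧ a ≤ b q ∧ {w | r p < r w ∧ r w < r q ∧ a ≤ b w}.ncard ≤ k) ∨
    (r q < r p ∧ ∃ a, a ≤ b p ∧ a ≤ b q ∧ {w | r q < r w ∧ r w < r p ∧ a ≤ b w}.ncard ≤ k) ∨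
    (∃ a, 0 ≤ a ∧ a < π ∧ a + π ≤ b p ∧ a ≤ b q ∧
      {w | w ≠ p ∧ w ≠ q ∧ ((r w < r q ∧ a ≤ b w) ∨ (r w < r p ∧ a + π ≤ b w))}.ncard ≤ k) := by
  have hpi := Real.pi_pos
  rcases lt_or_gt_of_ne n1 with s1 | s1
  · rcases lt_or_gt_of_ne n2 with s2 | s2
    · right; left
      obtain ⟨e1, g1⟩ := (mem_neg hr hb s1 h0 h1).1 hp
      obtain ⟨e2, g2⟩ := (mem_neg hr hb s2 h0 h1).1 hq
      refine ⟨by rw [e1, e2]; linarith, α + π, g1, g2,
        le_trans (Set.ncard_le_ncard ?_ (Set.toFinite _)) hc⟩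
      rintro w ⟨w1, w2, w3⟩
      refine ⟨fun h => ?_, fun h => ?_, -r w, by linarith, by linarith, ?_⟩
      · rw [h] at w2; exact lt_irrefl _ w2
      · rw [h] at w1; exact lt_irrefl _ w1
      · exact (mem_neg hr hb (by have := hr w; linarith) h0 h1).2 ⟨by ring, w3⟩
    · right; right
      obtain ⟨e1, g1⟩ := (mem_neg hr hb s1 h0 h1).1 hp
      obtain ⟨e2, g2⟩ := (mem_pos hr hb s2 h0 (by linarith)).1 hq
      refine ⟨α, h0, h1, g1, g2, le_trans (Set.ncard_le_ncard ?_ (Set.toFinite _)) hc⟩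
      rintro w ⟨w1, w2, w3⟩
      refine ⟨w1, w2, ?_⟩
      rcases w3 with ⟨w3, w4⟩ | ⟨w3, w4⟩
      · refine ⟨r w, by have := hr w; linarith, by linarith, ?_⟩
        exact (mem_pos hr hb (hr w) h0 (by linarith)).2 ⟨rfl, w4⟩
      · refine ⟨-r w, by linarith, by have := hr w; linarith, ?_⟩
        exact (mem_neg hr hb (by have := hr w; linarith) h0 h1).2 ⟨by ring, w4⟩
  · have s2 : 0 < σ₂ := lt_trans s1 hσ
    left
    obtain ⟨e1, g1⟩ := (mem_pos hr hb s1 h0 (by linarith)).1 hp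
    obtain ⟨e2, g2⟩ := (mem_pos hr hb s2 h0 (by linarith)).1 hq
    refine ⟨by rw [e1, e2]; linarith, α, g1, g2,
      le_trans (Set.ncard_le_ncard ?_ (Set.toFinite _)) hc⟩
    rintro w ⟨w1, w2, w3⟩
    refine ⟨fun h => ?_, fun h => ?_, r w, by linarith, by linarith, ?_⟩
    · rw [h] at w1; exact lt_irrefl _ w1
    · rw [h] at w2; exact lt_irrefl _ w2
    · exact (mem_pos hr hb (hr w) h0 (by linarith)).2 ⟨rfl, w3⟩

/-- the relation `visible`, combinatorially: `p`, `q` on one ray, or `p` on the negative ray -/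
def Rel (r b : V → ℝ) (k : ℕ) (p q : V) : Prop :=
  (r p < r q ∧ ∃ a, a ≤ b p ∧ a ≤ b q ∧ {w | r p < r w ∧ r w < r q ∧ a ≤ b w}.ncard ≤ k) ∨
    (∃ a, 0 ≤ a ∧ a < π ∧ a + π ≤ b p ∧ a ≤ b q ∧
      {w | w ≠ p ∧ w ≠ q ∧ ((r w < r q ∧ a ≤ b w) ∨ (r w < r p ∧ a + π ≤ b w))}.ncard ≤ k)

theorem of_seg' {k : ℕ} [Finite V] (hr : ∀ v, 0 < r v) (hb : ∀ v, b v < 2 * π) {p q : V}
    {α σ₁ σ₂ : ℝ} (h0 : 0 ≤ α) (h1 : α < π) (hσ : σ₁ < σ₂) (n1 : σ₁ ≠ 0) (n2 : σ₂ ≠ 0)
    (hp : rayPt σ₁ α ∈ arcs r b p) (hq : rayPt σ₂ α ∈ arcs r b q)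
    (hc : {w : V | w ≠ p ∧ w ≠ q ∧ ∃ σ, σ₁ ≤ σ ∧ σ ≤ σ₂ ∧ rayPt σ α ∈ arcs r b w}.ncard ≤ k) :
    Rel r b k p q ∨ Rel r b k q p := by
  rcases of_seg hr hb h0 h1 hσ n1 n2 hp hq hc with h | ⟨h, a, ha, ha', hc'⟩ | h
  · exact Or.inl (Or.inl h)
  · exact Or.inr (Or.inl ⟨h, a, ha', ha, hc'⟩)
  · exact Or.inl (Or.inr h)

theorem rel_of_vis {k : ℕ} [Finite V] (hr : ∀ v, 0 < r v) (hb : ∀ v, b v < 2 * π) {u v : V}
    (h : RadVis (arcs r b) k u v) : Rel r b k u v ∨ Rel r b k v u := by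
  obtain ⟨s₁, s₂, b₁, b₂, n1, n2, hs, hb12, hbp, hside, hc⟩ := h
  obtain ⟨α, h0, h1, hα⟩ := norm_angle b₁
  have hin : ∀ s, s₁ ≤ s → s ≤ s₂ → rayPt s b₁ ∈ coneSet s₁ s₂ b₁ b₂ :=
    fun s g1 g2 => ⟨s, b₁, g1, g2, le_rfl, hb12.le, rfl⟩
  have hs1 : ∀ s, rayPt s b₁ ∈ coneSet s s b₁ b₂ :=
    fun s => ⟨s, b₁, le_rfl, le_rfl, le_rfl, hb12.le, rfl⟩
  have hswap : {w : V | w ≠ v ∧ w ≠ u ∧ (arcs r b w ∩ coneSet s₁ s₂ b₁ b₂).Nonempty} =
      {w : V | w ≠ u ∧ w ≠ v ∧ (arcs r b w ∩ coneSet s₁ s₂ b₁ b₂).Nonempty} := by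
    ext w
    exact ⟨fun h => ⟨h.2.1, h.1, h.2.2⟩, fun h => ⟨h.2.1, h.1, h.2.2⟩⟩
  -- a general step
  have key : ∀ p q : V, coneSet s₁ s₁ b₁ b₂ ⊆ arcs r b p → coneSet s₂ s₂ b₁ b₂ ⊆ arcs r b q →
      {w : V | w ≠ p ∧ w ≠ q ∧ (arcs r b w ∩ coneSet s₁ s₂ b₁ b₂).Nonempty}.ncard ≤ k →
      Rel r b k p q ∨ Rel r b k q p := by
    intro p q hp hq hc
    rcases hα with hα | hα
    · refine of_seg' hr hb h0 h1 hs n1 n2 (hα s₁ ▸ hp (hs1 _)) (hα s₂ ▸ hq (hs1 _))
        (le_trans (Set.ncard_le_ncard ?_ (Set.toFinite _)) hc)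
      rintro w ⟨w1, w2, σ, g1, g2, g3⟩
      exact ⟨w1, w2, rayPt σ b₁, by rw [hα]; exact g3, hin σ g1 g2⟩
    · refine Or.symm (of_seg' hr hb h0 h1 (neg_lt_neg hs) (neg_ne_zero.2 n2) (neg_ne_zero.2 n1)
        (hα s₂ ▸ hq (hs1 _)) (hα s₁ ▸ hp (hs1 _))
        (le_trans (Set.ncard_le_ncard ?_ (Set.toFinite _)) hc))
      rintro w ⟨w1, w2, σ, g1, g2, g3⟩
      refine ⟨w2, w1, rayPt (-σ) b₁, by rw [hα, neg_neg]; exact g3,
        hin (-σ) (by linarith) (by linarith)⟩
  rcases hside with ⟨g1, g2⟩ | ⟨g1, g2⟩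
  · exact key u v g1 g2 hc
  · exact Or.symm (key v u g1 g2 (by rw [hswap]; exact hc))

end

section count

variable {V : Type} [Fintype V] (r b : V → ℝ) (k : ℕ)

open Finset Classical in
/-- the arcs seen outwards from `u` when `u` ends -/
noncomputable def Out (u : V) : Finset V :=
  univ.filter fun v => r u < r v ∧ b u ≤ b v ∧ {w | r u < r w ∧ r w < r v ∧ b u ≤ b w}.ncard ≤ k

/-- the angle on the other ray when `u` ends -/
noncomputable def opp (u : V) : ℝ := if b u < π then b u + π else b u - π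

open Finset Classical in
/-- the arcs seen inwards on the same ray from `u` when `u` ends -/
noncomputable def In1 (u : V) : Finset V :=
  univ.filter fun v => r v < r u ∧ b u ≤ b v ∧ {w | r v < r w ∧ r w < r u ∧ b u ≤ b w}.ncard ≤ k

open Finset Classical in
/-- the arcs seen through the origin from `u` when `u` ends -/
noncomputable def In2 (u : V) : Finset V :=
  univ.filter fun v => v ≠ u ∧ opp b u ≤ b v ∧
    {w | w ≠ u ∧ w ≠ v ∧ ((r w < r u ∧ b u ≤ b w) ∨ (r w < r v ∧ opp b u ≤ b w))}.ncard ≤ k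

variable {r b k}

theorem rel_charge {p q : V} (hpq : p ≠ q) (hb : ∀ v, b v < 2 * π) (h : Rel r b k p q) :
    (q ∈ Out r b k p ∨ q ∈ In1 r b k p ∨ q ∈ In2 r b k p) ∨
      (p ∈ Out r b k q ∨ p ∈ In1 r b k q ∨ p ∈ In2 r b k q) := by
  classical
  rcases h with ⟨h, a, h1, h2, hc⟩ | ⟨a, h0, hpi, h1, h2, hc⟩
  · rcases le_total (b p) (b q) with hle | hle
    · left; left
      refine Finset.mem_filter.2 ⟨Finset.mem_univ _, h, hle,
        le_trans (Set.ncard_le_ncard ?_ (Set.toFinite _)) hc⟩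
      rintro w ⟨w1, w2, w3⟩
      exact ⟨w1, w2, h1.trans w3⟩
    · right; right; left
      refine Finset.mem_filter.2 ⟨Finset.mem_univ _, h, hle,
        le_trans (Set.ncard_le_ncard ?_ (Set.toFinite _)) hc⟩
      rintro w ⟨w1, w2, w3⟩
      exact ⟨w1, w2, h2.trans w3⟩
  · rcases le_total (b q + π) (b p) with hle | hle
    · -- `q` ends first
      have hq : opp b q = b q + π := by
        unfold opp
        rw [if_pos (by have := hb p; linarith)]
      right; right; right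
      refine Finset.mem_filter.2 ⟨Finset.mem_univ _, hpq, by rw [hq]; exact hle,
        le_trans (Set.ncard_le_ncard ?_ (Set.toFinite _)) hc⟩
      rintro w ⟨w1, w2, w3⟩
      rw [hq] at w3
      refine ⟨w2, w1, ?_⟩
      rcases w3 with ⟨w3, w4⟩ | ⟨w3, w4⟩
      · exact Or.inl ⟨w3, h2.trans w4⟩
      · exact Or.inr ⟨w3, by linarith⟩
    · have hp : opp b p = b p - π := by
        unfold opp
        rw [if_neg (by linarith)]
      left; right; right
      refine Finset.mem_filter.2 ⟨Finset.mem_univ _, hpq.symm, by rw [hp]; linarith,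
        le_trans (Set.ncard_le_ncard ?_ (Set.toFinite _)) hc⟩
      rintro w ⟨w1, w2, w3⟩
      rw [hp] at w3
      refine ⟨w1, w2, ?_⟩
      rcases w3 with ⟨w3, w4⟩ | ⟨w3, w4⟩
      · exact Or.inr ⟨w3, by linarith⟩
      · exact Or.inl ⟨w3, by linarith⟩

open Finset in
theorem card_out (hri : Function.Injective r) (u : V) : (Out r b k u).card ≤ k + 1 := by
  classical
  rcases (Out r b k u).eq_empty_or_nonempty with h | h
  · rw [h, card_empty]; omega
  · obtain ⟨v, hv, hmax⟩ := exists_max_image (Out r b k u) r h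
    have hv' := (mem_filter.1 hv).2
    have h1 : ((Out r b k u).erase v : Set V) ⊆ {w | r u < r w ∧ r w < r v ∧ b u ≤ b w} := by
      intro w hw
      rw [mem_coe, mem_erase] at hw
      have hw' := (mem_filter.1 hw.2).2
      refine ⟨hw'.1, lt_of_le_of_ne (hmax w hw.2) fun e => hw.1 (hri e), hw'.2.1⟩
    have h2 := Set.ncard_le_ncard h1 (Set.toFinite _)
    rw [Set.ncard_coe_finset, card_erase_of_mem hv] at h2
    have h3 := hv'.2.2
    omega

open Finset Classical in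
theorem card_in (hri : Function.Injective r) (u : V) :
    (In1 r b k u ∪ In2 r b k u).card ≤ k + 1 := by
  classical
  rcases (In2 r b k u).eq_empty_or_nonempty with h | h
  · rw [h, union_empty]
    rcases (In1 r b k u).eq_empty_or_nonempty with h' | h'
    · rw [h', card_empty]; omega
    · obtain ⟨v, hv, hmin⟩ := exists_min_image (In1 r b k u) r h'
      have hv' := (mem_filter.1 hv).2
      have h1 : ((In1 r b k u).erase v : Set V) ⊆ {w | r v < r w ∧ r w < r u ∧ b u ≤ b w} := by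
        intro w hw
        rw [mem_coe, mem_erase] at hw
        have hw' := (mem_filter.1 hw.2).2
        refine ⟨lt_of_le_of_ne (hmin w hw.2) fun e => hw.1 (hri e).symm, hw'.1, hw'.2.1⟩
      have h2 := Set.ncard_le_ncard h1 (Set.toFinite _)
      rw [Set.ncard_coe_finset, card_erase_of_mem hv] at h2
      have h3 := hv'.2.2
      omega
  · obtain ⟨v, hv, hmax⟩ := exists_max_image (In2 r b k u) r h
    have hv' := (mem_filter.1 hv).2
    have h1 : ((In1 r b k u ∪ In2 r b k u).erase v : Set V) ⊆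
        {w | w ≠ u ∧ w ≠ v ∧ ((r w < r u ∧ b u ≤ b w) ∨ (r w < r v ∧ opp b u ≤ b w))} := by
      intro w hw
      rw [mem_coe, mem_erase, mem_union] at hw
      rcases hw.2 with hw2 | hw2
      · have hw' := (mem_filter.1 hw2).2
        refine ⟨fun e => ?_, hw.1, Or.inl ⟨hw'.1, hw'.2.1⟩⟩
        rw [e] at hw'
        exact lt_irrefl _ hw'.1
      · have hw' := (mem_filter.1 hw2).2
        exact ⟨hw'.1, hw.1, Or.inr ⟨lt_of_le_of_ne (hmax w hw2) fun e => hw.1 (hri e),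
          hw'.2.1⟩⟩
    have h2 := Set.ncard_le_ncard h1 (Set.toFinite _)
    rw [Set.ncard_coe_finset, card_erase_of_mem (mem_union_right _ hv)] at h2
    have h3 := hv'.2.2
    omega

open Finset in
theorem sum_min (n k : ℕ) (hn : k + 1 ≤ n) :
    2 * ∑ i ∈ range n, min (k + 1) i + (k + 1) * (k + 2) = 2 * (n * (k + 1)) := by
  obtain ⟨m, rfl⟩ : ∃ m, n = (k + 1) + m := ⟨n - (k + 1), by omega⟩
  induction m with
  | zero =>
    rw [add_zero]
    have h1 : ∑ i ∈ range (k + 1), min (k + 1) i = ∑ i ∈ range (k + 1), i := by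
      refine sum_congr rfl fun i hi => ?_
      rw [mem_range] at hi
      omega
    rw [h1]
    have h2 := Finset.sum_range_id_mul_two (k + 1)
    have h3 : k + 1 - 1 = k := by omega
    rw [h3] at h2
    nlinarith
  | succ m ih =>
    have h1 := ih (by omega)
    rw [← add_assoc, sum_range_succ]
    have h2 : min (k + 1) (k + 1 + m) = k + 1 := by omega
    rw [h2]
    nlinarith

open Finset in
/-- sum of the outward degrees -/
theorem sum_out (hri : Function.Injective r) (hn : k + 1 ≤ Fintype.card V) :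
    2 * ∑ u, (Out r b k u).card + (k + 1) * (k + 2) ≤ 2 * (Fintype.card V * (k + 1)) := by
  classical
  let rk : V → ℕ := fun u => (univ.filter fun v => r u < r v).card
  have h1 : ∀ u, (Out r b k u).card ≤ min (k + 1) (rk u) := by
    intro u
    refine le_min (card_out hri u) (card_le_card ?_)
    intro v hv
    exact mem_filter.2 ⟨mem_univ _, (mem_filter.1 hv).2.1⟩
  have hlt : ∀ u v, r u < r v → rk v < rk u := by
    intro u v huv
    apply card_lt_card
    refine ⟨fun w hw => ?_, fun h => ?_⟩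
    · exact mem_filter.2 ⟨mem_univ _, huv.trans (mem_filter.1 hw).2⟩
    · have := (mem_filter.1 (h (mem_filter.2 ⟨mem_univ v, huv⟩))).2
      exact lt_irrefl _ this
  have hinj : Function.Injective rk := by
    intro u v huv
    by_contra hne
    rcases lt_or_gt_of_ne (fun h => hne (hri h)) with h | h
    · have := hlt u v h; omega
    · have := hlt v u h; omega
  have hsub : univ.image rk ⊆ range (Fintype.card V) := by
    intro i hi
    obtain ⟨u, _, rfl⟩ := mem_image.1 hi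
    rw [mem_range]
    calc rk u < (univ : Finset V).card := by
          apply card_lt_card
          refine ⟨subset_univ _, fun h => ?_⟩
          exact lt_irrefl _ (mem_filter.1 (h (mem_univ u))).2
      _ = Fintype.card V := card_univ
  have himg : univ.image rk = range (Fintype.card V) := by
    apply eq_of_subset_of_card_le hsub
    rw [card_image_of_injective _ hinj, card_range, card_univ]
  have h2 : ∑ u, min (k + 1) (rk u) = ∑ i ∈ range (Fintype.card V), min (k + 1) i := by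
    rw [← himg, sum_image fun a _ b _ h => hinj h]
  have h3 := sum_min (Fintype.card V) k hn
  have h4 : ∑ u, (Out r b k u).card ≤ ∑ u, min (k + 1) (rk u) := sum_le_sum fun u _ => h1 u
  omega

open Finset in
/-- **The upper bound.** -/
theorem upper (G : SimpleGraph V) (hG : IsSemiArcVis k G) (hn : k + 1 ≤ Fintype.card V) :
    2 * G.edgeSet.ncard + (k + 1) * (k + 2) ≤ 4 * (Fintype.card V * (k + 1)) := by
  classical
  obtain ⟨r, b, hrb, hdis, hadj⟩ := hG
  have hr : ∀ v, 0 < r v := fun v => (hrb v).1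
  have hb : ∀ v, b v < 2 * π := fun v => (hrb v).2.2
  have hri : Function.Injective r := by
    intro u v huv
    by_contra hne
    have h1 := hdis u v hne
    rw [Set.disjoint_left] at h1
    exact h1 (a := rayPt (r u) 0) ⟨0, le_rfl, (hrb u).2.1, rfl⟩
      ⟨0, le_rfl, (hrb v).2.1, by rw [huv]⟩
  let P : Finset (Σ _ : V, V) := univ.sigma fun u => Out r b k u
  let Q : Finset (Σ _ : V, V) := univ.sigma fun u => In1 r b k u ∪ In2 r b k u
  have hP : P.card = ∑ u, (Out r b k u).card := card_sigma _ _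
  have hQ : Q.card ≤ Fintype.card V * (k + 1) := by
    have h1 : Q.card = ∑ u, (In1 r b k u ∪ In2 r b k u).card := card_sigma _ _
    rw [h1]
    calc ∑ u, (In1 r b k u ∪ In2 r b k u).card ≤ ∑ _u : V, (k + 1) :=
          sum_le_sum fun u _ => card_in hri u
      _ = Fintype.card V * (k + 1) := by simp
  have hsub : G.edgeSet ⊆ ((P ∪ Q).image fun p => s(p.1, p.2) : Set (Sym2 V)) := by
    intro e he
    induction e using Sym2.ind with
    | _ u v =>
      have huv : G.Adj u v := he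
      have hne := huv.ne
      have hch : ∀ x y : V, x ≠ y → Rel r b k x y →
          s(x, y) ∈ ((P ∪ Q).image fun p => s(p.1, p.2) : Set (Sym2 V)) := by
        intro x y hxy hrel
        have hm : ∀ x y : V, (y ∈ Out r b k x ∨ y ∈ In1 r b k x ∨ y ∈ In2 r b k x) →
            s(x, y) ∈ ((P ∪ Q).image fun p => s(p.1, p.2) : Set (Sym2 V)) := by
          intro x y h
          refine mem_coe.2 (mem_image.2 ⟨⟨x, y⟩, ?_, rfl⟩)
          rw [mem_union]
          rcases h with h | h | h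
          · exact Or.inl (mem_sigma.2 ⟨mem_univ _, h⟩)
          · exact Or.inr (mem_sigma.2 ⟨mem_univ _, mem_union_left _ h⟩)
          · exact Or.inr (mem_sigma.2 ⟨mem_univ _, mem_union_right _ h⟩)
        rcases rel_charge hxy hb hrel with h | h
        · exact hm x y h
        · rw [Sym2.eq_swap]
          exact hm y x h
      rcases rel_of_vis hr hb ((hadj u v hne).1 huv) with h | h
      · exact hch u v hne h
      · rw [Sym2.eq_swap]
        exact hch v u hne.symm h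
  have h1 := Set.ncard_le_ncard hsub (Set.toFinite _)
  rw [Set.ncard_coe_finset] at h1
  have h2 := h1.trans card_image_le
  have h3 := h2.trans (card_union_le _ _)
  have h4 := sum_out (b := b) (k := k) hri hn
  omega

end count

end Pool.Agent.X63.SU
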