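import Pool.Agent.X63.SemiUpper

/-!
An improved upper bound for the number of edges of semi-arc `k`-visibility graphs with fewer than
`5 k + 5` vertices.
-/

set_option autoImplicit false

namespace Pool.Agent.X63.SU

open Pool.Agent.X63 Real Finset Classical

variable {V : Type} [Fintype V] {r b : V → ℝ} {k : ℕ}

/-- the arcs seen inwards from `u` when `u` ends -/
noncomputable def In (r b : V → ℝ) (k : ℕ) (u : V) : Finset V := In1 r b k u ∪ In2 r b k u

theorem mem_In {u v : V} : v ∈ In r b k u ↔ v ∈ In1 r b k u ∨ v ∈ In2 r b k u := mem_union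

theorem mem_out {u v : V} : v ∈ Out r b k u ↔
    r u < r v ∧ b u ≤ b v ∧ {w | r u < r w ∧ r w < r v ∧ b u ≤ b w}.ncard ≤ k := by
  unfold Out
  simp only [mem_filter, mem_univ, true_and]

theorem mem_in1 {u v : V} : v ∈ In1 r b k u ↔
    r v < r u ∧ b u ≤ b v ∧ {w | r v < r w ∧ r w < r u ∧ b u ≤ b w}.ncard ≤ k := by
  unfold In1
  simp only [mem_filter, mem_univ, true_and]

theorem mem_in2 {u v : V} : v ∈ In2 r b k u ↔ v ≠ u ∧ opp b u ≤ b v ∧
    {w | w ≠ u ∧ w ≠ v ∧ ((r w < r u ∧ b u ≤ b w) ∨ (r w < r v ∧ opp b u ≤ b w))}.ncard ≤ k := by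
  unfold In2
  simp only [mem_filter, mem_univ, true_and]

/-- counting edges by a covering family of charges -/
theorem edges_le (hb : ∀ v, b v < 2 * π) (G : SimpleGraph V)
    (hadj : ∀ u v, G.Adj u v → Rel r b k u v ∨ Rel r b k v u) (I : V → Finset V)
    (hcov : ∀ u v, v ∈ In r b k u → v ∈ I u ∨ v ∈ Out r b k u ∨ u ∈ Out r b k v ∨ u ∈ I v) :
    G.edgeSet.ncard ≤ ∑ u, (Out r b k u).card + ∑ u, (I u).card := by
  let P : Finset (Σ _ : V, V) := univ.sigma fun u => Out r b k u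
  let Q : Finset (Σ _ : V, V) := univ.sigma fun u => I u
  have hP : P.card = ∑ u, (Out r b k u).card := card_sigma _ _
  have hQ : Q.card = ∑ u, (I u).card := card_sigma _ _
  have hsub : G.edgeSet ⊆ ((P ∪ Q).image fun p => s(p.1, p.2) : Set (Sym2 V)) := by
    intro e he
    induction e using Sym2.ind with
    | _ u v =>
      have huv : G.Adj u v := he
      have hP' : ∀ x y : V, y ∈ Out r b k x →
          s(x, y) ∈ ((P ∪ Q).image fun p => s(p.1, p.2) : Set (Sym2 V)) := fun x y h =>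
        mem_coe.2 (mem_image.2 ⟨⟨x, y⟩, mem_union_left _ (mem_sigma.2 ⟨mem_univ _, h⟩), rfl⟩)
      have hQ' : ∀ x y : V, y ∈ I x →
          s(x, y) ∈ ((P ∪ Q).image fun p => s(p.1, p.2) : Set (Sym2 V)) := fun x y h =>
        mem_coe.2 (mem_image.2 ⟨⟨x, y⟩, mem_union_right _ (mem_sigma.2 ⟨mem_univ _, h⟩), rfl⟩)
      have hm : ∀ x y : V, (y ∈ Out r b k x ∨ y ∈ In1 r b k x ∨ y ∈ In2 r b k x) →
          s(x, y) ∈ ((P ∪ Q).image fun p => s(p.1, p.2) : Set (Sym2 V)) := by
        intro x y h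
        rcases h with h | h
        · exact hP' x y h
        · rcases hcov x y (mem_In.2 h) with h | h | h | h
          · exact hQ' x y h
          · exact hP' x y h
          · rw [Sym2.eq_swap]; exact hP' y x h
          · rw [Sym2.eq_swap]; exact hQ' y x h
      have hch : ∀ x y : V, x ≠ y → Rel r b k x y →
          s(x, y) ∈ ((P ∪ Q).image fun p => s(p.1, p.2) : Set (Sym2 V)) := by
        intro x y hxy hrel
        rcases rel_charge hxy hb hrel with h | h
        · exact hm x y h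
        · rw [Sym2.eq_swap]
          exact hm y x h
      rcases hadj u v huv with h | h
      · exact hch u v huv.ne h
      · rw [Sym2.eq_swap]
        exact hch v u huv.ne.symm h
  have h1 := Set.ncard_le_ncard hsub (Set.toFinite _)
  rw [Set.ncard_coe_finset] at h1
  have h2 := h1.trans card_image_le
  have h3 := h2.trans (card_union_le _ _)
  omega

/-- the pair is also seen on one ray -/
def Bd (r b : V → ℝ) (k : ℕ) (u v : V) : Prop :=
  v ∈ Out r b k u ∨ u ∈ Out r b k v ∨ u ∈ In1 r b k v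

/-- the arcs between -/
noncomputable def btw (r : V → ℝ) (v u : V) : Finset V := univ.filter fun w => r v < r w ∧ r w < r u

theorem key (hri : Function.Injective r) {u v : V} (hl : π ≤ b u)
    (hP : ∀ w, r w < r u → b w < b u) (hv : v ∈ In2 r b k u)
    (hnb : ¬ Bd r b k u v) : r v < r u ∧ opp b u ≤ b v ∧ k + 1 ≤ (btw r v u).card := by
  have hpi := Real.pi_pos
  obtain ⟨h1, h2, h3⟩ := mem_in2.1 hv
  have hopp : opp b u = b u - π := by
    unfold opp
    rw [if_neg (by linarith)]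
  rcases lt_or_gt_of_ne (fun h => h1 (hri h)) with hlt | hgt
  · refine ⟨hlt, h2, ?_⟩
    by_contra hc
    apply hnb
    right; left
    refine mem_out.2 ⟨hlt, (hP v hlt).le, ?_⟩
    have h4 : {w | r v < r w ∧ r w < r u ∧ b v ≤ b w} ⊆ (btw r v u : Set V) := by
      rintro w ⟨w1, w2, _⟩
      exact mem_coe.2 (mem_filter.2 ⟨mem_univ _, w1, w2⟩)
    have h5 := Set.ncard_le_ncard h4 (Set.toFinite _)
    rw [Set.ncard_coe_finset] at h5
    omega
  · exfalso
    apply hnb
    rcases le_or_gt (b u) (b v) with hle | hle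
    · left
      refine mem_out.2 ⟨hgt, hle, le_trans (Set.ncard_le_ncard ?_ (Set.toFinite _)) h3⟩
      rintro w ⟨w1, w2, w3⟩
      refine ⟨fun e => ?_, fun e => ?_, Or.inr ⟨w2, by rw [hopp]; linarith⟩⟩
      · rw [e] at w1; exact lt_irrefl _ w1
      · rw [e] at w2; exact lt_irrefl _ w2
    · right; right
      refine mem_in1.2 ⟨hgt, hle.le, le_trans (Set.ncard_le_ncard ?_ (Set.toFinite _)) h3⟩
      rintro w ⟨w1, w2, w3⟩
      refine ⟨fun e => ?_, fun e => ?_, Or.inr ⟨w2, h2.trans w3⟩⟩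
      · rw [e] at w1; exact lt_irrefl _ w1
      · rw [e] at w2; exact lt_irrefl _ w2

theorem in1_empty {u : V} (hP : ∀ w, r w < r u → b w < b u) : In1 r b k u = ∅ := by
  rw [eq_empty_iff_forall_notMem]
  intro v hv
  obtain ⟨h1, h2, _⟩ := mem_in1.1 hv
  exact absurd (hP v h1) (not_lt.2 h2)

theorem cnt {u : V} {X Y : Finset V} (hYX : Y ⊆ X)
    (hX : ∀ v ∈ X, ∀ w, r v < r w → r w < r u → w ∈ X)
    (hY : ∀ v ∈ Y, r v < r u ∧ k + 1 ≤ (btw r v u).card) (hne : Y.Nonempty) :
    Y.card + (k + 1) ≤ X.card := by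
  obtain ⟨v, hv, hmax⟩ := exists_max_image Y r hne
  have h1 := hY v hv
  have hd : Disjoint Y (btw r v u) := by
    rw [Finset.disjoint_left]
    intro w hw hw'
    exact absurd (hmax w hw) (not_le.2 (mem_filter.1 hw').2.1)
  have hs : Y ∪ btw r v u ⊆ X := by
    intro w hw
    rcases mem_union.1 hw with hw | hw
    · exact hYX hw
    · have hw' := (mem_filter.1 hw).2
      exact hX v (hYX hv) w hw'.1 hw'.2
  have h2 := card_le_card hs
  rw [card_union_of_disjoint hd] at h2
  omega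

/-- bound of a sum with one special vertex -/
theorem sum_one (f : V → ℕ) (hf : ∀ u, f u ≤ k + 1) (u₀ : V) (h0 : f u₀ = 0) :
    ∑ u, f u + (k + 1) ≤ Fintype.card V * (k + 1) := by
  rw [← add_sum_erase univ f (mem_univ u₀), h0, zero_add]
  have h1 : ∑ u ∈ univ.erase u₀, f u ≤ (univ.erase u₀).card * (k + 1) := by
    calc ∑ u ∈ univ.erase u₀, f u ≤ ∑ _u ∈ univ.erase u₀, (k + 1) := sum_le_sum fun u _ => hf u
      _ = (univ.erase u₀).card * (k + 1) := by simp
  rw [card_erase_of_mem (mem_univ _), card_univ] at h1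
  have h2 : 1 ≤ Fintype.card V := Fintype.card_pos_iff.2 ⟨u₀⟩
  obtain ⟨m, hm⟩ : ∃ m, Fintype.card V = m + 1 := ⟨Fintype.card V - 1, by omega⟩
  rw [hm] at h1 ⊢
  have h3 : m + 1 - 1 = m := by omega
  rw [h3] at h1
  nlinarith

/-- bound of a sum with three special vertices -/
theorem sum_three (f : V → ℕ) (hf : ∀ u, f u ≤ k + 1) {u₁ u₂ u₃ : V} (h12 : u₁ ≠ u₂)
    (h13 : u₁ ≠ u₃) (h23 : u₂ ≠ u₃) :
    ∑ u, f u + 3 * (k + 1) ≤ Fintype.card V * (k + 1) + f u₁ + f u₂ + f u₃ := by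
  have e1 := add_sum_erase univ f (mem_univ u₁)
  have m2 : u₂ ∈ univ.erase u₁ := mem_erase.2 ⟨h12.symm, mem_univ _⟩
  have e2 := add_sum_erase (univ.erase u₁) f m2
  have m3 : u₃ ∈ (univ.erase u₁).erase u₂ :=
    mem_erase.2 ⟨h23.symm, mem_erase.2 ⟨h13.symm, mem_univ _⟩⟩
  have e3 := add_sum_erase ((univ.erase u₁).erase u₂) f m3
  have h1 : ∑ u ∈ ((univ.erase u₁).erase u₂).erase u₃, f u ≤
      (((univ.erase u₁).erase u₂).erase u₃).card * (k + 1) := by
    calc ∑ u ∈ ((univ.erase u₁).erase u₂).erase u₃, f u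
        ≤ ∑ _u ∈ ((univ.erase u₁).erase u₂).erase u₃, (k + 1) := sum_le_sum fun u _ => hf u
      _ = (((univ.erase u₁).erase u₂).erase u₃).card * (k + 1) := by simp
  have c1 : (univ.erase u₁).card + 1 = Fintype.card V := by
    rw [card_erase_add_one (mem_univ _), card_univ]
  have c2 := card_erase_add_one m2
  have c3 := card_erase_add_one m3
  obtain ⟨m, hm⟩ : ∃ m, (((univ.erase u₁).erase u₂).erase u₃).card = m := ⟨_, rfl⟩
  have hV : Fintype.card V = m + 3 := by omega
  rw [hm] at h1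
  rw [hV]
  nlinarith

end Pool.Agent.X63.SU
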