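import Pool.Agent.X63.PlaneDefs

/-!
A straight-line drawing with natural number coordinates, checked pairwise, gives a plane drawing.
-/

set_option autoImplicit false

namespace Pool.Agent.X63

/-- twice the signed area -/
def area (p q r : ℝ × ℝ) : ℝ := (q.1 - p.1) * (r.2 - p.2) - (q.2 - p.2) * (r.1 - p.1)

/-- counterclockwise test in natural numbers -/
def posN (a b c : ℕ × ℕ) : Bool :=
  Nat.blt (a.2 * b.1 + b.2 * c.1 + c.2 * a.1) (a.1 * b.2 + b.1 * c.2 + c.1 * a.2)

/-- non collinear test -/
def ncN (a b c : ℕ × ℕ) : Bool := posN a b c || posN b a c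

/-- separation test for two segments `ab` and `cd` -/
def sepN (a b c d : ℕ × ℕ) : Bool :=
  (posN a b c && posN a b d) || (posN b a c && posN b a d) ||
  (posN c d a && posN c d b) || (posN d c a && posN d c b)

/-- embedding of integer points -/
def toR (a : ℕ × ℕ) : ℝ × ℝ := ((a.1 : ℝ), (a.2 : ℝ))

theorem posN_area (a b c : ℕ × ℕ) (h : posN a b c = true) : 0 < area (toR a) (toR b) (toR c) := by
  unfold posN at h
  rw [Nat.blt_eq] at h
  have h' : ((a.2 * b.1 + b.2 * c.1 + c.2 * a.1 : ℕ) : ℝ) < ((a.1 * b.2 + b.1 * c.2 + c.1 * a.2 : ℕ) : ℝ) := by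
    exact_mod_cast h
  push_cast at h'
  unfold area toR
  simp only
  linarith

theorem posN_area' (a b c : ℕ × ℕ) (h : posN b a c = true) : area (toR a) (toR b) (toR c) < 0 := by
  have := posN_area b a c h
  unfold area at *
  linarith

theorem ncN_area (a b c : ℕ × ℕ) (h : ncN a b c = true) : area (toR a) (toR b) (toR c) ≠ 0 := by
  unfold ncN at h
  rcases (Bool.or_eq_true _ _).mp h with h | h
  · exact (posN_area a b c h).ne'
  · exact (posN_area' a b c h).ne

theorem area_line (p q : ℝ × ℝ) (s : ℝ) : area p q (p + s • (q - p)) = 0 := by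
  unfold area
  simp only [Prod.fst_add, Prod.snd_add, Prod.smul_fst, Prod.smul_snd, Prod.fst_sub, Prod.snd_sub,
    smul_eq_mul]
  ring

theorem area_conv (p q c d : ℝ × ℝ) (t : ℝ) :
    area p q (c + t • (d - c)) = (1 - t) * area p q c + t * area p q d := by
  unfold area
  simp only [Prod.fst_add, Prod.snd_add, Prod.smul_fst, Prod.smul_snd, Prod.fst_sub, Prod.snd_sub,
    smul_eq_mul]
  ring

theorem sep_disj (a b c d : ℕ × ℕ) (h : sepN a b c d = true) (s t : ℝ) (hs0 : 0 ≤ s) (hs1 : s ≤ 1)
    (ht0 : 0 ≤ t) (ht1 : t ≤ 1) :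
    toR a + s • (toR b - toR a) ≠ toR c + t • (toR d - toR c) := by
  intro e
  have h1 : area (toR a) (toR b) (toR c + t • (toR d - toR c)) = 0 := by
    rw [← e]; exact area_line _ _ _
  have h2 : area (toR c) (toR d) (toR a + s • (toR b - toR a)) = 0 := by
    rw [e]; exact area_line _ _ _
  rw [area_conv] at h1 h2
  unfold sepN at h
  simp only [Bool.or_eq_true, Bool.and_eq_true] at h
  rcases h with ((⟨x, y⟩ | ⟨x, y⟩) | ⟨x, y⟩) | ⟨x, y⟩
  · have hx := posN_area _ _ _ x
    have hy := posN_area _ _ _ y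
    nlinarith [mul_nonneg ht0 hy.le, mul_nonneg (sub_nonneg.mpr ht1) hx.le]
  · have hx := posN_area' _ _ _ x
    have hy := posN_area' _ _ _ y
    nlinarith [mul_nonneg ht0 (neg_pos.mpr hy).le, mul_nonneg (sub_nonneg.mpr ht1) (neg_pos.mpr hx).le]
  · have hx := posN_area _ _ _ x
    have hy := posN_area _ _ _ y
    nlinarith [mul_nonneg hs0 hy.le, mul_nonneg (sub_nonneg.mpr hs1) hx.le]
  · have hx := posN_area' _ _ _ x
    have hy := posN_area' _ _ _ y
    nlinarith [mul_nonneg hs0 (neg_pos.mpr hy).le, mul_nonneg (sub_nonneg.mpr hs1) (neg_pos.mpr hx).le]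

/-- segments from a common point in non-parallel directions meet only there -/
theorem fan_disj (a b c : ℝ × ℝ) (h : area a b c ≠ 0) (s t : ℝ) (hs0 : 0 < s) :
    a + s • (b - a) ≠ a + t • (c - a) := by
  intro e
  have h1 : area a c (a + s • (b - a)) = 0 := by
    rw [e]; exact area_line _ _ _
  rw [area_conv] at h1
  have h2 : area a c a = 0 := by unfold area; ring
  have h3 : area a c b = - area a b c := by unfold area; ring
  rw [h2, h3, mul_zero, zero_add, mul_neg, neg_eq_zero, mul_eq_zero] at h1
  rcases h1 with h1 | h1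
  · exact hs0.ne' h1
  · exact h h1

/-- straight path -/
noncomputable def spath (a b : ℝ × ℝ) : Path a b where
  toFun t := a + (t : ℝ) • (b - a)
  continuous_toFun := by fun_prop
  source' := by simp
  target' := by simp

theorem spath_apply (a b : ℝ × ℝ) (t : unitInterval) : spath a b t = a + (t : ℝ) • (b - a) := rfl

theorem rev_eq (a b : ℝ × ℝ) (t : ℝ) : a + t • (b - a) = b + (1 - t) • (a - b) := by
  module

/-- Straight line drawings are plane drawings. -/
theorem planar_of_straight {V : Type} (G : SimpleGraph V) (P : V → ℕ × ℕ)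
    (hinj : Function.Injective P)
    (hnc : ∀ u v w, G.Adj u v → w ≠ u → w ≠ v → ncN (P u) (P v) (P w) = true)
    (hsep : ∀ u v x y, G.Adj u v → G.Adj x y → x ≠ u → x ≠ v → y ≠ u → y ≠ v →
      sepN (P u) (P v) (P x) (P y) = true) : IsPlanar G := by
  have hR : Function.Injective toR := by
    intro a b h
    unfold toR at h
    have h1 := congrArg Prod.fst h
    have h2 := congrArg Prod.snd h
    simp only [Nat.cast_inj] at h1 h2
    exact Prod.ext h1 h2
  refine ⟨fun v => toR (P v), fun a b h => hinj (hR h), fun u v => spath _ _, ?_, ?_, ?_⟩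
  · intro u v huv s t hst
    rw [spath_apply, spath_apply, add_right_inj] at hst
    have hne : toR (P v) - toR (P u) ≠ 0 := by
      rw [sub_ne_zero]
      intro h
      exact huv.ne (hinj (hR h)).symm
    exact Subtype.ext (smul_left_injective ℝ hne hst)
  · intro u v w huv t h0 h1 e
    rw [spath_apply] at e
    have hne : toR (P v) - toR (P u) ≠ 0 := by
      rw [sub_ne_zero]
      intro h
      exact huv.ne (hinj (hR h)).symm
    by_cases hwu : w = u
    · subst hwu
      have : (t : ℝ) • (toR (P v) - toR (P w)) = 0 := by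
        have := add_eq_left.mp e
        exact this
      rcases smul_eq_zero.mp this with h | h
      · exact h0.ne' h
      · exact hne h
    by_cases hwv : w = v
    · subst hwv
      rw [rev_eq] at e
      have : (1 - (t : ℝ)) • (toR (P u) - toR (P w)) = 0 := add_eq_left.mp e
      rcases smul_eq_zero.mp this with h | h
      · linarith
      · apply hne; rw [sub_eq_zero] at h ⊢; exact h.symm
    · have h := ncN_area _ _ _ (hnc u v w huv hwu hwv)
      apply h
      have e' : toR (P w) = toR (P u) + (t : ℝ) • (toR (P v) - toR (P u)) := e.symm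
      rw [e']
      exact area_line _ _ _
  · intro u v x y huv hxy h1 h2 s t hs0 hs1 e
    rw [spath_apply, spath_apply] at e
    have hs1' : 0 < 1 - (s : ℝ) := by linarith
    by_cases hxu : x = u
    · subst hxu
      have hyv : y ≠ v := fun h => h1 ⟨rfl, h⟩
      exact fan_disj _ _ _ (ncN_area _ _ _ (hnc x v y huv hxy.ne' hyv)) _ _ hs0 e
    by_cases hxv : x = v
    · subst hxv
      have hyu : y ≠ u := fun h => h2 ⟨rfl, h⟩
      rw [rev_eq] at e
      exact fan_disj _ _ _ (ncN_area _ _ _ (hnc x u y huv.symm hxy.ne' hyu)) _ _ hs1' e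
    by_cases hyu : y = u
    · subst hyu
      rw [rev_eq (toR (P x))] at e
      exact fan_disj _ _ _ (ncN_area _ _ _ (hnc y v x huv hxu hxv)) _ _ hs0 e
    by_cases hyv : y = v
    · subst hyv
      rw [rev_eq (toR (P x)), rev_eq (toR (P u))] at e
      exact fan_disj _ _ _ (ncN_area _ _ _ (hnc y u x huv.symm hxv hxu)) _ _ hs1' e
    · exact sep_disj _ _ _ _ (hsep u v x y huv hxy hxu hxv hyu hyv) _ _ s.2.1 s.2.2 t.2.1 t.2.2 e

end Pool.Agent.X63
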