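import Mathlib

/-!
Tree-breadth and strong tree-breadth: definitions and general lemmas.
-/

namespace X63.TB

open SimpleGraph

/-- the disk of radius `r` centred at `v`. -/
def disk {V : Type} (G : SimpleGraph V) (v : V) (r : ℕ) : Set V := {u | G.dist u v ≤ r}

/-- `(T, B)` is a tree-decomposition of `G`. -/
structure IsTreeDecomp {V ι : Type} (G : SimpleGraph V) (T : SimpleGraph ι) (B : ι → Set V) :
    Prop where
  isTree : T.IsTree
  vertex : ∀ v, ∃ t, v ∈ B t
  edge : ∀ u v, G.Adj u v → ∃ t, u ∈ B t ∧ v ∈ B t
  conn : ∀ v, (T.induce {t | v ∈ B t}).Connected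

/-- the tree-breadth. -/
noncomputable def tb {V : Type} (G : SimpleGraph V) : ℕ :=
  sInf {r : ℕ | ∃ (ι : Type) (_ : Finite ι) (T : SimpleGraph ι) (B : ι → Set V),
    IsTreeDecomp G T B ∧ ∀ t, ∃ v : V, B t ⊆ disk G v r}

/-- the strong tree-breadth. -/
noncomputable def stb {V : Type} (G : SimpleGraph V) : ℕ :=
  sInf {r : ℕ | ∃ (ι : Type) (_ : Finite ι) (T : SimpleGraph ι) (B : ι → Set V),
    IsTreeDecomp G T B ∧ ∀ t, ∃ v ∈ B t, B t = disk G v r}

/-! ### Helly property -/

theorem walk_in' {ι : Type} {T : SimpleGraph ι} {A : Set ι} :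
    ∀ {a b : A}, (T.induce A).Walk a b → ∃ p : T.Walk a.1 b.1, ∀ x ∈ p.support, x ∈ A := by
  intro a b q
  induction q with
  | @nil u =>
    refine ⟨Walk.nil, ?_⟩
    intro x hx
    simp only [Walk.support_nil, List.mem_singleton] at hx
    rw [hx]
    exact u.2
  | @cons u v w h q ih =>
    obtain ⟨p, hp⟩ := ih
    have h' : T.Adj u.1 v.1 := h
    refine ⟨Walk.cons h' p, ?_⟩
    intro x hx
    rw [Walk.support_cons, List.mem_cons] at hx
    rcases hx with rfl | hx
    · exact u.2
    · exact hp x hx

theorem walk_in {ι : Type} {T : SimpleGraph ι} {A : Set ι} (hA : (T.induce A).Preconnected)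
    {a b : ι} (ha : a ∈ A) (hb : b ∈ A) : ∃ p : T.Walk a b, ∀ x ∈ p.support, x ∈ A := by
  obtain ⟨q⟩ := hA ⟨a, ha⟩ ⟨b, hb⟩
  exact walk_in' q

theorem helly3 {ι : Type} {T : SimpleGraph ι} (hT : T.IsAcyclic) {A B C : Set ι}
    (hA : (T.induce A).Preconnected) (hB : (T.induce B).Preconnected)
    (hC : (T.induce C).Preconnected) {a b c : ι}
    (haA : a ∈ A) (haB : a ∈ B) (hbB : b ∈ B) (hbC : b ∈ C) (hcC : c ∈ C) (hcA : c ∈ A) :
    ∃ t, t ∈ A ∧ t ∈ B ∧ t ∈ C := by
  classical
  obtain ⟨q, hq⟩ := walk_in hA haA hcA
  obtain ⟨w, hw⟩ := walk_in hC hcC hbC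
  obtain ⟨p, hp⟩ := walk_in hB haB hbB
  have huniq : p.toPath = (q.append w).toPath := (hT.subsingleton_path _ _).elim _ _
  set P := (p.toPath : T.Walk a b) with hP
  have hPB : ∀ x ∈ P.support, x ∈ B := fun x hx => hp x (Walk.support_toPath_subset_support p hx)
  have hPe : P.edges ⊆ (q.append w).edges := by
    rw [hP, huniq]
    exact Walk.edges_toPath_subset_edges _
  by_cases hbA : b ∈ A
  · exact ⟨b, hbA, hbB, hbC⟩
  obtain ⟨d, hd, hdA, hdA'⟩ := P.exists_boundary_dart A haA hbA
  have he : d.edge ∈ P.edges := List.mem_map_of_mem hd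
  have he' := hPe he
  rw [Walk.edges_append, List.mem_append] at he'
  have hed : d.edge = s(d.fst, d.snd) := rfl
  rcases he' with h | h
  · exfalso
    rw [hed] at h
    exact hdA' (hq _ (q.snd_mem_support_of_mem_edges h))
  · rw [hed] at h
    have h1 := hw _ (w.fst_mem_support_of_mem_edges h)
    exact ⟨d.fst, hdA, hPB _ (P.dart_fst_mem_support_of_mem_darts hd), h1⟩

/-! ### Lipschitz functions -/

theorem lip_dist {V : Type} {G : SimpleGraph V} (hG : G.Connected) (f : V → ℤ)
    (hf : ∀ a b, G.Adj a b → f b ≤ f a + 1) (u v : V) : f v ≤ f u + G.dist u v := by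
  obtain ⟨p, hp⟩ := hG.exists_walk_length_eq_dist u v
  rw [← hp]
  clear hp
  induction p with
  | nil => simp
  | @cons a b c h q ih =>
    have := hf a b h
    rw [Walk.length_cons]
    push_cast
    linarith

/-! ### Trees given by a parent function -/

/-- the graph of a parent function. -/
def parGraph {V : Type} (par : V → V) : SimpleGraph V where
  Adj u v := u ≠ v ∧ (par u = v ∨ par v = u)
  symm := ⟨fun _ _ h => ⟨h.1.symm, h.2.symm⟩⟩
  loopless := ⟨fun _ h => h.1 rfl⟩

theorem parGraph_isTree {V : Type} [Finite V] (par : V → V) (rk : V → ℕ) (root : V)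
    (hroot : par root = root) (hrk : ∀ v, v ≠ root → rk (par v) < rk v) :
    (parGraph par).IsTree := by
  classical
  rw [isTree_iff_connected_and_card]
  constructor
  · have : Nonempty V := ⟨root⟩
    have key : ∀ n : ℕ, ∀ v, rk v ≤ n → (parGraph par).Reachable root v := by
      intro n
      induction n with
      | zero =>
        intro v hv
        by_cases h : v = root
        · subst h
          exact Reachable.refl _
        · have := hrk v h
          omega
      | succ n ih =>
        intro v hv
        by_cases h : v = root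
        · subst h
          exact Reachable.refl _
        · have h1 := hrk v h
          refine (ih (par v) (by omega)).trans (Adj.reachable ?_)
          refine ⟨?_, Or.inr rfl⟩
          intro h2
          rw [h2] at h1
          omega
    refine SimpleGraph.Connected.mk ?_
    intro u v
    exact (key _ u le_rfl).symm.trans (key _ v le_rfl)
  · -- edges are in bijection with the non-root vertices
    have hne : ∀ v, v ≠ root → v ≠ par v := by
      intro v hv h
      have := hrk v hv
      rw [← h] at this
      omega
    let g : {v : V // v ≠ root} → (parGraph par).edgeSet := fun v =>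
      ⟨s(v.1, par v.1), ⟨hne v.1 v.2, Or.inl rfl⟩⟩
    have hbij : Function.Bijective g := by
      constructor
      · rintro ⟨v, hv⟩ ⟨w, hw⟩ h
        have h1 : s(v, par v) = s(w, par w) := congrArg Subtype.val h
        rw [Sym2.eq_iff] at h1
        rcases h1 with ⟨h1, -⟩ | ⟨h1, h2⟩
        · exact Subtype.ext h1
        · exfalso
          have h3 := hrk v hv
          have h4 := hrk w hw
          rw [h2] at h3
          rw [← h1] at h4
          omega
      · rintro ⟨e, he⟩
        induction e using Sym2.ind with
        | _ u v =>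
          have he' : u ≠ v ∧ (par u = v ∨ par v = u) := he
          obtain ⟨h1, h2⟩ := he'
          rcases h2 with h2 | h2
          · refine ⟨⟨u, ?_⟩, ?_⟩
            · rintro rfl
              rw [hroot] at h2
              exact h1 h2
            · apply Subtype.ext
              show s(u, par u) = s(u, v)
              rw [h2]
          · refine ⟨⟨v, ?_⟩, ?_⟩
            · rintro rfl
              rw [hroot] at h2
              exact h1 h2.symm
            · apply Subtype.ext
              show s(v, par v) = s(u, v)
              rw [h2]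
              exact Sym2.eq_swap
    have h1 : Nat.card {v : V // v ≠ root} = Nat.card (parGraph par).edgeSet :=
      Nat.card_eq_of_bijective g hbij
    rw [← h1]
    have := Fintype.ofFinite V
    rw [Nat.card_eq_fintype_card, Nat.card_eq_fintype_card]
    have h2 := Fintype.card_subtype_compl (fun v : V => v = root)
    have h3 : Fintype.card {v : V // v = root} = 1 := Fintype.card_subtype_eq root
    have h4 : 0 < Fintype.card V := Fintype.card_pos_iff.mpr ⟨root⟩
    rw [h3] at h2
    have h5 : Fintype.card {v : V // v ≠ root} = Fintype.card V - 1 := by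
      convert! h2
    omega

/-- a set all of whose elements are adjacent (or equal) to one of its elements is connected. -/
theorem star_connected {ι : Type} {T : SimpleGraph ι} {A : Set ι} (s : ι) (hs : s ∈ A)
    (h : ∀ t ∈ A, t = s ∨ T.Adj s t) : (T.induce A).Connected := by
  have : Nonempty A := ⟨⟨s, hs⟩⟩
  have key : ∀ t : A, (T.induce A).Reachable ⟨s, hs⟩ t := by
    rintro ⟨t, ht⟩
    rcases h t ht with rfl | h1
    · exact Reachable.refl _
    · exact Adj.reachable h1
  refine SimpleGraph.Connected.mk ?_
  intro u v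
  exact (key u).symm.trans (key v)

/-! ### A finite connected graph has some strong decomposition -/

theorem exists_strong {V : Type} [Finite V] (G : SimpleGraph V) (hG : G.Connected) :
    ∃ r : ℕ, ∃ (ι : Type) (_ : Finite ι) (T : SimpleGraph ι) (B : ι → Set V),
      IsTreeDecomp G T B ∧ ∀ t, ∃ v ∈ B t, B t = disk G v r := by
  obtain ⟨v⟩ := hG.nonempty
  obtain ⟨r, hr⟩ := (Set.finite_range (fun u => G.dist u v)).bddAbove
  have hall : disk G v r = Set.univ := by
    ext u
    simp only [Set.mem_univ, iff_true]
    exact hr ⟨u, rfl⟩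
  refine ⟨r, Unit, inferInstance, ⊥, fun _ => Set.univ, ⟨?_, ?_, ?_, ?_⟩, ?_⟩
  · exact IsTree.of_subsingleton
  · exact fun v => ⟨(), Set.mem_univ v⟩
  · exact fun u v _ => ⟨(), Set.mem_univ _, Set.mem_univ _⟩
  · intro u
    exact star_connected () (Set.mem_univ u) (fun t _ => Or.inl rfl)
  · intro t
    exact ⟨v, Set.mem_univ v, hall.symm⟩

end X63.TB
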