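import Pool.Agent.X63.TBDefs

/-!
The graph: a rooted tree in which every inner vertex has six children, and for every inner vertex
`z` and all `i, j` a path with `L + 1` vertices whose first vertex is joined to the children
`z i` and `z j`.
-/

namespace X63.TB

open SimpleGraph

abbrev TV (D : ℕ) : Type := {l : List (Fin 6) // l.length ≤ D}
abbrev IV (D : ℕ) : Type := {l : List (Fin 6) // l.length < D}
abbrev Vx (D L : ℕ) : Type := TV D ⊕ (IV D × Fin 6 × Fin 6 × Fin (L + 1))

instance (D : ℕ) : Finite (TV D) := (List.finite_length_le (Fin 6) D).to_subtype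
instance (D : ℕ) : Finite (IV D) := (List.finite_length_lt (Fin 6) D).to_subtype

/-- an inner vertex as a vertex. -/
def up {D : ℕ} (z : IV D) : TV D := ⟨z.1, z.2.le⟩
/-- the child with label `i`. -/
def ch {D : ℕ} (z : IV D) (i : Fin 6) : TV D := ⟨i :: z.1, by simpa using z.2⟩

abbrev tv {D L : ℕ} (w : TV D) : Vx D L := Sum.inl w
abbrev hv {D L : ℕ} (z : IV D) (i j : Fin 6) (h : Fin (L + 1)) : Vx D L := Sum.inr (z, i, j, h)

/-- one direction of the adjacency. -/
def R (D L : ℕ) : Vx D L → Vx D L → Prop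
  | Sum.inl u, Sum.inl w => ∃ (z : IV D) (a : Fin 6), u = up z ∧ w = ch z a
  | Sum.inr (z, i, j, h), Sum.inl w => h.val = 0 ∧ (w = ch z i ∨ w = ch z j)
  | Sum.inr (z, i, j, h), Sum.inr (z', i', j', h') => z = z' ∧ i = i' ∧ j = j' ∧
      h'.val = h.val + 1
  | Sum.inl _, Sum.inr _ => False

theorem R_irrefl (D L : ℕ) (v : Vx D L) : ¬ R D L v v := by
  rcases v with w | ⟨z, i, j, h⟩
  · rintro ⟨z, a, h1, h2⟩
    have := congrArg (fun l => l.1.length) (h1.symm.trans h2)
    simp [up, ch] at this
  · rintro ⟨-, -, -, h⟩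
    omega

/-- the graph. -/
def G (D L : ℕ) : SimpleGraph (Vx D L) where
  Adj u v := R D L u v ∨ R D L v u
  symm := ⟨fun _ _ h => h.symm⟩
  loopless := ⟨fun v h => by
    rcases h with h | h
    · exact R_irrefl D L v h
    · exact R_irrefl D L v h⟩

theorem adj_ch {D L : ℕ} (z : IV D) (a : Fin 6) : (G D L).Adj (tv (up z)) (tv (ch z a)) :=
  Or.inl ⟨z, a, rfl, rfl⟩

theorem adj_pair {D L : ℕ} (z : IV D) (i j a : Fin 6) (ha : a = i ∨ a = j) (h : Fin (L + 1))
    (hh : h.val = 0) : (G D L).Adj (hv z i j h) (tv (ch z a)) := by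
  refine Or.inl ⟨hh, ?_⟩
  rcases ha with rfl | rfl
  · exact Or.inl rfl
  · exact Or.inr rfl

theorem adj_hair {D L : ℕ} (z : IV D) (i j : Fin 6) (h h' : Fin (L + 1))
    (hh : h'.val = h.val + 1) : (G D L).Adj (hv z i j h) (hv z i j h') :=
  Or.inl ⟨rfl, rfl, rfl, hh⟩

theorem reach_tv {D L : ℕ} : ∀ (l : List (Fin 6)) (hl : l.length ≤ D),
    (G D L).Reachable (tv ⟨[], by simp⟩) (tv ⟨l, hl⟩) := by
  intro l
  induction l with
  | nil => intro _; exact Reachable.refl _
  | cons a l ih =>
    intro hl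
    have h1 : l.length < D := by simpa using hl
    exact (ih h1.le).trans (Adj.reachable (adj_ch (⟨l, h1⟩ : IV D) a))

theorem reach_hv {D L : ℕ} (z : IV D) (i j : Fin 6) : ∀ (h : ℕ) (hh : h < L + 1),
    (G D L).Reachable (tv ⟨[], by simp⟩) (hv z i j ⟨h, hh⟩) := by
  intro h
  induction h with
  | zero =>
    intro hh
    exact (reach_tv (ch z i).1 (ch z i).2).trans
      (Adj.reachable (adj_pair z i j i (Or.inl rfl) ⟨0, hh⟩ rfl).symm)
  | succ h ih =>
    intro hh
    exact (ih (by omega)).trans (Adj.reachable (adj_hair z i j ⟨h, by omega⟩ ⟨h + 1, hh⟩ rfl))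

theorem G_connected (D L : ℕ) : (G D L).Connected := by
  have : Nonempty (Vx D L) := ⟨tv ⟨[], by simp⟩⟩
  have key : ∀ v : Vx D L, (G D L).Reachable (tv ⟨[], by simp⟩) v := by
    rintro (⟨l, hl⟩ | ⟨z, i, j, ⟨h, hh⟩⟩)
    · exact reach_tv l hl
    · exact reach_hv z i j h hh
  refine SimpleGraph.Connected.mk ?_
  intro u v
  exact (key u).symm.trans (key v)

theorem lip_of {D L : ℕ} (f : Vx D L → ℤ)
    (h1 : ∀ (z : IV D) (a : Fin 6), f (tv (ch z a)) ≤ f (tv (up z)) + 1 ∧
      f (tv (up z)) ≤ f (tv (ch z a)) + 1)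
    (h2 : ∀ (z : IV D) (i j a : Fin 6), (a = i ∨ a = j) → ∀ h : Fin (L + 1), h.val = 0 →
      f (tv (ch z a)) ≤ f (hv z i j h) + 1 ∧ f (hv z i j h) ≤ f (tv (ch z a)) + 1)
    (h3 : ∀ (z : IV D) (i j : Fin 6) (h h' : Fin (L + 1)), h'.val = h.val + 1 →
      f (hv z i j h') ≤ f (hv z i j h) + 1 ∧ f (hv z i j h) ≤ f (hv z i j h') + 1) :
    ∀ a b, (G D L).Adj a b → f b ≤ f a + 1 := by
  have key : ∀ a b, R D L a b → f b ≤ f a + 1 ∧ f a ≤ f b + 1 := by
    rintro (u | ⟨z, i, j, h⟩) (w | ⟨z', i', j', h'⟩) hab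
    · obtain ⟨z, a, rfl, rfl⟩ := hab
      exact h1 z a
    · exact hab.elim
    · obtain ⟨hh, hw⟩ := hab
      rcases hw with rfl | rfl
      · exact h2 z i j i (Or.inl rfl) h hh
      · exact h2 z i j j (Or.inr rfl) h hh
    · obtain ⟨rfl, rfl, rfl, hh⟩ := hab
      exact h3 z i j h h' hh
  intro a b hab
  rcases hab with h | h
  · exact (key a b h).1
  · exact (key b a h).2

/-! ### Distances from a fixed vertex -/

theorem dist_lip {D L : ℕ} (c a b : Vx D L) (h : (G D L).Adj a b) :
    (((G D L).dist c b : ℕ) : ℤ) ≤ (G D L).dist c a + 1 := by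
  have h1 := (G_connected D L).dist_triangle (u := c) (v := a) (w := b)
  have h2 : (G D L).dist a b = 1 := dist_eq_one_iff_adj.mpr h
  rw [h2] at h1
  exact_mod_cast h1

/-- `x` lies in the branch of the child `z i`. -/
def inBr {D L : ℕ} (z : IV D) (i : Fin 6) : Vx D L → Prop
  | Sum.inl w => (i :: z.1) <:+ w.1
  | Sum.inr (z', _, _, _) => (i :: z.1) <:+ z'.1

/-- `x` lies on a hair attached at `z` to the child `z i` (and another child). -/
def hairW {D L : ℕ} (z : IV D) (i : Fin 6) : Vx D L → Prop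
  | Sum.inl _ => False
  | Sum.inr (z', a, b, _) => z' = z ∧ (a = i ∨ b = i)

theorem not_suffix_self (i : Fin 6) (l : List (Fin 6)) : ¬ (i :: l) <:+ l := by
  intro h
  have := h.length_le
  simp at this

theorem cls {D L : ℕ} (c : Vx D L) (z : IV D) (i : Fin 6) (h1 : ¬ inBr z i c)
    (h2 : ¬ hairW z i c) :
    (((G D L).dist c (tv (up z)) : ℕ) : ℤ) + 1 ≤ (G D L).dist c (tv (ch z i)) := by
  classical
  set F : Vx D L → ℤ := fun x => (((G D L).dist c x : ℕ) : ℤ) with hF
  have hFl : ∀ a b, (G D L).Adj a b → F b ≤ F a + 1 := fun a b h => dist_lip c a b h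
  set f : Vx D L → ℤ := fun x =>
    if inBr z i x then F (tv (up z)) + 1 else if hairW z i x then F (tv (up z)) else F x with hf
  have hlip : ∀ a b, (G D L).Adj a b → f b ≤ f a + 1 := by
    apply lip_of
    · intro z' a
      have e1 := hFl _ _ (adj_ch (L := L) z' a)
      have e2 := hFl _ _ (adj_ch (L := L) z' a).symm
      have n1 : ¬ hairW z i (tv (ch z' a) : Vx D L) := fun h => h
      have n2 : ¬ hairW z i (tv (up z') : Vx D L) := fun h => h
      have hiff : inBr z i (tv (ch z' a) : Vx D L) ↔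
          (i :: z.1 = a :: z'.1 ∨ inBr z i (tv (up z') : Vx D L)) := List.suffix_cons_iff
      by_cases b1 : inBr z i (tv (up z') : Vx D L)
      · have b2 : inBr z i (tv (ch z' a) : Vx D L) := hiff.mpr (Or.inr b1)
        simp only [hf, if_pos b1, if_pos b2]
        omega
      · by_cases b2 : inBr z i (tv (ch z' a) : Vx D L)
        · have b3 : z = z' := by
            rcases hiff.mp b2 with h | h
            · exact Subtype.ext (List.cons.inj h).2
            · exact absurd h b1
          subst b3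
          simp only [hf, if_neg b1, if_pos b2, if_neg n2]
          omega
        · simp only [hf, if_neg b1, if_neg b2, if_neg n1, if_neg n2]
          exact ⟨e1, e2⟩
    · intro z' a b e he h hh
      have e1 := hFl _ _ (adj_pair (L := L) z' a b e he h hh)
      have e2 := hFl _ _ (adj_pair (L := L) z' a b e he h hh).symm
      have n1 : ¬ hairW z i (tv (ch z' e) : Vx D L) := fun h => h
      have hiff : inBr z i (tv (ch z' e) : Vx D L) ↔
          (i :: z.1 = e :: z'.1 ∨ inBr z i (hv z' a b h : Vx D L)) := List.suffix_cons_iff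
      by_cases b1 : inBr z i (hv z' a b h : Vx D L)
      · have b2 : inBr z i (tv (ch z' e) : Vx D L) := hiff.mpr (Or.inr b1)
        simp only [hf, if_pos b1, if_pos b2]
        omega
      · by_cases b2 : inBr z i (tv (ch z' e) : Vx D L)
        · have b3 : hairW z i (hv z' a b h : Vx D L) := by
            rcases hiff.mp b2 with h | h
            · obtain ⟨h4, h5⟩ := List.cons.inj h
              refine ⟨Subtype.ext h5.symm, ?_⟩
              rcases he with he | he
              · exact Or.inl (he.symm.trans h4.symm)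
              · exact Or.inr (he.symm.trans h4.symm)
            · exact absurd h b1
          simp only [hf, if_neg b1, if_pos b2, if_pos b3]
          omega
        · by_cases b3 : hairW z i (hv z' a b h : Vx D L)
          · have b4 : z' = z := b3.1
            subst b4
            have e3 := hFl _ _ (adj_ch (L := L) z' e)
            have e4 := hFl _ _ (adj_ch (L := L) z' e).symm
            simp only [hf, if_neg b1, if_neg b2, if_pos b3, if_neg n1]
            exact ⟨e3, e4⟩
          · simp only [hf, if_neg b1, if_neg b2, if_neg b3, if_neg n1]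
            exact ⟨e1, e2⟩
    · intro z' a b h h' hh
      have e1 := hFl _ _ (adj_hair (L := L) z' a b h h' hh)
      have e2 := hFl _ _ (adj_hair (L := L) z' a b h h' hh).symm
      have i1 : inBr z i (hv z' a b h : Vx D L) ↔ inBr z i (hv z' a b h' : Vx D L) := Iff.rfl
      have i2 : hairW z i (hv z' a b h : Vx D L) ↔ hairW z i (hv z' a b h' : Vx D L) := Iff.rfl
      by_cases b1 : inBr z i (hv z' a b h : Vx D L)
      · simp only [hf, if_pos b1, if_pos (i1.mp b1)]
        omega
      · by_cases b3 : hairW z i (hv z' a b h : Vx D L)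
        · simp only [hf, if_neg b1, if_neg (fun h => b1 (i1.mpr h)), if_pos b3,
            if_pos (i2.mp b3)]
          omega
        · simp only [hf, if_neg b1, if_neg (fun h => b1 (i1.mpr h)), if_neg b3,
            if_neg (fun h => b3 (i2.mpr h))]
          exact ⟨e1, e2⟩
  have h3 := lip_dist (G_connected D L) f hlip c (tv (ch z i))
  have h4 : f c = 0 := by
    simp only [hf, if_neg h1, if_neg h2, hF]
    simp
  have h5 : f (tv (ch z i)) = F (tv (up z)) + 1 := by
    have : inBr z i (tv (ch z i) : Vx D L) := List.suffix_refl _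
    simp only [hf, if_pos this]
  rw [h4, h5] at h3
  simp only [hF] at h3
  omega

/-- from outside the hair `(z, i, j)` its vertex of height `h` is reached through `z i` or
`z j`. -/
theorem hair_dist {D L : ℕ} (c : Vx D L) (z : IV D) (i j : Fin 6)
    (hc : ∀ h, c ≠ hv z i j h) (h : Fin (L + 1)) :
    min (((G D L).dist c (tv (ch z i)) : ℕ) : ℤ) ((G D L).dist c (tv (ch z j)) : ℕ) + 1 + h.val
      ≤ (G D L).dist c (hv z i j h) := by
  classical
  set F : Vx D L → ℤ := fun x => (((G D L).dist c x : ℕ) : ℤ) with hF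
  have hFl : ∀ a b, (G D L).Adj a b → F b ≤ F a + 1 := fun a b h => dist_lip c a b h
  set f : Vx D L → ℤ := fun x => match x with
    | Sum.inl w => F (tv w)
    | Sum.inr (z', a, b, h') => if z' = z ∧ a = i ∧ b = j then
        min (F (tv (ch z i))) (F (tv (ch z j))) + 1 + h'.val else F (hv z' a b h') with hf
  have ftv : ∀ w, f (tv w) = F (tv w) := fun _ => rfl
  have fhv : ∀ z' a b h', f (hv z' a b h') = if z' = z ∧ a = i ∧ b = j then
        min (F (tv (ch z i))) (F (tv (ch z j))) + 1 + h'.val else F (hv z' a b h') :=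
    fun _ _ _ _ => rfl
  have s1 := hFl _ _ (adj_ch (L := L) z i)
  have s2 := hFl _ _ (adj_ch (L := L) z i).symm
  have s3 := hFl _ _ (adj_ch (L := L) z j)
  have s4 := hFl _ _ (adj_ch (L := L) z j).symm
  have hlip : ∀ a b, (G D L).Adj a b → f b ≤ f a + 1 := by
    apply lip_of
    · intro z' a
      rw [ftv, ftv]
      exact ⟨hFl _ _ (adj_ch z' a), hFl _ _ (adj_ch z' a).symm⟩
    · intro z' a b e he h0 hh
      rw [ftv, fhv]
      split_ifs with hc1
      · obtain ⟨rfl, rfl, rfl⟩ := hc1
        rcases he with rfl | rfl <;> omega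
      · exact ⟨hFl _ _ (adj_pair z' a b e he h0 hh), hFl _ _ (adj_pair z' a b e he h0 hh).symm⟩
    · intro z' a b h0 h' hh
      rw [fhv, fhv]
      split_ifs with hc1
      · omega
      · exact ⟨hFl _ _ (adj_hair z' a b h0 h' hh), hFl _ _ (adj_hair z' a b h0 h' hh).symm⟩
  have h3 := lip_dist (G_connected D L) f hlip c (hv z i j h)
  have h4 : f c = 0 := by
    rcases c with w | ⟨z', a, b, h'⟩
    · rw [ftv]
      simp [hF]
    · rw [fhv, if_neg]
      · simp [hF]
      · rintro ⟨rfl, rfl, rfl⟩
        exact hc h' rfl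
  rw [h4, fhv, if_pos ⟨rfl, rfl, rfl⟩] at h3
  simp only [hF] at h3
  omega

/-- the distance to the vertex of height `h` of a hair is at most the distance to the child plus
`h + 1`. -/
theorem hair_dist_le {D L : ℕ} (c : Vx D L) (z : IV D) (i j a : Fin 6) (ha : a = i ∨ a = j) :
    ∀ (h : ℕ) (hh : h < L + 1),
      (G D L).dist c (hv z i j ⟨h, hh⟩) ≤ (G D L).dist c (tv (ch z a)) + 1 + h := by
  intro h
  induction h with
  | zero =>
    intro hh
    have := dist_lip c _ _ (adj_pair (L := L) z i j a ha ⟨0, hh⟩ rfl).symm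
    omega
  | succ h ih =>
    intro hh
    have h1 := ih (by omega)
    have := dist_lip c _ _ (adj_hair (L := L) z i j ⟨h, by omega⟩ ⟨h + 1, hh⟩ rfl)
    omega

/-! ### Parity -/

/-- the parity class of a vertex. -/
def par {D L : ℕ} : Vx D L → ℕ
  | Sum.inl w => w.1.length
  | Sum.inr (z, _, _, h) => z.1.length + h.val

theorem parity_adj {D L : ℕ} (a b : Vx D L) (h : (G D L).Adj a b) :
    (par a + par b) % 2 = 1 := by
  have key : ∀ a b, R D L a b → (par a + par b) % 2 = 1 := by
    rintro (u | ⟨z, i, j, h⟩) (w | ⟨z', i', j', h'⟩) hab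
    · obtain ⟨z, a, rfl, rfl⟩ := hab
      simp only [par, up, ch, List.length_cons]
      omega
    · exact hab.elim
    · obtain ⟨hh, hw⟩ := hab
      rcases hw with rfl | rfl <;>
      · simp only [par, ch, List.length_cons]
        omega
    · obtain ⟨rfl, rfl, rfl, hh⟩ := hab
      simp only [par]
      omega
  rcases h with h | h
  · exact key a b h
  · have := key b a h
    omega

theorem parity_walk {D L : ℕ} {a b : Vx D L} (p : (G D L).Walk a b) :
    (par a + par b + p.length) % 2 = 0 := by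
  induction p with
  | nil => simp only [Walk.length_nil]; omega
  | @cons a b c h q ih =>
    have := parity_adj a b h
    rw [Walk.length_cons]
    omega

theorem parity_dist {D L : ℕ} (a b : Vx D L) : (par a + par b + (G D L).dist a b) % 2 = 0 := by
  obtain ⟨p, hp⟩ := (G_connected D L).exists_walk_length_eq_dist a b
  rw [← hp]
  exact parity_walk p

end X63.TB
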