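import Pool.Agent.X63.TBGraph

/-!
The lower bound for the strong tree-breadth.
-/

namespace X63.TB

open SimpleGraph

def assoc {D L : ℕ} (z : IV D) (x : Vx D L) (i : Fin 6) : Prop := inBr z i x ∨ hairW z i x

theorem suffix_unique {i j : Fin 6} {z w : List (Fin 6)} (h1 : (i :: z) <:+ w)
    (h2 : (j :: z) <:+ w) : i = j := by
  have h3 : (i :: z) <:+ (j :: z) := List.suffix_of_suffix_length_le h1 h2 (by simp)
  have h4 := h3.eq_of_length (by simp)
  exact (List.cons.inj h4).1

theorem assoc_three {D L : ℕ} {z : IV D} {x : Vx D L} {i j l : Fin 6} (hij : i ≠ j)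
    (hjl : j ≠ l) (hil : i ≠ l) (h1 : assoc z x i) (h2 : assoc z x j) (h3 : assoc z x l) :
    False := by
  rcases x with w | ⟨z', a, b, h⟩
  · have h1' : (i :: z.1) <:+ w.1 := h1.resolve_right (fun h => h)
    have h2' : (j :: z.1) <:+ w.1 := h2.resolve_right (fun h => h)
    exact hij (suffix_unique h1' h2')
  · by_cases hz : z' = z
    · subst hz
      have key : ∀ m : Fin 6, assoc z' (Sum.inr (z', a, b, h) : Vx D L) m → a = m ∨ b = m := by
        intro m hm
        rcases hm with hm | hm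
        · exact absurd hm (not_suffix_self m z'.1)
        · exact hm.2
      rcases key i h1 with e1 | e1 <;> rcases key j h2 with e2 | e2 <;>
        rcases key l h3 with e3 | e3
      · exact hij (e1.symm.trans e2)
      · exact hij (e1.symm.trans e2)
      · exact hil (e1.symm.trans e3)
      · exact hjl (e2.symm.trans e3)
      · exact hjl (e2.symm.trans e3)
      · exact hil (e1.symm.trans e3)
      · exact hij (e1.symm.trans e2)
      · exact hij (e1.symm.trans e2)
    · have h1' : (i :: z.1) <:+ z'.1 := h1.resolve_right (fun h => hz h.1)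
      have h2' : (j :: z.1) <:+ z'.1 := h2.resolve_right (fun h => hz h.1)
      exact hij (suffix_unique h1' h2')

theorem ramsey (Q : Fin 6 → Fin 6 → Prop)
    (hT : ∀ i j l, i ≠ j → j ≠ l → i ≠ l → Q i j ∨ Q j l ∨ Q i l) :
    ∃ i j l, i ≠ j ∧ j ≠ l ∧ i ≠ l ∧ Q i j ∧ Q j l ∧ Q i l := by
  classical
  have h0 : ((Finset.univ.erase (0 : Fin 6)).filter (fun x => Q 0 x)).card +
      ((Finset.univ.erase (0 : Fin 6)).filter (fun x => ¬ Q 0 x)).card = 5 := by
    rw [Finset.card_filter_add_card_filter_not]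
    rfl
  by_cases h1 : 2 < ((Finset.univ.erase (0 : Fin 6)).filter (fun x => Q 0 x)).card
  · rw [Finset.two_lt_card] at h1
    obtain ⟨a, ha, b, hb, c, hc, hab, hac, hbc⟩ := h1
    simp only [Finset.mem_filter, Finset.mem_erase, Finset.mem_univ, and_true] at ha hb hc
    rcases hT a b c hab hbc hac with h | h | h
    · exact ⟨0, a, b, ha.1.symm, hab, hb.1.symm, ha.2, h, hb.2⟩
    · exact ⟨0, b, c, hb.1.symm, hbc, hc.1.symm, hb.2, h, hc.2⟩
    · exact ⟨0, a, c, ha.1.symm, hac, hc.1.symm, ha.2, h, hc.2⟩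
  · have h2 : 2 < ((Finset.univ.erase (0 : Fin 6)).filter (fun x => ¬ Q 0 x)).card := by omega
    rw [Finset.two_lt_card] at h2
    obtain ⟨a, ha, b, hb, c, hc, hab, hac, hbc⟩ := h2
    simp only [Finset.mem_filter, Finset.mem_erase, Finset.mem_univ, and_true] at ha hb hc
    have key : ∀ x y, x ≠ 0 → y ≠ 0 → x ≠ y → ¬ Q 0 x → ¬ Q 0 y → Q x y := by
      intro x y hx hy hxy h1 h2
      rcases hT 0 x y hx.symm hxy hy.symm with h | h | h
      · exact absurd h h1
      · exact h
      · exact absurd h h2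
    exact ⟨a, b, c, hab, hbc, hac, key a b ha.1 hb.1 hab ha.2 hb.2,
      key b c hb.1 hc.1 hbc hb.2 hc.2, key a c ha.1 hc.1 hac ha.2 hc.2⟩

theorem three_more (i j l : Fin 6) (hij : i ≠ j) (hjl : j ≠ l) (hil : i ≠ l) :
    ∃ p q s : Fin 6, p ≠ q ∧ q ≠ s ∧ p ≠ s ∧ (∀ x ∈ ({p, q, s} : Finset (Fin 6)),
      x ≠ i ∧ x ≠ j ∧ x ≠ l) := by
  have h1 : ({i, j, l} : Finset (Fin 6)).card = 3 := Finset.card_eq_three.mpr
    ⟨i, j, l, hij, hil, hjl, rfl⟩
  have h2 : (({i, j, l} : Finset (Fin 6))ᶜ).card = 3 := by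
    rw [Finset.card_compl, h1]
    rfl
  rw [Finset.card_eq_three] at h2
  obtain ⟨p, q, s, hpq, hps, hqs, h3⟩ := h2
  refine ⟨p, q, s, hpq, hqs, hps, ?_⟩
  intro x hx
  rw [← h3] at hx
  simp only [Finset.mem_compl, Finset.mem_insert, Finset.mem_singleton, not_or] at hx
  exact hx

theorem lemmaA {D L : ℕ} {ι : Type} {T : SimpleGraph ι} (hT : T.IsAcyclic) (c : ι → Vx D L)
    (r k : ℕ) (hk : k + 1 ≤ r) (hL : r ≤ L + 1)
    (hconn : ∀ x, (T.induce {t | (G D L).dist x (c t) ≤ r}).Preconnected)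
    (z : IV D) (hz : ∀ t, k ≤ (G D L).dist (c t) (tv (up z))) :
    ∃ i, ∀ t, k + 1 ≤ (G D L).dist (c t) (tv (ch z i)) := by
  by_contra hcon
  push Not at hcon
  choose τ hτ using hcon
  set K : ι → Fin 6 → Prop := fun t i => (G D L).dist (c t) (tv (ch z i)) ≤ k with hK
  have hKτ : ∀ i, K (τ i) i := fun i => by
    have := hτ i
    show (G D L).dist (c (τ i)) (tv (ch z i)) ≤ k
    omega
  have hKa : ∀ t i, K t i → assoc z (c t) i := by
    intro t i hti
    by_contra hn
    unfold assoc at hn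
    rw [not_or] at hn
    have h1 := cls (c t) z i hn.1 hn.2
    have h2 := hz t
    have h3 : (G D L).dist (c t) (tv (ch z i)) ≤ k := hti
    omega
  have hh : r - k - 1 < L + 1 := by omega
  set U : Fin 6 → Fin 6 → Set ι := fun i j =>
    {t | (G D L).dist (hv z i j ⟨r - k - 1, hh⟩) (c t) ≤ r} with hU
  have hUc : ∀ i j, (T.induce (U i j)).Preconnected := fun i j => hconn _
  have memU : ∀ i j a, (a = i ∨ a = j) → ∀ t, K t a → t ∈ U i j := by
    intro i j a ha t hta
    have h1 := hair_dist_le (c t) z i j a ha (r - k - 1) hh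
    have h2 : (G D L).dist (c t) (tv (ch z a)) ≤ k := hta
    show (G D L).dist (hv z i j ⟨r - k - 1, hh⟩) (c t) ≤ r
    rw [dist_comm]
    omega
  have outU : ∀ i j t, t ∈ U i j → (∃ h, c t = hv z i j h) ∨ K t i ∨ K t j := by
    intro i j t ht
    by_cases hc : ∃ h, c t = hv z i j h
    · exact Or.inl hc
    · right
      have h1 := hair_dist (c t) z i j (fun h he => hc ⟨h, he⟩) ⟨r - k - 1, hh⟩
      have h2 : (G D L).dist (hv z i j ⟨r - k - 1, hh⟩) (c t) ≤ r := ht
      rw [dist_comm] at h2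
      simp only at h1
      by_contra h3
      rw [not_or] at h3
      have h4 : ¬ (G D L).dist (c t) (tv (ch z i)) ≤ k := h3.1
      have h5 : ¬ (G D L).dist (c t) (tv (ch z j)) ≤ k := h3.2
      omega
  have hairA : ∀ i j t, (∃ h, c t = hv z i j h) → assoc z (c t) i ∧ assoc z (c t) j := by
    rintro i j t ⟨h, he⟩
    rw [he]
    exact ⟨Or.inr ⟨rfl, Or.inl rfl⟩, Or.inr ⟨rfl, Or.inr rfl⟩⟩
  -- every triple contains a good pair
  have triple : ∀ i j l, i ≠ j → j ≠ l → i ≠ l →
      (∃ t, K t i ∧ K t j) ∨ (∃ t, K t j ∧ K t l) ∨ (∃ t, K t i ∧ K t l) := by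
    intro i j l hij hjl hil
    obtain ⟨t, tA, tB, tC⟩ := helly3 hT (hUc i j) (hUc i l) (hUc j l)
      (a := τ i) (b := τ l) (c := τ j)
      (memU i j i (Or.inl rfl) _ (hKτ i)) (memU i l i (Or.inl rfl) _ (hKτ i))
      (memU i l l (Or.inr rfl) _ (hKτ l)) (memU j l l (Or.inr rfl) _ (hKτ l))
      (memU j l j (Or.inl rfl) _ (hKτ j)) (memU i j j (Or.inr rfl) _ (hKτ j))
    have oA := outU i j t tA
    have oB := outU i l t tB
    have oC := outU j l t tC
    have no3 : ¬ (assoc z (c t) i ∧ assoc z (c t) j ∧ assoc z (c t) l) := fun h =>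
      assoc_three hij hjl hil h.1 h.2.1 h.2.2
    have ai := hKa t i
    have aj := hKa t j
    have al := hKa t l
    have hA := hairA i j t
    have hB := hairA i l t
    have hC := hairA j l t
    by_cases ki : K t i
    · by_cases kj : K t j
      · exact Or.inl ⟨t, ki, kj⟩
      · by_cases kl : K t l
        · exact Or.inr (Or.inr ⟨t, ki, kl⟩)
        · exfalso
          rcases oC with h | h | h
          · exact no3 ⟨ai ki, (hC h).1, (hC h).2⟩
          · exact kj h
          · exact kl h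
    · by_cases kj : K t j
      · by_cases kl : K t l
        · exact Or.inr (Or.inl ⟨t, kj, kl⟩)
        · exfalso
          rcases oB with h | h | h
          · exact no3 ⟨(hB h).1, aj kj, (hB h).2⟩
          · exact ki h
          · exact kl h
      · exfalso
        rcases oA with h | h | h
        · rcases oC with h' | h' | h'
          · exact no3 ⟨(hA h).1, (hA h).2, (hC h').2⟩
          · exact kj h'
          · exact no3 ⟨(hA h).1, (hA h).2, al h'⟩
        · exact ki h
        · exact kj h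
  obtain ⟨i, j, l, hij, hjl, hil, ⟨t1, k1, k2⟩, ⟨t2, k3, k4⟩, ⟨t3, k5, k6⟩⟩ :=
    ramsey (fun i j => ∃ t, K t i ∧ K t j) triple
  obtain ⟨p, q, s, hpq, hqs, hps, hall⟩ := three_more i j l hij hjl hil
  have hp := hall p (by simp)
  have hq := hall q (by simp)
  have hs := hall s (by simp)
  -- t1 : i j, t2 : j l, t3 : i l
  obtain ⟨t, tA, tB, tC⟩ := helly3 hT (hUc i p) (hUc j q) (hUc l s)
      (a := t1) (b := t2) (c := t3)
      (memU i p i (Or.inl rfl) _ k1) (memU j q j (Or.inl rfl) _ k2)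
      (memU j q j (Or.inl rfl) _ k3) (memU l s l (Or.inl rfl) _ k4)
      (memU l s l (Or.inl rfl) _ k6) (memU i p i (Or.inl rfl) _ k5)
  have get : ∀ a b, t ∈ U a b → assoc z (c t) a ∨ assoc z (c t) b := by
    intro a b hab
    rcases outU a b t hab with h | h | h
    · exact Or.inl (hairA a b t h).1
    · exact Or.inl (hKa t a h)
    · exact Or.inr (hKa t b h)
  rcases get i p tA with h1 | h1 <;> rcases get j q tB with h2 | h2 <;>
    rcases get l s tC with h3 | h3
  · exact assoc_three hij hjl hil h1 h2 h3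
  · exact assoc_three hij hs.2.1.symm hs.1.symm h1 h2 h3
  · exact assoc_three hq.1.symm hq.2.2 hil h1 h2 h3
  · exact assoc_three hq.1.symm hqs hs.1.symm h1 h2 h3
  · exact assoc_three hp.2.1 hjl hp.2.2 h1 h2 h3
  · exact assoc_three hp.2.1 hs.2.1.symm hps h1 h2 h3
  · exact assoc_three hpq hq.2.2 hp.2.2 h1 h2 h3
  · exact assoc_three hpq hqs hps h1 h2 h3

theorem no_strong (R r : ℕ) (hr : r ≤ R) (ι : Type) (T : SimpleGraph ι)
    (B : ι → Set (Vx (R + 2) R)) (hd : IsTreeDecomp (G (R + 2) R) T B)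
    (hB : ∀ t, ∃ v ∈ B t, B t = disk (G (R + 2) R) v r) : False := by
  choose c _ hc using hB
  have hset : ∀ x, {t | x ∈ B t} = {t | (G (R + 2) R).dist x (c t) ≤ r} := by
    intro x
    ext t
    rw [Set.mem_ofPred_eq, Set.mem_ofPred_eq, hc t]
    rfl
  have hconn : ∀ x, (T.induce {t | (G (R + 2) R).dist x (c t) ≤ r}).Preconnected := by
    intro x
    rw [← hset x]
    exact (hd.conn x).preconnected
  have hT : T.IsAcyclic := hd.isTree.isAcyclic
  have walk : ∀ n, n ≤ r → ∃ z : IV (R + 2), z.1.length = n ∧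
      ∀ t, n ≤ (G (R + 2) R).dist (c t) (tv (up z)) := by
    intro n
    induction n with
    | zero =>
      intro _
      exact ⟨⟨[], by simp⟩, rfl, fun t => Nat.zero_le _⟩
    | succ n ih =>
      intro hn
      obtain ⟨z, hz1, hz2⟩ := ih (by omega)
      obtain ⟨i, hi⟩ := lemmaA hT c r n hn (by omega) hconn z hz2
      have hlen : (i :: z.1).length = n + 1 := by
        rw [List.length_cons, hz1]
      refine ⟨⟨i :: z.1, by omega⟩, hlen, ?_⟩
      intro t
      exact hi t
  obtain ⟨z, hz1, hz2⟩ := walk r le_rfl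
  have hcov : ∀ i, ∃ t, (G (R + 2) R).dist (c t) (tv (ch z i)) + 1 ≤ r := by
    intro i
    obtain ⟨t, h1, h2⟩ := hd.edge _ _ (adj_ch (L := R) z i)
    rw [hc t] at h1 h2
    have h3 : (G (R + 2) R).dist (tv (up z)) (c t) ≤ r := h1
    have h4 : (G (R + 2) R).dist (tv (ch z i)) (c t) ≤ r := h2
    have h5 := hz2 t
    have h6 := parity_dist (tv (up z)) (c t)
    have h7 := parity_dist (tv (ch z i)) (c t)
    have h8 : par (tv (ch z i) : Vx (R + 2) R) = par (tv (up z) : Vx (R + 2) R) + 1 := by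
      simp [par, up, ch]
    refine ⟨t, ?_⟩
    rw [dist_comm] at h5 ⊢
    omega
  obtain ⟨t0, ht0⟩ := hcov 0
  obtain ⟨i, hi⟩ := lemmaA hT c r (r - 1) (by omega) (by omega) hconn z
    (fun t => (Nat.sub_le r 1).trans (hz2 t))
  obtain ⟨t, ht⟩ := hcov i
  have := hi t
  omega

end X63.TB
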