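import Pool.Agent.X63.WUTable

set_option autoImplicit false

namespace Pool.Agent.X63.WU

/-- edges of the graph -/
def el : List (ℕ × ℕ) := [(0, 3), (0, 5), (0, 7), (1, 2), (1, 4), (1, 7), (2, 5), (2, 6), (3, 4),
  (3, 6), (4, 6), (4, 7), (5, 6), (5, 7)]

/-- hexadecimal digit -/
def dig (w u : ℕ) : ℕ := (w / 16 ^ u) % 16

/-- near test -/
def nearB (a b : ℕ) : Bool := Nat.ble a (b + 2) && Nat.ble b (a + 2)

/-- word `w` realizes labeling `m` -/
def chk (m w : ℕ) : Bool :=
  (List.range 14).all fun k =>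
    nearB (dig w (el.getD k (0, 0)).1) (dig w (el.getD k (0, 0)).2) == Nat.testBit m k

theorem chk_all : ((List.range 128).all fun c => (List.range 128).all fun i =>
    chk (128 * c + i) (((tbl.getD c 0) / 2 ^ (32 * i)) % 2 ^ 32)) = true := by
  decide +kernel

theorem exists_word (m : ℕ) (hm : m < 2 ^ 14) : ∃ w, chk m w = true := by
  have h := chk_all
  rw [List.all_eq_true] at h
  have h := h (m / 128) (List.mem_range.mpr (by omega))
  rw [List.all_eq_true] at h
  have h := h (m % 128) (List.mem_range.mpr (by omega))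
  rw [Nat.div_add_mod] at h
  exact ⟨_, h⟩

end Pool.Agent.X63.WU
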