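import Mathlib

/-!
Spoked graphs with bounded outer mutual-visibility number whose hub deletion makes it large.
-/

namespace X63.WheelMV

open SimpleGraph

/-- `u` and `v` are `S`-visible: some shortest `u`-`v` path has no internal vertex in `S`. -/
def SVisible {V : Type} (G : SimpleGraph V) (S : Finset V) (u v : V) : Prop :=
  ∃ p : G.Walk u v, p.IsPath ∧ p.length = G.dist u v ∧
    ∀ z ∈ p.support, z ≠ u → z ≠ v → z ∉ S

/-- outer mutual-visibility sets. -/
def OuterMV {V : Type} (G : SimpleGraph V) (S : Finset V) : Prop :=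
  ∀ u ∈ S, ∀ v : V, SVisible G S u v

/-- the outer mutual-visibility number. -/
noncomputable def muO {V : Type} (G : SimpleGraph V) : ℕ :=
  sSup {n : ℕ | ∃ S : Finset V, OuterMV G S ∧ S.card = n}

/-! ### General lemmas -/

theorem lip_walk {V : Type} {G : SimpleGraph V} (s' : V) (f : V → ℤ)
    (hf : ∀ a b, G.Adj a b → a ≠ s' → b ≠ s' → f b ≤ f a + 1) :
    ∀ {u v : V} (p : G.Walk u v), s' ∉ p.support → f v ≤ f u + p.length := by
  intro u v p
  induction p with
  | nil => intro _; simp
  | @cons a b c h q ih =>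
    intro hs
    rw [Walk.support_cons, List.mem_cons, not_or] at hs
    have h1 := ih hs.2
    have h2 : b ≠ s' := by
      rintro rfl
      exact hs.2 q.start_mem_support
    have h3 := hf a b h (fun h => hs.1 h.symm) h2
    rw [Walk.length_cons]
    push_cast
    linarith

theorem conflict {V : Type} {G : SimpleGraph V} {S : Finset V} (hS : OuterMV G S)
    (s s' w : V) (f : V → ℤ) (d : ℕ)
    (hf : ∀ a b, G.Adj a b → a ≠ s' → b ≠ s' → f b ≤ f a + 1)
    (hd : G.dist s w ≤ d) (hfd : (d : ℤ) < f w - f s)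
    (h1 : s ∈ S) (h2 : s' ∈ S) (h3 : s' ≠ s) (h4 : s' ≠ w) : False := by
  obtain ⟨p, -, hp, hz⟩ := hS s h1 w
  have hns : s' ∉ p.support := fun h => hz s' h h3 h4 h2
  have := lip_walk s' f hf p hns
  rw [hp] at this
  have h5 : ((G.dist s w : ℕ) : ℤ) ≤ d := by exact_mod_cast hd
  linarith

theorem internal_two {V : Type} {G : SimpleGraph V} (z : V) :
    ∀ {u v : V} (p : G.Walk u v), p.IsPath → z ∈ p.support → z ≠ u → z ≠ v →
      ∃ a b, a ≠ b ∧ G.Adj z a ∧ G.Adj z b := by
  intro u v p
  induction p with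
  | nil =>
    intro _ h h1 _
    simp at h
    exact absurd h h1
  | @cons a b c h q ih =>
    intro hp hz h1 h2
    rw [Walk.cons_isPath_iff] at hp
    rw [Walk.support_cons, List.mem_cons] at hz
    have hz' : z ∈ q.support := hz.resolve_left h1
    by_cases hzb : z = b
    · subst hzb
      cases q with
      | nil => exact absurd rfl h2
      | @cons _ b' _ h' q' =>
        refine ⟨a, b', ?_, h.symm, h'⟩
        rintro rfl
        apply hp.2
        rw [Walk.support_cons]
        exact List.mem_cons_of_mem _ q'.start_mem_support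
    · exact ih hp.1 hz' hzb h2

theorem outerMV_of_leaves {V : Type} (G : SimpleGraph V) (hG : G.Connected) (S : Finset V)
    (hS : ∀ z ∈ S, ∀ a b, G.Adj z a → G.Adj z b → a = b) : OuterMV G S := by
  intro u _ v
  obtain ⟨p, hp⟩ := hG.exists_walk_length_eq_dist u v
  have hpath : p.IsPath := Walk.isPath_of_length_eq_dist p hp
  refine ⟨p, hpath, hp, ?_⟩
  intro z hz hzu hzv hzS
  obtain ⟨a, b, hab, ha, hb⟩ := internal_two z p hpath hz hzu hzv
  exact hab (hS z hzS a b ha hb)

theorem le_muO {V : Type} [Fintype V] (G : SimpleGraph V) (S : Finset V) (hS : OuterMV G S) :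
    S.card ≤ muO G := by
  apply le_csSup
  · refine ⟨Fintype.card V, ?_⟩
    rintro n ⟨T, _, rfl⟩
    exact Finset.card_le_univ T
  · exact ⟨S, hS, rfl⟩

theorem muO_le {V : Type} (G : SimpleGraph V) (n : ℕ)
    (h : ∀ S : Finset V, OuterMV G S → S.card ≤ n) : muO G ≤ n := by
  apply csSup_le
  · refine ⟨0, ∅, ?_, rfl⟩
    intro u hu
    exact absurd hu (Finset.notMem_empty u)
  · rintro m ⟨S, hS, rfl⟩
    exact h S hS

/-! ### The graph -/

/-- vertices: rim `0, …, 10K`; spokes `0, …, K` with `10K+1` inner vertices each; the hub. -/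
abbrev Vx (K : ℕ) : Type := Fin (10 * K + 1) ⊕ (Fin (K + 1) × Fin (10 * K + 1)) ⊕ Unit

abbrev rim {K : ℕ} (p : Fin (10 * K + 1)) : Vx K := Sum.inl p
abbrev sp {K : ℕ} (i : Fin (K + 1)) (y : Fin (10 * K + 1)) : Vx K := Sum.inr (Sum.inl (i, y))
abbrev hub (K : ℕ) : Vx K := Sum.inr (Sum.inr ())

/-- one direction of the adjacency. -/
def R (K : ℕ) : Vx K → Vx K → Prop
  | Sum.inl p, Sum.inl q => q.val = p.val + 1
  | Sum.inl p, Sum.inr (Sum.inl (i, y)) => p.val = 10 * i.val ∧ y.val = 0
  | Sum.inr (Sum.inl (i, y)), Sum.inr (Sum.inl (j, z)) => i = j ∧ z.val = y.val + 1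
  | Sum.inr (Sum.inl (_, y)), Sum.inr (Sum.inr _) => y.val = 10 * K
  | _, _ => False

theorem R_irrefl (K : ℕ) (v : Vx K) : ¬ R K v v := by
  rcases v with p | ⟨i, y⟩ | ⟨⟩
  · simp [R]
  · simp [R]
  · simp [R]

/-- the graph. -/
def G (K : ℕ) : SimpleGraph (Vx K) where
  Adj u v := R K u v ∨ R K v u
  symm := ⟨fun _ _ h => h.symm⟩
  loopless := ⟨fun v h => by
    rcases h with h | h
    · exact R_irrefl K v h
    · exact R_irrefl K v h⟩

/-- to check that `f` is 1-Lipschitz off `s'` it suffices to look at the four kinds of edges. -/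
theorem lip_of (K : ℕ) (s' : Vx K) (f : Vx K → ℤ)
    (h1 : ∀ p q : Fin (10 * K + 1), q.val = p.val + 1 → rim p ≠ s' → rim q ≠ s' →
      f (rim q) ≤ f (rim p) + 1 ∧ f (rim p) ≤ f (rim q) + 1)
    (h2 : ∀ (p : Fin (10 * K + 1)) (i : Fin (K + 1)) (y : Fin (10 * K + 1)),
      p.val = 10 * i.val → y.val = 0 → rim p ≠ s' → sp i y ≠ s' →
      f (sp i y) ≤ f (rim p) + 1 ∧ f (rim p) ≤ f (sp i y) + 1)
    (h3 : ∀ (i : Fin (K + 1)) (y z : Fin (10 * K + 1)),
      z.val = y.val + 1 → sp i y ≠ s' → sp i z ≠ s' →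
      f (sp i z) ≤ f (sp i y) + 1 ∧ f (sp i y) ≤ f (sp i z) + 1)
    (h4 : ∀ (i : Fin (K + 1)) (y : Fin (10 * K + 1)),
      y.val = 10 * K → sp i y ≠ s' → hub K ≠ s' →
      f (hub K) ≤ f (sp i y) + 1 ∧ f (sp i y) ≤ f (hub K) + 1) :
    ∀ a b, (G K).Adj a b → a ≠ s' → b ≠ s' → f b ≤ f a + 1 := by
  have key : ∀ a b, R K a b → a ≠ s' → b ≠ s' → f b ≤ f a + 1 ∧ f a ≤ f b + 1 := by
    rintro (p | ⟨i, y⟩ | ⟨⟩) (q | ⟨j, z⟩ | ⟨⟩) h ha hb
    · exact h1 p q h ha hb
    · exact h2 p j z h.1 h.2 ha hb
    · exact absurd h (by simp [R])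
    · exact absurd h (by simp [R])
    · obtain ⟨h5, h6⟩ := h
      subst h5
      exact h3 i y z h6 ha hb
    · exact h4 i y h ha hb
    · exact absurd h (by simp [R])
    · exact absurd h (by simp [R])
    · exact absurd h (by simp [R])
  intro a b hab ha hb
  rcases hab with h | h
  · exact (key a b h ha hb).1
  · exact (key b a h hb ha).2

/-- the point of spoke `i` at height `h`. -/
def pt (K : ℕ) (i : Fin (K + 1)) (h : ℕ) : Vx K :=
  if h0 : h = 0 then rim ⟨10 * i.val, by have := i.isLt; omega⟩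
  else if h1 : h - 1 < 10 * K + 1 then sp i ⟨h - 1, h1⟩ else hub K

theorem pt_sp (K : ℕ) (i : Fin (K + 1)) (y : Fin (10 * K + 1)) :
    pt K i (y.val + 1) = sp i y := by
  have := y.isLt
  simp [pt]
  omega

theorem pt_zero (K : ℕ) (i : Fin (K + 1)) :
    pt K i 0 = rim ⟨10 * i.val, by have := i.isLt; omega⟩ := by
  simp [pt]

theorem pt_top (K : ℕ) (i : Fin (K + 1)) (h : ℕ) (hh : 10 * K + 2 ≤ h) :
    pt K i h = hub K := by
  have h1 : ¬ (h = 0) := by omega
  have h2 : ¬ (h - 1 < 10 * K + 1) := by omega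
  simp [pt, h1, h2]

theorem pt_adj (K : ℕ) (i : Fin (K + 1)) (h : ℕ) (hh : h + 1 ≤ 10 * K + 2) :
    (G K).Adj (pt K i h) (pt K i (h + 1)) := by
  by_cases h0 : h = 0
  · subst h0
    rw [pt_zero]
    have : pt K i (0 + 1) = sp i ⟨0, by omega⟩ := pt_sp K i ⟨0, by omega⟩
    rw [this]
    exact Or.inl ⟨rfl, rfl⟩
  · obtain ⟨h', rfl⟩ : ∃ h', h = h' + 1 := ⟨h - 1, by omega⟩
    have e1 : pt K i (h' + 1) = sp i ⟨h', by omega⟩ := pt_sp K i ⟨h', by omega⟩
    rw [e1]
    by_cases h2 : h' + 1 + 1 = 10 * K + 2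
    · rw [pt_top K i _ (by omega)]
      exact Or.inl (show h' = 10 * K by omega)
    · have e2 : pt K i (h' + 1 + 1) = sp i ⟨h' + 1, by omega⟩ := pt_sp K i ⟨h' + 1, by omega⟩
      rw [e2]
      exact Or.inl ⟨rfl, rfl⟩

theorem pt_walk (K : ℕ) (i : Fin (K + 1)) (h n : ℕ) (hn : h + n ≤ 10 * K + 2) :
    ∃ p : (G K).Walk (pt K i h) (pt K i (h + n)), p.length = n := by
  induction n with
  | zero => exact ⟨Walk.nil, rfl⟩
  | succ n ih =>
    obtain ⟨p, hp⟩ := ih (by omega)
    have := pt_adj K i (h + n) (by omega)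
    exact ⟨p.concat this, by rw [Walk.length_concat, hp]⟩

theorem rim_walk (K : ℕ) (p : Fin (10 * K + 1)) (n : ℕ) (hn : p.val + n < 10 * K + 1) :
    ∃ q : (G K).Walk (rim p) (rim ⟨p.val + n, hn⟩), q.length = n := by
  induction n with
  | zero => exact ⟨Walk.nil, rfl⟩
  | succ n ih =>
    obtain ⟨q, hq⟩ := ih (by omega)
    have : (G K).Adj (rim ⟨p.val + n, by omega⟩) (rim ⟨p.val + (n + 1), hn⟩) :=
      Or.inl (show p.val + (n + 1) = p.val + n + 1 by omega)
    exact ⟨q.concat this, by rw [Walk.length_concat, hq]⟩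

theorem rim_walk' (K : ℕ) (p q : Fin (10 * K + 1)) (n : ℕ) (h : q.val = p.val + n) :
    ∃ w : (G K).Walk (rim p) (rim q), w.length = n := by
  have hq : q = ⟨p.val + n, by have := q.isLt; omega⟩ := Fin.ext h
  rw [hq]
  exact rim_walk K p n _

theorem dist_le_of_walk {V : Type} {G : SimpleGraph V} {u v : V} {n : ℕ}
    (h : ∃ p : G.Walk u v, p.length = n) : G.dist u v ≤ n := by
  obtain ⟨p, rfl⟩ := h
  exact SimpleGraph.dist_le p

theorem walk_symm {V : Type} {G : SimpleGraph V} {u v : V} {n : ℕ}
    (h : ∃ p : G.Walk u v, p.length = n) : ∃ p : G.Walk v u, p.length = n := by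
  obtain ⟨p, rfl⟩ := h
  exact ⟨p.reverse, by simp⟩

theorem walk_trans {V : Type} {G : SimpleGraph V} {u v w : V} {n m : ℕ}
    (h : ∃ p : G.Walk u v, p.length = n) (h' : ∃ p : G.Walk v w, p.length = m) :
    ∃ p : G.Walk u w, p.length = n + m := by
  obtain ⟨p, rfl⟩ := h
  obtain ⟨q, rfl⟩ := h'
  exact ⟨p.append q, by simp⟩

/-! ### Conflicts -/

theorem same_spoke (K : ℕ) (S : Finset (Vx K)) (hS : OuterMV (G K) S) (i : Fin (K + 1))
    (y y' : Fin (10 * K + 1)) (hlt : y.val < y'.val) (h1 : sp i y ∈ S) (h2 : sp i y' ∈ S) :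
    False := by
  have hy := y.isLt
  have hy' := y'.isLt
  set f : Vx K → ℤ := fun v => match v with
    | Sum.inl _ => 0
    | Sum.inr (Sum.inl (j, z)) =>
        if j = i then (if z.val < y'.val then - ((z.val : ℤ) + 1)
          else 2 * (10 * K + 2) - ((z.val : ℤ) + 1)) else (z.val : ℤ) + 1
    | Sum.inr (Sum.inr _) => 10 * K + 2 with hf
  have frim : ∀ p : Fin (10 * K + 1), f (rim p) = 0 := fun _ => rfl
  have fsp : ∀ (j : Fin (K + 1)) (z : Fin (10 * K + 1)), f (sp j z) =
      if j = i then (if z.val < y'.val then - ((z.val : ℤ) + 1)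
          else 2 * (10 * K + 2) - ((z.val : ℤ) + 1)) else (z.val : ℤ) + 1 := fun _ _ => rfl
  have fhub : f (hub K) = 10 * K + 2 := rfl
  have hne : ∀ (j : Fin (K + 1)) (z : Fin (10 * K + 1)), sp j z ≠ sp i y' → j = i →
      z.val ≠ y'.val := by
    intro j z h hj hz
    apply h
    rw [hj, Fin.ext hz]
  clear_value f
  have hw : ∃ p : (G K).Walk (sp i y) (pt K i (y'.val + 2)), p.length = y'.val - y.val + 1 := by
    have := pt_walk K i (y.val + 1) (y'.val - y.val + 1) (by omega)
    rw [pt_sp] at this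
    have e : y.val + 1 + (y'.val - y.val + 1) = y'.val + 2 := by omega
    rw [e] at this
    exact this
  have fw : f (pt K i (y'.val + 2)) = 2 * (10 * K + 2) - ((y'.val : ℤ) + 2) := by
    by_cases h : y'.val = 10 * K
    · rw [pt_top K i _ (by omega), fhub, h]
      push_cast
      ring
    · have e : pt K i (y'.val + 1 + 1) = sp i ⟨y'.val + 1, by omega⟩ :=
        pt_sp K i ⟨y'.val + 1, by omega⟩
      rw [show y'.val + 2 = y'.val + 1 + 1 from rfl, e, fsp, if_pos rfl, if_neg (by simp)]
      push_cast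
      ring
  refine conflict hS (sp i y) (sp i y') (pt K i (y'.val + 2)) f (y'.val - y.val + 1) ?_
    (dist_le_of_walk hw) ?_ h1 h2 ?_ ?_
  · apply lip_of
    · intro p q _ _ _
      rw [frim, frim]
      omega
    · intro p j z _ hz _ hn
      have := hne j z hn
      rw [frim, fsp]
      split_ifs <;> omega
    · intro j z z' hz hn hn'
      have := hne j z hn
      have := hne j z' hn'
      rw [fsp, fsp]
      split_ifs <;> omega
    · intro j z hz hn _
      have := hne j z hn
      rw [fsp, fhub]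
      split_ifs <;> omega
  · rw [fw, fsp, if_pos rfl, if_pos hlt]
    push_cast [Nat.cast_sub hlt.le]
    have : (y'.val : ℤ) ≤ 10 * K := by exact_mod_cast (by omega : y'.val ≤ 10 * K)
    have : (0 : ℤ) ≤ y.val := by positivity
    omega
  · intro h
    simp at h
    omega
  · by_cases h : y'.val = 10 * K
    · rw [pt_top K i _ (by omega)]
      simp
    · have e : pt K i (y'.val + 1 + 1) = sp i ⟨y'.val + 1, by omega⟩ :=
        pt_sp K i ⟨y'.val + 1, by omega⟩
      rw [show y'.val + 2 = y'.val + 1 + 1 from rfl, e]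
      intro h
      simp [Fin.ext_iff] at h

/-- two rim members `p < q`: then `q` is the last rim vertex. -/
theorem rim_right (K : ℕ) (S : Finset (Vx K)) (hS : OuterMV (G K) S)
    (p q : Fin (10 * K + 1)) (hlt : p.val < q.val) (hq : q.val < 10 * K)
    (h1 : rim p ∈ S) (h2 : rim q ∈ S) : False := by
  set f : Vx K → ℤ := fun v => match v with
    | Sum.inl x => if x.val < q.val then 0 else 2 * (10 * K + 2)
    | Sum.inr (Sum.inl (j, z)) =>
        if 10 * j.val < q.val then (z.val : ℤ) + 1
        else if 10 * j.val = q.val then 10 * K + 2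
          else 2 * (10 * K + 2) - ((z.val : ℤ) + 1)
    | Sum.inr (Sum.inr _) => 10 * K + 2 with hf
  have frim : ∀ x : Fin (10 * K + 1), f (rim x) =
      if x.val < q.val then (0 : ℤ) else 2 * (10 * (K : ℤ) + 2) := fun _ => rfl
  have fsp : ∀ (j : Fin (K + 1)) (z : Fin (10 * K + 1)), f (sp j z) =
      if 10 * j.val < q.val then (z.val : ℤ) + 1
        else if 10 * j.val = q.val then 10 * K + 2
          else 2 * (10 * K + 2) - ((z.val : ℤ) + 1) := fun _ _ => rfl
  have fhub : f (hub K) = 10 * K + 2 := rfl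
  have hne : ∀ x : Fin (10 * K + 1), rim x ≠ rim q → x.val ≠ q.val := by
    intro x h hx
    exact h (by rw [Fin.ext hx])
  clear_value f
  have hw : ∃ w : (G K).Walk (rim p) (rim ⟨q.val + 1, by omega⟩),
      w.length = q.val - p.val + 1 := by
    apply rim_walk'
    show q.val + 1 = p.val + (q.val - p.val + 1)
    omega
  refine conflict hS (rim p) (rim q) (rim ⟨q.val + 1, by omega⟩) f (q.val - p.val + 1) ?_
    (dist_le_of_walk hw) ?_ h1 h2 ?_ ?_
  · apply lip_of
    · intro x x' hx hn hn'
      have := hne x hn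
      have := hne x' hn'
      rw [frim, frim]
      split_ifs <;> omega
    · intro x j z hx hz hn _
      have := hne x hn
      rw [frim, fsp]
      split_ifs <;> omega
    · intro j z z' hz _ _
      rw [fsp, fsp]
      split_ifs <;> omega
    · intro j z hz _ _
      rw [fsp, fhub]
      split_ifs <;> omega
  · rw [frim, frim, if_pos hlt, if_neg (by simp)]
    push_cast [Nat.cast_sub hlt.le]
    omega
  · intro h
    simp [Fin.ext_iff] at h
    omega
  · intro h
    simp [Fin.ext_iff] at h

/-- two rim members `p < q`: then `p` is the first rim vertex. -/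
theorem rim_left (K : ℕ) (S : Finset (Vx K)) (hS : OuterMV (G K) S)
    (p q : Fin (10 * K + 1)) (hlt : p.val < q.val) (hp : 0 < p.val)
    (h1 : rim p ∈ S) (h2 : rim q ∈ S) : False := by
  have hq := q.isLt
  set f : Vx K → ℤ := fun v => match v with
    | Sum.inl x => if p.val < x.val then 0 else 2 * (10 * K + 2)
    | Sum.inr (Sum.inl (j, z)) =>
        if p.val < 10 * j.val then (z.val : ℤ) + 1
        else if 10 * j.val = p.val then 10 * K + 2
          else 2 * (10 * K + 2) - ((z.val : ℤ) + 1)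
    | Sum.inr (Sum.inr _) => 10 * K + 2 with hf
  have frim : ∀ x : Fin (10 * K + 1), f (rim x) =
      if p.val < x.val then (0 : ℤ) else 2 * (10 * (K : ℤ) + 2) := fun _ => rfl
  have fsp : ∀ (j : Fin (K + 1)) (z : Fin (10 * K + 1)), f (sp j z) =
      if p.val < 10 * j.val then (z.val : ℤ) + 1
        else if 10 * j.val = p.val then 10 * K + 2
          else 2 * (10 * K + 2) - ((z.val : ℤ) + 1) := fun _ _ => rfl
  have fhub : f (hub K) = 10 * K + 2 := rfl
  have hne : ∀ x : Fin (10 * K + 1), rim x ≠ rim p → x.val ≠ p.val := by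
    intro x h hx
    exact h (by rw [Fin.ext hx])
  clear_value f
  have hw : ∃ w : (G K).Walk (rim q) (rim ⟨p.val - 1, by omega⟩),
      w.length = q.val - p.val + 1 := by
    apply walk_symm
    apply rim_walk'
    show q.val = p.val - 1 + (q.val - p.val + 1)
    omega
  refine conflict hS (rim q) (rim p) (rim ⟨p.val - 1, by omega⟩) f (q.val - p.val + 1) ?_
    (dist_le_of_walk hw) ?_ h2 h1 ?_ ?_
  · apply lip_of
    · intro x x' hx hn hn'
      have := hne x hn
      have := hne x' hn'
      rw [frim, frim]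
      split_ifs <;> omega
    · intro x j z hx hz hn _
      have := hne x hn
      rw [frim, fsp]
      split_ifs <;> omega
    · intro j z z' hz _ _
      rw [fsp, fsp]
      split_ifs <;> omega
    · intro j z hz _ _
      rw [fsp, fhub]
      split_ifs <;> omega
  · rw [frim, frim, if_pos hlt, if_neg (by simp)]
    push_cast [Nat.cast_sub hlt.le]
    omega
  · intro h
    simp [Fin.ext_iff] at h
    omega
  · intro h
    simp [Fin.ext_iff] at h
    omega

/-- two spoke members on distinct spokes nearly balance the two routes between them. -/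
theorem spokes_balance (K : ℕ) (S : Finset (Vx K)) (hS : OuterMV (G K) S)
    (i j : Fin (K + 1)) (y z : Fin (10 * K + 1)) (hij : i ≠ j)
    (D : ℕ) (hD : D = 10 * (j.val - i.val) + 10 * (i.val - j.val))
    (h1 : sp i y ∈ S) (h2 : sp j z ∈ S) :
    2 * (10 * K + 2) ≤ 2 * (y.val + 1) + 2 * (z.val + 1) + D + 2 ∧
      2 * (y.val + 1) + 2 * (z.val + 1) + D ≤ 2 * (10 * K + 2) + 2 := by
  have hy := y.isLt
  have hz := z.isLt
  have hi := i.isLt
  have hj := j.isLt
  have hij' : i.val ≠ j.val := fun h => hij (Fin.ext h)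
  set f : Vx K → ℤ := fun v => match v with
    | Sum.inl x => min ((y.val : ℤ) + 1 + max ((x.val : ℤ) - 10 * i.val) (10 * i.val - (x.val : ℤ)))
        (2 * (10 * K + 2) - ((y.val : ℤ) + 1) + (if x.val = 10 * j.val then 1 else 0))
    | Sum.inr (Sum.inl (l, x)) =>
        if l = i then max ((x.val : ℤ) - y.val) ((y.val : ℤ) - x.val)
        else if l = j then
          (if x.val < z.val then
            min ((y.val : ℤ) + 1 + D) (2 * (10 * K + 2) - ((y.val : ℤ) + 1) + 1) + (x.val + 1)
          else 10 * K + 2 - ((y.val : ℤ) + 1) + (10 * K + 2 - ((x.val : ℤ) + 1)))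
        else min (10 * K + 2 - ((y.val : ℤ) + 1) + (10 * K + 2 - ((x.val : ℤ) + 1)))
          ((y.val : ℤ) + 1 + max (10 * (l.val : ℤ) - 10 * i.val) (10 * i.val - 10 * (l.val : ℤ))
            + (x.val + 1))
    | Sum.inr (Sum.inr _) => 10 * K + 2 - ((y.val : ℤ) + 1) with hf
  have frim : ∀ x : Fin (10 * K + 1), f (rim x) =
      min ((y.val : ℤ) + 1 + max ((x.val : ℤ) - 10 * i.val) (10 * i.val - (x.val : ℤ)))
        (2 * (10 * K + 2) - ((y.val : ℤ) + 1) + (if x.val = 10 * j.val then 1 else 0)) :=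
    fun _ => rfl
  have fsp : ∀ (l : Fin (K + 1)) (x : Fin (10 * K + 1)), f (sp l x) =
      if l = i then max ((x.val : ℤ) - y.val) ((y.val : ℤ) - x.val)
        else if l = j then
          (if x.val < z.val then
            min ((y.val : ℤ) + 1 + D) (2 * (10 * K + 2) - ((y.val : ℤ) + 1) + 1) + (x.val + 1)
          else 10 * K + 2 - ((y.val : ℤ) + 1) + (10 * K + 2 - ((x.val : ℤ) + 1)))
        else min (10 * K + 2 - ((y.val : ℤ) + 1) + (10 * K + 2 - ((x.val : ℤ) + 1)))
          ((y.val : ℤ) + 1 + max (10 * (l.val : ℤ) - 10 * i.val) (10 * i.val - 10 * (l.val : ℤ))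
            + (x.val + 1)) := fun _ _ => rfl
  have fhub : f (hub K) = 10 * K + 2 - ((y.val : ℤ) + 1) := rfl
  have hne : ∀ (l : Fin (K + 1)) (x : Fin (10 * K + 1)), sp l x ≠ sp j z → l = j →
      x.val ≠ z.val := by
    intro l x h hl hx
    apply h
    rw [hl, Fin.ext hx]
  have hval : ∀ l l' : Fin (K + 1), l ≠ l' → l.val ≠ l'.val := fun l l' h h' => h (Fin.ext h')
  clear_value f
  have hlip : ∀ a b, (G K).Adj a b → a ≠ sp j z → b ≠ sp j z → f b ≤ f a + 1 := by
    apply lip_of
    · intro x x' hx _ _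
      rw [frim, frim]
      constructor
      · split_ifs <;> omega
      · split_ifs <;> omega
    · intro x l w hx hw _ hn
      rw [frim, fsp]
      have hl := l.isLt
      by_cases hli : l = i
      · subst hli
        rw [if_pos rfl]
        constructor
        · split_ifs <;> omega
        · split_ifs <;> omega
      · rw [if_neg hli]
        by_cases hlj : l = j
        · have := hne l w hn hlj
          subst hlj
          rw [if_pos rfl, if_pos hx, if_pos (by omega)]
          constructor <;> omega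
        · rw [if_neg hlj, if_neg (by have := hval l j hlj; omega)]
          constructor <;> omega
    · intro l w w' hw hn hn'
      rw [fsp, fsp]
      have hwl := w.isLt
      have hwl' := w'.isLt
      by_cases hli : l = i
      · rw [if_pos hli, if_pos hli]
        constructor <;> omega
      · rw [if_neg hli, if_neg hli]
        by_cases hlj : l = j
        · have := hne l w hn hlj
          have := hne l w' hn' hlj
          rw [if_pos hlj, if_pos hlj]
          constructor
          · split_ifs <;> omega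
          · split_ifs <;> omega
        · rw [if_neg hlj, if_neg hlj]
          constructor <;> omega
    · intro l w hw hn _
      rw [fsp, fhub]
      have hl := l.isLt
      by_cases hli : l = i
      · rw [if_pos hli]
        constructor <;> omega
      · rw [if_neg hli]
        by_cases hlj : l = j
        · have := hne l w hn hlj
          rw [if_pos hlj, if_neg (by omega)]
          constructor <;> omega
        · rw [if_neg hlj]
          constructor <;> omega
  have hfs : f (sp i y) = 0 := by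
    rw [fsp, if_pos rfl]
    omega
  -- the two routes
  have up : ∀ n, n ≤ 10 * K + 2 - (z.val + 1) →
      ∃ w : (G K).Walk (sp i y) (pt K j (z.val + 1 + n)),
        w.length = (10 * K + 2 - (y.val + 1)) + (10 * K + 2 - (z.val + 1 + n)) := by
    intro n hn
    have w1 := pt_walk K i (y.val + 1) (10 * K + 2 - (y.val + 1)) (by omega)
    rw [pt_sp, pt_top K i _ (by omega)] at w1
    have w2 := pt_walk K j (z.val + 1 + n) (10 * K + 2 - (z.val + 1 + n)) (by omega)
    rw [pt_top K j (z.val + 1 + n + _) (by omega)] at w2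
    exact walk_trans w1 (walk_symm w2)
  have up' : ∃ w : (G K).Walk (sp i y) (pt K j z.val),
        w.length = (10 * K + 2 - (y.val + 1)) + (10 * K + 2 - z.val) := by
    have w1 := pt_walk K i (y.val + 1) (10 * K + 2 - (y.val + 1)) (by omega)
    rw [pt_sp, pt_top K i _ (by omega)] at w1
    have w2 := pt_walk K j z.val (10 * K + 2 - z.val) (by omega)
    rw [pt_top K j (z.val + _) (by omega)] at w2
    exact walk_trans w1 (walk_symm w2)
  have down : ∃ w : (G K).Walk (sp i y) (pt K j (z.val + 2)),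
        w.length = (y.val + 1) + D + (z.val + 2) := by
    have w1 := pt_walk K i 0 (y.val + 1) (by omega)
    rw [zero_add, pt_sp, pt_zero] at w1
    have w2 := pt_walk K j 0 (z.val + 2) (by omega)
    rw [zero_add, pt_zero] at w2
    have w3 : ∃ w : (G K).Walk (rim ⟨10 * i.val, by omega⟩) (rim ⟨10 * j.val, by omega⟩),
        w.length = D := by
      rcases Nat.lt_or_ge i.val j.val with h | h
      · apply rim_walk'
        show 10 * j.val = 10 * i.val + D
        omega
      · apply walk_symm
        apply rim_walk'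
        show 10 * i.val = 10 * j.val + D
        omega
    exact walk_trans (walk_trans (walk_symm w1) w3) w2
  have hne1 : sp j z ≠ sp i y := by
    intro h
    simp only [Sum.inr.injEq, Sum.inl.injEq, Prod.mk.injEq] at h
    exact hij h.1.symm
  have hne2 : ∀ h, h ≠ z.val + 1 → sp j z ≠ pt K j h := by
    intro h hh he
    unfold pt at he
    split_ifs at he with h0 h1
    · simp only [Sum.inr.injEq, Sum.inl.injEq, Prod.mk.injEq] at he
      have := congrArg Fin.val he.2
      simp only at this
      omega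
    · simp at he
  constructor
  · -- otherwise the lower route is much shorter
    by_contra hcon
    push Not at hcon
    have fw : f (pt K j (z.val + 2)) =
        10 * K + 2 - ((y.val : ℤ) + 1) + (10 * K + 2 - ((z.val : ℤ) + 2)) := by
      by_cases h : z.val = 10 * K
      · rw [pt_top K j _ (by omega), fhub, h]
        push_cast
        ring
      · have e : pt K j (z.val + 1 + 1) = sp j ⟨z.val + 1, by omega⟩ :=
          pt_sp K j ⟨z.val + 1, by omega⟩
        rw [show z.val + 2 = z.val + 1 + 1 from rfl, e, fsp, if_neg hij.symm, if_pos rfl,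
          if_neg (by simp)]
        push_cast
        ring
    refine conflict hS (sp i y) (sp j z) (pt K j (z.val + 2)) f ((y.val + 1) + D + (z.val + 2))
      hlip (dist_le_of_walk down) ?_ h1 h2 hne1 (hne2 _ (by omega))
    rw [hfs, fw]
    push_cast
    omega
  · by_contra hcon
    push Not at hcon
    have fw : f (pt K j z.val) =
        min ((y.val : ℤ) + 1 + D) (2 * (10 * K + 2) - ((y.val : ℤ) + 1) + 1) + z.val := by
      by_cases h : z.val = 0
      · rw [h, pt_zero, frim, if_pos rfl]
        push_cast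
        omega
      · have e : pt K j (z.val - 1 + 1) = sp j ⟨z.val - 1, by omega⟩ :=
          pt_sp K j ⟨z.val - 1, by omega⟩
        rw [show z.val - 1 + 1 = z.val by omega] at e
        rw [e, fsp, if_neg hij.symm, if_pos rfl, if_pos (by show z.val - 1 < z.val; omega)]
        show _ + (((z.val - 1 : ℕ) : ℤ) + 1) = _
        omega
    refine conflict hS (sp i y) (sp j z) (pt K j z.val) f
      ((10 * K + 2 - (y.val + 1)) + (10 * K + 2 - z.val))
      hlip (dist_le_of_walk up') ?_ h1 h2 hne1 (hne2 _ (by omega))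
    rw [hfs, fw]
    omega

/-! ### Counting -/

theorem rim_count (K : ℕ) (S : Finset (Vx K)) (hS : OuterMV (G K) S) :
    S.toLeft.card ≤ 2 := by
  by_contra h
  push Not at h
  rw [Finset.two_lt_card] at h
  obtain ⟨a, ha, b, hb, c, hc, hab, hac, hbc⟩ := h
  rw [Finset.mem_toLeft] at ha hb hc
  have key : ∀ p q : Fin (10 * K + 1), Sum.inl p ∈ S → Sum.inl q ∈ S → p.val < q.val →
      p.val = 0 ∧ q.val = 10 * K := by
    intro p q hp hq hlt
    have hq' := q.isLt
    constructor
    · by_contra h0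
      exact rim_left K S hS p q hlt (by omega) hp hq
    · by_contra h0
      exact rim_right K S hS p q hlt (by omega) hp hq
  have hab' : a.val ≠ b.val := fun h => hab (Fin.ext h)
  have hac' : a.val ≠ c.val := fun h => hac (Fin.ext h)
  have hbc' : b.val ≠ c.val := fun h => hbc (Fin.ext h)
  rcases Nat.lt_or_gt_of_ne hab' with h1 | h1 <;> rcases Nat.lt_or_gt_of_ne hac' with h2 | h2 <;>
    rcases Nat.lt_or_gt_of_ne hbc' with h3 | h3
  · have := key _ _ ha hb h1; have := key _ _ hb hc h3; omega
  · have := key _ _ ha hb h1; have := key _ _ hc hb h3; have := key _ _ ha hc h2; omega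
  · omega
  · have := key _ _ ha hb h1; have := key _ _ hc ha h2; omega
  · have := key _ _ hb ha h1; have := key _ _ ha hc h2; omega
  · omega
  · have := key _ _ hb ha h1; have := key _ _ hc ha h2; have := key _ _ hb hc h3; omega
  · have := key _ _ hb ha h1; have := key _ _ hc ha h2; have := key _ _ hc hb h3; omega

theorem spoke_count (K : ℕ) (S : Finset (Vx K)) (hS : OuterMV (G K) S) :
    S.toRight.toLeft.card ≤ 3 := by
  by_contra h
  push Not at h
  set T := S.toRight.toLeft with hT
  have hmem : ∀ x ∈ T, sp x.1 x.2 ∈ S := by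
    intro x hx
    rw [hT, Finset.mem_toLeft, Finset.mem_toRight] at hx
    exact hx
  have hinj : Set.InjOn Prod.fst (T : Set (Fin (K + 1) × Fin (10 * K + 1))) := by
    rintro ⟨i, y⟩ h1 ⟨j, z⟩ h2 hij
    simp only at hij
    subst hij
    have h3 := hmem _ h1
    have h4 := hmem _ h2
    simp only at h3 h4
    rcases Nat.lt_trichotomy y.val z.val with h | h | h
    · exact (same_spoke K S hS i y z h h3 h4).elim
    · rw [Fin.ext h]
    · exact (same_spoke K S hS i z y h h4 h3).elim
  have hcard : (T.image Prod.fst).card = T.card := Finset.card_image_of_injOn hinj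
  set e := (T.image Prod.fst).orderEmbOfFin hcard with he
  have hget : ∀ n : Fin T.card, ∃ y, sp (e n) y ∈ S := by
    intro n
    have : e n ∈ T.image Prod.fst := Finset.orderEmbOfFin_mem _ hcard n
    rw [Finset.mem_image] at this
    obtain ⟨⟨i, y⟩, h1, h2⟩ := this
    refine ⟨y, ?_⟩
    rw [← h2]
    exact hmem _ h1
  have hlt : ∀ n m : Fin T.card, n.val < m.val → (e n).val < (e m).val := by
    intro n m hnm
    have : e n < e m := e.strictMono hnm
    exact this
  obtain ⟨y0, hy0⟩ := hget ⟨0, by omega⟩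
  obtain ⟨y1, hy1⟩ := hget ⟨1, by omega⟩
  obtain ⟨y2, hy2⟩ := hget ⟨2, by omega⟩
  obtain ⟨y3, hy3⟩ := hget ⟨3, by omega⟩
  have l01 := hlt ⟨0, by omega⟩ ⟨1, by omega⟩ (by simp)
  have l12 := hlt ⟨1, by omega⟩ ⟨2, by omega⟩ (by simp)
  have l23 := hlt ⟨2, by omega⟩ ⟨3, by omega⟩ (by simp)
  have b : ∀ n m : Fin T.card, (e n).val < (e m).val → ∀ y z, sp (e n) y ∈ S → sp (e m) z ∈ S →
      2 * (10 * K + 2) ≤ 2 * (y.val + 1) + 2 * (z.val + 1) + 10 * ((e m).val - (e n).val) + 2 ∧
      2 * (y.val + 1) + 2 * (z.val + 1) + 10 * ((e m).val - (e n).val)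
        ≤ 2 * (10 * K + 2) + 2 := by
    intro n m hnm y z h1 h2
    exact spokes_balance K S hS (e n) (e m) y z (fun h => by rw [h] at hnm; omega)
      (10 * ((e m).val - (e n).val)) (by omega) h1 h2
  have b01 := b _ _ l01 _ _ hy0 hy1
  have b02 := b _ _ (l01.trans l12) _ _ hy0 hy2
  have b12 := b _ _ l12 _ _ hy1 hy2
  have b13 := b _ _ (l12.trans l23) _ _ hy1 hy3
  have b23 := b _ _ l23 _ _ hy2 hy3
  omega

theorem muO_G_le (K : ℕ) : muO (G K) ≤ 6 := by
  apply muO_le
  intro S hS
  have h1 := rim_count K S hS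
  have h2 := spoke_count K S hS
  have h3 : S.toRight.toRight.card ≤ 1 := by
    have := Finset.card_le_univ S.toRight.toRight
    simpa using this
  have h4 := Finset.card_toLeft_add_card_toRight (u := S)
  have h5 := Finset.card_toLeft_add_card_toRight (u := S.toRight)
  omega

end X63.WheelMV
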